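import Pool.Agent.Lib.Counters.Defs

/-!
Definitions for the almost sure form of the speed.
-/

namespace Pool.Agent.Counters

open Filter Topology MeasureTheory ProbabilityTheory

/-- The state after `n` steps, started from `x`, when the pairs `ω 0, ω 1, ...` are updated. -/
def run {N : ℕ} (x : Fin N → ℕ) (ω : ℕ → Fin N × Fin N) : ℕ → (Fin N → ℕ)
  | 0 => x
  | (n + 1) => bump (run x ω n) (ω n).1 (ω n).2

/-- `v` is the long-run average number of counters increased per step: whenever the pairs
`p 0, p 1, ...` are independent and uniformly distributed on the unordered pairs of distinct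
counters, then from every initial state `x` almost surely (number of increases in the first `n`
steps) / `n` tends to `v`. -/
def IsLongRunAverage (N : ℕ) (v : ℝ) : Prop :=
  ∀ (Ω : Type) (_ : MeasurableSpace Ω) (P : Measure Ω) (_ : IsProbabilityMeasure P)
    (p : ℕ → Ω → Fin N × Fin N), (∀ n, Measurable (p n)) → iIndepFun p P →
    (∀ n, ∀ r ∈ pairs N, P {ω | p n ω = r} = ((pairs N).card : ENNReal)⁻¹) →
    ∀ x : Fin N → ℕ, ∀ᵐ ω ∂P, Tendsto
      (fun n : ℕ => ((tot (run x (fun k => p k ω) n) : ℝ) - (tot x : ℝ)) / (n : ℝ)) atTop (𝓝 v)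

end Pool.Agent.Counters
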