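import Pool.Agent.Lib.Counters.Chain

/-!
Chunk D (Drift): one step expectation of the counts and of the variance functional.
-/

namespace Pool.Agent.Counters

open Finset

variable {N : ℕ}

theorem cnt_eq_sum (k : ℕ) (x : Fin N → ℕ) :
    (cnt k x : ℝ) = ∑ l, if k ≤ x l then (1 : ℝ) else 0 := by
  unfold cnt
  rw [Finset.sum_boole]

theorem cnt_bump (x : Fin N → ℕ) (i j : Fin N) (hij : i ≠ j) (k : ℕ) :
    (cnt (k + 1) (bump x i j) : ℝ) = cnt (k + 1) x +
      ((if x i = k ∧ k ≤ x j then 1 else 0) + (if x j = k ∧ k ≤ x i then 1 else 0)) := by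
  rw [cnt_eq_sum, cnt_eq_sum]
  have h : ∀ l : Fin N, (if k + 1 ≤ bump x i j l then (1 : ℝ) else 0) =
      (if k + 1 ≤ x l then (1 : ℝ) else 0) +
        ((if l = i then (if x i = k ∧ k ≤ x j then (1 : ℝ) else 0) else 0) +
         (if l = j then (if x j = k ∧ k ≤ x i then (1 : ℝ) else 0) else 0)) := by
    intro l
    by_cases hli : l = i
    · subst hli
      by_cases h1 : x l ≤ x j
      · by_cases h2 : x l = k
        · have : ¬ (k + 1 ≤ x l) := by omega
          have h3 : k ≤ x j := by omega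
          simp [bump, h1, h2, hij, h3]
        · by_cases h3 : k + 1 ≤ x l
          · have : k + 1 ≤ x l + 1 := by omega
            simp [bump, h1, h2, hij, h3]
            omega
          · have : ¬ (k + 1 ≤ x l + 1) := by omega
            simp [bump, h1, h2, hij, h3]
            omega
      · by_cases h2 : x l = k
        · have h3 : ¬ (k ≤ x j) := by omega
          simp [bump, h1, h2, hij, h3]
        · simp [bump, h1, h2, hij]
    · by_cases hlj : l = j
      · subst hlj
        have hji : l ≠ i := hli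
        by_cases h1 : x l ≤ x i
        · by_cases h2 : x l = k
          · have h3 : k ≤ x i := by omega
            simp [bump, h1, h2, hji, h3]
          · by_cases h3 : k + 1 ≤ x l
            · simp [bump, h1, h2, hji, h3]
              omega
            · simp [bump, h1, h2, hji, h3]
              omega
        · by_cases h2 : x l = k
          · have h3 : ¬ (k ≤ x i) := by omega
            simp [bump, h1, h2, hji, h3]
          · simp [bump, h1, h2, hji]
      · simp [bump, hli, hlj]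
  simp only [h]
  rw [Finset.sum_add_distrib, Finset.sum_add_distrib]
  simp

theorem sum_cnt_bump (k : ℕ) (x : Fin N → ℕ) :
    ∑ p ∈ pairs N, (cnt (k + 1) (bump x p.1 p.2) : ℝ) =
      (pairs N).card * (cnt (k + 1) x : ℝ) +
        ((cnt k x : ℝ) - cnt (k + 1) x) * ((cnt k x : ℝ) - 1) := by
  have h1 : ∑ p ∈ pairs N, (cnt (k + 1) (bump x p.1 p.2) : ℝ) =
      ∑ p ∈ pairs N, ((cnt (k + 1) x : ℝ) +
        ((if x p.1 = k ∧ k ≤ x p.2 then 1 else 0) +
          (if x p.2 = k ∧ k ≤ x p.1 then 1 else 0))) := by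
    refine Finset.sum_congr rfl (fun p hp => ?_)
    have hp' : p.1 < p.2 := by simpa [pairs] using hp
    exact cnt_bump x p.1 p.2 hp'.ne k
  rw [h1, Finset.sum_add_distrib, Finset.sum_const, nsmul_eq_mul]
  congr 1
  have h2 := sum_pairs_symm (N := N) (fun i j => if x i = k ∧ k ≤ x j then (1 : ℝ) else 0)
  rw [h2]
  have h3 : ∀ i : Fin N, (∑ j, if i = j then (0 : ℝ) else if x i = k ∧ k ≤ x j then 1 else 0)
      = (if x i = k then ((cnt k x : ℝ) - 1) else 0) := by
    intro i
    by_cases hi : x i = k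
    · have h4 : ∀ j : Fin N, (if i = j then (0 : ℝ) else if x i = k ∧ k ≤ x j then 1 else 0)
          = (if k ≤ x j then (1 : ℝ) else 0) - (if i = j then 1 else 0) := by
        intro j
        by_cases hij : i = j
        · subst hij
          simp [hi]
        · simp [hij, hi]
      simp only [h4]
      rw [Finset.sum_sub_distrib, ← cnt_eq_sum]
      simp [hi]
    · simp [hi]
  simp only [h3]
  have h5 : ∀ i : Fin N, (if x i = k then ((cnt k x : ℝ) - 1) else 0)
      = ((if k ≤ x i then (1 : ℝ) else 0) - (if k + 1 ≤ x i then 1 else 0)) *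
        ((cnt k x : ℝ) - 1) := by
    intro i
    rcases lt_trichotomy (x i) k with h | h | h
    · have h6 : ¬ (k ≤ x i) := by omega
      have h7 : ¬ (k + 1 ≤ x i) := by omega
      simp [h.ne, h6, h7]
    · have h7 : ¬ (k + 1 ≤ x i) := by omega
      simp [h]
    · have h6 : k ≤ x i := by omega
      have h7 : k + 1 ≤ x i := by omega
      simp [h.ne', h6, h7]
  simp only [h5]
  rw [← Finset.sum_mul, Finset.sum_sub_distrib, ← cnt_eq_sum, ← cnt_eq_sum]

theorem avg_frac (hN : 2 ≤ N) (k : ℕ) (x : Fin N → ℕ) :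
    avg N (frac (k + 1)) x - frac (k + 1) x =
      2 * (frac k x - frac (k + 1) x) * (frac k x - 1 / N) / ((N : ℝ) - 1) := by
  have hN' : (2 : ℝ) ≤ N := by exact_mod_cast hN
  have h1 : (N : ℝ) - 1 ≠ 0 := by linarith
  have h2 : (N : ℝ) ≠ 0 := by linarith
  unfold avg frac
  rw [← Finset.sum_div, sum_cnt_bump, card_pairs]
  field_simp
  ring

theorem frac_zero (hN : 2 ≤ N) (x : Fin N → ℕ) : frac 0 x = 1 := by
  have h2 : (N : ℝ) ≠ 0 := by
    have : (2 : ℝ) ≤ N := by exact_mod_cast hN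
    linarith
  unfold frac cnt
  simp [h2]

theorem frac_nonneg (k : ℕ) (x : Fin N → ℕ) : 0 ≤ frac k x := by
  unfold frac; positivity

theorem frac_le_one (k : ℕ) (x : Fin N → ℕ) : frac k x ≤ 1 := by
  unfold frac
  apply div_le_one_of_le₀ _ (Nat.cast_nonneg _)
  have : cnt k x ≤ N := by
    unfold cnt
    calc _ ≤ (univ : Finset (Fin N)).card := Finset.card_filter_le _ _
      _ = N := by simp
  exact_mod_cast this

theorem frac_anti (x : Fin N → ℕ) {k l : ℕ} (h : k ≤ l) : frac l x ≤ frac k x := by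
  unfold frac
  apply div_le_div_of_nonneg_right _ (Nat.cast_nonneg _)
  have : cnt l x ≤ cnt k x := by
    unfold cnt
    apply Finset.card_le_card
    intro j hj
    simp only [Finset.mem_filter, Finset.mem_univ, true_and] at hj ⊢
    omega
  exact_mod_cast this

theorem frac_mono {x y : Fin N → ℕ} (h : x ≤ y) (k : ℕ) : frac k x ≤ frac k y := by
  unfold frac
  apply div_le_div_of_nonneg_right _ (Nat.cast_nonneg _)
  have : cnt k x ≤ cnt k y := by
    unfold cnt
    apply Finset.card_le_card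
    intro j hj
    simp only [Finset.mem_filter, Finset.mem_univ, true_and] at hj ⊢
    exact hj.trans (h j)
  exact_mod_cast this

theorem frac_bump_le (k : ℕ) (x : Fin N → ℕ) (i j : Fin N) (hij : i ≠ j) :
    frac k (bump x i j) ≤ frac k x + 2 / N := by
  unfold frac
  rw [← add_div]
  apply div_le_div_of_nonneg_right _ (Nat.cast_nonneg _)
  cases k with
  | zero =>
    unfold cnt
    simp
  | succ k =>
    rw [cnt_bump x i j hij k]
    split_ifs <;> linarith

theorem frac_eq_zero (x : Fin N → ℕ) {k : ℕ} (hk : tot x < k) : frac k x = 0 := by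
  unfold frac
  have : cnt k x = 0 := by
    unfold cnt
    rw [Finset.card_eq_zero, Finset.filter_eq_empty_iff]
    intro l _ hl
    have : x l ≤ tot x := Finset.single_le_sum (f := x) (fun _ _ => Nat.zero_le _) (mem_univ l)
    omega
  rw [this]; simp

/-- number of counters not below `l` -/
def rk (x : Fin N → ℕ) (l : Fin N) : ℕ := (univ.filter (fun j => x l ≤ x j)).card

/-- spread functional -/
noncomputable def R (x : Fin N → ℕ) : ℝ :=
  ∑ i, ∑ j, |(rk x i : ℝ) - rk x j| * |(x i : ℝ) - x j|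

/-- variance functional -/
noncomputable def U (x : Fin N → ℕ) : ℝ := (N : ℝ) * ∑ l, (x l : ℝ) ^ 2 - (∑ l, (x l : ℝ)) ^ 2

theorem U_nonneg (x : Fin N → ℕ) : 0 ≤ U x := by
  unfold U
  have := sq_sum_le_card_mul_sum_sq (s := (univ : Finset (Fin N))) (f := fun l => (x l : ℝ))
  simp at this
  linarith

theorem R_nonneg (x : Fin N → ℕ) : 0 ≤ R x := by
  unfold R; positivity

theorem rk_anti (x : Fin N → ℕ) {i j : Fin N} (h : x i ≤ x j) : rk x j ≤ rk x i := by
  unfold rk
  apply Finset.card_le_card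
  intro l hl
  simp only [Finset.mem_filter, Finset.mem_univ, true_and] at hl ⊢
  omega

/-- the correlation identity -/
theorem R_eq (x : Fin N → ℕ) :
    R x = -2 * ∑ l, (rk x l : ℝ) * ((N : ℝ) * x l - ∑ m, (x m : ℝ)) := by
  have h1 : R x = ∑ i, ∑ j, -(((rk x i : ℝ) - rk x j) * ((x i : ℝ) - x j)) := by
    unfold R
    refine Finset.sum_congr rfl (fun i _ => Finset.sum_congr rfl (fun j _ => ?_))
    rw [← abs_mul, abs_of_nonpos]
    rcases le_total (x i) (x j) with h | h
    · have := rk_anti x h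
      have h2 : (rk x j : ℝ) ≤ rk x i := by exact_mod_cast this
      have h3 : (x i : ℝ) ≤ x j := by exact_mod_cast h
      exact mul_nonpos_of_nonneg_of_nonpos (by linarith) (by linarith)
    · have := rk_anti x h
      have h2 : (rk x i : ℝ) ≤ rk x j := by exact_mod_cast this
      have h3 : (x j : ℝ) ≤ x i := by exact_mod_cast h
      exact mul_nonpos_of_nonpos_of_nonneg (by linarith) (by linarith)
  rw [h1]
  have h2 : ∀ i j : Fin N, -(((rk x i : ℝ) - rk x j) * ((x i : ℝ) - x j)) =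
      (-( (rk x i : ℝ) * x i) - (rk x j : ℝ) * x j) + ((rk x i : ℝ) * x j + (rk x j : ℝ) * x i) := by
    intro i j; ring
  simp only [h2, Finset.sum_add_distrib, Finset.sum_sub_distrib, Finset.sum_neg_distrib,
    Finset.sum_const, Finset.card_univ, Fintype.card_fin, nsmul_eq_mul, ← Finset.mul_sum,
    ← Finset.sum_mul]
  simp only [mul_sub, Finset.sum_sub_distrib, ← Finset.sum_mul]
  have h3 : ∑ l, (rk x l : ℝ) * ((N : ℝ) * x l) = (N : ℝ) * ∑ l, (rk x l : ℝ) * x l := by
    rw [Finset.mul_sum]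
    refine Finset.sum_congr rfl (fun l _ => ?_)
    ring
  rw [h3]
  ring

/-- weighted sums over one step -/
theorem sum_weight_bump (x : Fin N → ℕ) (w : Fin N → ℝ) :
    ∑ p ∈ pairs N, ∑ l, w l * ((bump x p.1 p.2 l : ℝ) - x l) =
      ∑ l, ((rk x l : ℝ) - 1) * w l := by
  have h1 : ∀ p ∈ pairs N, ∑ l, w l * ((bump x p.1 p.2 l : ℝ) - x l) =
      (if x p.1 ≤ x p.2 then w p.1 else 0) + (if x p.2 ≤ x p.1 then w p.2 else 0) := by
    intro p hp
    have hp' : p.1 ≠ p.2 := by
      have : p.1 < p.2 := by simpa [pairs] using hp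
      exact this.ne
    have h2 : ∀ l : Fin N, w l * ((bump x p.1 p.2 l : ℝ) - x l) =
        (if l = p.1 then (if x p.1 ≤ x p.2 then w p.1 else 0) else 0) +
        (if l = p.2 then (if x p.2 ≤ x p.1 then w p.2 else 0) else 0) := by
      intro l
      by_cases hl1 : l = p.1
      · subst hl1
        by_cases h : x p.1 ≤ x p.2 <;> simp [bump, h, hp']
      · by_cases hl2 : l = p.2
        · subst hl2
          by_cases h : x p.2 ≤ x p.1 <;> simp [bump, h, hl1]
        · simp [bump, hl1, hl2]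
    simp only [h2]
    rw [Finset.sum_add_distrib]
    simp
  rw [Finset.sum_congr rfl h1]
  have h3 := sum_pairs_symm (N := N) (fun i j => if x i ≤ x j then w i else 0)
  rw [h3]
  refine Finset.sum_congr rfl (fun i _ => ?_)
  have h4 : ∀ j : Fin N, (if i = j then (0 : ℝ) else if x i ≤ x j then w i else 0)
      = (if x i ≤ x j then (1 : ℝ) else 0) * w i - (if i = j then w i else 0) := by
    intro j
    by_cases hij : i = j
    · subst hij; simp
    · by_cases h : x i ≤ x j <;> simp [hij, h]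
  simp only [h4]
  rw [Finset.sum_sub_distrib, ← Finset.sum_mul, Finset.sum_boole]
  simp [rk, sub_mul]

theorem sum_bump_sq (x : Fin N → ℕ) (p : Fin N × Fin N) (hp : p ∈ pairs N) :
    U (bump x p.1 p.2) ≤ U x + 2 * N +
      2 * ∑ l, ((N : ℝ) * x l - ∑ m, (x m : ℝ)) * ((bump x p.1 p.2 l : ℝ) - x l) := by
  have hp' : p.1 ≠ p.2 := by
    have : p.1 < p.2 := by simpa [pairs] using hp
    exact this.ne
  set d : Fin N → ℝ := fun l => (bump x p.1 p.2 l : ℝ) - x l with hd
  have hd01 : ∀ l, d l ^ 2 = d l := by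
    intro l
    simp only [hd, bump]
    split_ifs <;> simp
  have hd0 : ∀ l, 0 ≤ d l := by
    intro l
    rw [← hd01 l]; positivity
  have hdsum : ∑ l, d l ≤ 2 := by
    have h := tot_bump_le x p.1 p.2
    unfold tot at h
    have h' : ((∑ l, bump x p.1 p.2 l : ℕ) : ℝ) ≤ ((∑ l, x l + 2 : ℕ) : ℝ) := by exact_mod_cast h
    push_cast at h'
    simp only [hd]
    rw [Finset.sum_sub_distrib]
    linarith
  have hb : ∀ l, (bump x p.1 p.2 l : ℝ) = x l + d l := by
    intro l; simp [hd]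
  unfold U
  simp only [hb]
  have e1 : ∑ l, ((x l : ℝ) + d l) ^ 2 = ∑ l, (x l : ℝ) ^ 2 + 2 * ∑ l, (x l : ℝ) * d l + ∑ l, d l := by
    rw [Finset.mul_sum, ← Finset.sum_add_distrib, ← Finset.sum_add_distrib]
    refine Finset.sum_congr rfl (fun l _ => ?_)
    have := hd01 l
    nlinarith
  have e2 : ∑ l, ((x l : ℝ) + d l) = ∑ l, (x l : ℝ) + ∑ l, d l := Finset.sum_add_distrib
  have e3 : ∑ l, ((N : ℝ) * x l - ∑ m, (x m : ℝ)) * ((x l : ℝ) + d l - x l) =
      (N : ℝ) * ∑ l, (x l : ℝ) * d l - (∑ m, (x m : ℝ)) * ∑ l, d l := by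
    rw [Finset.mul_sum, Finset.mul_sum, ← Finset.sum_sub_distrib]
    refine Finset.sum_congr rfl (fun l _ => ?_)
    ring
  rw [e1, e2, e3]
  have hs0 : 0 ≤ ∑ l, d l := Finset.sum_nonneg (fun l _ => hd0 l)
  have hN0 : (0 : ℝ) ≤ N := Nat.cast_nonneg _
  nlinarith [mul_nonneg hN0 hs0, sq_nonneg (∑ l, d l)]

theorem avg_U (hN : 2 ≤ N) (x : Fin N → ℕ) :
    avg N U x ≤ U x + 2 * N - 2 / ((N : ℝ) * ((N : ℝ) - 1)) * R x := by
  have hN' : (2 : ℝ) ≤ N := by exact_mod_cast hN
  have hc := card_pairs_pos hN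
  have h1 : avg N U x ≤ avg N (fun y => U x + 2 * N +
      2 * ∑ l, ((N : ℝ) * x l - ∑ m, (x m : ℝ)) * ((y l : ℝ) - x l)) x := by
    unfold avg
    apply div_le_div_of_nonneg_right _ (Nat.cast_nonneg _)
    exact Finset.sum_le_sum (fun p hp => sum_bump_sq x p hp)
  refine h1.trans ?_
  rw [avg_add (fun _ => U x + 2 * (N : ℝ)), avg_const hN, avg_mul_left]
  have h2 : avg N (fun y => ∑ l, ((N : ℝ) * x l - ∑ m, (x m : ℝ)) * ((y l : ℝ) - x l)) x
      = (∑ l, ((rk x l : ℝ) - 1) * ((N : ℝ) * x l - ∑ m, (x m : ℝ))) / (pairs N).card := by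
    unfold avg
    rw [sum_weight_bump x (fun l => (N : ℝ) * x l - ∑ m, (x m : ℝ))]
  rw [h2]
  have h3 : ∑ l, ((rk x l : ℝ) - 1) * ((N : ℝ) * x l - ∑ m, (x m : ℝ)) = -(R x) / 2 := by
    have h4 := R_eq x
    have h5 : ∑ l : Fin N, ((N : ℝ) * x l - ∑ m, (x m : ℝ)) = 0 := by
      rw [Finset.sum_sub_distrib, ← Finset.mul_sum]
      simp
    have h6 : ∀ l : Fin N, ((rk x l : ℝ) - 1) * ((N : ℝ) * x l - ∑ m, (x m : ℝ)) =
        (rk x l : ℝ) * ((N : ℝ) * x l - ∑ m, (x m : ℝ)) - ((N : ℝ) * x l - ∑ m, (x m : ℝ)) := by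
      intro l; ring
    simp only [h6]
    rw [Finset.sum_sub_distrib, h5]
    linarith
  rw [h3, card_pairs]
  have h7 : (N : ℝ) - 1 ≠ 0 := by linarith
  have h8 : (N : ℝ) ≠ 0 := by linarith
  apply le_of_eq
  field_simp
  ring

/-- time-averaged bound for the spread, started from `0` -/
theorem sum_R_iter_U (hN : 2 ≤ N) (n : ℕ) :
    (avg N)^[n] U (fun _ => 0) + 2 / ((N : ℝ) * ((N : ℝ) - 1)) *
      ∑ s ∈ range n, (avg N)^[s] R (fun _ => 0) ≤ 2 * N * n := by
  induction n with
  | zero =>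
    simp [U]
  | succ n ih =>
    rw [Finset.sum_range_succ, iter_succ']
    have h1 : (avg N)^[n] (avg N U) (fun _ => 0) ≤
        (avg N)^[n] (fun y => (U y + 2 * (N : ℝ)) - 2 / ((N : ℝ) * ((N : ℝ) - 1)) * R y)
          (fun _ => 0) := iter_mono (fun y => avg_U hN y) n _
    rw [iter_sub, iter_add, iter_const hN, iter_mul_left] at h1
    push_cast
    linarith

theorem sum_R_le (hN : 2 ≤ N) (n : ℕ) :
    ∑ s ∈ range n, (avg N)^[s] R (fun _ => 0) ≤ n * (N : ℝ) ^ 3 := by
  have hN' : (2 : ℝ) ≤ N := by exact_mod_cast hN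
  have h := sum_R_iter_U hN n
  have h0 : 0 ≤ (avg N)^[n] U (fun _ : Fin N => 0) := by
    have := iter_mono (N := N) (φ := fun _ => (0 : ℝ)) (ψ := U) (fun y => U_nonneg y) n (fun _ => 0)
    rwa [iter_const hN] at this
  have h1 : 2 / ((N : ℝ) * ((N : ℝ) - 1)) *
      ∑ s ∈ range n, (avg N)^[s] R (fun _ => 0) ≤ 2 * N * n := by linarith
  have h2 : (0 : ℝ) < (N : ℝ) * ((N : ℝ) - 1) := by
    have : (0 : ℝ) < (N : ℝ) - 1 := by linarith
    positivity
  rw [div_mul_eq_mul_div, div_le_iff₀ h2] at h1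
  have h3 : (N : ℝ) * n * ((N : ℝ) * ((N : ℝ) - 1)) ≤ n * (N : ℝ) ^ 3 := by
    have hn : (0 : ℝ) ≤ n := Nat.cast_nonneg _
    nlinarith [mul_nonneg hn (mul_nonneg (by linarith : (0:ℝ) ≤ N) (by linarith : (0:ℝ) ≤ N))]
  nlinarith

/-- second moment bound, started from `0` -/
theorem iter_U_le (hN : 2 ≤ N) (n : ℕ) :
    (avg N)^[n] U (fun _ => 0) ≤ 2 * N * n := by
  have hN' : (2 : ℝ) ≤ N := by exact_mod_cast hN
  have h := sum_R_iter_U hN n
  have h0 : 0 ≤ ∑ s ∈ range n, (avg N)^[s] R (fun _ : Fin N => 0) := by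
    apply Finset.sum_nonneg
    intro s _
    have := iter_mono (N := N) (φ := fun _ => (0 : ℝ)) (ψ := R) (fun y => R_nonneg y) s (fun _ => 0)
    rwa [iter_const hN] at this
  have h2 : (0 : ℝ) ≤ 2 / ((N : ℝ) * ((N : ℝ) - 1)) := by
    have : (0 : ℝ) < (N : ℝ) - 1 := by linarith
    positivity
  nlinarith [mul_nonneg h2 h0]

end Pool.Agent.Counters
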