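import Pool.Agent.Lib.Counters.Quant

/-!
Chunk X (Exist): existence of the speed, and its expression through `Q`.

* `mx x` = maximal value.  `a n = E_0[mx]` after `n` steps is subadditive: if `φ` is monotone and
  `φ (x + c) = φ x + c` then `avg N φ` has the same two properties (`bump` is monotone in `x` for fixed
  `(i,j)` and commutes with adding a constant), so `P^m mx x ≤ mx x + P^m mx 0`, and
  `a (n+m) = P^n (P^m mx) 0 ≤ a n + a m`.  `Subadditive.tendsto_lim` gives `a n / n → w`.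
* `(mx - mn)² ≤ 2 U / N` (`∑ (x_l - S/N)² = U/N`), so `E (mx - mn) ≤ √(4 n)` by `iter_U_le` and
  Cauchy-Schwarz (`E φ ≤ √(E φ²)`); `N mn ≤ tot ≤ N mx` and `mn ≤ Q a b ≤ mx`.
* other starting points: `0 ≤ x ≤ mx x` and monotonicity.
-/

namespace Pool.Agent.Counters

open Finset Filter Topology

variable {N : ℕ}

/-- monotone functionals -/
def Mon (φ : (Fin N → ℕ) → ℝ) : Prop := ∀ x y, x ≤ y → φ x ≤ φ y

/-- functionals with `φ (x + c) = φ x + κ c` -/
def Shf (κ : ℝ) (φ : (Fin N → ℕ) → ℝ) : Prop :=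
  ∀ x (c : ℕ), φ (fun l => x l + c) = φ x + κ * c

theorem bump_mono {x y : Fin N → ℕ} (h : x ≤ y) (i j : Fin N) : bump x i j ≤ bump y i j := by
  intro l
  have hi : x i ≤ y i := h i
  have hj : x j ≤ y j := h j
  have hl : x l ≤ y l := h l
  simp only [bump]
  by_cases h1 : (l = i ∧ x i ≤ x j) ∨ (l = j ∧ x j ≤ x i)
  · rw [if_pos h1]
    by_cases h2 : (l = i ∧ y i ≤ y j) ∨ (l = j ∧ y j ≤ y i)
    · rw [if_pos h2]; omega
    · rw [if_neg h2]
      push Not at h2
      rcases h1 with ⟨rfl, h1⟩ | ⟨rfl, h1⟩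
      · have := h2.1 rfl
        omega
      · have := h2.2 rfl
        omega
  · rw [if_neg h1]
    split_ifs <;> omega

theorem bump_shift (x : Fin N → ℕ) (c : ℕ) (i j : Fin N) :
    bump (fun l => x l + c) i j = fun l => bump x i j l + c := by
  funext l
  simp only [bump, add_le_add_iff_right]
  split_ifs <;> omega

theorem mon_avg {φ : (Fin N → ℕ) → ℝ} (h : Mon φ) : Mon (avg N φ) := by
  intro x y hxy
  unfold avg
  apply div_le_div_of_nonneg_right _ (Nat.cast_nonneg _)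
  exact Finset.sum_le_sum fun p _ => h _ _ (bump_mono hxy p.1 p.2)

theorem shf_avg (hN : 2 ≤ N) {κ : ℝ} {φ : (Fin N → ℕ) → ℝ} (h : Shf κ φ) : Shf κ (avg N φ) := by
  intro x c
  have h1 : avg N φ (fun l => x l + c) =
      avg N (fun y => φ y + κ * c) x := by
    unfold avg
    congr 1
    refine Finset.sum_congr rfl fun p _ => ?_
    rw [bump_shift, h]
  rw [h1, avg_add φ (fun _ => κ * c), avg_const hN]

theorem mon_iter {φ : (Fin N → ℕ) → ℝ} (h : Mon φ) (n : ℕ) : Mon ((avg N)^[n] φ) := by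
  induction n with
  | zero => exact h
  | succ n ih =>
    rw [Function.iterate_succ_apply']
    exact mon_avg ih

theorem shf_iter (hN : 2 ≤ N) {κ : ℝ} {φ : (Fin N → ℕ) → ℝ} (h : Shf κ φ) (n : ℕ) :
    Shf κ ((avg N)^[n] φ) := by
  induction n with
  | zero => exact h
  | succ n ih =>
    rw [Function.iterate_succ_apply']
    exact shf_avg hN ih

/-- maximal value -/
def mx (x : Fin N → ℕ) : ℕ := univ.sup x

theorem le_mx (x : Fin N → ℕ) (l : Fin N) : x l ≤ mx x := Finset.le_sup (Finset.mem_univ l)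

theorem mx_le {x : Fin N → ℕ} {c : ℕ} (h : ∀ l, x l ≤ c) : mx x ≤ c :=
  Finset.sup_le fun l _ => h l

theorem mx_mon : Mon (fun x : Fin N → ℕ => (mx x : ℝ)) := by
  intro x y h
  have h1 : mx x ≤ mx y := mx_le fun l => (h l).trans (le_mx y l)
  exact Nat.cast_le.2 h1

theorem exists_mx (hN : 2 ≤ N) (x : Fin N → ℕ) : ∃ l, x l = mx x := by
  have hne : (univ : Finset (Fin N)).Nonempty := ⟨⟨0, by omega⟩, Finset.mem_univ _⟩
  obtain ⟨l, _, hl⟩ := Finset.exists_mem_eq_sup univ hne x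
  exact ⟨l, hl.symm⟩

theorem mx_shf (hN : 2 ≤ N) : Shf 1 (fun x : Fin N → ℕ => (mx x : ℝ)) := by
  intro x c
  have h : mx (fun l => x l + c) = mx x + c := by
    apply le_antisymm
    · exact mx_le fun l => by have := le_mx x l; omega
    · obtain ⟨l, hl⟩ := exists_mx hN x
      rw [← hl]
      exact le_mx (fun l => x l + c) l
  simp only [h, one_mul]
  push_cast
  ring

theorem tot_mon : Mon (fun x : Fin N → ℕ => (tot x : ℝ)) := by
  intro x y h
  exact Nat.cast_le.2 (tot_mono h)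

theorem tot_shf : Shf (N : ℝ) (fun x : Fin N → ℕ => (tot x : ℝ)) := by
  intro x c
  simp only [tot]
  rw [Finset.sum_add_distrib]
  simp

/-- comparison with the start at `0` -/
theorem iter_le_zero (hN : 2 ≤ N) {κ : ℝ} {φ : (Fin N → ℕ) → ℝ} (hm : Mon φ) (hs : Shf κ φ)
    (n : ℕ) (x : Fin N → ℕ) :
    (avg N)^[n] φ x ≤ (avg N)^[n] φ (fun _ => 0) + κ * mx x := by
  have h1 := mon_iter hm n x (fun _ => 0 + mx x) (fun l => by simpa using le_mx x l)
  rwa [shf_iter hN hs n (fun _ => 0) (mx x)] at h1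

theorem zero_le_iter {φ : (Fin N → ℕ) → ℝ} (hm : Mon φ)
    (n : ℕ) (x : Fin N → ℕ) :
    (avg N)^[n] φ (fun _ => 0) ≤ (avg N)^[n] φ x :=
  mon_iter hm n (fun _ => 0) x (fun l => Nat.zero_le _)

theorem ex_iter_nonneg (hN : 2 ≤ N) {φ : (Fin N → ℕ) → ℝ} (h : ∀ y, 0 ≤ φ y) (n : ℕ)
    (x : Fin N → ℕ) : 0 ≤ (avg N)^[n] φ x := by
  have := iter_mono (φ := fun _ => (0 : ℝ)) (ψ := φ) h n x
  rwa [iter_const hN] at this

theorem mx_sub (hN : 2 ≤ N) :
    Subadditive (fun n : ℕ => (avg N)^[n] (fun x => (mx x : ℝ)) (fun _ => 0)) := by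
  intro n m
  show (avg N)^[n + m] (fun x => (mx x : ℝ)) (fun _ => 0) ≤ _
  rw [← iter_iter]
  have h1 : ∀ y : Fin N → ℕ, (avg N)^[m] (fun x => (mx x : ℝ)) y ≤
      (mx y : ℝ) + (avg N)^[m] (fun x => (mx x : ℝ)) (fun _ => 0) := by
    intro y
    have := iter_le_zero hN mx_mon (mx_shf hN) m y
    rw [one_mul] at this
    linarith
  refine (iter_mono h1 n _).trans ?_
  rw [iter_add (fun y => (mx y : ℝ))
    (fun _ => (avg N)^[m] (fun x => (mx x : ℝ)) (fun _ => 0)), iter_const hN]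

theorem mx_lim (hN : 2 ≤ N) : ∃ w : ℝ,
    Tendsto (fun n : ℕ => (avg N)^[n] (fun x => (mx x : ℝ)) (fun _ => 0) / n) atTop (𝓝 w) := by
  refine ⟨(mx_sub hN).lim, (mx_sub hN).tendsto_lim ⟨0, ?_⟩⟩
  rintro _ ⟨n, rfl⟩
  have := ex_iter_nonneg hN (φ := fun x => (mx x : ℝ)) (fun y => Nat.cast_nonneg _) n (fun _ => 0)
  positivity

/-- deviation bound -/
theorem dev (hN : 2 ≤ N) (x : Fin N → ℕ) (l m : Fin N) :
    ((x m : ℝ) - x l) ^ 2 ≤ 2 * U x / N := by
  have hN0 : (0 : ℝ) < N := by exact_mod_cast (by omega : 0 < N)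
  set S : ℝ := ∑ l, (x l : ℝ) with hS
  have h1 : ∑ l, ((N : ℝ) * x l - S) ^ 2 = N * U x := by
    have h2 : ∀ l, ((N : ℝ) * x l - S) ^ 2 =
        (N : ℝ) ^ 2 * (x l : ℝ) ^ 2 - 2 * N * S * x l + S ^ 2 := by
      intro l; ring
    simp only [h2, Finset.sum_add_distrib, Finset.sum_sub_distrib, ← Finset.mul_sum, ← hS]
    unfold U
    rw [← hS]
    simp
    ring
  rcases eq_or_ne l m with h | h
  · subst h
    have := U_nonneg x
    rw [sub_self, zero_pow (by norm_num)]
    positivity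
  · have h3 : ((N : ℝ) * x l - S) ^ 2 + ((N : ℝ) * x m - S) ^ 2 ≤ N * U x := by
      rw [← h1, ← Finset.sum_pair (f := fun l => ((N : ℝ) * x l - S) ^ 2) h]
      exact Finset.sum_le_sum_of_subset_of_nonneg (Finset.subset_univ _)
        fun _ _ _ => sq_nonneg _
    rw [le_div_iff₀ hN0]
    have h4 : (N : ℝ) * (((x m : ℝ) - x l) ^ 2 * N) ≤ N * (2 * U x) := by
      nlinarith [sq_nonneg (((N : ℝ) * x l - S) + ((N : ℝ) * x m - S))]
    exact le_of_mul_le_mul_left h4 hN0

/-- the deviation -/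
noncomputable def Dv (x : Fin N → ℕ) : ℝ := Real.sqrt (2 * U x / N)

theorem mx_le_dev (hN : 2 ≤ N) (x : Fin N → ℕ) (l : Fin N) : (mx x : ℝ) - Dv x ≤ x l := by
  obtain ⟨m, hm⟩ := exists_mx hN x
  rw [← hm]
  have h := Real.le_sqrt_of_sq_le (dev hN x l m)
  unfold Dv
  linarith

theorem Dv_nonneg (x : Fin N → ℕ) : 0 ≤ Dv x := Real.sqrt_nonneg _

theorem iter_Dv (hN : 2 ≤ N) {n : ℕ} (hn : 0 < n) :
    (avg N)^[n] Dv (fun _ => 0) ≤ 2 * Real.sqrt n := by
  have hN0 : (0 : ℝ) < N := by exact_mod_cast (by omega : 0 < N)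
  have hn0 : (0 : ℝ) < n := by exact_mod_cast hn
  set r : ℝ := Real.sqrt n with hr
  have hr0 : 0 < r := Real.sqrt_pos.2 hn0
  have hr2 : r ^ 2 = n := Real.sq_sqrt hn0.le
  have h1 : ∀ y : Fin N → ℕ, Dv y ≤ (1 / (2 * N * r)) * U y + r := by
    intro y
    have hU := U_nonneg y
    have h2 : Dv y ^ 2 = 2 * U y / N := Real.sq_sqrt (by positivity)
    have h3 : 2 * (2 * r) * Dv y ≤ Dv y ^ 2 + (2 * r) ^ 2 := by
      nlinarith [sq_nonneg (Dv y - 2 * r)]
    rw [h2] at h3
    have h4 : (4 * r) * ((1 / (2 * N * r)) * U y + r) = 2 * U y / N + (2 * r) ^ 2 := by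
      field_simp
      ring
    have h5 : (4 * r) * Dv y ≤ (4 * r) * ((1 / (2 * N * r)) * U y + r) := by
      rw [h4]; linarith
    exact le_of_mul_le_mul_left h5 (by positivity)
  refine (iter_mono h1 n _).trans ?_
  rw [iter_add (fun y => (1 / (2 * N * r)) * U y) (fun _ => r), iter_const hN, iter_mul_left]
  have h2 := iter_U_le hN n
  have h3 : 1 / (2 * N * r) * (avg N)^[n] U (fun _ => 0) ≤ 1 / (2 * N * r) * (2 * N * n) := by
    gcongr
  have h4 : 1 / (2 * N * r) * (2 * N * n) = r := by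
    rw [← hr2]
    field_simp
  linarith

theorem sqrt_div_tendsto : Tendsto (fun n : ℕ => 2 * Real.sqrt n / (n : ℝ)) atTop (𝓝 0) := by
  have h1 : Tendsto (fun n : ℕ => (Real.sqrt n)⁻¹) atTop (𝓝 0) :=
    tendsto_inv_atTop_zero.comp (Real.tendsto_sqrt_atTop.comp tendsto_natCast_atTop_atTop)
  have h2 : (fun n : ℕ => 2 * Real.sqrt n / (n : ℝ)) = fun n : ℕ => 2 * (Real.sqrt n)⁻¹ := by
    funext n
    rw [mul_div_assoc, Real.sqrt_div_self]
  rw [h2]
  simpa using h1.const_mul 2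

/-- functionals between `κ (mx - Dv)` and `κ mx` have the same speed -/
theorem speed_of (hN : 2 ≤ N) {w κ : ℝ} (hκ : 0 ≤ κ)
    (hw : Tendsto (fun n : ℕ => (avg N)^[n] (fun x => (mx x : ℝ)) (fun _ => 0) / n) atTop (𝓝 w))
    {φ : (Fin N → ℕ) → ℝ} (h1 : ∀ y, φ y ≤ κ * mx y) (h2 : ∀ y, κ * (mx y - Dv y) ≤ φ y) :
    Tendsto (fun n : ℕ => (avg N)^[n] φ (fun _ => 0) / n) atTop (𝓝 (κ * w)) := by
  have hup := hw.const_mul κ
  have hlo := (hw.sub sqrt_div_tendsto).const_mul κ
  rw [sub_zero] at hlo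
  refine tendsto_of_tendsto_of_tendsto_of_le_of_le' hlo hup ?_ ?_
  · filter_upwards [eventually_gt_atTop 0] with n hn
    have hn0 : (0 : ℝ) < n := by exact_mod_cast hn
    have h3 := iter_mono h2 n (fun _ => 0)
    rw [iter_mul_left, iter_sub (fun y => (mx y : ℝ)) Dv] at h3
    have h4 := iter_Dv hN hn
    rw [← sub_div, ← mul_div_assoc]
    apply div_le_div_of_nonneg_right _ hn0.le
    refine le_trans ?_ h3
    gcongr
  · filter_upwards [eventually_gt_atTop 0] with n hn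
    have hn0 : (0 : ℝ) < n := by exact_mod_cast hn
    have h3 := iter_mono h1 n (fun _ => 0)
    rw [iter_mul_left] at h3
    rw [← mul_div_assoc]
    exact div_le_div_of_nonneg_right h3 hn0.le

/-- the speed exists, and is `N` times the speed of `Q` -/
theorem exists_speed (hN : 2 ≤ N) : ∃ v : ℝ, IsSpeed N v ∧
    ∀ a b : ℝ, 0 < a → a < b → b < 1 →
      Tendsto (fun n : ℕ => (avg N)^[n] (Q a b) (fun _ => 0) / (n : ℝ)) atTop (𝓝 (v / N)) := by
  have hN0 : (0 : ℝ) < N := by exact_mod_cast (by omega : 0 < N)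
  obtain ⟨w, hw⟩ := mx_lim hN
  refine ⟨N * w, ?_, ?_⟩
  · have h0 : Tendsto (fun n : ℕ => (avg N)^[n] (fun y => (tot y : ℝ)) (fun _ => 0) / (n : ℝ))
        atTop (𝓝 (N * w)) := by
      refine speed_of hN hN0.le hw (fun y => ?_) (fun y => ?_)
      · have h1 : tot y ≤ N * mx y := by
          unfold tot
          calc ∑ l, y l ≤ ∑ _l : Fin N, mx y := Finset.sum_le_sum fun l _ => le_mx y l
            _ = N * mx y := by simp
        exact_mod_cast h1
      · have h1 : ∑ _l : Fin N, ((mx y : ℝ) - Dv y) ≤ ∑ l, (y l : ℝ) :=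
          Finset.sum_le_sum fun l _ => mx_le_dev hN y l
        rw [Finset.sum_const, Finset.card_univ, Fintype.card_fin, nsmul_eq_mul] at h1
        unfold tot
        push_cast
        exact h1
    intro x
    have hc : ∀ c : ℝ, Tendsto (fun n : ℕ => c / (n : ℝ)) atTop (𝓝 0) := fun c =>
      tendsto_const_div_atTop_nhds_zero_nat c
    have hlo := h0.add (hc (-(tot x : ℝ)))
    have hup := h0.add (hc (N * mx x - (tot x : ℝ)))
    rw [add_zero] at hlo hup
    refine tendsto_of_tendsto_of_tendsto_of_le_of_le hlo hup (fun n => ?_) (fun n => ?_)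
    · show _ / (n : ℝ) + -(tot x : ℝ) / (n : ℝ) ≤ _
      rw [← add_div]
      apply div_le_div_of_nonneg_right _ (Nat.cast_nonneg _)
      have := zero_le_iter tot_mon n x
      linarith
    · show _ ≤ _ / (n : ℝ) + (N * mx x - (tot x : ℝ)) / (n : ℝ)
      rw [← add_div]
      apply div_le_div_of_nonneg_right _ (Nat.cast_nonneg _)
      have := iter_le_zero hN tot_mon tot_shf n x
      linarith
  · intro a b ha hab hb
    have h1 : (N : ℝ) * w / N = 1 * w := by field_simp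
    rw [h1]
    refine speed_of hN zero_le_one hw (fun y => ?_) (fun y => ?_)
    · rw [one_mul]
      refine Q_le ha hab y ?_
      have h2 : frac (mx y + 1) y = 0 := by
        unfold frac cnt
        rw [Finset.filter_false_of_mem]
        · simp
        · intro l _ hl
          have := le_mx y l
          omega
      rw [h2]
      exact ha.le
    · rw [one_mul]
      have hne : (univ : Finset (Fin N)).Nonempty := ⟨⟨0, by omega⟩, Finset.mem_univ _⟩
      obtain ⟨l, _, hl⟩ := Finset.exists_min_image univ y hne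
      refine (mx_le_dev hN y l).trans (le_Q ha hab y ?_)
      have h2 : frac (y l) y = 1 := by
        unfold frac cnt
        rw [Finset.filter_true_of_mem]
        · simp [hN0.ne']
        · intro m hm
          exact hl m hm
      rw [h2]
      exact hb.le

theorem IsSpeed.unique {v w : ℝ} (hv : IsSpeed N v) (hw : IsSpeed N w) : v = w :=
  tendsto_nhds_unique (hv fun _ => 0) (hw fun _ => 0)

end Pool.Agent.Counters
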