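import Pool.Agent.Lib.Counters.ASDefs
import Pool.Agent.Lib.Counters.Drift
import Pool.Agent.Lib.Counters.Exist

/-!
Chunk A (AlmostSure).

* `E[φ (run x p (n+1))] = E[(avg φ) (run x p n)]` because `run x p n` depends on `p 0 .. p (n-1)` only and
  `p n` is independent of them and uniform on `pairs N`; so `E[φ (run x p n)] = (avg N)^[n] φ x`.
* variance: `V n = (avg N)^[n] (φ²) x - ((avg N)^[n] φ x)² ≤ n N²` for `φ = tot`, by induction:
  `P^{n+1}(φ²) x - (P^{n+1} φ x)² = P[P^n(φ²) - (P^n φ)²](x) + [P((P^n φ)²)(x) - (P (P^n φ) (x))²]`, and the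
  second bracket is at most `N²` because `|P^n φ (bump x i j) - P^n φ (bump x i' j')| ≤ N`: `P^n tot` is
  monotone and commutes with adding a constant, and `x ≤ bump x i j ≤ x + 1`, so all values lie in
  `[P^n φ x, P^n φ x + N]`.
* the sum over `k` of `E ((tot (run (k²)) - E tot (run (k²))) / k²)²` is finite, so the terms tend to
  `0` almost surely, then interpolation (`tot (run ..)` is nondecreasing in `n`).
-/

namespace Pool.Agent.Counters

open Filter Topology MeasureTheory ProbabilityTheory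

variable {N : ℕ}

theorem run_congr (x : Fin N → ℕ) {ω ω' : ℕ → Fin N × Fin N} (n : ℕ)
    (h : ∀ k, k < n → ω k = ω' k) : run x ω n = run x ω' n := by
  induction n with
  | zero => rfl
  | succ n ih =>
    simp only [run]
    rw [ih fun k hk => h k (by omega), h n (by omega)]

theorem run_mono_succ (x : Fin N → ℕ) (ω : ℕ → Fin N × Fin N) (n : ℕ) :
    run x ω n ≤ run x ω (n + 1) := by
  simp only [run]
  exact le_bump _ _ _

theorem run_mono (x : Fin N → ℕ) (ω : ℕ → Fin N × Fin N) : Monotone (run x ω) :=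
  monotone_nat_of_le_succ (run_mono_succ x ω)

theorem run_le (x : Fin N → ℕ) (ω : ℕ → Fin N × Fin N) (n : ℕ) :
    run x ω n ≤ fun l => x l + n := by
  induction n with
  | zero => intro l; simp [run]
  | succ n ih =>
    intro l
    simp only [run]
    have h1 := bump_le (run x ω n) (ω n).1 (ω n).2 l
    have h2 := ih l
    simp only at h2 ⊢
    omega

/-- the expectation of a function with finitely many values -/
theorem E_fin {Ω β : Type} [MeasurableSpace Ω] (P : Measure Ω) [IsProbabilityMeasure P]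
    [MeasurableSpace β] [MeasurableSingletonClass β] {f : Ω → β} (hf : Measurable f)
    (S : Finset β) (hS : ∀ ω, f ω ∈ S) (g : β → ℝ) :
    ∫ ω, g (f ω) ∂P = ∑ y ∈ S, P.real (f ⁻¹' {y}) * g y := by
  classical
  have h1 : ∀ ω, g (f ω) = ∑ y ∈ S, (f ⁻¹' {y}).indicator (fun _ => g y) ω := by
    intro ω
    rw [Finset.sum_eq_single (f ω)]
    · simp
    · intro b _ hb
      rw [Set.indicator_of_notMem]
      simp only [Set.mem_preimage, Set.mem_singleton_iff]
      exact fun h => hb h.symm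
    · intro h
      exact absurd (hS ω) h
  simp only [h1]
  rw [integral_finsetSum]
  · refine Finset.sum_congr rfl fun y _ => ?_
    rw [integral_indicator_const _ (hf (measurableSet_singleton y)), smul_eq_mul]
  · intro y _
    exact (integrable_const _).indicator (hf (measurableSet_singleton y))

section prob

variable {Ω : Type} [MeasurableSpace Ω] (P : Measure Ω) [IsProbabilityMeasure P]
  (p : ℕ → Ω → Fin N × Fin N)

theorem run_meas (hp : ∀ n, Measurable (p n)) (x : Fin N → ℕ) (n : ℕ) :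
    Measurable (fun ω => run x (fun k => p k ω) n) := by
  induction n with
  | zero => simp only [run]; exact measurable_const
  | succ n ih =>
    simp only [run]
    have h1 : Measurable (fun q : (Fin N → ℕ) × (Fin N × Fin N) => bump q.1 q.2.1 q.2.2) :=
      measurable_of_countable _
    exact h1.comp (ih.prodMk (hp n))

theorem run_indep (hp : ∀ n, Measurable (p n)) (hi : iIndepFun p P) (hN : 2 ≤ N)
    (x : Fin N → ℕ) (n : ℕ) :
    IndepFun (fun ω => run x (fun k => p k ω) n) (p n) P := by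
  classical
  have h := hi.indepFun_finset (Finset.range n) {n} (by simp) hp
  have i0 : Fin N := ⟨0, by omega⟩
  let G : ((i : Finset.range n) → Fin N × Fin N) → (Fin N → ℕ) := fun w =>
    run x (fun k => if hk : k ∈ Finset.range n then w ⟨k, hk⟩ else (i0, i0)) n
  let H : ((i : ({n} : Finset ℕ)) → Fin N × Fin N) → Fin N × Fin N := fun w =>
    w ⟨n, by simp⟩
  have h2 := h.comp (φ := G) (ψ := H) (measurable_of_finite G) (measurable_of_finite H)
  have e1 : (fun ω => run x (fun k => p k ω) n) = G ∘ (fun a (i : Finset.range n) => p i a) := by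
    funext ω
    simp only [G, Function.comp]
    refine run_congr x n fun k hk => ?_
    rw [dif_pos (Finset.mem_range.2 hk)]
  have e2 : p n = H ∘ (fun a (i : ({n} : Finset ℕ)) => p i a) := rfl
  rw [e1, e2]
  exact h2

/-- the law of `p n` -/
theorem law_p (hN : 2 ≤ N) (hp : ∀ n, Measurable (p n))
    (hu : ∀ n, ∀ r ∈ pairs N, P {ω | p n ω = r} = ((pairs N).card : ENNReal)⁻¹) (n : ℕ)
    (r : Fin N × Fin N) :
    P.real (p n ⁻¹' {r}) = if r ∈ pairs N then ((pairs N).card : ℝ)⁻¹ else 0 := by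
  have hc := card_pairs_pos hN
  have h1 : ∀ r ∈ pairs N, P.real (p n ⁻¹' {r}) = ((pairs N).card : ℝ)⁻¹ := by
    intro r hr
    have h2 : p n ⁻¹' {r} = {ω | p n ω = r} := rfl
    rw [h2, Measure.real, hu n r hr]
    simp
  split_ifs with hr
  · exact h1 r hr
  · have h3 := E_fin P (hp n) Finset.univ (fun _ => Finset.mem_univ _) (fun _ => (1 : ℝ))
    simp only [mul_one, integral_const, probReal_univ, smul_eq_mul] at h3
    have h4 : ∑ y ∈ pairs N, P.real (p n ⁻¹' {y}) = 1 := by
      rw [Finset.sum_congr rfl h1, Finset.sum_const, nsmul_eq_mul]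
      field_simp
    have h5 : ∑ y ∈ insert r (pairs N), P.real (p n ⁻¹' {y}) ≤ ∑ y, P.real (p n ⁻¹' {y}) :=
      Finset.sum_le_sum_of_subset_of_nonneg (Finset.subset_univ _) fun _ _ _ => measureReal_nonneg
    rw [Finset.sum_insert hr, h4, ← h3] at h5
    have h6 : 0 ≤ P.real (p n ⁻¹' {r}) := measureReal_nonneg
    linarith

theorem E_step (hN : 2 ≤ N) (hp : ∀ n, Measurable (p n)) (hi : iIndepFun p P)
    (hu : ∀ n, ∀ r ∈ pairs N, P {ω | p n ω = r} = ((pairs N).card : ENNReal)⁻¹)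
    (x : Fin N → ℕ) (n : ℕ) (φ : (Fin N → ℕ) → ℝ) :
    ∫ ω, φ (run x (fun k => p k ω) (n + 1)) ∂P =
      ∫ ω, avg N φ (run x (fun k => p k ω) n) ∂P := by
  classical
  set X : Ω → (Fin N → ℕ) := fun ω => run x (fun k => p k ω) n with hX
  set S : Finset (Fin N → ℕ) := Finset.Icc x (fun l => x l + n) with hS
  have hXm : Measurable X := run_meas p hp x n
  have hXS : ∀ ω, X ω ∈ S := by
    intro ω
    rw [hS, Finset.mem_Icc]
    exact ⟨run_mono x (fun k => p k ω) (Nat.zero_le n), run_le x _ n⟩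
  have hind := run_indep P p hp hi hN x n
  have h1 := E_fin P (hXm.prodMk (hp n)) (S ×ˢ (Finset.univ : Finset (Fin N × Fin N)))
    (fun ω => Finset.mem_product.2 ⟨hXS ω, Finset.mem_univ _⟩)
    (fun q => φ (bump q.1 q.2.1 q.2.2))
  have h2 := E_fin P hXm S hXS (avg N φ)
  have h3 : ∫ ω, φ (run x (fun k => p k ω) (n + 1)) ∂P =
      ∫ ω, (fun q : (Fin N → ℕ) × (Fin N × Fin N) => φ (bump q.1 q.2.1 q.2.2))
        ((fun ω => (X ω, p n ω)) ω) ∂P := rfl
  rw [h3, h1, h2, Finset.sum_product]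
  refine Finset.sum_congr rfl fun y _ => ?_
  have h4 : ∀ r : Fin N × Fin N, P.real ((fun ω => (X ω, p n ω)) ⁻¹' {(y, r)}) =
      P.real (X ⁻¹' {y}) * (if r ∈ pairs N then ((pairs N).card : ℝ)⁻¹ else 0) := by
    intro r
    rw [← law_p P p hN hp hu n r]
    have h5 : (fun ω => (X ω, p n ω)) ⁻¹' {(y, r)} = X ⁻¹' {y} ∩ p n ⁻¹' {r} := by
      ext ω
      simp [Prod.ext_iff]
    rw [h5, Measure.real, hind.measure_inter_preimage_eq_mul _ _ (measurableSet_singleton y)
      (measurableSet_singleton r), ENNReal.toReal_mul]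
    rfl
  simp only [h4]
  unfold avg
  rw [Finset.sum_div, Finset.mul_sum, ← Finset.sum_filter_add_sum_filter_not Finset.univ
    (fun r : Fin N × Fin N => r ∈ pairs N)]
  have h6 : ∑ r ∈ Finset.univ.filter (fun r : Fin N × Fin N => ¬ r ∈ pairs N),
      P.real (X ⁻¹' {y}) * (if r ∈ pairs N then ((pairs N).card : ℝ)⁻¹ else 0) *
        φ (bump y r.1 r.2) = 0 := by
    refine Finset.sum_eq_zero fun r hr => ?_
    rw [if_neg (Finset.mem_filter.1 hr).2]
    ring
  rw [h6, add_zero]
  have h7 : Finset.univ.filter (fun r : Fin N × Fin N => r ∈ pairs N) = pairs N := by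
    ext r; simp
  rw [h7]
  refine Finset.sum_congr rfl fun r hr => ?_
  rw [if_pos hr]
  ring

theorem E_run (hN : 2 ≤ N) (hp : ∀ n, Measurable (p n)) (hi : iIndepFun p P)
    (hu : ∀ n, ∀ r ∈ pairs N, P {ω | p n ω = r} = ((pairs N).card : ENNReal)⁻¹)
    (x : Fin N → ℕ) (n : ℕ) (φ : (Fin N → ℕ) → ℝ) :
    ∫ ω, φ (run x (fun k => p k ω) n) ∂P = (avg N)^[n] φ x := by
  induction n generalizing φ with
  | zero => simp [run]
  | succ n ih =>
    rw [E_step P p hN hp hi hu x n φ, ih, Function.iterate_succ_apply]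

end prob

/-- variance bound -/
theorem iter_var (hN : 2 ≤ N) (n : ℕ) (x : Fin N → ℕ) :
    (avg N)^[n] (fun y => (tot y : ℝ) ^ 2) x - ((avg N)^[n] (fun y => (tot y : ℝ)) x) ^ 2 ≤
      n * (N : ℝ) ^ 2 := by
  induction n generalizing x with
  | zero => simp
  | succ n ih =>
    rw [iter_succ, iter_succ]
    set h : (Fin N → ℕ) → ℝ := (avg N)^[n] (fun y => (tot y : ℝ)) with hh
    set k : (Fin N → ℕ) → ℝ := (avg N)^[n] (fun y => (tot y : ℝ) ^ 2) with hk
    have h1 : avg N k x ≤ avg N (fun y => n * (N : ℝ) ^ 2 + h y ^ 2) x :=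
      avg_mono fun i j _ => by have := ih (bump x i j); linarith
    rw [avg_add (fun _ => n * (N : ℝ) ^ 2), avg_const hN] at h1
    have hb : ∀ i j, h x ≤ h (bump x i j) ∧ h (bump x i j) ≤ h x + N := by
      intro i j
      have hm := mon_iter (N := N) tot_mon n
      have hs := shf_iter hN (N := N) tot_shf n
      constructor
      · exact hm _ _ (le_bump x i j)
      · have h2 := hm (bump x i j) (fun l => x l + 1) (fun l => bump_le x i j l)
        rw [hs x 1] at h2
        simpa using h2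
    have h3 : avg N (fun y => (h y - h x) ^ 2) x ≤ (N : ℝ) ^ 2 := by
      have h4 : avg N (fun y => (h y - h x) ^ 2) x ≤ avg N (fun _ => (N : ℝ) ^ 2) x := by
        refine avg_mono fun i j _ => ?_
        have := hb i j
        exact pow_le_pow_left₀ (by linarith) (by linarith) 2
      rwa [avg_const hN] at h4
    have h5 : avg N (fun y => (h y - h x) ^ 2) x =
        avg N (fun y => h y ^ 2) x - 2 * h x * avg N h x + h x ^ 2 := by
      have h6 : (fun y => (h y - h x) ^ 2) = fun y => (h y ^ 2 - 2 * h x * h y) + h x ^ 2 := by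
        funext y; ring
      rw [h6, avg_add (fun y => h y ^ 2 - 2 * h x * h y), avg_const hN,
        avg_sub (fun y => h y ^ 2), avg_mul_left]
    have h7 : avg N (fun y => h y ^ 2) x - (avg N h x) ^ 2 ≤ (N : ℝ) ^ 2 := by
      nlinarith [sq_nonneg (avg N h x - h x)]
    push_cast
    linarith

/-- interpolation -/
theorem interp (u : ℕ → ℝ) (l : ℝ) (hmono : Monotone u)
    (h : Tendsto (fun k : ℕ => u (k ^ 2) / ((k ^ 2 : ℕ) : ℝ)) atTop (𝓝 l)) :
    Tendsto (fun n => u n / n) atTop (𝓝 l) := by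
  refine tendsto_div_of_monotone_of_exists_subseq_tendsto_div u l hmono fun a ha => ?_
  refine ⟨fun n => n ^ 2, ?_, tendsto_pow_atTop (by norm_num), h⟩
  have h1 : Tendsto (fun n : ℕ => ((n : ℝ) + 1) / n) atTop (𝓝 1) := by
    have h2 : Tendsto (fun n : ℕ => 1 + 1 / (n : ℝ)) atTop (𝓝 (1 + 0)) :=
      tendsto_const_nhds.add tendsto_one_div_atTop_nhds_zero_nat
    rw [add_zero] at h2
    refine h2.congr' ?_
    filter_upwards [eventually_gt_atTop 0] with n hn
    have : (n : ℝ) ≠ 0 := by exact_mod_cast hn.ne'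
    field_simp
  have h2 := (h1.pow 2).eventually_lt_const (by simpa using ha : (1 : ℝ) ^ 2 < a)
  filter_upwards [h2, eventually_gt_atTop 0] with n hn hn0
  have h3 : (0 : ℝ) < n := by exact_mod_cast hn0
  rw [div_pow, div_lt_iff₀ (by positivity)] at hn
  push_cast
  exact hn.le

theorem IsSpeed.isLongRunAverage {N : ℕ} (hN : 2 ≤ N) {v : ℝ} (hv : IsSpeed N v) :
    IsLongRunAverage N v := by
  intro Ω _ P _ p hp hi hu x
  set T : ℕ → Ω → ℝ := fun n ω => (tot (run x (fun k => p k ω) n) : ℝ) with hT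
  set m : ℕ → ℝ := fun n => (avg N)^[n] (fun y => (tot y : ℝ)) x with hm
  have hTm : ∀ n, Measurable (T n) := by
    intro n
    have h1 : Measurable (fun y : Fin N → ℕ => (tot y : ℝ)) := measurable_of_countable _
    exact h1.comp (run_meas p hp x n)
  -- bound of the second moment
  have hvar : ∀ n, ∫⁻ ω, ENNReal.ofReal ((T n ω - m n) ^ 2) ∂P ≤
      ENNReal.ofReal (n * (N : ℝ) ^ 2) := by
    intro n
    have hbd : ∀ ω, T n ω ∈ Set.Icc 0 ((tot (fun l => x l + n) : ℕ) : ℝ) := by
      intro ω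
      exact ⟨Nat.cast_nonneg _, Nat.cast_le.2 (tot_mono (run_le x _ n))⟩
    have hint : Integrable (fun ω => (T n ω - m n) ^ 2) P := by
      refine (integrable_const ((((tot (fun l => x l + n) : ℕ) : ℝ) + |m n|) ^ 2)).mono'
        (((hTm n).sub_const _).pow_const 2).aestronglyMeasurable (Eventually.of_forall fun ω => ?_)
      have h2 := hbd ω
      rw [Real.norm_of_nonneg (sq_nonneg _), ← sq_abs (T n ω - m n)]
      refine pow_le_pow_left₀ (abs_nonneg _) ?_ 2
      refine (abs_sub _ _).trans ?_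
      rw [abs_of_nonneg h2.1]
      linarith [h2.2]
    rw [← ofReal_integral_eq_lintegral_ofReal hint (Eventually.of_forall fun ω => sq_nonneg _)]
    refine ENNReal.ofReal_le_ofReal ?_
    have h3 : ∫ ω, (T n ω - m n) ^ 2 ∂P = (avg N)^[n] (fun y => ((tot y : ℝ) - m n) ^ 2) x :=
      E_run P p hN hp hi hu x n (fun y => ((tot y : ℝ) - m n) ^ 2)
    rw [h3]
    have h4 : (fun y : Fin N → ℕ => ((tot y : ℝ) - m n) ^ 2) =
        fun y => ((tot y : ℝ) ^ 2 - 2 * m n * (tot y : ℝ)) + m n ^ 2 := by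
      funext y; ring
    rw [h4, iter_add (fun y => (tot y : ℝ) ^ 2 - 2 * m n * (tot y : ℝ)), iter_const hN,
      iter_sub (fun y => (tot y : ℝ) ^ 2), iter_mul_left]
    have h5 := iter_var hN n x
    have h6 : (avg N)^[n] (fun y => (tot y : ℝ)) x = m n := rfl
    rw [h6] at h5 ⊢
    nlinarith
  -- summability
  have hsum : ∫⁻ ω, ∑' k : ℕ, ENNReal.ofReal (((T ((k + 1) ^ 2) ω - m ((k + 1) ^ 2)) /
      (((k + 1) ^ 2 : ℕ) : ℝ)) ^ 2) ∂P ≠ ⊤ := by
    rw [lintegral_tsum fun k => by
      have := hTm ((k + 1) ^ 2)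
      fun_prop]
    have h1 : ∀ k : ℕ, ∫⁻ ω, ENNReal.ofReal (((T ((k + 1) ^ 2) ω - m ((k + 1) ^ 2)) /
        (((k + 1) ^ 2 : ℕ) : ℝ)) ^ 2) ∂P ≤ ENNReal.ofReal ((N : ℝ) ^ 2 / ((k : ℝ) + 1) ^ 2) := by
      intro k
      have hk : (0 : ℝ) < (((k + 1) ^ 2 : ℕ) : ℝ) := by positivity
      have h2 : ∀ ω, ENNReal.ofReal (((T ((k + 1) ^ 2) ω - m ((k + 1) ^ 2)) /
          (((k + 1) ^ 2 : ℕ) : ℝ)) ^ 2) = ENNReal.ofReal (((((k + 1) ^ 2 : ℕ) : ℝ) ^ 2)⁻¹) *
          ENNReal.ofReal ((T ((k + 1) ^ 2) ω - m ((k + 1) ^ 2)) ^ 2) := by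
        intro ω
        rw [← ENNReal.ofReal_mul (by positivity), div_pow]
        congr 1
        ring
      simp only [h2]
      rw [lintegral_const_mul _ (by have := hTm ((k + 1) ^ 2); fun_prop)]
      calc _ ≤ ENNReal.ofReal (((((k + 1) ^ 2 : ℕ) : ℝ) ^ 2)⁻¹) *
            ENNReal.ofReal ((((k + 1) ^ 2 : ℕ) : ℝ) * (N : ℝ) ^ 2) := by
            gcongr
            exact hvar _
        _ = _ := by
            rw [← ENNReal.ofReal_mul (by positivity)]
            congr 1
            push_cast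
            field_simp
    have h2 : Summable (fun k : ℕ => (N : ℝ) ^ 2 / ((k : ℝ) + 1) ^ 2) := by
      have h3 : Summable (fun k : ℕ => 1 / ((k : ℝ)) ^ 2) :=
        Real.summable_one_div_nat_pow.2 (by norm_num)
      have h4 := ((summable_nat_add_iff 1).2 h3).mul_left ((N : ℝ) ^ 2)
      refine h4.congr fun k => ?_
      push_cast
      ring
    refine ne_top_of_le_ne_top ?_ (ENNReal.tsum_le_tsum h1)
    rw [← ENNReal.ofReal_tsum_of_nonneg (fun k => by positivity) h2]
    exact ENNReal.ofReal_ne_top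
  have hae := ae_lt_top (by
    refine Measurable.ennreal_tsum fun k => ?_
    have := hTm ((k + 1) ^ 2)
    fun_prop) hsum
  filter_upwards [hae] with ω hω
  have h1 := ENNReal.tendsto_atTop_zero_of_tsum_ne_top hω.ne
  -- the centred part tends to zero
  have h2 : Tendsto (fun k : ℕ => ((T ((k + 1) ^ 2) ω - m ((k + 1) ^ 2)) /
      (((k + 1) ^ 2 : ℕ) : ℝ)) ^ 2) atTop (𝓝 0) := by
    have h3 := (ENNReal.tendsto_toReal ENNReal.zero_ne_top).comp h1
    simp only [ENNReal.toReal_zero] at h3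
    refine h3.congr fun k => ?_
    simp only [Function.comp]
    rw [ENNReal.toReal_ofReal (sq_nonneg _)]
  have h3 : Tendsto (fun k : ℕ => (T ((k + 1) ^ 2) ω - m ((k + 1) ^ 2)) /
      (((k + 1) ^ 2 : ℕ) : ℝ)) atTop (𝓝 0) := by
    have h4 := (Real.continuous_sqrt.tendsto 0).comp h2
    rw [Real.sqrt_zero] at h4
    rw [tendsto_zero_iff_abs_tendsto_zero]
    refine h4.congr fun k => ?_
    simp only [Function.comp]
    rw [Real.sqrt_sq_eq_abs]
  have h4 : Tendsto (fun k : ℕ => (T (k ^ 2) ω - m (k ^ 2)) / ((k ^ 2 : ℕ) : ℝ)) atTop (𝓝 0) :=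
    (tendsto_add_atTop_iff_nat 1).1 h3
  have h5 : Tendsto (fun k : ℕ => (m (k ^ 2) - (tot x : ℝ)) / ((k ^ 2 : ℕ) : ℝ)) atTop (𝓝 v) :=
    (hv x).comp (tendsto_pow_atTop (by norm_num))
  have h6 : Tendsto (fun k : ℕ => (T (k ^ 2) ω - (tot x : ℝ)) / ((k ^ 2 : ℕ) : ℝ)) atTop
      (𝓝 v) := by
    have h7 := h4.add h5
    rw [zero_add] at h7
    refine h7.congr fun k => ?_
    rw [← add_div]
    congr 1
    ring
  exact interp (fun n => T n ω - (tot x : ℝ)) v (fun a b hab => by
    have := tot_mono (run_mono x (fun k => p k ω) hab)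
    have h8 : T a ω ≤ T b ω := Nat.cast_le.2 this
    simp only
    linarith) h6

end Pool.Agent.Counters
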