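import Pool.Agent.Lib.Counters.Compare
import Pool.Agent.Lib.Counters.Exist

/-!
Chunk L (lower bound) from sub-profiles; general averaging lemmas.
-/

namespace Pool.Agent.Counters

open Finset Filter Topology

theorem sum_shift (q : ℕ → ℝ) (J n : ℕ) :
    ∑ s ∈ range n, (q (s + J) - q s) = ∑ i ∈ range J, (q (n + i) - q i) := by
  have h1 : ∑ s ∈ range n, q (s + J) + ∑ i ∈ range J, q i = ∑ s ∈ range n, q s +
      ∑ i ∈ range J, q (n + i) := by
    rw [← Finset.sum_range_add (f := q) n J, add_comm n J, Finset.sum_range_add, add_comm]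
    congr 1
    refine Finset.sum_congr rfl (fun i _ => ?_)
    rw [add_comm]
  rw [Finset.sum_sub_distrib, Finset.sum_sub_distrib]
  linarith

theorem shift_tendsto {q : ℕ → ℝ} {w : ℝ} (hq : Tendsto (fun n : ℕ => q n / n) atTop (𝓝 w))
    (J : ℕ) :
    Tendsto (fun n : ℕ => (∑ s ∈ range n, (q (s + J) - q s)) / n) atTop (𝓝 (J * w)) := by
  have h1 : ∀ i : ℕ, Tendsto (fun n : ℕ => (q (n + i) - q i) / n) atTop (𝓝 w) := by
    intro i
    have h2 : Tendsto (fun n : ℕ => q (n + i) / ((n + i : ℕ) : ℝ)) atTop (𝓝 w) :=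
      hq.comp (tendsto_add_atTop_nat i)
    have h3 : Tendsto (fun n : ℕ => ((n + i : ℕ) : ℝ) / n) atTop (𝓝 1) := by
      have h4 : Tendsto (fun n : ℕ => 1 + (i : ℝ) / n) atTop (𝓝 (1 + 0)) :=
        tendsto_const_nhds.add (tendsto_const_div_atTop_nhds_zero_nat (i : ℝ))
      rw [add_zero] at h4
      refine h4.congr' ?_
      filter_upwards [eventually_gt_atTop 0] with n hn
      have : (n : ℝ) ≠ 0 := by positivity
      push_cast
      field_simp
    have h5 : Tendsto (fun n : ℕ => q i / (n : ℝ)) atTop (𝓝 0) :=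
      tendsto_const_div_atTop_nhds_zero_nat _
    have h6 := (h2.mul h3).sub h5
    rw [mul_one, sub_zero] at h6
    refine h6.congr' ?_
    filter_upwards [eventually_gt_atTop 0] with n hn
    have hn' : (n : ℝ) ≠ 0 := by positivity
    have hn2 : ((n + i : ℕ) : ℝ) ≠ 0 := by positivity
    field_simp
  have h7 : Tendsto (fun n : ℕ => ∑ i ∈ range J, (q (n + i) - q i) / n) atTop
      (𝓝 (∑ _i ∈ range J, w)) := tendsto_finset_sum _ (fun i _ => h1 i)
  have h8 : ∑ _i ∈ range J, w = J * w := by simp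
  rw [h8] at h7
  refine h7.congr (fun n => ?_)
  rw [sum_shift, Finset.sum_div]

theorem avg_tendsto_lower {q : ℕ → ℝ} {w L : ℝ} (hq : Tendsto (fun n : ℕ => q n / n) atTop (𝓝 w))
    (J : ℕ) (h : ∀ n : ℕ, n * L ≤ ∑ s ∈ range n, (q (s + J) - q s)) : L ≤ J * w := by
  refine ge_of_tendsto (shift_tendsto hq J) ?_
  filter_upwards [eventually_gt_atTop 0] with n hn
  rw [le_div_iff₀ (by positivity)]
  have := h n
  linarith

theorem avg_tendsto_upper {q : ℕ → ℝ} {w L : ℝ} (hq : Tendsto (fun n : ℕ => q n / n) atTop (𝓝 w))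
    (J : ℕ) (h : ∀ n : ℕ, ∑ s ∈ range n, (q (s + J) - q s) ≤ n * L) : J * w ≤ L := by
  refine le_of_tendsto (shift_tendsto hq J) ?_
  filter_upwards [eventually_gt_atTop 0] with n hn
  rw [div_le_iff₀ (by positivity)]
  have := h n
  linarith

/-- `(C T / N) (1 + 8/N)^(T N) → 0` -/
theorem err_tendsto (C : ℝ) (T : ℕ) :
    Tendsto (fun N : ℕ => C * ((T * N : ℕ) : ℝ) / (N : ℝ) ^ 2 * (1 + 8 / (N : ℝ)) ^ (T * N)) atTop
      (𝓝 0) := by
  have h1 : Tendsto (fun N : ℕ => (|C| * T * Real.exp (8 * T)) / (N : ℝ)) atTop (𝓝 0) :=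
    tendsto_const_div_atTop_nhds_zero_nat _
  refine squeeze_zero_norm' ?_ h1
  filter_upwards [eventually_gt_atTop 0] with N hN
  have hN' : (0 : ℝ) < N := by exact_mod_cast hN
  have h2 : (1 + 8 / (N : ℝ)) ^ (T * N) ≤ Real.exp (8 * T) := by
    have h3 : 1 + 8 / (N : ℝ) ≤ Real.exp (8 / N) := by
      have := Real.add_one_le_exp (8 / (N : ℝ)); linarith
    calc (1 + 8 / (N : ℝ)) ^ (T * N) ≤ (Real.exp (8 / N)) ^ (T * N) :=
          pow_le_pow_left₀ (by positivity) h3 _
      _ = Real.exp (8 * T) := by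
          rw [← Real.exp_nat_mul]
          congr 1
          push_cast
          field_simp
  rw [norm_mul, Real.norm_of_nonneg (by positivity : (0 : ℝ) ≤ (1 + 8 / (N : ℝ)) ^ (T * N))]
  have h4 : ‖C * ((T * N : ℕ) : ℝ) / (N : ℝ) ^ 2‖ = |C| * T / N := by
    rw [norm_div, norm_mul, Real.norm_eq_abs, Real.norm_of_nonneg (Nat.cast_nonneg _),
      Real.norm_of_nonneg (by positivity)]
    push_cast
    field_simp
  rw [h4]
  calc |C| * T / N * (1 + 8 / (N : ℝ)) ^ (T * N) ≤ |C| * T / N * Real.exp (8 * T) :=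
        mul_le_mul_of_nonneg_left h2 (by positivity)
    _ = |C| * T * Real.exp (8 * T) / N := by ring

end Pool.Agent.Counters
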