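import Pool.Agent.Lib.Counters.Bounds

/-!
Chunk L: lower bound for the speed from a subsolution profile.
-/

namespace Pool.Agent.Counters

open Finset Filter Topology

variable {N : ℕ}

theorem avg_iter_nonneg (hN : 2 ≤ N) {φ : (Fin N → ℕ) → ℝ} (h : ∀ y, 0 ≤ φ y) (n : ℕ)
    (x : Fin N → ℕ) : 0 ≤ (avg N)^[n] φ x := by
  have := iter_mono (N := N) (φ := fun _ => (0 : ℝ)) (ψ := φ) h n x
  rwa [iter_const hN] at this

/-- one block, lower bound -/
theorem block_lower (hN : 2 ≤ N) {c a θ K A s0 Al : ℝ} (hc : 0 < c) (ha : 0 < a) (ha1 : a < 1)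
    {g : ℝ → ℝ} (hg : SubProfile c g) (hK : K ≤ 0) (hθ : 0 < θ) (hgK : θ ≤ g K)
    (hθ1 : θ ≤ 1)
    (hstep : ∀ x s, 0 ≤ s → s ≤ s0 →
      g (x - s) ≤ g x + (2 / c) * s * (g (x - 1) * (g (x - 1) - g x)) + A * s ^ 2)
    (hlip : ∀ x s, 0 ≤ s → g (x - s) - g x ≤ Al * s)
    (hs : a * c / N ≤ s0) (T : ℕ) (x : Fin N → ℕ) :
    (quant a x : ℝ) + a * c * T + K - 1 - a * c * T * (4 / (a * θ) ^ 2) *
      ((2 * ((|A| * c ^ 2 + |Al| * c) + 4) + ((|A| * c ^ 2 + |Al| * c) + 2) ^ 2) *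
        ((T * N : ℕ) : ℝ) / (N : ℝ) ^ 2 * (1 + 8 / (N : ℝ)) ^ (T * N)) ≤
    (avg N)^[T * N] (Q (a * θ / 4) (a * θ / 2)) x := by
  have hN' : (2 : ℝ) ≤ N := by exact_mod_cast hN
  have hNpos : (0 : ℝ) < N := by linarith
  set A' : ℝ := |A| * c ^ 2 + |Al| * c with hA'
  have hA'0 : 0 ≤ A' := by positivity
  set m : ℕ := quant a x with hm
  set G : ℕ → ℕ → ℝ := fun j k => a * g ((k : ℝ) - m - a * c * j / N) with hG
  have hfm : a ≤ frac m x := quant_spec hN ha1.le x
  have hG0 : ∀ j k, 0 ≤ G j k := fun j k => mul_nonneg ha.le (hg.nonneg _)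
  have hG1 : ∀ j k, G j (k + 1) ≤ G j k := by
    intro j k
    apply mul_le_mul_of_nonneg_left _ ha.le
    apply hg.anti
    push_cast
    linarith
  have hG2 : ∀ j k, G j k ≤ 1 := by
    intro j k
    have h1 := hg.le_one ((k : ℝ) - m - a * c * j / N)
    have h2 := hg.nonneg ((k : ℝ) - m - a * c * j / N)
    simp only [hG]
    nlinarith
  have hsdef : 0 ≤ a * c / N := by positivity
  have harg : ∀ j k : ℕ, (k : ℝ) - m - a * c * ((j + 1 : ℕ) : ℝ) / N =
      ((k : ℝ) - m - a * c * j / N) - a * c / N := by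
    intro j k
    push_cast
    field_simp
    ring
  have hinc : ∀ j k, G (j + 1) (k + 1) ≤ G j (k + 1) +
      2 / N * ((G j k - G j (k + 1)) * G j k) + A' / (N : ℝ) ^ 2 := by
    intro j k
    simp only [hG]
    rw [harg j (k + 1)]
    set X : ℝ := ((k + 1 : ℕ) : ℝ) - m - a * c * j / N with hX
    have hX1 : (k : ℝ) - m - a * c * j / N = X - 1 := by
      rw [hX]; push_cast; ring
    rw [hX1]
    have h := hstep X (a * c / N) hsdef hs
    have h2 := mul_le_mul_of_nonneg_left h ha.le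
    refine h2.trans ?_
    have h3 : a * (g X + 2 / c * (a * c / N) * (g (X - 1) * (g (X - 1) - g X)) +
        A * (a * c / N) ^ 2) =
        a * g X + 2 / N * ((a * g (X - 1) - a * g X) * (a * g (X - 1))) +
          a ^ 3 * A * c ^ 2 / N ^ 2 := by
      field_simp
    rw [h3]
    have h4 : a ^ 3 * A * c ^ 2 / (N : ℝ) ^ 2 ≤ A' / (N : ℝ) ^ 2 := by
      apply div_le_div_of_nonneg_right _ (by positivity)
      have h5 : a ^ 3 ≤ 1 := pow_le_one₀ ha.le ha1.le
      have h6 : a ^ 3 * A ≤ |A| := by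
        calc a ^ 3 * A ≤ a ^ 3 * |A| := mul_le_mul_of_nonneg_left (le_abs_self A) (by positivity)
          _ ≤ 1 * |A| := mul_le_mul_of_nonneg_right h5 (abs_nonneg A)
          _ = |A| := one_mul _
      have h7 : a ^ 3 * A * c ^ 2 ≤ |A| * c ^ 2 := mul_le_mul_of_nonneg_right h6 (by positivity)
      have h8 : 0 ≤ |Al| * c := by positivity
      rw [hA']; linarith
    linarith
  have habs : ∀ j k, |G (j + 1) k - G j k| ≤ A' / N := by
    intro j k
    simp only [hG]
    rw [harg j k]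
    set X : ℝ := (k : ℝ) - m - a * c * j / N with hX
    have h1 : g X ≤ g (X - a * c / N) := hg.anti (by linarith)
    have h2 := hlip X (a * c / N) hsdef
    rw [abs_of_nonneg (by nlinarith)]
    have h3 : a * (g (X - a * c / N) - g X) ≤ a * (Al * (a * c / N)) :=
      mul_le_mul_of_nonneg_left h2 ha.le
    have h4 : a * (Al * (a * c / N)) = a ^ 2 * Al * c / N := by ring
    have h5 : a ^ 2 * Al * c / N ≤ A' / N := by
      apply div_le_div_of_nonneg_right _ hNpos.le
      have h6 : a ^ 2 ≤ 1 := pow_le_one₀ ha.le ha1.le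
      have h7 : a ^ 2 * Al ≤ |Al| := by
        calc a ^ 2 * Al ≤ a ^ 2 * |Al| := mul_le_mul_of_nonneg_left (le_abs_self Al) (by positivity)
          _ ≤ 1 * |Al| := mul_le_mul_of_nonneg_right h6 (abs_nonneg Al)
          _ = |Al| := one_mul _
      have h8 : a ^ 2 * Al * c ≤ |Al| * c := mul_le_mul_of_nonneg_right h7 hc.le
      have h9 : 0 ≤ |A| * c ^ 2 := by positivity
      rw [hA']; linarith
    linarith
  have hini : ∀ k, G 0 k ≤ frac k x := by
    intro k
    simp only [hG]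
    by_cases hk : k ≤ m
    · have h1 := hg.le_one ((k : ℝ) - m - a * c * ((0 : ℕ) : ℝ) / N)
      have h2 : frac m x ≤ frac k x := frac_anti x hk
      nlinarith
    · have h1 : g ((k : ℝ) - m - a * c * ((0 : ℕ) : ℝ) / N) = 0 := by
        apply hg.zero
        have : (m : ℝ) < k := by exact_mod_cast not_le.1 hk
        simp
        linarith
      rw [h1, mul_zero]
      exact frac_nonneg _ _
  have herr := lower_iter hN hA'0 G x hG0 hG1 hG2 hinc habs hini (T * N)
  set err : ℝ := (2 * (A' + 4) + (A' + 2) ^ 2) * ((T * N : ℕ) : ℝ) / (N : ℝ) ^ 2 *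
    (1 + 8 / (N : ℝ)) ^ (T * N) with herrdef
  have herr0 : 0 ≤ err := by positivity
  have haθ : 0 < a * θ := by positivity
  have hb12 : a * θ / 4 < a * θ / 2 := by linarith
  have hb1 : 0 < a * θ / 4 := by linarith
  have haθa : a * θ / 2 ≤ a := by nlinarith
  set z : ℝ := (m : ℝ) + a * c * T + K with hz
  by_cases hz0 : z < 0
  · have h1 : 0 ≤ (avg N)^[T * N] (Q (a * θ / 4) (a * θ / 2)) x :=
      avg_iter_nonneg hN (fun y => Q_nonneg _ _ y) _ _
    have h2 : 0 ≤ a * c * T * (4 / (a * θ) ^ 2) * err := by positivity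
    linarith
  · push Not at hz0
    set k1 : ℕ := ⌊z⌋₊ with hk1
    have hk1z : (k1 : ℝ) ≤ z := Nat.floor_le hz0
    have hzk1 : z < k1 + 1 := Nat.lt_floor_add_one z
    have hGk : a * θ ≤ G (T * N) k1 := by
      simp only [hG]
      apply mul_le_mul_of_nonneg_left _ ha.le
      refine hgK.trans (hg.anti ?_)
      have : a * c * ((T * N : ℕ) : ℝ) / N = a * c * T := by
        push_cast; field_simp
      rw [this]; linarith
    have hpt : ∀ y, x ≤ y → tot y ≤ tot x + 2 * (T * N) →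
        (k1 : ℝ) - a * c * T * (4 / (a * θ) ^ 2) *
          (max (G (T * N) k1 - frac k1 y) 0) ^ 2 ≤ Q (a * θ / 4) (a * θ / 2) y := by
      intro y hxy _
      by_cases hf : a * θ / 2 ≤ frac k1 y
      · have h1 := le_Q hb1 hb12 y hf
        have h2 : 0 ≤ a * c * T * (4 / (a * θ) ^ 2) * (max (G (T * N) k1 - frac k1 y) 0) ^ 2 := by
          positivity
        linarith
      · push Not at hf
        have h1 : a * θ / 2 ≤ max (G (T * N) k1 - frac k1 y) 0 :=
          le_trans (by linarith) (le_max_left _ _)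
        have h2 : (a * θ / 2) ^ 2 ≤ (max (G (T * N) k1 - frac k1 y) 0) ^ 2 :=
          pow_le_pow_left₀ (by positivity) h1 2
        have h3 : 1 ≤ 4 / (a * θ) ^ 2 * (max (G (T * N) k1 - frac k1 y) 0) ^ 2 := by
          rw [div_mul_eq_mul_div, le_div_iff₀ (by positivity)]
          nlinarith
        have h4 : a * c * T ≤ a * c * T * (4 / (a * θ) ^ 2 *
            (max (G (T * N) k1 - frac k1 y) 0) ^ 2) := by
          have : 0 ≤ a * c * T := by positivity
          nlinarith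
        have h5 : (m : ℝ) ≤ Q (a * θ / 4) (a * θ / 2) x := le_Q hb1 hb12 x (haθa.trans hfm)
        have h6 : Q (a * θ / 4) (a * θ / 2) x ≤ Q (a * θ / 4) (a * θ / 2) y := Q_mono hb1 hb12 hxy
        have h7 : a * c * T * (4 / (a * θ) ^ 2) * (max (G (T * N) k1 - frac k1 y) 0) ^ 2 =
          a * c * T * (4 / (a * θ) ^ 2 * (max (G (T * N) k1 - frac k1 y) 0) ^ 2) := by ring
        rw [h7]
        linarith
    have h1 := iter_mono_reach (N := N) (T * N) hpt
    rw [iter_sub, iter_const hN, iter_mul_left] at h1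
    have h2 : a * c * T * (4 / (a * θ) ^ 2) * (avg N)^[T * N]
        (fun y => (max (G (T * N) k1 - frac k1 y) 0) ^ 2) x ≤
        a * c * T * (4 / (a * θ) ^ 2) * err :=
      mul_le_mul_of_nonneg_left (herr k1) (by positivity)
    linarith

theorem lower_bound {c : ℝ} (hc : 0 < c) {g : ℝ → ℝ} (hg : SubProfile c g) {ε : ℝ} (hε : 0 < ε) :
    ∃ N₀ : ℕ, 2 ≤ N₀ ∧ ∀ N, N₀ ≤ N → ∀ v, IsSpeed N v → c - ε ≤ v := by
  obtain ⟨K, hK⟩ := hg.nontriv
  obtain ⟨A, s0, hs0, hstep⟩ := hg.step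
  obtain ⟨Al, hlip⟩ := hg.lip
  have hK0 : K ≤ 0 := by
    by_contra h
    push Not at h
    have := hg.zero K h
    linarith
  set θ : ℝ := g K with hθ
  have hθ1 : θ ≤ 1 := hg.le_one K
  -- choice of a
  obtain ⟨a, ha, ha1, hac⟩ : ∃ a : ℝ, 0 < a ∧ a < 1 ∧ c - ε / 4 ≤ a * c := by
    refine ⟨1 - min (1 / 2) (ε / (4 * c)), ?_, ?_, ?_⟩
    · have := min_le_left (1 / 2) (ε / (4 * c)); linarith
    · have : 0 < min (1 / 2) (ε / (4 * c)) := by positivity
      linarith
    · have h := min_le_right (1 / 2) (ε / (4 * c))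
      have h2 : min (1 / 2) (ε / (4 * c)) * c ≤ ε / (4 * c) * c :=
        mul_le_mul_of_nonneg_right h hc.le
      have h3 : ε / (4 * c) * c = ε / 4 := by field_simp
      nlinarith
  have haθ : 0 < a * θ := by positivity
  set C1 : ℝ := 1 / (a * θ / 4 * (1 - a) ^ 2) with hC1
  have h1a : 0 < 1 - a := by linarith
  have hC1pos : 0 < C1 := by positivity
  -- choice of T
  obtain ⟨T, hT0, hT⟩ : ∃ T : ℕ, 0 < T ∧ (C1 + 1 - K) ≤ ε / 4 * T := by
    obtain ⟨T, hT⟩ := exists_nat_gt ((C1 + 1 - K) / (ε / 4))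
    refine ⟨T + 1, Nat.succ_pos _, ?_⟩
    rw [div_lt_iff₀ (by positivity)] at hT
    push_cast
    nlinarith
  have hTpos : (0 : ℝ) < T := by exact_mod_cast hT0
  set CA : ℝ := 2 * ((|A| * c ^ 2 + |Al| * c) + 4) + ((|A| * c ^ 2 + |Al| * c) + 2) ^ 2 with hCA
  have hlim := err_tendsto CA T
  have hlim2 := (hlim.const_mul (a * c * T * (4 / (a * θ) ^ 2)))
  rw [mul_zero] at hlim2
  have hev1 := hlim2.eventually (gt_mem_nhds (show (0 : ℝ) < ε / 4 * T by positivity))
  have hlim3 : Tendsto (fun N : ℕ => a * c / (N : ℝ)) atTop (𝓝 0) :=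
    tendsto_const_div_atTop_nhds_zero_nat _
  have hev2 := hlim3.eventually (gt_mem_nhds hs0)
  obtain ⟨N1, hN1⟩ := eventually_atTop.1 (hev1.and hev2)
  refine ⟨max 2 N1, le_max_left _ _, ?_⟩
  intro N hN v hv
  have hN2 : 2 ≤ N := le_trans (le_max_left _ _) hN
  obtain ⟨he1, he2⟩ := hN1 N (le_trans (le_max_right _ _) hN)
  have hNpos : (0 : ℝ) < N := by
    have : (2 : ℝ) ≤ N := by exact_mod_cast hN2
    linarith
  obtain ⟨v', hv', hQ⟩ := exists_speed hN2
  have hvv : v = v' := hv.unique hv'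
  subst hvv
  have hb1 : 0 < a * θ / 4 := by linarith
  have hb12 : a * θ / 4 < a * θ / 2 := by linarith
  have hb2 : a * θ / 2 < 1 := by nlinarith
  have hb1' : a * θ / 4 ≤ 1 := by linarith
  have hq := hQ (a * θ / 4) (a * θ / 2) hb1 hb12 hb2
  set E : ℝ := a * c * T * (4 / (a * θ) ^ 2) *
      (CA * ((T * N : ℕ) : ℝ) / (N : ℝ) ^ 2 * (1 + 8 / (N : ℝ)) ^ (T * N)) with hE
  have hstate : ∀ x : Fin N → ℕ,
      (a * c * T + K - 1 - E) - ((quant (a * θ / 4) x : ℝ) - quant a x) ≤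
        (avg N)^[T * N] (Q (a * θ / 4) (a * θ / 2)) x - Q (a * θ / 4) (a * θ / 2) x := by
    intro x
    have h1 := block_lower hN2 hc ha ha1 hg hK0 hK le_rfl hθ1 hstep hlip he2.le T x
    have h2 : Q (a * θ / 4) (a * θ / 2) x ≤ quant (a * θ / 4) x :=
      Q_le hb1 hb12 x (lt_of_quant_lt hb1 x (Nat.lt_succ_self _)).le
    have h3 : (quant a x : ℝ) + a * c * T + K - 1 - E ≤
      (avg N)^[T * N] (Q (a * θ / 4) (a * θ / 2)) x := h1
    linarith
  have hsum : ∀ n : ℕ, (n : ℝ) * (a * c * T + K - 1 - E - C1) ≤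
      ∑ s ∈ range n, ((fun s => (avg N)^[s] (Q (a * θ / 4) (a * θ / 2)) (fun _ => 0)) (s + T * N) -
        (fun s => (avg N)^[s] (Q (a * θ / 4) (a * θ / 2)) (fun _ => 0)) s) := by
    intro n
    have h1 : ∀ s ∈ range n, (a * c * T + K - 1 - E) -
        (avg N)^[s] (fun y => (quant (a * θ / 4) y : ℝ) - quant a y) (fun _ => 0) ≤
        (fun s => (avg N)^[s] (Q (a * θ / 4) (a * θ / 2)) (fun _ => 0)) (s + T * N) -
        (fun s => (avg N)^[s] (Q (a * θ / 4) (a * θ / 2)) (fun _ => 0)) s := by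
      intro s _
      have h2 := iter_mono (N := N) hstate s (fun _ => 0)
      rw [iter_sub (fun _ => a * c * T + K - 1 - E) (fun y => (quant (a * θ / 4) y : ℝ) - quant a y),
        iter_const hN2, iter_sub ((avg N)^[T * N] (Q (a * θ / 4) (a * θ / 2)))] at h2
      simp only
      rw [← iter_iter]
      exact h2
    have h3 := Finset.sum_le_sum h1
    have h4 := tight hN2 hb1 hb1' ha ha1 n
    rw [Finset.sum_sub_distrib, Finset.sum_const, Finset.card_range, nsmul_eq_mul] at h3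
    have h5 : (n : ℝ) * (1 / (a * θ / 4 * (1 - a) ^ 2)) = n * C1 := by rw [hC1]
    rw [h5] at h4
    linarith
  have h6 := avg_tendsto_lower hq (T * N) hsum
  have h7 : ((T * N : ℕ) : ℝ) * (v / N) = T * v := by
    push_cast; field_simp
  rw [h7] at h6
  have h8 : E < ε / 4 * T := he1
  have h9 : T * (c - ε) ≤ T * v := by nlinarith
  exact le_of_mul_le_mul_left h9 hTpos

end Pool.Agent.Counters
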