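import Pool.Agent.Lib.Counters.Bounds

/-!
Chunk H: the upper bound for the speed from a supersolution profile (helper82).

Upper bound (`SuperProfile c h`, floor `α`, `h K₁ < 1`): window `b₁ = h K₁ + ε`, `b₂ = h K₁ + 2 ε`,
`ε = (1 - h K₁)/3`.  For a state `x` put `m = quant α x` and `G j k = h(k - m - c j / N)`.
`G 0 k ≥ frac k x`.  With `k₁ = ⌈m + c T + K₁⌉`, `G J k₁ ≤ h K₁`, so `frac k₁ y > b₁` implies
`(frac k₁ y - G J k₁)₊ ≥ ε`.  For reachable `y`: `Q y ≤ k₁` if `frac k₁ y ≤ b₁`, and always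
`Q y - Q x ≤ 2 J/((b₂-b₁) N) = 2T/(b₂-b₁)`, while `Q x ≤ m ≤ k₁`.  Hence
`P^J Q x - Q x ≤ (quant α x - quant b₂ x) + c T + K₁ + 1 + 2T/(b₂-b₁) · err(N)/ε²`.
-/

namespace Pool.Agent.Counters

open Finset Filter Topology

variable {N : ℕ}

theorem quant_anti {ρ σ : ℝ} (hN : 2 ≤ N) (hρ : 0 < ρ) (h : ρ ≤ σ) (hσ : σ ≤ 1)
    (x : Fin N → ℕ) : quant σ x ≤ quant ρ x := by
  by_contra hcon
  have h1 := lt_of_quant_lt hρ x (not_le.1 hcon)
  have h2 := quant_spec hN hσ x
  linarith

/-- one block of `J = T N` steps -/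
theorem up_block {c : ℝ} (hc : 0 < c) {h : ℝ → ℝ} (hanti : Antitone h)
    (hone : ∀ x, x ≤ 0 → 1 ≤ h x) {a : ℝ} (ha : 0 < a) (hfl : ∀ x, a ≤ h x) {K : ℝ}
    (hK : h K < 1) {A A2 s0 : ℝ}
    (hstep : ∀ x s, 0 ≤ s → s ≤ s0 →
      h x + (2 / c) * s * (h (x - 1) * (h (x - 1) - h x)) - A * s ^ 2 ≤ h (x - s))
    (hlip : ∀ x s, 0 ≤ s → h (x - s) - h x ≤ A2 * s)
    {e b1 b2 B : ℝ} (he : e = (1 - h K) / 3) (hb1 : b1 = h K + e) (hb2 : b2 = h K + 2 * e)
    (hB : B = |A| * c ^ 2 + |A2| * c) (hN : 2 ≤ N) (hs0 : c / N ≤ s0) (T : ℕ)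
    (x : Fin N → ℕ) :
    (avg N)^[T * N] (Q b1 b2) x - Q b1 b2 x ≤ ((quant a x : ℝ) - quant b2 x) +
      (c * T + K + 1 + (2 * T / (b2 - b1) / e ^ 2 * (2 * (B + 4) + (B + 2) ^ 2)) *
        ((T * N : ℕ) : ℝ) / (N : ℝ) ^ 2 * (1 + 8 / (N : ℝ)) ^ (T * N)) := by
  have hNR : (0 : ℝ) < N := by
    have : 0 < N := by omega
    exact_mod_cast this
  have he0 : 0 < e := by rw [he]; linarith
  have hb12 : b1 < b2 := by rw [hb1, hb2]; linarith
  have hb21 : b2 < 1 := by rw [hb2]; linarith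
  have haK : a ≤ h K := hfl K
  have hb10 : 0 < b1 := by rw [hb1]; linarith
  have hab1 : a ≤ b1 := by rw [hb1]; linarith
  have hB0 : 0 ≤ B := by rw [hB]; positivity
  have hK0 : 0 < K := by
    by_contra hcon
    have := hone K (not_lt.1 hcon)
    linarith
  set m := quant a x with hm
  set J := T * N with hJ
  have hJN : c * (J : ℝ) / N = c * T := by
    rw [hJ]
    push_cast
    field_simp
  set G : ℕ → ℕ → ℝ := fun j k => h ((k : ℝ) - m - c * j / N) with hG
  set k1 : ℕ := ⌈(m : ℝ) + c * T + K⌉₊ with hk1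
  have hk1ge : (m : ℝ) + c * T + K ≤ k1 := Nat.le_ceil _
  have hk1le : (k1 : ℝ) ≤ m + c * T + K + 1 := by
    have : (0 : ℝ) ≤ (m : ℝ) + c * T + K := by positivity
    exact (Nat.ceil_lt_add_one this).le
  have hGk : G J k1 ≤ h K := by
    apply hanti
    rw [hJN]
    linarith
  have hQx1 : Q b1 b2 x ≤ m := by
    have h1 : frac (quant b1 x + 1) x ≤ b1 := (lt_of_quant_lt hb10 x (Nat.lt_succ_self _)).le
    refine (Q_le hb10 hb12 x h1).trans ?_
    exact_mod_cast quant_anti hN ha hab1 (by linarith) x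
  have hQxk : Q b1 b2 x ≤ k1 := by
    have : (0 : ℝ) ≤ c * T := by positivity
    linarith
  have hQx2 : (quant b2 x : ℝ) ≤ Q b1 b2 x :=
    le_Q hb10 hb12 x (quant_spec hN hb21.le x)
  have hup := upper_iter hN hB0 G x
    (fun j k => ha.le.trans (hfl _))
    (fun j k => by
      simp only [hG]
      apply hanti
      push_cast
      linarith)
    (fun j => by
      simp only [hG]
      apply hone
      have : 0 ≤ c * (j : ℝ) / N := by positivity
      push_cast
      have : (0 : ℝ) ≤ m := by positivity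
      linarith)
    (fun j k => by
      simp only [hG]
      set y : ℝ := ((k + 1 : ℕ) : ℝ) - m - c * j / N with hy
      have e1 : ((k + 1 : ℕ) : ℝ) - m - c * ((j + 1 : ℕ) : ℝ) / N = y - c / N := by
        rw [hy]; push_cast; field_simp; ring
      have e2 : (k : ℝ) - m - c * j / N = y - 1 := by
        rw [hy]; push_cast; ring
      rw [e1, e2]
      have h1 := hstep y (c / N) (by positivity) hs0
      have e3 : 2 / c * (c / N) = 2 / (N : ℝ) := by field_simp
      rw [e3] at h1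
      have h2 : A * (c / N) ^ 2 ≤ B / (N : ℝ) ^ 2 := by
        have h3 : A * (c / N) ^ 2 = (A * c ^ 2) / (N : ℝ) ^ 2 := by field_simp
        rw [h3]
        have h4 : A * c ^ 2 ≤ B := by
          have h5 : A * c ^ 2 ≤ |A| * c ^ 2 := by
            apply mul_le_mul_of_nonneg_right (le_abs_self A) (by positivity)
          have h6 : 0 ≤ |A2| * c := by positivity
          rw [hB]
          linarith
        gcongr
      have e4 : 2 / (N : ℝ) * ((h (y - 1) - h y) * h (y - 1)) =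
          2 / (N : ℝ) * (h (y - 1) * (h (y - 1) - h y)) := by ring
      rw [e4]
      linarith)
    (fun j k => by
      simp only [hG]
      set y : ℝ := (k : ℝ) - m - c * j / N with hy
      have e1 : (k : ℝ) - m - c * ((j + 1 : ℕ) : ℝ) / N = y - c / N := by
        rw [hy]; push_cast; field_simp; ring
      rw [e1]
      have h0 : 0 ≤ c / (N : ℝ) := by positivity
      have h1 : h y ≤ h (y - c / N) := hanti (by linarith)
      rw [abs_of_nonneg (by linarith)]
      refine (hlip y (c / N) h0).trans ?_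
      have h3 : A2 * (c / N) = (A2 * c) / (N : ℝ) := by ring
      rw [h3]
      have h4 : A2 * c ≤ B := by
        have h5 : A2 * c ≤ |A2| * c := mul_le_mul_of_nonneg_right (le_abs_self A2) hc.le
        have h6 : 0 ≤ |A| * c ^ 2 := by positivity
        rw [hB]
        linarith
      gcongr)
    (fun k => by
      simp only [hG]
      rcases le_or_gt k m with hkm | hkm
      · refine (frac_le_one k x).trans (hone _ ?_)
        have : (k : ℝ) ≤ m := by exact_mod_cast hkm
        simp only [Nat.cast_zero, mul_zero, zero_div, sub_zero]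
        linarith
      · exact (lt_of_quant_lt ha x hkm).le.trans (hfl _))
    J k1
  set Er : ℝ := (2 * (B + 4) + (B + 2) ^ 2) * (J : ℝ) / (N : ℝ) ^ 2 * (1 + 8 / (N : ℝ)) ^ J
    with hEr
  set C : ℝ := 2 * T / (b2 - b1) / e ^ 2 with hC
  have hb210 : 0 < b2 - b1 := by linarith
  have hC0 : 0 ≤ C := by rw [hC]; positivity
  have hpt : ∀ y, x ≤ y → tot y ≤ tot x + 2 * J →
      Q b1 b2 y ≤ (k1 : ℝ) + C * (max (frac k1 y - G J k1) 0) ^ 2 := by
    intro y hxy hty
    rcases le_or_gt (frac k1 y) b1 with hf | hf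
    · have h1 : frac (k1 + 1) y ≤ b1 := (frac_anti y (Nat.le_succ k1)).trans hf
      have h2 := Q_le hb10 hb12 y h1
      have h3 : 0 ≤ C * (max (frac k1 y - G J k1) 0) ^ 2 := by positivity
      linarith
    · have h1 : e ≤ max (frac k1 y - G J k1) 0 := by
        refine le_trans ?_ (le_max_left _ _)
        rw [hb1] at hf
        linarith
      have h2 : e ^ 2 ≤ (max (frac k1 y - G J k1) 0) ^ 2 := pow_le_pow_left₀ he0.le h1 2
      have h3 : 2 * T / (b2 - b1) ≤ C * (max (frac k1 y - G J k1) 0) ^ 2 := by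
        have h4 : C * e ^ 2 = 2 * T / (b2 - b1) := by
          rw [hC]; field_simp
        rw [← h4]
        exact mul_le_mul_of_nonneg_left h2 hC0
      have h5 := Q_sub_le hN hb10 hb12 hxy
      have h6 : ((tot y : ℝ) - tot x) / ((b2 - b1) * N) ≤ 2 * T / (b2 - b1) := by
        have h7 : (tot y : ℝ) - tot x ≤ 2 * (T * N) := by
          have : (tot y : ℝ) ≤ (tot x : ℝ) + 2 * (T * N) := by
            rw [hJ] at hty
            exact_mod_cast hty
          linarith
        rw [div_le_div_iff₀ (by positivity) hb210]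
        have h8 := mul_le_mul_of_nonneg_right h7 hb210.le
        nlinarith
      linarith
  have hmain : (avg N)^[J] (Q b1 b2) x ≤ (k1 : ℝ) + C * Er := by
    calc (avg N)^[J] (Q b1 b2) x
        ≤ (avg N)^[J] (fun y => (k1 : ℝ) + C * (max (frac k1 y - G J k1) 0) ^ 2) x :=
          iter_mono_reach J hpt
      _ = (k1 : ℝ) + C * (avg N)^[J] (fun y => (max (frac k1 y - G J k1) 0) ^ 2) x := by
          rw [iter_add, iter_const hN, iter_mul_left]
      _ ≤ (k1 : ℝ) + C * Er := by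
          have := mul_le_mul_of_nonneg_left hup hC0
          linarith
  have hfin : C * Er = 2 * T / (b2 - b1) / e ^ 2 * (2 * (B + 4) + (B + 2) ^ 2) *
        (J : ℝ) / (N : ℝ) ^ 2 * (1 + 8 / (N : ℝ)) ^ J := by
    rw [hC, hEr]; ring
  rw [← hfin]
  linarith

theorem upper_bound' {c : ℝ} (hc : 0 < c) {h : ℝ → ℝ} (hh : SuperProfile c h) {ε : ℝ}
    (hε : 0 < ε) :
    ∃ N₀ : ℕ, 2 ≤ N₀ ∧ ∀ N, N₀ ≤ N → ∀ v, IsSpeed N v → v ≤ c + ε := by
  obtain ⟨a, ha, hfl⟩ := hh.floor
  obtain ⟨K, hK⟩ := hh.below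
  obtain ⟨A, s0, hs00, hstep⟩ := hh.step
  obtain ⟨A2, hlip⟩ := hh.lip
  obtain ⟨e, he⟩ : ∃ e, e = (1 - h K) / 3 := ⟨_, rfl⟩
  obtain ⟨b1, hb1⟩ : ∃ b1, b1 = h K + e := ⟨_, rfl⟩
  obtain ⟨b2, hb2⟩ : ∃ b2, b2 = h K + 2 * e := ⟨_, rfl⟩
  obtain ⟨B, hB⟩ : ∃ B, B = |A| * c ^ 2 + |A2| * c := ⟨_, rfl⟩
  have he0 : 0 < e := by rw [he]; linarith
  have haK : a ≤ h K := hfl K
  have hb12 : b1 < b2 := by rw [hb1, hb2]; linarith
  have hb21 : b2 < 1 := by rw [hb2]; linarith
  have hb10 : 0 < b1 := by rw [hb1]; linarith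
  obtain ⟨D, hD⟩ : ∃ D, D = 1 / (a * (1 - b2) ^ 2) := ⟨_, rfl⟩
  -- the length of a block
  obtain ⟨T, hT1, hT⟩ : ∃ T : ℕ, 1 ≤ T ∧ D + K + 2 ≤ ε * T := by
    obtain ⟨T, hT⟩ := exists_nat_ge ((D + K + 2) / ε)
    refine ⟨max T 1, le_max_right _ _, ?_⟩
    rw [div_le_iff₀ hε] at hT
    have h1 : (T : ℝ) ≤ (max T 1 : ℕ) := by exact_mod_cast le_max_left T 1
    have h2 := mul_le_mul_of_nonneg_left h1 hε.le
    linarith
  have hTR : (0 : ℝ) < T := by
    have : 0 < T := hT1
    exact_mod_cast this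
  have hev1 := (err_tendsto (2 * T / (b2 - b1) / e ^ 2 * (2 * (B + 4) + (B + 2) ^ 2))
    T).eventually_lt_const one_pos
  have hev2 : ∀ᶠ N : ℕ in atTop, c / (N : ℝ) < s0 :=
    (tendsto_const_div_atTop_nhds_zero_nat c).eventually_lt_const hs00
  obtain ⟨N1, hN1⟩ := Filter.eventually_atTop.1 (hev1.and hev2)
  refine ⟨max 2 N1, le_max_left _ _, fun N hN v hv => ?_⟩
  have hN2 : 2 ≤ N := (le_max_left _ _).trans hN
  obtain ⟨hEr, hs⟩ := hN1 N ((le_max_right _ _).trans hN)
  have hNR : (0 : ℝ) < N := by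
    have : 0 < N := by omega
    exact_mod_cast this
  obtain ⟨v', hv', hQ⟩ := exists_speed hN2
  have hvv : v = v' := IsSpeed.unique hv hv'
  subst hvv
  have hq := hQ b1 b2 hb10 hb12 hb21
  have hblock := avg_tendsto_upper (q := fun n => (avg N)^[n] (Q b1 b2) (fun _ => 0))
    (w := v / N) (L := D + (c * T + K + 2)) hq (T * N) (fun n => by
      have h1 : ∀ s ∈ range n, (avg N)^[s + T * N] (Q b1 b2) (fun _ => 0) -
          (avg N)^[s] (Q b1 b2) (fun _ => 0) ≤
          (avg N)^[s] (fun y => (quant a y : ℝ) - quant b2 y) (fun _ => 0) +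
            (c * T + K + 2) := by
        intro s _
        rw [← iter_iter, ← iter_sub]
        have h2 : (avg N)^[s] (fun y => (quant a y : ℝ) - quant b2 y) (fun _ => 0) +
            (c * T + K + 2) = (avg N)^[s]
            (fun y => ((quant a y : ℝ) - quant b2 y) + (c * T + K + 2)) (fun _ => 0) := by
          rw [iter_add (fun y => (quant a y : ℝ) - quant b2 y) (fun _ => c * T + K + 2),
            iter_const hN2]
        rw [h2]
        apply iter_mono
        intro y
        have h3 := up_block hc hh.anti hh.one_le ha hfl hK hstep hlip he hb1 hb2 hB hN2 hs.le T y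
        linarith
      calc ∑ s ∈ range n, ((avg N)^[s + T * N] (Q b1 b2) (fun _ => 0) -
            (avg N)^[s] (Q b1 b2) (fun _ => 0))
          ≤ ∑ s ∈ range n, ((avg N)^[s] (fun y => (quant a y : ℝ) - quant b2 y) (fun _ => 0) +
            (c * T + K + 2)) := Finset.sum_le_sum h1
        _ = ∑ s ∈ range n, (avg N)^[s] (fun y => (quant a y : ℝ) - quant b2 y) (fun _ => 0) +
            n * (c * T + K + 2) := by
            rw [Finset.sum_add_distrib, Finset.sum_const, Finset.card_range, nsmul_eq_mul]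
        _ ≤ n * (1 / (a * (1 - b2) ^ 2)) + n * (c * T + K + 2) := by
            have := tight hN2 ha (by linarith) (by linarith : 0 < b2) hb21 n
            linarith
        _ = n * (D + (c * T + K + 2)) := by rw [hD]; ring)
  have h5 : ((T * N : ℕ) : ℝ) * (v / N) = T * v := by
    push_cast
    field_simp
  rw [h5] at hblock
  have h6 : T * v ≤ T * (c + ε) := by linarith
  exact le_of_mul_le_mul_left h6 hTR

end Pool.Agent.Counters
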