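import Pool.Agent.Lib.Counters.Defs

/-!
Basic facts on the chain: averages, monotonicity, drift of the counts and of the variance.
-/

namespace Pool.Agent.Counters

open Finset

variable {N : ℕ}

theorem sum_pairs_symm (g : Fin N → Fin N → ℝ) :
    ∑ p ∈ pairs N, (g p.1 p.2 + g p.2 p.1) = ∑ i, ∑ j, if i = j then 0 else g i j := by
  classical
  have h1 : ∑ i, ∑ j, (if i = j then 0 else g i j)
      = ∑ i, ∑ j, ((if i < j then g i j else 0) + (if j < i then g i j else 0)) := by
    refine Finset.sum_congr rfl (fun i _ => Finset.sum_congr rfl (fun j _ => ?_))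
    rcases lt_trichotomy i j with h | h | h
    · simp [h, h.ne, not_lt.2 h.le]
    · simp [h]
    · simp [h, h.ne', not_lt.2 h.le]
  rw [h1]
  simp only [Finset.sum_add_distrib]
  have h2 : ∑ i : Fin N, ∑ j : Fin N, (if j < i then g i j else 0)
      = ∑ i : Fin N, ∑ j : Fin N, (if i < j then g j i else 0) := by
    rw [Finset.sum_comm]
  rw [h2]
  unfold pairs
  rw [← Finset.sum_add_distrib, Finset.sum_filter, ← Finset.univ_product_univ,
    Finset.sum_product]
  rw [← Finset.sum_add_distrib]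
  refine Finset.sum_congr rfl (fun i _ => ?_)
  rw [← Finset.sum_add_distrib]
  refine Finset.sum_congr rfl (fun j _ => ?_)
  by_cases h : i < j <;> simp [h]

theorem card_pairs : ((pairs N).card : ℝ) = (N : ℝ) * ((N : ℝ) - 1) / 2 := by
  have h := sum_pairs_symm (N := N) (fun _ _ => 1)
  simp only [Finset.sum_const, nsmul_eq_mul] at h
  have h2 : ∀ i : Fin N, ∑ j : Fin N, (if i = j then (0 : ℝ) else 1) = (N : ℝ) - 1 := by
    intro i
    have : ∀ j : Fin N, (if i = j then (0 : ℝ) else 1) = 1 - (if i = j then 1 else 0) := by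
      intro j; split_ifs <;> norm_num
    simp only [this, Finset.sum_sub_distrib, Finset.sum_ite_eq, Finset.mem_univ, if_true]
    simp
  simp only [h2] at h
  simp at h
  linarith

theorem card_pairs_pos (hN : 2 ≤ N) : (0 : ℝ) < ((pairs N).card : ℝ) := by
  rw [card_pairs]
  have : (2 : ℝ) ≤ N := by exact_mod_cast hN
  have h1 : (0 : ℝ) < (N : ℝ) - 1 := by linarith
  positivity

/-! ### averages -/

theorem avg_add (φ ψ : (Fin N → ℕ) → ℝ) (x : Fin N → ℕ) :
    avg N (fun y => φ y + ψ y) x = avg N φ x + avg N ψ x := by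
  unfold avg
  rw [Finset.sum_add_distrib, add_div]

theorem avg_const (hN : 2 ≤ N) (a : ℝ) (x : Fin N → ℕ) : avg N (fun _ => a) x = a := by
  unfold avg
  rw [Finset.sum_const, nsmul_eq_mul]
  have := card_pairs_pos hN
  field_simp

theorem avg_mul_left (a : ℝ) (φ : (Fin N → ℕ) → ℝ) (x : Fin N → ℕ) :
    avg N (fun y => a * φ y) x = a * avg N φ x := by
  unfold avg
  rw [← Finset.mul_sum, mul_div_assoc]

theorem avg_sub (φ ψ : (Fin N → ℕ) → ℝ) (x : Fin N → ℕ) :
    avg N (fun y => φ y - ψ y) x = avg N φ x - avg N ψ x := by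
  unfold avg
  rw [Finset.sum_sub_distrib, sub_div]

theorem le_bump (x : Fin N → ℕ) (i j : Fin N) : x ≤ bump x i j := by
  intro l
  simp only [bump]
  split_ifs
  · exact Nat.le_succ _
  · exact le_rfl

theorem bump_le (x : Fin N → ℕ) (i j : Fin N) (l : Fin N) : bump x i j l ≤ x l + 1 := by
  simp only [bump]
  split_ifs
  · exact le_rfl
  · exact Nat.le_succ _

/-- pointwise comparison on the states reachable in one step -/
theorem avg_mono {φ ψ : (Fin N → ℕ) → ℝ} {x : Fin N → ℕ}
    (h : ∀ i j, i ≠ j → φ (bump x i j) ≤ ψ (bump x i j)) : avg N φ x ≤ avg N ψ x := by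
  unfold avg
  apply div_le_div_of_nonneg_right _ (Nat.cast_nonneg _)
  apply Finset.sum_le_sum
  intro p hp
  have hp' : p.1 < p.2 := by simpa [pairs] using hp
  exact h p.1 p.2 hp'.ne

/-- `T` steps: compare on states `y ≥ x` with `tot y ≤ tot x + 2 T` -/
theorem tot_bump_le (x : Fin N → ℕ) (i j : Fin N) : tot (bump x i j) ≤ tot x + 2 := by
  unfold tot bump
  have h : ∀ l : Fin N, (if (l = i ∧ x i ≤ x j) ∨ (l = j ∧ x j ≤ x i) then x l + 1 else x l)
      ≤ x l + ((if l = i then 1 else 0) + (if l = j then 1 else 0)) := by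
    intro l
    split_ifs with h1 h2 h3 <;> simp_all
  refine (Finset.sum_le_sum (fun l _ => h l)).trans ?_
  rw [Finset.sum_add_distrib, Finset.sum_add_distrib]
  simp

theorem tot_mono {x y : Fin N → ℕ} (h : x ≤ y) : tot x ≤ tot y :=
  Finset.sum_le_sum (fun l _ => h l)

theorem iter_succ (φ : (Fin N → ℕ) → ℝ) (n : ℕ) (x : Fin N → ℕ) :
    (avg N)^[n + 1] φ x = avg N ((avg N)^[n] φ) x := by
  rw [Function.iterate_succ_apply']

theorem iter_succ' (φ : (Fin N → ℕ) → ℝ) (n : ℕ) :
    (avg N)^[n + 1] φ = (avg N)^[n] (avg N φ) := by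
  rw [Function.iterate_succ_apply]

theorem iter_mono_reach {φ ψ : (Fin N → ℕ) → ℝ} (n : ℕ) : ∀ {x : Fin N → ℕ},
    (∀ y, x ≤ y → tot y ≤ tot x + 2 * n → φ y ≤ ψ y) →
    (avg N)^[n] φ x ≤ (avg N)^[n] ψ x := by
  induction n with
  | zero =>
    intro x h
    simpa using h x le_rfl (by omega)
  | succ n ih =>
    intro x h
    rw [iter_succ, iter_succ]
    apply avg_mono
    intro i j _
    apply ih
    intro y hy hty
    apply h y ((le_bump x i j).trans hy)
    have := tot_bump_le x i j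
    omega

theorem iter_mono {φ ψ : (Fin N → ℕ) → ℝ} (h : ∀ y, φ y ≤ ψ y) (n : ℕ) (x : Fin N → ℕ) :
    (avg N)^[n] φ x ≤ (avg N)^[n] ψ x :=
  iter_mono_reach n (fun y _ _ => h y)

theorem iter_congr_reach {φ ψ : (Fin N → ℕ) → ℝ} (n : ℕ) {x : Fin N → ℕ}
    (h : ∀ y, x ≤ y → tot y ≤ tot x + 2 * n → φ y = ψ y) :
    (avg N)^[n] φ x = (avg N)^[n] ψ x :=
  le_antisymm (iter_mono_reach n (fun y h1 h2 => (h y h1 h2).le))
    (iter_mono_reach n (fun y h1 h2 => (h y h1 h2).ge))

theorem iter_const (hN : 2 ≤ N) (a : ℝ) (n : ℕ) (x : Fin N → ℕ) :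
    (avg N)^[n] (fun _ => a) x = a := by
  induction n generalizing x with
  | zero => rfl
  | succ n ih =>
    rw [iter_succ]
    have : (avg N)^[n] (fun _ => a) = fun _ => a := funext ih
    rw [this, avg_const hN]

theorem iter_add (φ ψ : (Fin N → ℕ) → ℝ) (n : ℕ) (x : Fin N → ℕ) :
    (avg N)^[n] (fun y => φ y + ψ y) x = (avg N)^[n] φ x + (avg N)^[n] ψ x := by
  induction n generalizing φ ψ x with
  | zero => rfl
  | succ n ih =>
    rw [iter_succ', iter_succ', iter_succ', ← ih]
    exact congrFun (congrArg _ (funext (avg_add φ ψ))) x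

theorem iter_sub (φ ψ : (Fin N → ℕ) → ℝ) (n : ℕ) (x : Fin N → ℕ) :
    (avg N)^[n] (fun y => φ y - ψ y) x = (avg N)^[n] φ x - (avg N)^[n] ψ x := by
  induction n generalizing φ ψ x with
  | zero => rfl
  | succ n ih =>
    rw [iter_succ', iter_succ', iter_succ', ← ih]
    exact congrFun (congrArg _ (funext (avg_sub φ ψ))) x

theorem iter_mul_left (a : ℝ) (φ : (Fin N → ℕ) → ℝ) (n : ℕ) (x : Fin N → ℕ) :
    (avg N)^[n] (fun y => a * φ y) x = a * (avg N)^[n] φ x := by
  induction n generalizing φ x with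
  | zero => rfl
  | succ n ih =>
    rw [iter_succ', iter_succ', ← ih]
    exact congrFun (congrArg _ (funext (avg_mul_left a φ))) x

theorem iter_sum {ι : Type*} (s : Finset ι) (φ : ι → (Fin N → ℕ) → ℝ) (n : ℕ)
    (x : Fin N → ℕ) :
    (avg N)^[n] (fun y => ∑ i ∈ s, φ i y) x = ∑ i ∈ s, (avg N)^[n] (φ i) x := by
  classical
  induction s using Finset.induction_on with
  | empty =>
    simp only [Finset.sum_empty]
    have h := iter_mul_left (N := N) 0 (fun _ => (0 : ℝ)) n x
    simpa using h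
  | insert i s hi ih =>
    simp only [Finset.sum_insert hi]
    rw [iter_add, ih]

theorem iter_iter (φ : (Fin N → ℕ) → ℝ) (m n : ℕ) (x : Fin N → ℕ) :
    (avg N)^[n] ((avg N)^[m] φ) x = (avg N)^[n + m] φ x := by
  rw [Function.iterate_add_apply]

end Pool.Agent.Counters
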