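import Pool.Agent.Lib.Counters.Drift

/-!
Chunk K (Compare): the L2 comparison lemma with deterministic sub/supersolutions.

One step (lower): with `y₀ = G_{k+1} - F_{k+1}(x)`, `h = (G'_{k+1} - G_{k+1}) - (F_{k+1}(y) - F_{k+1}(x))`
use `(y₀+h)₊² ≤ (y₀)₊² + 2 (y₀)₊ h + h²`, `|h| ≤ (A+2)/N`, and
`avg h ≤ (2/N) [(G_k - G_{k+1}) G_k - (F_k - F_{k+1}) F_k] + (A+4)/N²`  (from `avg_frac`:
`(2/N)(F_k-F_{k+1})F_k - 2(F_k-F_{k+1})(F_k-1/N)/(N-1) = 2(F_k-F_{k+1})(1-F_k)/(N(N-1)) ≤ 4/N²`);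
if `y₀ > 0` then
`(G_k-G_{k+1})G_k - (F_k-F_{k+1})F_k = (G_k-F_k)(G_k+F_k-G_{k+1}) - F_k(G_{k+1}-F_{k+1}) ≤ 2 (G_k-F_k)₊`.
Finally `2·(y₀)₊·(4/N)(G_k-F_k)₊ ≤ (4/N)((y₀)₊² + (G_k-F_k)₊²)` and `(y₀)₊ ≤ 1`.
Upper: the same with the roles exchanged:
`(F_k-F_{k+1})F_k - (G_k-G_{k+1})G_k = (F_k-G_k)(F_k+G_k-F_{k+1}) - G_k(F_{k+1}-G_{k+1})`, and if
`G_k < F_k ≤ 1` the factor `F_k+G_k-F_{k+1}` is in `[0,2]`.

Iteration: `P^{j+1} e_{j+1,k} = P^j (P e_{j+1,k})`; the bound `A_{j+1} = (1+8/N) A_j + C/N²`, `A_0 = 0`, gives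
`A_j ≤ (C j / N²) (1+8/N)^j`.  Level `0`: `F_0 = 1`.
-/

namespace Pool.Agent.Counters

open Finset

variable {N : ℕ}

/-- `((y + h)₊)² ≤ (y₊)² + 2 y₊ h + h²` -/
theorem posSq_add_le (y h : ℝ) :
    (max (y + h) 0) ^ 2 ≤ (max y 0) ^ 2 + 2 * max y 0 * h + h ^ 2 := by
  rcases le_total 0 y with hy | hy
  · rw [max_eq_left hy]
    have h1 : (max (y + h) 0) ^ 2 ≤ (y + h) ^ 2 := by
      rcases le_total 0 (y + h) with h2 | h2
      · rw [max_eq_left h2]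
      · rw [max_eq_right h2]; nlinarith [sq_nonneg (y + h)]
    nlinarith
  · rw [max_eq_right hy]
    have h1 : (max (y + h) 0) ^ 2 ≤ h ^ 2 := by
      rcases le_total 0 (y + h) with h2 | h2
      · rw [max_eq_left h2]; nlinarith
      · rw [max_eq_right h2]; nlinarith [sq_nonneg h]
    nlinarith

/-- the drift term compared with the mean-field one -/
theorem drift_cmp (hN : 2 ≤ N) {a b : ℝ} (hb : 0 ≤ b) (hab : b ≤ a) (ha : a ≤ 1) :
    2 * (a - b) * (a - 1 / N) / ((N : ℝ) - 1) ≤ 2 / N * ((a - b) * a) ∧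
      2 / N * ((a - b) * a) - 4 / (N : ℝ) ^ 2 ≤ 2 * (a - b) * (a - 1 / N) / ((N : ℝ) - 1) := by
  have hN' : (2 : ℝ) ≤ N := by exact_mod_cast hN
  have hNp : (0 : ℝ) < N := by linarith
  have hN1 : (0 : ℝ) < (N : ℝ) - 1 := by linarith
  have key : 2 / (N : ℝ) * ((a - b) * a) - 2 * (a - b) * (a - 1 / N) / ((N : ℝ) - 1) =
      2 * (a - b) * (1 - a) / ((N : ℝ) * ((N : ℝ) - 1)) := by
    field_simp
    ring
  have hnum : 0 ≤ 2 * (a - b) * (1 - a) :=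
    mul_nonneg (mul_nonneg (by norm_num) (by linarith)) (by linarith)
  have hnum2 : 2 * (a - b) * (1 - a) ≤ 2 := by nlinarith
  have h1 : 0 ≤ 2 * (a - b) * (1 - a) / ((N : ℝ) * ((N : ℝ) - 1)) :=
    div_nonneg hnum (by positivity)
  have h2 : 2 * (a - b) * (1 - a) / ((N : ℝ) * ((N : ℝ) - 1)) ≤ 4 / (N : ℝ) ^ 2 := by
    rw [div_le_div_iff₀ (by positivity) (by positivity)]
    have h3 : 2 * (a - b) * (1 - a) * (N : ℝ) ^ 2 ≤ 2 * (N : ℝ) ^ 2 :=
      mul_le_mul_of_nonneg_right hnum2 (by positivity)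
    nlinarith
  constructor <;> linarith

/-- the common part of the two one-step estimates -/
theorem step_core (hN : 2 ≤ N) (x : Fin N → ℕ) {y0 D B A : ℝ} (e : (Fin N → ℕ) → ℝ)
    (hA : 0 ≤ A) (hy : y0 ≤ 1)
    (hsq : ∀ i j, i ≠ j → |e (bump x i j)| ≤ (A + 2) / N)
    (havg : avg N e x ≤ 2 / N * B + (A + 4) / (N : ℝ) ^ 2)
    (hB : 0 < y0 → B ≤ 2 * D) :
    avg N (fun y => (max (y0 + e y) 0) ^ 2) x ≤
      (1 + 4 / N) * (max y0 0) ^ 2 + 4 / N * D ^ 2 +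
        (2 * (A + 4) + (A + 2) ^ 2) / (N : ℝ) ^ 2 := by
  have hN' : (2 : ℝ) ≤ N := by exact_mod_cast hN
  have hNp : (0 : ℝ) < N := by linarith
  have h1 : avg N (fun y => (max (y0 + e y) 0) ^ 2) x ≤
      avg N (fun y => ((max y0 0) ^ 2 + (A + 2) ^ 2 / (N : ℝ) ^ 2) + (2 * max y0 0) * e y) x := by
    apply avg_mono
    intro i j hij
    have h2 := posSq_add_le y0 (e (bump x i j))
    have h3 := hsq i j hij
    have h4 : (e (bump x i j)) ^ 2 ≤ ((A + 2) / N) ^ 2 := by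
      rw [← sq_abs]
      exact pow_le_pow_left₀ (abs_nonneg _) h3 2
    rw [div_pow] at h4
    linarith
  rw [avg_add, avg_const hN, avg_mul_left] at h1
  rcases le_or_gt y0 0 with hy0 | hy0
  · rw [max_eq_right hy0] at h1 ⊢
    have h5 : 0 ≤ 4 / (N : ℝ) * D ^ 2 := by positivity
    have h6 : 0 ≤ 2 * (A + 4) / (N : ℝ) ^ 2 := by positivity
    have h7 : (2 * (A + 4) + (A + 2) ^ 2) / (N : ℝ) ^ 2 =
        2 * (A + 4) / (N : ℝ) ^ 2 + (A + 2) ^ 2 / (N : ℝ) ^ 2 := by ring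
    rw [h7]
    nlinarith
  · rw [max_eq_left hy0.le] at h1 ⊢
    have hB' := hB hy0
    have h8 : 2 * y0 * avg N e x ≤ 2 * y0 * (2 / N * (2 * D) + (A + 4) / (N : ℝ) ^ 2) := by
      apply mul_le_mul_of_nonneg_left _ (by linarith)
      refine havg.trans ?_
      have : 2 / (N : ℝ) * B ≤ 2 / N * (2 * D) :=
        mul_le_mul_of_nonneg_left hB' (by positivity)
      linarith
    have h9 : 2 * y0 * (2 / N * (2 * D)) ≤ 4 / (N : ℝ) * (y0 ^ 2 + D ^ 2) := by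
      have : 2 * y0 * (2 / N * (2 * D)) = 4 / (N : ℝ) * (2 * y0 * D) := by ring
      rw [this]
      apply mul_le_mul_of_nonneg_left _ (by positivity)
      nlinarith [sq_nonneg (y0 - D)]
    have h10 : 2 * y0 * ((A + 4) / (N : ℝ) ^ 2) ≤ 2 * (A + 4) / (N : ℝ) ^ 2 := by
      have : 2 * (A + 4) / (N : ℝ) ^ 2 = 2 * 1 * ((A + 4) / (N : ℝ) ^ 2) := by ring
      rw [this]
      apply mul_le_mul_of_nonneg_right _ (by positivity)
      linarith
    have h7 : (2 * (A + 4) + (A + 2) ^ 2) / (N : ℝ) ^ 2 =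
        2 * (A + 4) / (N : ℝ) ^ 2 + (A + 2) ^ 2 / (N : ℝ) ^ 2 := by ring
    rw [h7]
    have h11 : 2 * y0 * (2 / N * (2 * D) + (A + 4) / (N : ℝ) ^ 2) =
        2 * y0 * (2 / N * (2 * D)) + 2 * y0 * ((A + 4) / (N : ℝ) ^ 2) := by ring
    rw [h11] at h8
    have h12 : 4 / (N : ℝ) * (y0 ^ 2 + D ^ 2) = 4 / (N : ℝ) * y0 ^ 2 + 4 / (N : ℝ) * D ^ 2 := by
      ring
    rw [h12] at h9
    have h13 : (1 + 4 / (N : ℝ)) * y0 ^ 2 = y0 ^ 2 + 4 / (N : ℝ) * y0 ^ 2 := by ring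
    rw [h13]
    linarith

theorem lower_step (hN : 2 ≤ N) (x : Fin N → ℕ) (k : ℕ) {Gk Gk1 Gp A : ℝ} (hA : 0 ≤ A)
    (h0 : 0 ≤ Gk1) (h1 : Gk1 ≤ Gk) (h2 : Gk ≤ 1)
    (hinc : Gp ≤ Gk1 + 2 / N * ((Gk - Gk1) * Gk) + A / (N : ℝ) ^ 2)
    (habs : |Gp - Gk1| ≤ A / N) :
    avg N (fun y => (max (Gp - frac (k + 1) y) 0) ^ 2) x ≤
      (1 + 4 / N) * (max (Gk1 - frac (k + 1) x) 0) ^ 2 + 4 / N * (max (Gk - frac k x) 0) ^ 2 +
        (2 * (A + 4) + (A + 2) ^ 2) / (N : ℝ) ^ 2 := by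
  have hN' : (2 : ℝ) ≤ N := by exact_mod_cast hN
  have hNp : (0 : ℝ) < N := by linarith
  have hF0 := frac_nonneg (k + 1) x
  have hF1 : frac (k + 1) x ≤ frac k x := frac_anti x (Nat.le_succ k)
  have hF2 := frac_le_one k x
  have hF3 := frac_nonneg k x
  have hcore := step_core hN x (y0 := Gk1 - frac (k + 1) x) (D := max (Gk - frac k x) 0)
    (B := (Gk - Gk1) * Gk - (frac k x - frac (k + 1) x) * frac k x)
    (A := A) (fun y => (Gp - Gk1 + frac (k + 1) x) - frac (k + 1) y) hA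
    (by linarith) ?_ ?_ ?_
  · have hfun : (fun y : Fin N → ℕ => (max (Gp - frac (k + 1) y) 0) ^ 2) =
        fun y => (max (Gk1 - frac (k + 1) x + ((Gp - Gk1 + frac (k + 1) x) - frac (k + 1) y)) 0) ^ 2 := by
      funext y
      congr 2
      ring
    rw [hfun]
    exact hcore
  · intro i j hij
    have h3 := frac_mono (le_bump x i j) (k + 1)
    have h4 := frac_bump_le (k + 1) x i j hij
    have h5 : (A + 2) / (N : ℝ) = A / N + 2 / N := by ring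
    have h6 := abs_le.1 habs
    have h8 : (0 : ℝ) ≤ 2 / N := by positivity
    rw [h5, abs_le]
    constructor
    · linarith [h6.1]
    · linarith [h6.2]
  · rw [avg_sub, avg_const hN]
    have h3 := avg_frac hN k x
    have h4 := (drift_cmp hN hF0 hF1 hF2).2
    have h5 : (A + 4) / (N : ℝ) ^ 2 = A / (N : ℝ) ^ 2 + 4 / (N : ℝ) ^ 2 := by ring
    rw [h5]
    have h6 : 2 / (N : ℝ) * ((Gk - Gk1) * Gk - (frac k x - frac (k + 1) x) * frac k x) =
        2 / (N : ℝ) * ((Gk - Gk1) * Gk) - 2 / (N : ℝ) * ((frac k x - frac (k + 1) x) * frac k x) := by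
      ring
    rw [h6]
    linarith
  · intro hpos
    have hid : (Gk - Gk1) * Gk - (frac k x - frac (k + 1) x) * frac k x =
        (Gk - frac k x) * (Gk + frac k x - Gk1) - frac k x * (Gk1 - frac (k + 1) x) := by ring
    rw [hid]
    have h3 : 0 ≤ frac k x * (Gk1 - frac (k + 1) x) := mul_nonneg hF3 hpos.le
    have h4 : 0 ≤ Gk + frac k x - Gk1 := by linarith
    have h5 : Gk + frac k x - Gk1 ≤ 2 := by linarith
    have h6 : (Gk - frac k x) * (Gk + frac k x - Gk1) ≤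
        max (Gk - frac k x) 0 * (Gk + frac k x - Gk1) :=
      mul_le_mul_of_nonneg_right (le_max_left _ _) h4
    have h7 : max (Gk - frac k x) 0 * (Gk + frac k x - Gk1) ≤ max (Gk - frac k x) 0 * 2 :=
      mul_le_mul_of_nonneg_left h5 (le_max_right _ _)
    linarith

theorem upper_step (hN : 2 ≤ N) (x : Fin N → ℕ) (k : ℕ) {Gk Gk1 Gp A : ℝ} (hA : 0 ≤ A)
    (h0 : 0 ≤ Gk1) (h1 : Gk1 ≤ Gk)
    (hinc : Gk1 + 2 / N * ((Gk - Gk1) * Gk) - A / (N : ℝ) ^ 2 ≤ Gp)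
    (habs : |Gp - Gk1| ≤ A / N) :
    avg N (fun y => (max (frac (k + 1) y - Gp) 0) ^ 2) x ≤
      (1 + 4 / N) * (max (frac (k + 1) x - Gk1) 0) ^ 2 + 4 / N * (max (frac k x - Gk) 0) ^ 2 +
        (2 * (A + 4) + (A + 2) ^ 2) / (N : ℝ) ^ 2 := by
  have hN' : (2 : ℝ) ≤ N := by exact_mod_cast hN
  have hNp : (0 : ℝ) < N := by linarith
  have hF0 := frac_nonneg (k + 1) x
  have hF1 : frac (k + 1) x ≤ frac k x := frac_anti x (Nat.le_succ k)
  have hF2 := frac_le_one k x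
  have hF3 := frac_nonneg k x
  have hcore := step_core hN x (y0 := frac (k + 1) x - Gk1) (D := max (frac k x - Gk) 0)
    (B := (frac k x - frac (k + 1) x) * frac k x - (Gk - Gk1) * Gk)
    (A := A) (fun y => frac (k + 1) y - (frac (k + 1) x + (Gp - Gk1))) hA
    (by linarith) ?_ ?_ ?_
  · have hfun : (fun y : Fin N → ℕ => (max (frac (k + 1) y - Gp) 0) ^ 2) =
        fun y => (max (frac (k + 1) x - Gk1 + (frac (k + 1) y - (frac (k + 1) x + (Gp - Gk1)))) 0) ^ 2 := by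
      funext y
      congr 2
      ring
    rw [hfun]
    exact hcore
  · intro i j hij
    have h3 := frac_mono (le_bump x i j) (k + 1)
    have h4 := frac_bump_le (k + 1) x i j hij
    have h5 : (A + 2) / (N : ℝ) = A / N + 2 / N := by ring
    have h6 := abs_le.1 habs
    have h8 : (0 : ℝ) ≤ 2 / N := by positivity
    rw [h5, abs_le]
    constructor
    · linarith [h6.2]
    · linarith [h6.1]
  · rw [avg_sub, avg_const hN]
    have h3 := avg_frac hN k x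
    have h4 := (drift_cmp hN hF0 hF1 hF2).1
    have h5 : (A + 4) / (N : ℝ) ^ 2 = A / (N : ℝ) ^ 2 + 4 / (N : ℝ) ^ 2 := by ring
    have h9 : 0 ≤ 4 / (N : ℝ) ^ 2 := by positivity
    rw [h5]
    have h6 : 2 / (N : ℝ) * ((frac k x - frac (k + 1) x) * frac k x - (Gk - Gk1) * Gk) =
        2 / (N : ℝ) * ((frac k x - frac (k + 1) x) * frac k x) - 2 / (N : ℝ) * ((Gk - Gk1) * Gk) := by
      ring
    rw [h6]
    have h10 : avg N (fun y => frac (k + 1) y) x = avg N (frac (k + 1)) x := rfl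
    linarith
  · intro hpos
    have hid : (frac k x - frac (k + 1) x) * frac k x - (Gk - Gk1) * Gk =
        (frac k x - Gk) * (frac k x + Gk - frac (k + 1) x) - Gk * (frac (k + 1) x - Gk1) := by ring
    rw [hid]
    have hGk : 0 ≤ Gk := h0.trans h1
    have h3 : 0 ≤ Gk * (frac (k + 1) x - Gk1) := mul_nonneg hGk hpos.le
    have h4 : 0 ≤ frac k x + Gk - frac (k + 1) x := by linarith
    rcases le_total (frac k x) Gk with hle | hle
    · have h6 : (frac k x - Gk) * (frac k x + Gk - frac (k + 1) x) ≤ 0 :=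
        mul_nonpos_of_nonpos_of_nonneg (by linarith) h4
      have h7 : 0 ≤ max (frac k x - Gk) 0 := le_max_right _ _
      linarith
    · rw [max_eq_left (by linarith)]
      have h5 : frac k x + Gk - frac (k + 1) x ≤ 2 := by linarith
      have h6 : (frac k x - Gk) * (frac k x + Gk - frac (k + 1) x) ≤ (frac k x - Gk) * 2 :=
        mul_le_mul_of_nonneg_left h5 (by linarith)
      linarith

/-- the recursion for the iterated errors -/
theorem iter_core (hN : 2 ≤ N) {C : ℝ} (hC : 0 ≤ C) (e : ℕ → ℕ → (Fin N → ℕ) → ℝ)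
    (x : Fin N → ℕ) (hzero : ∀ j y, e j 0 y ≤ 0)
    (hini : ∀ k, e 0 k x ≤ 0)
    (hstep : ∀ j k y, avg N (e (j + 1) (k + 1)) y ≤
      ((1 + 4 / (N : ℝ)) * e j (k + 1) y + 4 / N * e j k y) + C / (N : ℝ) ^ 2) (J : ℕ) :
    ∀ k, (avg N)^[J] (e J k) x ≤ C * J / (N : ℝ) ^ 2 * (1 + 8 / (N : ℝ)) ^ J := by
  have hN' : (2 : ℝ) ≤ N := by exact_mod_cast hN
  have hNp : (0 : ℝ) < N := by linarith
  have h8 : (0 : ℝ) ≤ 8 / N := by positivity
  induction J with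
  | zero =>
    intro k
    simpa using hini k
  | succ J ih =>
    intro k
    have hnn : 0 ≤ C * ((J + 1 : ℕ) : ℝ) / (N : ℝ) ^ 2 * (1 + 8 / (N : ℝ)) ^ (J + 1) := by
      positivity
    rcases k with _ | k
    · refine (iter_mono (ψ := fun _ => (0 : ℝ)) (fun y => hzero (J + 1) y) (J + 1) x).trans ?_
      rw [iter_const hN]
      exact hnn
    · rw [iter_succ']
      refine (iter_mono (fun y => hstep J k y) J x).trans ?_
      rw [iter_add, iter_const hN, iter_add, iter_mul_left, iter_mul_left]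
      have h1 := ih (k + 1)
      have h2 := ih k
      have h3 : (1 + 4 / (N : ℝ)) * (avg N)^[J] (e J (k + 1)) x ≤
          (1 + 4 / (N : ℝ)) * (C * J / (N : ℝ) ^ 2 * (1 + 8 / (N : ℝ)) ^ J) :=
        mul_le_mul_of_nonneg_left h1 (by positivity)
      have h4 : 4 / (N : ℝ) * (avg N)^[J] (e J k) x ≤
          4 / (N : ℝ) * (C * J / (N : ℝ) ^ 2 * (1 + 8 / (N : ℝ)) ^ J) :=
        mul_le_mul_of_nonneg_left h2 (by positivity)
      have h5 : (1 : ℝ) ≤ (1 + 8 / (N : ℝ)) ^ (J + 1) := one_le_pow₀ (by linarith)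
      have h6 : C / (N : ℝ) ^ 2 ≤ C / (N : ℝ) ^ 2 * (1 + 8 / (N : ℝ)) ^ (J + 1) :=
        le_mul_of_one_le_right (by positivity) h5
      have h7 : C * ((J + 1 : ℕ) : ℝ) / (N : ℝ) ^ 2 * (1 + 8 / (N : ℝ)) ^ (J + 1) =
          (1 + 4 / (N : ℝ)) * (C * J / (N : ℝ) ^ 2 * (1 + 8 / (N : ℝ)) ^ J) +
          4 / (N : ℝ) * (C * J / (N : ℝ) ^ 2 * (1 + 8 / (N : ℝ)) ^ J) +
          C / (N : ℝ) ^ 2 * (1 + 8 / (N : ℝ)) ^ (J + 1) := by
        push_cast
        ring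
      rw [h7]
      linarith

/-- lower comparison over `J` steps; `G j k` is the value at time `j`, level `k` -/
theorem lower_iter (hN : 2 ≤ N) {A : ℝ} (hA : 0 ≤ A) (G : ℕ → ℕ → ℝ) (x : Fin N → ℕ)
    (h0 : ∀ j k, 0 ≤ G j k) (h1 : ∀ j k, G j (k + 1) ≤ G j k) (h2 : ∀ j k, G j k ≤ 1)
    (hinc : ∀ j k, G (j + 1) (k + 1) ≤ G j (k + 1) +
      2 / N * ((G j k - G j (k + 1)) * G j k) + A / (N : ℝ) ^ 2)
    (habs : ∀ j k, |G (j + 1) k - G j k| ≤ A / N)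
    (hini : ∀ k, G 0 k ≤ frac k x) (J k : ℕ) :
    (avg N)^[J] (fun y => (max (G J k - frac k y) 0) ^ 2) x ≤
      (2 * (A + 4) + (A + 2) ^ 2) * J / (N : ℝ) ^ 2 * (1 + 8 / (N : ℝ)) ^ J := by
  refine iter_core hN (by positivity) (fun j k y => (max (G j k - frac k y) 0) ^ 2) x ?_ ?_ ?_ J k
  · intro j y
    rw [frac_zero hN, max_eq_right (by linarith [h2 j 0])]
    norm_num
  · intro k
    rw [max_eq_right (by linarith [hini k])]
    norm_num
  · intro j k y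
    have := lower_step hN y k hA (h0 j (k + 1)) (h1 j k) (h2 j k) (hinc j k) (habs j (k + 1))
    linarith

/-- upper comparison over `J` steps -/
theorem upper_iter (hN : 2 ≤ N) {A : ℝ} (hA : 0 ≤ A) (G : ℕ → ℕ → ℝ) (x : Fin N → ℕ)
    (h0 : ∀ j k, 0 ≤ G j k) (h1 : ∀ j k, G j (k + 1) ≤ G j k) (h2 : ∀ j, 1 ≤ G j 0)
    (hinc : ∀ j k, G j (k + 1) + 2 / N * ((G j k - G j (k + 1)) * G j k) - A / (N : ℝ) ^ 2 ≤
      G (j + 1) (k + 1))
    (habs : ∀ j k, |G (j + 1) k - G j k| ≤ A / N)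
    (hini : ∀ k, frac k x ≤ G 0 k) (J k : ℕ) :
    (avg N)^[J] (fun y => (max (frac k y - G J k) 0) ^ 2) x ≤
      (2 * (A + 4) + (A + 2) ^ 2) * J / (N : ℝ) ^ 2 * (1 + 8 / (N : ℝ)) ^ J := by
  refine iter_core hN (by positivity) (fun j k y => (max (frac k y - G j k) 0) ^ 2) x ?_ ?_ ?_ J k
  · intro j y
    rw [frac_zero hN, max_eq_right (by linarith [h2 j])]
    norm_num
  · intro k
    rw [max_eq_right (by linarith [hini k])]
    norm_num
  · intro j k y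
    have := upper_step hN y k hA (h0 j (k + 1)) (h1 j k) (hinc j k) (habs j (k + 1))
    linarith

end Pool.Agent.Counters
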