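import Pool.Agent.Lib.Counters.Series

/-!
Chunk C (Crit): the functions `f_q(x) = B q (exp (-(log q) x))`, and existence of a critical `q`.

Put `λ = -log q > 0`, `c = speed q = 2(1-q)/λ ∈ (0,2)`, `f(x) = B q (exp (λ x))`, so that
`f(x-1) = B q (q exp(λ x))`, `f' = λ E B'(E)`, hence `c f'(x) = -2 f(x-1) (f(x-1) - f(x))` for all `x`,
`f → 1` at `-∞`, and `f' < 0` near `-∞` (as `B' (0) = -1`).

(1) If `f > 0` on `(-∞, X)` then `f' < 0` on `(-∞, X+1)` (first point where `f' ≥ 0`; there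
`f(x-1) > f(x)` and `f(x-1) > 0`).
(2) Z: if `B q E < 0` for some `E > 0` let `x₀` be the first zero; then `f` is antitone on `(-∞,x₀]`,
`f(x₀) = 0`: this is the hypothesis `hinf` of `sub_profile_of`.
(3) P (trap): if `f > 0` on `(-∞, x₀]` and `f(x₀-1)² < (c/2) f(x₀)`, then `f ≥ L/c` on `[x₀,∞)` with
`L = c f(x₀) - 2 f(x₀-1)² > 0`: as long as `f > 0` (so `f` decreasing) on `(-∞,x]`, the function
`z ↦ c f(z) - 2 f(x₀-1) (Φ z - Φ(z-1))` (`Φ` a primitive of `f`) is monotone on `[x₀,x]`, since its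
derivative is `2 (f(x₀-1) - f(z-1)) (f(z-1) - f(z)) ≥ 0`, and `Φ x₀ - Φ(x₀-1) ≤ f(x₀-1)`.
(4) if neither Z nor P holds then `f > 0` everywhere (a zero would be a sign change because
`f' < 0` there), `f` is decreasing, and its limit `ℓ` satisfies `(c/2) ℓ ≤ ℓ²`, so `ℓ = 0` or
`ℓ ≥ c/2`. The second is impossible: `J(x) = f(x) - (Φ x - Φ(x-1))` has
`J' = (f(x-1)-f(x)) (1 - (2/c) f(x-1)) ≤ 0`, `J → 0` at `-∞` and at `+∞`, so `J = 0` and
`f(x-1) = c/2` for all `x`, contradiction with `f → 1` and `c < 2`.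
(5) Z and P are open subsets of `(0,1)` (joint continuity, tube lemma for P), disjoint by (3), and
nonempty by hypothesis; `(0,1)` is connected, so some `q` is in neither.
-/

namespace Pool.Agent.Counters

open Filter Topology Set

/-! ### Abstract solutions -/

/-- solution of the delay equation starting from `1` at `-∞`, decreasing near `-∞` -/
structure Sol (c : ℝ) (f : ℝ → ℝ) : Prop where
  hc : 0 < c
  ode : ∀ x, HasDerivAt f (-(2 / c) * (f (x - 1) * (f (x - 1) - f x))) x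
  left : Tendsto f atBot (𝓝 1)
  start : ∃ x0, ∀ x ≤ x0, f x < f (x - 1)

namespace Sol

variable {c : ℝ} {f : ℝ → ℝ}

theorem cont (h : Sol c f) : Continuous f :=
  continuous_iff_continuousAt.2 fun x => (h.ode x).continuousAt

theorem strict_of_lt (h : Sol c f) (X : ℝ) (hpos : ∀ x < X, 0 < f (x - 1))
    (hlt : ∀ x < X, f x < f (x - 1)) : StrictAntiOn f (Iic X) := by
  apply strictAntiOn_of_deriv_neg (convex_Iic X) h.cont.continuousOn
  intro x hx
  rw [interior_Iic] at hx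
  rw [(h.ode x).deriv]
  have h1 := hpos x hx
  have h2 := hlt x hx
  have h3 : 0 < 2 / c := div_pos (by norm_num) h.hc
  have h4 : 0 < f (x - 1) * (f (x - 1) - f x) := mul_pos h1 (by linarith)
  have := mul_pos h3 h4
  linarith

/-- (1) -/
theorem step (h : Sol c f) (X : ℝ) (hpos : ∀ x < X, 0 < f x) : ∀ x < X + 1, f x < f (x - 1) := by
  by_contra hcon
  push Not at hcon
  obtain ⟨x1, hx1, hx1'⟩ := hcon
  obtain ⟨x0, hx0⟩ := h.start
  set S : Set ℝ := {x | f (x - 1) ≤ f x} with hS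
  have hclosed : IsClosed S :=
    isClosed_le (h.cont.comp (continuous_id.sub continuous_const)) h.cont
  have hne : S.Nonempty := ⟨x1, hx1'⟩
  have hbdd : BddBelow S := ⟨x0, fun x hx => by
    by_contra hlt
    push Not at hlt
    exact absurd (hx0 x hlt.le) (not_lt.2 hx)⟩
  have hmem := hclosed.csInf_mem hne hbdd
  have hle : sInf S ≤ x1 := csInf_le hbdd hx1'
  have hanti := h.strict_of_lt (sInf S) (fun x hx => hpos _ (by linarith)) (fun x hx => by
    by_contra hge
    push Not at hge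
    exact absurd (csInf_le hbdd hge) (not_le.2 hx))
  have h1 := hanti (a := sInf S - 1) (b := sInf S) (by simp) (by simp) (by linarith)
  exact absurd h1 (not_lt.2 hmem)

theorem strict (h : Sol c f) (X : ℝ) (hpos : ∀ x < X, 0 < f x) : StrictAntiOn f (Iic (X + 1)) :=
  h.strict_of_lt (X + 1) (fun _ hx => hpos _ (by linarith)) (h.step X hpos)

/-- the first zero -/
theorem first_zero (h : Sol c f) (hz : ∃ x, f x ≤ 0) : ∃ X, f X = 0 ∧ ∀ x < X, 0 < f x := by
  set S : Set ℝ := {x | f x ≤ 0} with hS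
  have hclosed : IsClosed S := isClosed_le h.cont continuous_const
  obtain ⟨a, ha⟩ : ∃ a, ∀ x ≤ a, 0 < f x :=
    (h.left.eventually (lt_mem_nhds (by norm_num : (0 : ℝ) < 1))).exists_forall_of_atBot
  have hbdd : BddBelow S := ⟨a, fun x hx => by
    by_contra hlt
    push Not at hlt
    exact absurd (ha x hlt.le) (not_lt.2 hx)⟩
  have hmem := hclosed.csInf_mem hz hbdd
  have hpos : ∀ x < sInf S, 0 < f x := by
    intro x hx
    by_contra hle
    push Not at hle
    exact absurd (csInf_le hbdd hle) (not_le.2 hx)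
  refine ⟨sInf S, le_antisymm hmem ?_, hpos⟩
  have h1 : closure (Iio (sInf S)) ⊆ {x | 0 ≤ f x} :=
    closure_minimal (fun x hx => (hpos x hx).le) (isClosed_le continuous_const h.cont)
  rw [closure_Iio] at h1
  exact h1 (mem_Iic.2 le_rfl)

/-- the primitive -/
theorem prim (h : Sol c f) (x : ℝ) : HasDerivAt (fun u => ∫ t in (0 : ℝ)..u, f t) (f x) x :=
  (h.cont.integral_hasStrictDerivAt 0 x).hasDerivAt

theorem prim_mvt (h : Sol c f) (x : ℝ) :
    ∃ z ∈ Ioo (x - 1) x, f z = (∫ t in (0 : ℝ)..x, f t) - ∫ t in (0 : ℝ)..(x - 1), f t := by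
  obtain ⟨z, hz, hz'⟩ := exists_hasDerivAt_eq_slope (fun u => ∫ t in (0 : ℝ)..u, f t) f
    (by linarith : x - 1 < x) (fun y _ => (h.prim y).continuousAt.continuousWithinAt)
    (fun y _ => h.prim y)
  refine ⟨z, hz, ?_⟩
  rw [hz']
  have : x - (x - 1) = 1 := by ring
  rw [this, div_one]

/-- (3) the trap: the estimate -/
theorem trap_aux (h : Sol c f) (x0 x : ℝ) (hx : x0 ≤ x) (hpos : ∀ y ≤ x, 0 < f y) :
    c * f x0 - 2 * f (x0 - 1) ^ 2 ≤ c * f x := by
  set K : ℝ := f (x0 - 1) with hK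
  have hK0 : 0 < K := hpos _ (by linarith)
  have hanti : StrictAntiOn f (Iic (x + 1)) := h.strict x fun y hy => hpos y hy.le
  set Φ : ℝ → ℝ := fun u => ∫ t in (0 : ℝ)..u, f t with hΦ
  have hder : ∀ z, HasDerivAt (fun z => c * f z - 2 * K * (Φ z - Φ (z - 1)))
      (c * (-(2 / c) * (f (z - 1) * (f (z - 1) - f z))) - 2 * K * (f z - f (z - 1))) z := by
    intro z
    have h1 := (h.ode z).const_mul c
    have h2 := h.prim z
    have h3 : HasDerivAt (fun z => Φ (z - 1)) (f (z - 1)) z := by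
      exact (h.prim (z - 1)).comp_sub_const z 1
    exact h1.sub ((h2.sub h3).const_mul (2 * K))
  have hmono : MonotoneOn (fun z => c * f z - 2 * K * (Φ z - Φ (z - 1))) (Icc x0 x) := by
    apply monotoneOn_of_deriv_nonneg (convex_Icc x0 x)
    · exact fun z _ => (hder z).continuousAt.continuousWithinAt
    · exact fun z _ => (hder z).differentiableAt.differentiableWithinAt
    · intro z hz
      rw [interior_Icc] at hz
      rw [(hder z).deriv]
      have hc := h.hc
      have e : c * (-(2 / c) * (f (z - 1) * (f (z - 1) - f z))) - 2 * K * (f z - f (z - 1)) =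
          2 * ((K - f (z - 1)) * (f (z - 1) - f z)) := by
        field_simp
        ring
      rw [e]
      have h1 : f (z - 1) < K :=
        hanti (a := x0 - 1) (b := z - 1) (by simp only [mem_Iic]; linarith)
          (by simp only [mem_Iic]; linarith [hz.2]) (by linarith [hz.1])
      have h2 : f z < f (z - 1) :=
        hanti (a := z - 1) (b := z) (by simp only [mem_Iic]; linarith [hz.2])
          (by simp only [mem_Iic]; linarith [hz.2]) (by linarith)
      have := mul_pos (sub_pos.2 h1) (sub_pos.2 h2)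
      linarith
  have h1 := hmono (left_mem_Icc.2 hx) (right_mem_Icc.2 hx) hx
  simp only at h1
  obtain ⟨z1, hz1, e1⟩ := h.prim_mvt x0
  obtain ⟨z2, hz2, e2⟩ := h.prim_mvt x
  have h2 : f z1 < K := hanti (a := x0 - 1) (b := z1) (by simp only [mem_Iic]; linarith)
    (by simp only [mem_Iic]; linarith [hz1.2]) hz1.1
  have h3 : 0 < f z2 := hpos _ hz2.2.le
  have e1' : Φ x0 - Φ (x0 - 1) = f z1 := e1.symm
  have e2' : Φ x - Φ (x - 1) = f z2 := e2.symm
  rw [e1', e2'] at h1
  nlinarith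

/-- (3) the trap -/
theorem trap (h : Sol c f) (x0 : ℝ) (hpos : ∀ x ≤ x0, 0 < f x)
    (htrap : f (x0 - 1) ^ 2 < c / 2 * f x0) : ∃ a, 0 < a ∧ ∀ x, a ≤ f x := by
  have hc := h.hc
  set L : ℝ := c * f x0 - 2 * f (x0 - 1) ^ 2 with hL
  have hL0 : 0 < L := by rw [hL]; linarith
  have hest : ∀ x, x0 ≤ x → (∀ y ≤ x, 0 < f y) → L / c ≤ f x := by
    intro x hx hy
    rw [div_le_iff₀ hc]
    have := h.trap_aux x0 x hx hy
    linarith
  have hall : ∀ x, 0 < f x := by
    by_contra hcon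
    push Not at hcon
    obtain ⟨X, hX, hX'⟩ := h.first_zero hcon
    have hxX : x0 < X := by
      by_contra hle
      push Not at hle
      have := hpos X hle
      linarith
    have h1 : closure (Ico x0 X) ⊆ {x | L / c ≤ f x} :=
      closure_minimal (fun x hx => hest x hx.1 fun y hy => hX' y (lt_of_le_of_lt hy hx.2))
        (isClosed_le continuous_const h.cont)
    rw [closure_Ico hxX.ne] at h1
    have h2 : L / c ≤ f X := h1 ⟨hxX.le, le_rfl⟩
    rw [hX] at h2
    have : 0 < L / c := by positivity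
    linarith
  refine ⟨L / c, by positivity, fun x => ?_⟩
  rcases le_total x0 x with hx | hx
  · exact hest x hx fun y _ => hall y
  · refine (hest x0 le_rfl fun y _ => hall y).trans ?_
    exact (h.strict x0 fun y _ => hall y).antitoneOn (by simp only [mem_Iic]; linarith)
      (by simp only [mem_Iic]; linarith) hx

theorem strictAnti (h : Sol c f) (hpos : ∀ x, 0 < f x) : StrictAnti f := by
  intro x y hxy
  exact (h.strict y fun z _ => hpos z) (by simp only [mem_Iic]; linarith)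
    (by simp only [mem_Iic]; linarith) hxy

theorem lt_one (h : Sol c f) (hpos : ∀ x, 0 < f x) (x : ℝ) : f x < 1 := by
  have hanti := h.strictAnti hpos
  have h1 : f (x - 1) ≤ 1 := by
    refine ge_of_tendsto h.left ?_
    filter_upwards [eventually_le_atBot (x - 1)] with y hy
    exact hanti.antitone hy
  exact lt_of_lt_of_le (hanti (by linarith)) h1

/-- (4) -/
theorem right_of_not (h : Sol c f) (hpos : ∀ x, 0 < f x)
    (hnot : ∀ x, c / 2 * f x ≤ f (x - 1) ^ 2) : Tendsto f atTop (𝓝 0) := by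
  have hanti := h.strictAnti hpos
  have hc := h.hc
  have hbdd : BddBelow (range f) := ⟨0, by rintro _ ⟨x, rfl⟩; exact (hpos x).le⟩
  have hlim : Tendsto f atTop (𝓝 (⨅ x, f x)) := tendsto_atTop_ciInf hanti.antitone hbdd
  set ℓ : ℝ := ⨅ x, f x with hℓ
  have hℓ0 : 0 ≤ ℓ := le_ciInf fun x => (hpos x).le
  have hℓlt : ∀ x, ℓ < f x := fun x =>
    lt_of_le_of_lt (ciInf_le hbdd (x + 1)) (hanti (by linarith))
  have hlim1 : Tendsto (fun x => f (x - 1)) atTop (𝓝 ℓ) :=
    hlim.comp (tendsto_atTop_add_const_right atTop (-1) tendsto_id)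
  have hineq : c / 2 * ℓ ≤ ℓ ^ 2 :=
    le_of_tendsto_of_tendsto' (hlim.const_mul (c / 2)) (hlim1.pow 2) hnot
  rcases hℓ0.eq_or_lt with h0 | h0
  · rw [← h0] at hlim
    exact hlim
  · exfalso
    have hℓc : c / 2 ≤ ℓ := by
      have : c / 2 * ℓ ≤ ℓ * ℓ := by rw [← pow_two]; exact hineq
      exact le_of_mul_le_mul_right this h0
    set Φ : ℝ → ℝ := fun u => ∫ t in (0 : ℝ)..u, f t with hΦ
    have hder : ∀ z, HasDerivAt (fun z => f z - (Φ z - Φ (z - 1)))
        (-(2 / c) * (f (z - 1) * (f (z - 1) - f z)) - (f z - f (z - 1))) z := by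
      intro z
      have h2 := h.prim z
      have h3 : HasDerivAt (fun z => Φ (z - 1)) (f (z - 1)) z := by
        exact (h.prim (z - 1)).comp_sub_const z 1
      exact (h.ode z).sub (h2.sub h3)
    have hJ : StrictAnti (fun z => f z - (Φ z - Φ (z - 1))) := by
      apply strictAnti_of_deriv_neg
      intro z
      rw [(hder z).deriv]
      have e : -(2 / c) * (f (z - 1) * (f (z - 1) - f z)) - (f z - f (z - 1)) =
          (f (z - 1) - f z) * (1 - 2 / c * f (z - 1)) := by ring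
      rw [e]
      have h1 : f z < f (z - 1) := hanti (by linarith)
      have h2 : 1 < 2 / c * f (z - 1) := by
        have h3 : c / 2 < f (z - 1) := lt_of_le_of_lt hℓc (hℓlt _)
        calc (1 : ℝ) = 2 / c * (c / 2) := by field_simp
          _ < 2 / c * f (z - 1) := by gcongr
      exact mul_neg_of_pos_of_neg (by linarith) (by linarith)
    have hbound : ∀ z, f z - f (z - 1) ≤ f z - (Φ z - Φ (z - 1)) ∧
        f z - (Φ z - Φ (z - 1)) ≤ 0 := by
      intro z
      obtain ⟨w, hw, e⟩ := h.prim_mvt z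
      have e' : Φ z - Φ (z - 1) = f w := e.symm
      rw [e']
      have h1 := hanti hw.1
      have h2 := hanti hw.2
      constructor <;> linarith
    have hJlim : Tendsto (fun z => f z - (Φ z - Φ (z - 1))) atTop (𝓝 0) := by
      have h1 : Tendsto (fun z => f z - f (z - 1)) atTop (𝓝 0) := by
        have := hlim.sub hlim1
        rwa [sub_self] at this
      exact tendsto_of_tendsto_of_tendsto_of_le_of_le h1 tendsto_const_nhds
        (fun z => (hbound z).1) (fun z => (hbound z).2)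
    have h1 : (fun z => f z - (Φ z - Φ (z - 1))) 1 < (fun z => f z - (Φ z - Φ (z - 1))) 0 :=
      hJ (by norm_num)
    have h2 : (fun z => f z - (Φ z - Φ (z - 1))) 0 ≤ 0 := (hbound 0).2
    have h3 : (0 : ℝ) ≤ (fun z => f z - (Φ z - Φ (z - 1))) 1 := by
      refine le_of_tendsto hJlim ?_
      filter_upwards [eventually_ge_atTop (1 : ℝ)] with y hy
      exact hJ.antitone hy
    linarith

/-- no sign change and no zero -/
theorem pos_of_nonneg (h : Sol c f) (hnn : ∀ x, 0 ≤ f x) : ∀ x, 0 < f x := by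
  by_contra hcon
  push Not at hcon
  obtain ⟨X, hX, hX'⟩ := h.first_zero hcon
  have h1 := (h.strict X hX') (a := X) (b := X + 1) (by simp only [mem_Iic]; linarith)
    (by simp only [mem_Iic]; linarith) (by linarith)
  have h2 := hnn (X + 1)
  linarith

end Sol

/-! ### The profiles `f_q` -/

/-- the profile belonging to `q` -/
noncomputable def fq (q x : ℝ) : ℝ := B q (Real.exp (-(Real.log q) * x))

theorem neg_log_pos {q : ℝ} (hq : 0 < q) (hq1 : q < 1) : 0 < -Real.log q := by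
  have := Real.log_neg hq hq1
  linarith

theorem speed_pos {q : ℝ} (hq : 0 < q) (hq1 : q < 1) : 0 < speed q := by
  unfold speed
  have h1 := neg_log_pos hq hq1
  have h2 : 0 < 1 - q := by linarith
  positivity

theorem fq_shift {q : ℝ} (hq : 0 < q) (x : ℝ) :
    fq q (x - 1) = B q (q * Real.exp (-(Real.log q) * x)) := by
  unfold fq
  congr 1
  have : -(Real.log q) * (x - 1) = Real.log q + -(Real.log q) * x := by ring
  rw [this, Real.exp_add, Real.exp_log hq]

theorem fq_ode {q : ℝ} (hq : 0 < q) (hq1 : q < 1) (x : ℝ) :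
    HasDerivAt (fq q) (-(2 / speed q) * (fq q (x - 1) * (fq q (x - 1) - fq q x))) x := by
  obtain ⟨D, hD, hD'⟩ := B_deriv q hq hq1 (Real.exp (-(Real.log q) * x))
  have h1 : HasDerivAt (fun x : ℝ => Real.exp (-(Real.log q) * x))
      (Real.exp (-(Real.log q) * x) * (-(Real.log q) * 1)) x :=
    ((hasDerivAt_id x).const_mul (-(Real.log q))).exp
  have h2 := hD.comp x h1
  have hl := neg_log_pos hq hq1
  have hq' : 0 < 1 - q := by linarith
  refine h2.congr_deriv ?_
  rw [fq_shift hq]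
  change D * (Real.exp (-(Real.log q) * x) * (-(Real.log q) * 1)) = -(2 / speed q) *
    (B q (q * Real.exp (-(Real.log q) * x)) * (B q (q * Real.exp (-(Real.log q) * x)) -
      B q (Real.exp (-(Real.log q) * x))))
  have e : B q (q * Real.exp (-(Real.log q) * x)) * (B q (q * Real.exp (-(Real.log q) * x)) -
      B q (Real.exp (-(Real.log q) * x))) = -((1 - q) * (Real.exp (-(Real.log q) * x) * D)) := by
    rw [hD']; ring
  rw [e]
  unfold speed
  have hl' : Real.log q ≠ 0 := by linarith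
  field_simp

theorem fq_left {q : ℝ} (hq : 0 < q) (hq1 : q < 1) : Tendsto (fq q) atBot (𝓝 1) := by
  have hl := neg_log_pos hq hq1
  have h1 : Tendsto (fun x : ℝ => Real.exp (-(Real.log q) * x)) atBot (𝓝 0) :=
    Real.tendsto_exp_atBot.comp (tendsto_id.const_mul_atBot hl)
  have h2 : Tendsto (B q) (𝓝 0) (𝓝 (B q 0)) := (B_deriv_zero q hq hq1).continuousAt
  rw [B_zero] at h2
  exact h2.comp h1

theorem B_start {q : ℝ} (hq : 0 < q) (hq1 : q < 1) :
    ∃ e, 0 < e ∧ ∀ E, 0 < E → E ≤ e → B q E < B q (q * E) := by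
  have h := B_deriv_zero q hq hq1
  have h1 : HasDerivAt (fun E => B q (q * E) - B q E) (1 - q) 0 := by
    have h2 : HasDerivAt (fun E : ℝ => q * E) q 0 := by
      simpa using (hasDerivAt_id (0 : ℝ)).const_mul q
    have h3 : HasDerivAt (B q) (-1) (q * 0) := by rw [mul_zero]; exact h
    have h4 := (h3.comp (0 : ℝ) h2).sub h
    refine h4.congr_deriv ?_
    ring
  rw [hasDerivAt_iff_tendsto_slope] at h1
  have h5 : ∀ᶠ E in 𝓝[≠] (0 : ℝ), 0 < slope (fun E => B q (q * E) - B q E) 0 E :=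
    h1.eventually (lt_mem_nhds (by linarith))
  rw [eventually_nhdsWithin_iff, Metric.eventually_nhds_iff] at h5
  obtain ⟨e, he, h6⟩ := h5
  refine ⟨e / 2, by positivity, fun E hE hEe => ?_⟩
  have h7 := h6 (y := E) (by rw [Real.dist_eq, sub_zero, abs_of_pos hE]; linarith) (by
    simp only [mem_compl_iff, mem_singleton_iff]
    exact hE.ne')
  rw [slope_def_field] at h7
  simp only [mul_zero, sub_self, sub_zero] at h7
  have h8 := (div_pos_iff_of_pos_right hE).1 h7
  linarith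

theorem fq_sol {q : ℝ} (hq : 0 < q) (hq1 : q < 1) : Sol (speed q) (fq q) := by
  refine ⟨speed_pos hq hq1, fq_ode hq hq1, fq_left hq hq1, ?_⟩
  obtain ⟨e, he, h⟩ := B_start hq hq1
  have hl := neg_log_pos hq hq1
  refine ⟨Real.log e / (-Real.log q), fun x hx => ?_⟩
  rw [fq_shift hq]
  apply h _ (Real.exp_pos _)
  rw [le_div_iff₀ hl] at hx
  calc Real.exp (-(Real.log q) * x) ≤ Real.exp (Real.log e) := by
        apply Real.exp_le_exp.2
        linarith
    _ = e := Real.exp_log he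

theorem exp_surj {q : ℝ} (hq : 0 < q) (hq1 : q < 1) {E : ℝ} (hE : 0 < E) :
    Real.exp (-(Real.log q) * (Real.log E / (-Real.log q))) = E := by
  have hl := neg_log_pos hq hq1
  rw [mul_div_cancel₀ _ hl.ne', Real.exp_log hE]

/-- Z gives the hypothesis of `sub_profile_of` -/
theorem fq_of_neg {q : ℝ} (hq : 0 < q) (hq1 : q < 1) (hZ : ∃ E, 0 < E ∧ B q E < 0) :
    ∃ X, AntitoneOn (fq q) (Iic X) ∧ fq q X = 0 := by
  obtain ⟨E, hE, hE'⟩ := hZ
  have hsol := fq_sol hq hq1
  obtain ⟨X, hX, hX'⟩ := hsol.first_zero ⟨Real.log E / (-Real.log q), by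
    unfold fq
    rw [exp_surj hq hq1 hE]
    exact hE'.le⟩
  refine ⟨X, ?_, hX⟩
  exact (hsol.strict X hX').antitoneOn.mono (Iic_subset_Iic.2 (by linarith))

theorem fq_trap {q : ℝ} (hq : 0 < q) (hq1 : q < 1)
    (hP : ∃ E, 0 < E ∧ (∀ E', 0 < E' → E' ≤ E → 0 < B q E') ∧
      (B q (q * E)) ^ 2 < speed q / 2 * B q E) :
    ∃ a, 0 < a ∧ ∀ x, a ≤ fq q x := by
  obtain ⟨E, hE, hE1, hE2⟩ := hP
  have hsol := fq_sol hq hq1
  have hl := neg_log_pos hq hq1
  refine hsol.trap (Real.log E / (-Real.log q)) (fun x hx => ?_) ?_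
  · apply hE1 _ (Real.exp_pos _)
    rw [le_div_iff₀ hl] at hx
    calc Real.exp (-(Real.log q) * x) ≤ Real.exp (Real.log E) := by
          apply Real.exp_le_exp.2
          linarith
      _ = E := Real.exp_log hE
  · rw [fq_shift hq, exp_surj hq hq1 hE]
    unfold fq
    rw [exp_surj hq hq1 hE]
    exact hE2

/-- P gives the hypotheses of `super_profile_of_floor` -/
theorem fq_of_trap {q : ℝ} (hq : 0 < q) (hq1 : q < 1)
    (hP : ∃ E, 0 < E ∧ (∀ E', 0 < E' → E' ≤ E → 0 < B q E') ∧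
      (B q (q * E)) ^ 2 < speed q / 2 * B q E) :
    Antitone (fq q) ∧ (∃ a, 0 < a ∧ ∀ x, a ≤ fq q x) ∧ ∃ x, fq q x < 1 := by
  have h := fq_trap hq hq1 hP
  obtain ⟨a, ha, ha'⟩ := h
  have hpos : ∀ x, 0 < fq q x := fun x => lt_of_lt_of_le ha (ha' x)
  have hsol := fq_sol hq hq1
  exact ⟨(hsol.strictAnti hpos).antitone, ⟨a, ha, ha'⟩, 0, hsol.lt_one hpos 0⟩

theorem speed_cont : ContinuousOn speed (Ioo 0 1) := by
  unfold speed
  apply ContinuousOn.div
  · fun_prop
  · apply ContinuousOn.neg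
    exact Real.continuousOn_log.mono fun q hq => by
      simp only [mem_compl_iff, mem_singleton_iff]
      exact hq.1.ne'
  · intro q hq
    exact (neg_log_pos hq.1 hq.2).ne'

/-- slices of `B` are continuous in `q` -/
theorem B_cont_left (g : ℝ → ℝ) (hg : Continuous g) : ContinuousOn (fun q => B q (g q)) (Ioo 0 1) := by
  have h : ContinuousOn (fun q : ℝ => ((q, g q) : ℝ × ℝ)) (Ioo 0 1) :=
    (continuous_id.prodMk hg).continuousOn
  exact B_cont.comp h fun q hq => ⟨hq, mem_univ _⟩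

theorem open_Z : IsOpen {q : ℝ | q ∈ Ioo (0 : ℝ) 1 ∧ ∃ E, 0 < E ∧ B q E < 0} := by
  rw [isOpen_iff_mem_nhds]
  rintro q ⟨hq, E, hE, hE'⟩
  have h1 := (B_cont_left (fun _ => E) continuous_const).continuousAt (isOpen_Ioo.mem_nhds hq)
  filter_upwards [h1.eventually (gt_mem_nhds hE'), isOpen_Ioo.mem_nhds hq] with q' h2 h3
  exact ⟨h3, E, hE, h2⟩

theorem open_P : IsOpen {q : ℝ | q ∈ Ioo (0 : ℝ) 1 ∧
    ∃ E, 0 < E ∧ (∀ E', 0 < E' → E' ≤ E → 0 < B q E') ∧
      (B q (q * E)) ^ 2 < speed q / 2 * B q E} := by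
  rw [isOpen_iff_mem_nhds]
  rintro q ⟨hq, E, hE, hE1, hE2⟩
  have hnh := isOpen_Ioo.mem_nhds hq
  have h1 := (B_cont_left (fun _ => E) continuous_const).continuousAt hnh
  have h2 := (B_cont_left (fun q => q * E) (by fun_prop)).continuousAt hnh
  have h3 := speed_cont.continuousAt hnh
  have h4 : ∀ᶠ q' in 𝓝 q, (B q' (q' * E)) ^ 2 < speed q' / 2 * B q' E :=
    (h2.pow 2).eventually_lt ((h3.div_const 2).mul h1) hE2
  -- positivity on the compact interval
  have hopen : IsOpen ((Ioo (0 : ℝ) 1 ×ˢ univ) ∩ (fun p : ℝ × ℝ => B p.1 p.2) ⁻¹' (Ioi 0)) :=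
    B_cont.isOpen_inter_preimage (isOpen_Ioo.prod isOpen_univ) isOpen_Ioi
  obtain ⟨u, v, hu, _, hqu, hv, huv⟩ := generalized_tube_lemma (s := {q}) isCompact_singleton
    (t := Icc 0 E) isCompact_Icc hopen (by
      rintro ⟨q', E'⟩ ⟨h5, h6⟩
      have h7 : q' = q := h5
      subst h7
      refine ⟨⟨hq, mem_univ _⟩, ?_⟩
      simp only [mem_preimage, mem_Ioi]
      rcases h6.1.eq_or_lt with h8 | h8
      · simp only at h8
        rw [← h8, B_zero]
        norm_num
      · exact hE1 E' h8 h6.2)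
  have hu' : u ∈ 𝓝 q := hu.mem_nhds (hqu rfl)
  filter_upwards [h4, hnh, hu'] with q' h5 h6 h7
  refine ⟨h6, E, hE, fun E' hE' hE'' => ?_, h5⟩
  have h8 : ((q', E') : ℝ × ℝ) ∈ u ×ˢ v := ⟨h7, hv ⟨hE'.le, hE''⟩⟩
  exact (huv h8).2

/-- existence of the critical `q` -/
theorem exists_critical
    (hZ : ∃ q, 0 < q ∧ q < 1 ∧ ∃ E, 0 < E ∧ B q E < 0)
    (hP : ∃ q, 0 < q ∧ q < 1 ∧ ∃ E, 0 < E ∧ (∀ E', 0 < E' → E' ≤ E → 0 < B q E') ∧
      (B q (q * E)) ^ 2 < speed q / 2 * B q E) :
    ∃ q, 0 < q ∧ q < 1 ∧ (∀ E, 0 < E → 0 < B q E) ∧ Tendsto (B q) atTop (𝓝 0) := by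
  set Z : Set ℝ := {q : ℝ | q ∈ Ioo (0 : ℝ) 1 ∧ ∃ E, 0 < E ∧ B q E < 0} with hZdef
  set P : Set ℝ := {q : ℝ | q ∈ Ioo (0 : ℝ) 1 ∧
    ∃ E, 0 < E ∧ (∀ E', 0 < E' → E' ≤ E → 0 < B q E') ∧
      (B q (q * E)) ^ 2 < speed q / 2 * B q E} with hPdef
  obtain ⟨q, hq, hqZ, hqP⟩ : ∃ q ∈ Ioo (0 : ℝ) 1, q ∉ Z ∧ q ∉ P := by
    by_contra hcon
    push Not at hcon
    have hconn : IsPreconnected (Ioo (0 : ℝ) 1) := isPreconnected_Ioo
    obtain ⟨q1, h1, h1', h1''⟩ := hZ
    obtain ⟨q2, h2, h2', h2''⟩ := hP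
    obtain ⟨q, hq, hqZ, hqP⟩ := hconn Z P open_Z open_P (fun q hq => by
      by_cases h : q ∈ Z
      · exact Or.inl h
      · exact Or.inr (hcon q hq h)) ⟨q1, ⟨h1, h1'⟩, ⟨h1, h1'⟩, h1''⟩
      ⟨q2, ⟨h2, h2'⟩, ⟨h2, h2'⟩, h2''⟩
    obtain ⟨a, ha, ha'⟩ := fq_trap hq.1 hq.2 hqP.2
    obtain ⟨E, hE, hE'⟩ := hqZ.2
    have h3 := ha' (Real.log E / (-Real.log q))
    unfold fq at h3
    rw [exp_surj hq.1 hq.2 hE] at h3
    linarith
  have hsol := fq_sol hq.1 hq.2
  have hl := neg_log_pos hq.1 hq.2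
  have hnn : ∀ x, 0 ≤ fq q x := by
    intro x
    by_contra hlt
    push Not at hlt
    exact hqZ ⟨hq, _, Real.exp_pos _, hlt⟩
  have hpos := hsol.pos_of_nonneg hnn
  have hBpos : ∀ E, 0 < E → 0 < B q E := by
    intro E hE
    have := hpos (Real.log E / (-Real.log q))
    unfold fq at this
    rwa [exp_surj hq.1 hq.2 hE] at this
  have hlim := hsol.right_of_not hpos (fun x => by
    by_contra hlt
    push Not at hlt
    rw [fq_shift hq.1] at hlt
    exact hqP ⟨hq, _, Real.exp_pos _, fun E' hE' _ => hBpos E' hE', hlt⟩)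
  refine ⟨q, hq.1, hq.2, hBpos, ?_⟩
  have h1 : Tendsto (fun E : ℝ => Real.log E / (-Real.log q)) atTop atTop :=
    Real.tendsto_log_atTop.atTop_div_const hl
  have h2 := hlim.comp h1
  refine h2.congr' ?_
  filter_upwards [eventually_gt_atTop (0 : ℝ)] with E hE
  simp only [Function.comp, fq]
  rw [exp_surj hq.1 hq.2 hE]

/-- a critical `q` gives a wave -/
theorem isWave_of_critical {q : ℝ} (hq : 0 < q) (hq1 : q < 1) (hpos : ∀ E, 0 < E → 0 < B q E)
    (h0 : Tendsto (B q) atTop (𝓝 0)) : IsWave (speed q) (fq q) := by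
  have hsol := fq_sol hq hq1
  have hl := neg_log_pos hq hq1
  have hp : ∀ x, 0 < fq q x := fun x => hpos _ (Real.exp_pos _)
  refine ⟨(hsol.strictAnti hp).antitone, hp, hsol.ode, hsol.left, ?_⟩
  exact h0.comp (Real.tendsto_exp_atTop.comp (tendsto_id.const_mul_atTop hl))

/-- speeds are strictly increasing in `q` -/
theorem speed_strictMono : StrictMonoOn speed (Ioo 0 1) := by
  intro x hx y hy hxy
  have h := strictConcaveOn_log_Ioi.secant_strict_mono (a := 1) (x := x) (y := y)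
    (by simp) hx.1 hy.1 hx.2.ne hy.2.ne hxy
  rw [Real.log_one, sub_zero, sub_zero] at h
  have hlx := neg_log_pos hx.1 hx.2
  have hly := neg_log_pos hy.1 hy.2
  have hx1 : 0 < 1 - x := by linarith [hx.2]
  have hy1 : 0 < 1 - y := by linarith [hy.2]
  have e1 : Real.log y / (y - 1) = (-Real.log y) / (1 - y) := by
    rw [← neg_sub 1 y, div_neg, neg_div]
  have e2 : Real.log x / (x - 1) = (-Real.log x) / (1 - x) := by
    rw [← neg_sub 1 x, div_neg, neg_div]
  rw [e1, e2, div_lt_div_iff₀ hy1 hx1] at h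
  unfold speed
  rw [div_lt_div_iff₀ hlx hly]
  linarith

end Pool.Agent.Counters
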