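import Mathlib

/-!
Definitions for MP_4af50b_pr (limiting speed of the pairwise counter-update process).
-/

namespace Pool.Agent.Counters

open Finset Filter Topology

/-- The unordered pairs of distinct counters, written as pairs `(i, j)` with `i < j`. -/
def pairs (N : ℕ) : Finset (Fin N × Fin N) := univ.filter (fun p => p.1 < p.2)

/-- The update of the counters `i` and `j`: if their values differ the smaller one is increased
by one, if they are equal both are increased by one; all other counters are unchanged. -/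
def bump {N : ℕ} (x : Fin N → ℕ) (i j : Fin N) : Fin N → ℕ :=
  fun l => if (l = i ∧ x i ≤ x j) ∨ (l = j ∧ x j ≤ x i) then x l + 1 else x l

/-- One step of the chain, on functions: `avg N φ x` is the expected value of `φ` after one step
started from `x` (a uniformly chosen unordered pair is updated); `(avg N)^[n] φ x` is the expected
value of `φ` after `n` steps. -/
noncomputable def avg (N : ℕ) (φ : (Fin N → ℕ) → ℝ) (x : Fin N → ℕ) : ℝ :=
  (∑ p ∈ pairs N, φ (bump x p.1 p.2)) / ((pairs N).card : ℝ)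

/-- The total of all values. -/
def tot {N : ℕ} (x : Fin N → ℕ) : ℕ := ∑ l, x l

/-- `v` is the speed of the chain with `N` counters: from every initial state the expected number
of counters increased in the first `n` steps, divided by `n`, tends to `v`. -/
def IsSpeed (N : ℕ) (v : ℝ) : Prop :=
  ∀ x : Fin N → ℕ, Tendsto
    (fun n : ℕ => ((avg N)^[n] (fun y => (tot y : ℝ)) x - (tot x : ℝ)) / (n : ℝ)) atTop (𝓝 v)

/-- Number of counters with value at least `k`. -/
def cnt {N : ℕ} (k : ℕ) (x : Fin N → ℕ) : ℕ := (univ.filter (fun l => k ≤ x l)).card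

/-- Fraction of counters with value at least `k`. -/
noncomputable def frac {N : ℕ} (k : ℕ) (x : Fin N → ℕ) : ℝ := (cnt k x : ℝ) / (N : ℝ)

/-- Travelling waves with speed `c` of the mean-field equation
`F_k' = 2 (F_{k-1} - F_k) F_{k-1}`: `F_k(t) = f (k - c t)`. -/
structure IsWave (c : ℝ) (f : ℝ → ℝ) : Prop where
  anti : Antitone f
  pos : ∀ x, 0 < f x
  ode : ∀ x, HasDerivAt f (-(2 / c) * (f (x - 1) * (f (x - 1) - f x))) x
  left : Tendsto f atBot (𝓝 1)
  right : Tendsto f atTop (𝓝 0)

/-- Subsolution profile of speed `c`, vanishing to the right of `0`. -/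
structure SubProfile (c : ℝ) (g : ℝ → ℝ) : Prop where
  anti : Antitone g
  nonneg : ∀ x, 0 ≤ g x
  le_one : ∀ x, g x ≤ 1
  zero : ∀ x, 0 < x → g x = 0
  nontriv : ∃ K, 0 < g K
  step : ∃ A s0 : ℝ, 0 < s0 ∧ ∀ x s, 0 ≤ s → s ≤ s0 →
    g (x - s) ≤ g x + (2 / c) * s * (g (x - 1) * (g (x - 1) - g x)) + A * s ^ 2
  lip : ∃ A : ℝ, ∀ x s, 0 ≤ s → g (x - s) - g x ≤ A * s

/-- Supersolution profile of speed `c`, at least `1` to the left of `0` and bounded below by a
positive constant. -/
structure SuperProfile (c : ℝ) (h : ℝ → ℝ) : Prop where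
  anti : Antitone h
  one_le : ∀ x, x ≤ 0 → 1 ≤ h x
  floor : ∃ a, 0 < a ∧ ∀ x, a ≤ h x
  below : ∃ K, h K < 1
  step : ∃ A s0 : ℝ, 0 < s0 ∧ ∀ x s, 0 ≤ s → s ≤ s0 →
    h x + (2 / c) * s * (h (x - 1) * (h (x - 1) - h x)) - A * s ^ 2 ≤ h (x - s)
  lip : ∃ A : ℝ, ∀ x s, 0 ≤ s → h (x - s) - h x ≤ A * s

/-- Coefficients of the entire function describing the wave from its left end. -/
noncomputable def beta (q : ℝ) : ℕ → ℝ
  | 0 => 1
  | 1 => -1
  | (n + 2) => (∑ i : Fin (n + 1), q ^ (i.1 + 1) * (1 - q ^ (n + 1 - i.1)) *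
      beta q (i.1 + 1) * beta q (n + 1 - i.1)) / ((n + 2 : ℝ) * (1 - q) - (1 - q ^ (n + 2)))
  decreasing_by all_goals (have := i.2; omega)

/-- The entire function `B_q(E) = 1 - E + ...`; the wave is `f(x) = B_q(q^(-x))`. -/
noncomputable def B (q E : ℝ) : ℝ := ∑' n, beta q n * E ^ n

/-- The speed belonging to `q`. -/
noncomputable def speed (q : ℝ) : ℝ := 2 * (1 - q) / (-Real.log q)

end Pool.Agent.Counters
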