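import Pool.Agent.Lib.Counters.Defs

/-!
Rational bounds for the two speeds `speed (3521/10000)` and `speed (3522/10000)`.
-/

namespace Pool.Agent.Counters

open Finset

theorem neg_log_lt : -Real.log (3521 / 10000) < 1.2958 / 1.2413 := by
  rw [neg_lt, ← Real.log_exp (-(1.2958 / 1.2413 : ℝ))]
  apply Real.log_lt_log (Real.exp_pos _)
  rw [Real.exp_neg, inv_lt_comm₀ (Real.exp_pos _) (by norm_num)]
  have h := Real.sum_le_exp_of_nonneg (x := (1.2958 / 1.2413 : ℝ)) (by norm_num) 10
  refine lt_of_lt_of_le ?_ h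
  simp only [Finset.sum_range_succ, Finset.sum_range_zero, Nat.factorial]
  norm_num

theorem lt_neg_log : 1.2956 / 1.2416 < -Real.log (3522 / 10000) := by
  rw [lt_neg, ← Real.log_exp (-(1.2956 / 1.2416 : ℝ))]
  apply Real.log_lt_log (by norm_num)
  rw [Real.exp_neg, lt_inv_comm₀ (by norm_num) (Real.exp_pos _)]
  have h := Real.exp_bound' (x := (0.6478 / 1.2416 : ℝ)) (by norm_num) (by norm_num)
    (n := 8) (by norm_num)
  have h2 : Real.exp (1.2956 / 1.2416 : ℝ) = (Real.exp (0.6478 / 1.2416 : ℝ)) ^ 2 := by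
    rw [← Real.exp_nat_mul]
    congr 1
    norm_num
  rw [h2]
  refine lt_of_le_of_lt (pow_le_pow_left₀ (Real.exp_pos _).le h 2) ?_
  simp only [Finset.sum_range_succ, Finset.sum_range_zero, Nat.factorial]
  norm_num

theorem speed_lower : 1.2413 < speed (3521 / 10000) := by
  have h := neg_log_lt
  have hpos : 0 < -Real.log (3521 / 10000) := by
    have := Real.log_neg (x := 3521 / 10000) (by norm_num) (by norm_num)
    linarith
  unfold speed
  rw [lt_div_iff₀ hpos]
  rw [lt_div_iff₀ (by norm_num)] at h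
  norm_num at h ⊢
  linarith

theorem speed_upper : speed (3522 / 10000) < 1.2416 := by
  have h := lt_neg_log
  have hpos : 0 < -Real.log (3522 / 10000) := by
    have := Real.log_neg (x := 3522 / 10000) (by norm_num) (by norm_num)
    linarith
  unfold speed
  rw [div_lt_iff₀ hpos]
  rw [div_lt_iff₀ (by norm_num)] at h
  norm_num at h ⊢
  linarith

end Pool.Agent.Counters
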