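import Pool.Agent.Lib.Counters.Series
import Pool.Agent.Lib.Counters.NumSpeed
import Pool.Agent.Lib.Counters.NumDataA
import Pool.Agent.Lib.Counters.NumDataB

/-!
Chunk N (Num): rigorous numerics.  `q₁ = 3521/10000` has a zero (near `E = 13.26`), `q₂ = 3522/10000`
satisfies the trap condition.  The certificates are monotone grid enclosures of `B` on the levels
`[6q, 6]`, `[6, 6/q]`, `[6/q, 6/q²]` (`NumA` to `NumD`), the data are in `NumDataA`, `NumDataB` and
are checked here by the kernel in natural number arithmetic.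
-/

set_option maxRecDepth 100000

namespace Pool.Agent.Counters

open Filter Topology Set

namespace NumX

/-- integer form of a finite sum `∑ g i (a / b) ^ i`. -/
def isum (g : ℕ → ℕ) (a b : ℕ) : ℕ → ℕ
  | 0 => 0
  | n + 1 => isum g a b n * b + g (n + 1) * a ^ (n + 1)

theorem isum_spec (g : ℕ → ℕ) (a b : ℕ) (hb : 0 < b) (SG : ℝ) (hSG : 0 < SG) (n : ℕ) :
    ∑ i ∈ Finset.Ico 1 (n + 1), (g i : ℝ) / SG * ((a : ℝ) / b) ^ i =
      (isum g a b n : ℝ) / (SG * b ^ n) := by
  have hb' : (b : ℝ) ≠ 0 := by positivity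
  have hS' : SG ≠ 0 := hSG.ne'
  induction n with
  | zero => simp [isum]
  | succ n ih =>
    rw [Finset.sum_Ico_succ_top (by omega), ih, isum]
    push_cast
    rw [div_pow]
    field_simp
    ring

theorem sum_bound (g : ℕ → ℕ) (a b : ℕ) (hb : 0 < b) (SG : ℕ) (hSG : 0 < SG) (n c : ℕ)
    (h : Nat.ble (isum g a b n) (c * (SG * b ^ n)) = true) :
    ∑ i ∈ Finset.Ico 1 (n + 1), (g i : ℝ) / SG * ((a : ℝ) / b) ^ i ≤ c := by
  have hSG' : (0 : ℝ) < SG := by exact_mod_cast hSG
  have hb' : (0 : ℝ) < b := by exact_mod_cast hb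
  rw [isum_spec g a b hb SG hSG' n, div_le_iff₀ (by positivity)]
  have := Nat.le_of_ble_eq_true h
  exact_mod_cast this

theorem tail_le : (720 : ℝ) * ((1 / 6 * (23 / 10)) ^ (32 + 1) / (1 - 1 / 6 * (23 / 10))) ≤
    1 / ((10 ^ 10 : ℕ) : ℝ) := by
  norm_num

theorem t1_le : (720 : ℝ) * (1 / 6) ^ (32 + 1) ≤ 1 := by norm_num

def glAf (n : ℕ) : ℕ := glA.getD n 0
def guAf (n : ℕ) : ℕ := guA.getD n 0

theorem sumA : Nat.ble (isum guAf (6 * 3521) 10000 32) (10 * ((10 ^ 24) * 10000 ^ 32)) = true := by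
  decide +kernel

theorem certA : Cert 3521 500 (10 ^ 10) (10 ^ 24) 32 glAf guAf r0A rsA where
  hQ0 := by norm_num
  hQ1 := by norm_num
  hm := by norm_num
  hS := by norm_num
  hSG := by norm_num
  hN := by norm_num
  g0 := by decide +kernel
  g1 := by decide +kernel
  gL := by decide +kernel
  gU := by decide +kernel
  g6 := by decide +kernel
  gle := by decide +kernel
  s1 := by
    have h := sum_bound guAf (6 * 3521) 10000 (by norm_num) (10 ^ 24) (by norm_num) 32 10 sumA
    have e : (((6 * 3521 : ℕ) : ℝ) / ((10000 : ℕ) : ℝ)) = 6 * (((3521 : ℕ) : ℝ) / 10000) := by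
      push_cast
      ring
    rw [e] at h
    refine le_trans (add_le_add_left h _) ?_
    norm_num
  tail := tail_le
  t1 := t1_le
  len := by decide +kernel
  c00 := by decide +kernel
  c0 := by decide +kernel
  c1 := by decide +kernel
  st1 := by decide +kernel
  p0 := by decide +kernel

theorem chain2A : chain (fun j a b => condU 3521 500 (10 ^ 10) j a.l1 b.l1 a.v b.v) 0 r0A rsA = true := by
  decide +kernel

theorem start2A : (rsA.getLastD default).u1 ≤ r0A.v := by decide +kernel

theorem end2A : (rsA.getLastD default).v = 0 := by decide +kernel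

def glBf (n : ℕ) : ℕ := glB.getD n 0
def guBf (n : ℕ) : ℕ := guB.getD n 0

theorem sumB : Nat.ble (isum guBf (6 * 3522) 10000 32) (10 * ((10 ^ 24) * 10000 ^ 32)) = true := by
  decide +kernel

theorem certB : Cert 3522 500 (10 ^ 10) (10 ^ 24) 32 glBf guBf r0B rsB where
  hQ0 := by norm_num
  hQ1 := by norm_num
  hm := by norm_num
  hS := by norm_num
  hSG := by norm_num
  hN := by norm_num
  g0 := by decide +kernel
  g1 := by decide +kernel
  gL := by decide +kernel
  gU := by decide +kernel
  g6 := by decide +kernel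
  gle := by decide +kernel
  s1 := by
    have h := sum_bound guBf (6 * 3522) 10000 (by norm_num) (10 ^ 24) (by norm_num) 32 10 sumB
    have e : (((6 * 3522 : ℕ) : ℝ) / ((10000 : ℕ) : ℝ)) = 6 * (((3522 : ℕ) : ℝ) / 10000) := by
      push_cast
      ring
    rw [e] at h
    refine le_trans (add_le_add_left h _) ?_
    norm_num
  tail := tail_le
  t1 := t1_le
  len := by decide +kernel
  c00 := by decide +kernel
  c0 := by decide +kernel
  c1 := by decide +kernel
  st1 := by decide +kernel
  p0 := by decide +kernel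

theorem chain2B : chain (fun j a b => condL 3522 500 (10 ^ 10) j a.u1 b.u1 a.v b.v &&
    condP 3522 500 (10 ^ 10) j a.u1 a.v) 0 r0B rsB = true := by
  decide +kernel

theorem start2B : r0B.v ≤ (rsB.getLastD default).l1 := by decide +kernel

theorem end2B : 100 * (rsB.getLastD default).u1 ^ 2 < 62 * (rsB.getLastD default).v * 10 ^ 10 := by
  decide +kernel

end NumX

theorem num_neg : ∃ E, 0 < E ∧ B (3521 / 10000) E < 0 := by
  have h := NumX.neg_of_cert NumX.certA NumX.chain2A NumX.start2A NumX.end2A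
  exact_mod_cast h

theorem num_trap : ∃ E, 0 < E ∧ (∀ E', 0 < E' → E' ≤ E → 0 < B (3522 / 10000) E') ∧
    (B (3522 / 10000) (3522 / 10000 * E)) ^ 2 <
      speed (3522 / 10000) / 2 * B (3522 / 10000) E := by
  have hen : ((NumX.rsB.getLastD default).u1 : ℝ) ^ 2 <
      (31 / 50) * ((NumX.rsB.getLastD default).v : ℝ) * ((10 ^ 10 : ℕ) : ℝ) := by
    have h : ((100 * (NumX.rsB.getLastD default).u1 ^ 2 : ℕ) : ℝ) <
        ((62 * (NumX.rsB.getLastD default).v * 10 ^ 10 : ℕ) : ℝ) := by
      exact_mod_cast NumX.end2B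
    push_cast at h ⊢
    linarith
  obtain ⟨E, hE, hpos, hlt⟩ := NumX.trap_of_cert NumX.certB NumX.chain2B NumX.start2B
    (κ := 31 / 50) (by norm_num) hen
  rw [show (((3522 : ℕ) : ℝ) / 10000) = 3522 / 10000 by norm_num] at hpos hlt
  refine ⟨E, hE, hpos, hlt.trans_le (mul_le_mul_of_nonneg_right ?_ (hpos E hE le_rfl).le)⟩
  have h1 := neg_log_lt
  have h2 : Real.log (3521 / 10000) < Real.log (3522 / 10000) :=
    Real.log_lt_log (by norm_num) (by norm_num)
  have h3 : 0 < -Real.log (3522 / 10000) := by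
    have := Real.log_neg (x := 3522 / 10000) (by norm_num) (by norm_num)
    linarith
  unfold speed
  rw [div_div, le_div_iff₀ (by positivity)]
  rw [lt_div_iff₀ (by norm_num)] at h1
  norm_num at h1 h2 ⊢
  linarith

end Pool.Agent.Counters
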