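import Pool.Agent.Lib.Counters.Series

/-!
Chunk N, part A: monotonicity and the trapezoidal rule for `B q` in the variable `log E`.
-/

namespace Pool.Agent.Counters

open Filter Topology Set

namespace NumX

/-- `G(E) = w (w - y)`, `y = B E`, `w = B (q E)`. -/
noncomputable def G (q E : ℝ) : ℝ := B q (q * E) * (B q (q * E) - B q E)

section
variable {q : ℝ} (hq : 0 < q) (hq1 : q < 1)
include hq hq1

theorem B_diff : Differentiable ℝ (B q) := fun E => by
  obtain ⟨D, hD, _⟩ := B_deriv q hq hq1 E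
  exact hD.differentiableAt

theorem B_conti : Continuous (B q) := (B_diff hq hq1).continuous

theorem G_conti : Continuous (G q) := by
  unfold G
  have := B_conti hq hq1
  fun_prop

theorem B_deriv_eq {E : ℝ} (hE : 0 < E) : HasDerivAt (B q) (-(G q E) / ((1 - q) * E)) E := by
  obtain ⟨D, hD, h2⟩ := B_deriv q hq hq1 E
  have h1q : 0 < 1 - q := by linarith
  have : D = -(G q E) / ((1 - q) * E) := by
    rw [eq_div_iff (by positivity)]
    unfold G
    linarith
  rwa [this] at hD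

theorem G_small : ∃ δ > 0, ∀ E, 0 < E → E < δ → 0 < G q E ∧ 0 < B q E := by
  have h1q : 0 < 1 - q := by linarith
  have h := (hasDerivAt_iff_isLittleO.mp (B_deriv_zero q hq hq1)).def (by positivity : 0 < (1 - q) / 4)
  obtain ⟨δ, hδ, H⟩ := Metric.eventually_nhds_iff.mp h
  refine ⟨min δ (1 / 4), by positivity, fun E hE hEδ => ?_⟩
  have hE1 : E < δ := lt_of_lt_of_le hEδ (min_le_left _ _)
  have hE2 : E < 1 / 4 := lt_of_lt_of_le hEδ (min_le_right _ _)
  have key : ∀ x, 0 < x → x < δ → |B q x - 1 + x| ≤ (1 - q) / 4 * x := by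
    intro x hx hxδ
    have := H (y := x) (by rw [dist_zero_right, Real.norm_eq_abs, abs_of_pos hx]; exact hxδ)
    rw [B_zero] at this
    simp only [sub_zero, smul_eq_mul, mul_neg, mul_one, sub_neg_eq_add, Real.norm_eq_abs, abs_of_pos hx] at this
    exact this
  have a1 := abs_le.mp (key E hE hE1)
  have hqE : 0 < q * E := by positivity
  have hqE2 : q * E < E := by nlinarith
  have a2 := abs_le.mp (key (q * E) hqE (by linarith))
  have h3 : (1 - q) / 4 * (q * E) ≤ (1 - q) / 4 * E := mul_le_mul_of_nonneg_left hqE2.le (by positivity)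
  have h4 : (1 - q) / 4 * E ≤ 1 / 4 * E := mul_le_mul_of_nonneg_right (by linarith) hE.le
  have hw : 0 < B q (q * E) := by linarith
  have hy : 0 < B q E := by linarith
  refine ⟨?_, hy⟩
  unfold G
  apply mul_pos hw
  nlinarith

theorem antiOn_of_G {T : ℝ} (hT : ∀ E, 0 < E → E < T → 0 < G q E) : StrictAntiOn (B q) (Icc 0 T) := by
  have h1q : 0 < 1 - q := by linarith
  apply strictAntiOn_of_deriv_neg (convex_Icc 0 T) (B_conti hq hq1).continuousOn
  intro x hx
  rw [interior_Icc] at hx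
  rw [(B_deriv_eq hq hq1 hx.1).deriv]
  apply div_neg_of_neg_of_pos
  · have := hT x hx.1 hx.2
    linarith
  · exact mul_pos h1q hx.1

/-- positivity of `B` on `(0, qT)` gives positivity of `G` on `(0, T)`. -/
theorem G_pos {T : ℝ} (hP : ∀ E, 0 < E → E < q * T → 0 < B q E) : ∀ E, 0 < E → E < T → 0 < G q E := by
  obtain ⟨δ, hδ, Hδ⟩ := G_small hq hq1
  by_contra hcon
  push Not at hcon
  obtain ⟨E0, hE0, hE0T, hG0⟩ := hcon
  have hE0δ : δ ≤ E0 := by
    by_contra h
    push Not at h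
    exact absurd (Hδ E0 hE0 h).1 (not_lt.mpr hG0)
  set A : Set ℝ := Icc (δ / 2) E0 ∩ {E | G q E ≤ 0} with hA
  have hAc : IsClosed A := isClosed_Icc.inter (isClosed_le (G_conti hq hq1) continuous_const)
  have hAn : A.Nonempty := ⟨E0, ⟨⟨by linarith, le_rfl⟩, hG0⟩⟩
  have hAb : BddBelow A := ⟨δ / 2, fun x hx => hx.1.1⟩
  have hm := hAc.csInf_mem hAn hAb
  set E1 := sInf A with hE1
  have hE1pos : 0 < E1 := lt_of_lt_of_le (by positivity) hm.1.1
  have hbelow : ∀ E, 0 < E → E < E1 → 0 < G q E := by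
    intro E hE hEE1
    by_contra h
    push Not at h
    have hEδ : δ ≤ E := by
      by_contra h'
      push Not at h'
      exact absurd (Hδ E hE h').1 (not_lt.mpr h)
    have : E ∈ A := ⟨⟨by linarith, by linarith [hm.1.2]⟩, h⟩
    exact absurd (csInf_le hAb this) (not_le.mpr hEE1)
  have hanti := antiOn_of_G hq hq1 hbelow
  have hqE : q * E1 < E1 := by nlinarith
  have h1 : B q E1 < B q (q * E1) := hanti ⟨by positivity, hqE.le⟩ ⟨hE1pos.le, le_rfl⟩ hqE
  have h2 : 0 < B q (q * E1) := by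
    apply hP _ (by positivity)
    apply mul_lt_mul_of_pos_left _ hq
    linarith [hm.1.2]
  have h3 : 0 < G q E1 := mul_pos h2 (by linarith)
  exact absurd h3 (not_lt.mpr hm.2)

/-- positivity up to `T`. -/
def PosC (q T : ℝ) : Prop := ∀ E, 0 < E → E ≤ T → 0 < B q E

omit hq hq1 in
theorem PosC.mono {q T T' : ℝ} (h : PosC q T) (hT : T' ≤ T) : PosC q T' := fun E hE hET => h E hE (hET.trans hT)

theorem PosC.anti {T : ℝ} (hP : PosC q T) (hT : 0 < T) : StrictAntiOn (B q) (Icc 0 (T / q)) := by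
  apply antiOn_of_G hq hq1
  apply G_pos hq hq1
  intro E hE hET
  apply hP E hE
  have : q * (T / q) = T := by field_simp
  linarith

theorem PosC.lt {T : ℝ} (hP : PosC q T) {E : ℝ} (hE : 0 < E) (hET : E ≤ T) :
    0 < B q E ∧ B q E < B q (q * E) ∧ B q E < 1 := by
  have hT : 0 < T := lt_of_lt_of_le hE hET
  have ha := PosC.anti hq hq1 hP hT
  have h1 : T ≤ T / q := by rw [le_div_iff₀ hq]; nlinarith
  have hqE : q * E < E := by nlinarith
  refine ⟨hP E hE hET, ha ⟨by positivity, by linarith⟩ ⟨hE.le, by linarith⟩ hqE, ?_⟩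
  have := ha ⟨le_rfl, by positivity⟩ ⟨hE.le, by linarith⟩ hE
  rwa [B_zero] at this

/-! ### first zero -/

theorem first_zero {T : ℝ} (h : ¬ PosC q T) : ∃ Z, 0 < Z ∧ Z ≤ T ∧ B q Z = 0 ∧ ∀ E, 0 < E → E < Z → 0 < B q E := by
  obtain ⟨δ, hδ, Hδ⟩ := G_small hq hq1
  unfold PosC at h
  push Not at h
  obtain ⟨E0, hE0, hE0T, hB0⟩ := h
  have hE0δ : δ ≤ E0 := by
    by_contra h
    push Not at h
    exact absurd (Hδ E0 hE0 h).2 (not_lt.mpr hB0)
  set A : Set ℝ := Icc (δ / 2) E0 ∩ {E | B q E ≤ 0} with hA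
  have hAc : IsClosed A := isClosed_Icc.inter (isClosed_le (B_conti hq hq1) continuous_const)
  have hAn : A.Nonempty := ⟨E0, ⟨⟨by linarith, le_rfl⟩, hB0⟩⟩
  have hAb : BddBelow A := ⟨δ / 2, fun x hx => hx.1.1⟩
  have hm := hAc.csInf_mem hAn hAb
  set Z := sInf A with hZ
  have hZpos : 0 < Z := lt_of_lt_of_le (by positivity) hm.1.1
  have hbelow : ∀ E, 0 < E → E < Z → 0 < B q E := by
    intro E hE hEE1
    by_contra h
    push Not at h
    have hEδ : δ ≤ E := by
      by_contra h'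
      push Not at h'
      exact absurd (Hδ E hE h').2 (not_lt.mpr h)
    have : E ∈ A := ⟨⟨by linarith, by linarith [hm.1.2]⟩, h⟩
    exact absurd (csInf_le hAb this) (not_le.mpr hEE1)
  refine ⟨Z, hZpos, hm.1.2.trans hE0T, le_antisymm hm.2 ?_, hbelow⟩
  -- continuity
  have hlim : Tendsto (B q) (𝓝[<] Z) (𝓝 (B q Z)) := (B_conti hq hq1).continuousAt.mono_left nhdsWithin_le_nhds
  refine ge_of_tendsto hlim ?_
  have : Ioo 0 Z ∈ 𝓝[<] Z := Ioo_mem_nhdsLT hZpos
  filter_upwards [this] with E hE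
  exact (hbelow E hE.1 hE.2).le

theorem neg_after {Z : ℝ} (hZ : 0 < Z) (h0 : B q Z = 0) (hb : ∀ E, 0 < E → E < Z → 0 < B q E) :
    ∀ E, Z < E → E ≤ Z / q → B q E < 0 := by
  intro E hE hE2
  have ha : StrictAntiOn (B q) (Icc 0 (Z / q)) := by
    apply antiOn_of_G hq hq1
    apply G_pos hq hq1
    intro x hx hx2
    apply hb x hx
    have : q * (Z / q) = Z := by field_simp
    linarith
  have := ha ⟨hZ.le, by linarith⟩ ⟨by linarith, hE2⟩ hE
  rwa [h0] at this

theorem pos_of_grid {T : ℝ} (h : ∀ k : ℕ, 0 < B q (T * q ^ k)) : PosC q T := by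
  by_contra hcon
  obtain ⟨Z, hZ, hZT, h0, hb⟩ := first_zero hq hq1 hcon
  rcases hZT.lt_or_eq with hlt | heq
  · -- choose k
    have hlim : Tendsto (fun k : ℕ => T * q ^ k) atTop (𝓝 (T * 0)) :=
      (tendsto_pow_atTop_nhds_zero_of_lt_one hq.le hq1).const_mul T
    rw [mul_zero] at hlim
    obtain ⟨k, hk⟩ := (hlim.eventually_lt_const hZ).exists
    have hex : ∃ k, T * q ^ k ≤ Z := ⟨k, hk.le⟩
    classical
    have hmin := Nat.find_spec hex
    have hmin' : ∀ m < Nat.find hex, ¬ T * q ^ m ≤ Z := fun m hm => Nat.find_min hex hm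
    set n := Nat.find hex with hn
    have hn0 : n ≠ 0 := by
      intro h'
      rw [h', pow_zero, mul_one] at hmin
      linarith
    obtain ⟨n', hn'⟩ : ∃ n', n = n' + 1 := ⟨n - 1, by omega⟩
    have h1 := hmin' n' (by omega)
    push Not at h1
    rw [hn', pow_succ, ← mul_assoc] at hmin
    have h2 : T * q ^ n' ≤ Z / q := by rw [le_div_iff₀ hq]; exact hmin
    exact absurd (neg_after hq hq1 hZ h0 hb _ h1 h2) (not_lt.mpr (h n').le)
  · have := h 0
    rw [pow_zero, mul_one, ← heq, h0] at this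
    exact lt_irrefl _ this

end

/-! ### The trapezoidal rule -/

theorem trap_gen {f g g' g'' : ℝ → ℝ} {s K a b : ℝ} (hs : 0 < s) (hab : a ≤ b)
    (hf : ∀ x, HasDerivAt f (-(s * g x)) x) (hg : ∀ x, HasDerivAt g (g' x) x) (hg' : ∀ x, HasDerivAt g' (g'' x) x)
    (hK : ∀ x ∈ Ico a b, |g'' x| ≤ K) :
    |f b - f a + s * (b - a) / 2 * (g a + g b)| ≤ s * K * (b - a) ^ 3 / 12 := by
  have hS : ∀ t, HasDerivAt (fun t => g a - g t + (t - a) * g' t) ((t - a) * g'' t) t := by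
    intro t
    have h1 : HasDerivAt (fun t => g a - g t + (t - a) * g' t) (-g' t + (1 * g' t + (t - a) * g'' t)) t :=
      ((hg t).const_sub (g a)).add (((hasDerivAt_id t).sub_const a).mul (hg' t))
    exact h1.congr_deriv (by ring)
  have hR : ∀ t, HasDerivAt (fun t => f t - f a + s * (t - a) / 2 * (g a + g t))
      (s / 2 * (g a - g t + (t - a) * g' t)) t := by
    intro t
    have h1 : HasDerivAt (fun t => f t - f a + s * (t - a) / 2 * (g a + g t))
        (-(s * g t) + (s * 1 / 2 * (g a + g t) + s * (t - a) / 2 * g' t)) t := ((hf t).sub_const (f a)).add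
      (((((hasDerivAt_id t).sub_const a).const_mul s).div_const 2).mul ((hg t).const_add (g a)))
    exact h1.congr_deriv (by ring)
  have hSb : ∀ t ∈ Icc a b, |g a - g t + (t - a) * g' t| ≤ K * (t - a) ^ 2 / 2 := by
    have hc : ContinuousOn (fun t => g a - g t + (t - a) * g' t) (Icc a b) :=
      fun t _ => (hS t).continuousAt.continuousWithinAt
    have := image_norm_le_of_norm_deriv_right_le_deriv_boundary (a := a) (b := b)
      (f := fun t => g a - g t + (t - a) * g' t) (f' := fun t => (t - a) * g'' t)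
      (B := fun t => K * (t - a) ^ 2 / 2) (B' := fun t => K * (t - a)) hc (fun t _ => (hS t).hasDerivWithinAt)
      (by simp) (fun t => by
        have h1 : HasDerivAt (fun t => K * (t - a) ^ 2 / 2) (K * (2 * (t - a) ^ (2 - 1) * 1) / 2) t :=
          ((((hasDerivAt_id t).sub_const a).pow 2).const_mul K).div_const 2
        exact h1.congr_deriv (by ring)) (fun t ht => by
        rw [Real.norm_eq_abs, abs_mul, abs_of_nonneg (by linarith [ht.1]), mul_comm]
        exact mul_le_mul_of_nonneg_right (hK t ht) (by linarith [ht.1]))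
    intro t ht
    simpa using this ht
  have hc : ContinuousOn (fun t => f t - f a + s * (t - a) / 2 * (g a + g t)) (Icc a b) :=
    fun t _ => (hR t).continuousAt.continuousWithinAt
  have := image_norm_le_of_norm_deriv_right_le_deriv_boundary (a := a) (b := b)
    (f := fun t => f t - f a + s * (t - a) / 2 * (g a + g t))
    (f' := fun t => s / 2 * (g a - g t + (t - a) * g' t))
    (B := fun t => s * K * (t - a) ^ 3 / 12) (B' := fun t => s / 2 * (K * (t - a) ^ 2 / 2)) hc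
    (fun t _ => (hR t).hasDerivWithinAt)
    (by simp) (fun t => by
      have h1 : HasDerivAt (fun t => s * K * (t - a) ^ 3 / 12) (s * K * (3 * (t - a) ^ (3 - 1) * 1) / 12) t :=
        ((((hasDerivAt_id t).sub_const a).pow 3).const_mul (s * K)).div_const 12
      exact h1.congr_deriv (by ring)) (fun t ht => by
      rw [Real.norm_eq_abs, abs_mul, abs_of_pos (by positivity)]
      exact mul_le_mul_of_nonneg_left (hSb t ⟨ht.1, ht.2.le⟩) (by positivity))
  have h2 := this (right_mem_Icc.mpr hab)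
  simpa using h2

theorem log_bounds {z : ℝ} (hz : 0 < z) (hz1 : z ≤ 1 / 2) :
    2 * z ≤ Real.log ((1 + z) / (1 - z)) ∧ Real.log ((1 + z) / (1 - z)) ≤ 2 * z + z ^ 3 := by
  have hder : ∀ t ∈ Icc (0 : ℝ) z, HasDerivAt (fun t => Real.log (1 + t) - Real.log (1 - t) - 2 * t)
      (2 * t ^ 2 / (1 - t ^ 2)) t := by
    intro t ht
    have h1 : 0 < 1 + t := by linarith [ht.1]
    have h2 : 0 < 1 - t := by linarith [ht.2]
    have h3 : HasDerivAt (fun t => Real.log (1 + t) - Real.log (1 - t) - 2 * t) (1 / (1 + t) - (-1) / (1 - t) - 2 * 1) t :=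
      ((((hasDerivAt_id t).const_add 1).log h1.ne').sub (((hasDerivAt_id t).const_sub 1).log h2.ne')).sub
      ((hasDerivAt_id t).const_mul 2)
    refine h3.congr_deriv ?_
    have h4 : (1 - t ^ 2) = (1 + t) * (1 - t) := by ring
    rw [h4]
    field_simp
    ring
  have hc : ContinuousOn (fun t => Real.log (1 + t) - Real.log (1 - t) - 2 * t) (Icc 0 z) :=
    fun t ht => (hder t ht).continuousAt.continuousWithinAt
  have e : Real.log ((1 + z) / (1 - z)) = Real.log (1 + z) - Real.log (1 - z) :=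
    Real.log_div (by linarith) (by linarith)
  have hpos : ∀ t ∈ Icc (0 : ℝ) z, 0 < 1 - t ^ 2 := by
    intro t ht
    nlinarith [ht.1, ht.2]
  have hlow : MonotoneOn (fun t => Real.log (1 + t) - Real.log (1 - t) - 2 * t) (Icc 0 z) := by
    apply monotoneOn_of_deriv_nonneg (convex_Icc 0 z) hc
    · intro t ht
      rw [interior_Icc] at ht
      exact (hder t ⟨ht.1.le, ht.2.le⟩).differentiableAt.differentiableWithinAt
    · intro t ht
      rw [interior_Icc] at ht
      rw [(hder t ⟨ht.1.le, ht.2.le⟩).deriv]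
      have := hpos t ⟨ht.1.le, ht.2.le⟩
      positivity
  have h1 := hlow (left_mem_Icc.mpr hz.le) (right_mem_Icc.mpr hz.le) hz.le
  simp at h1
  have hup := image_norm_le_of_norm_deriv_right_le_deriv_boundary (a := 0) (b := z)
    (f := fun t => Real.log (1 + t) - Real.log (1 - t) - 2 * t) (f' := fun t => 2 * t ^ 2 / (1 - t ^ 2))
    (B := fun t => t ^ 3) (B' := fun t => 3 * t ^ 2) hc
    (fun t ht => (hder t ⟨ht.1, ht.2.le⟩).hasDerivWithinAt) (by simp)
    (fun t => by simpa using hasDerivAt_pow 3 t)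
    (fun t ht => by
      have h2 := hpos t ⟨ht.1, ht.2.le⟩
      rw [Real.norm_eq_abs, abs_of_nonneg (by positivity), div_le_iff₀ h2]
      have h3 : t ^ 2 ≤ 1 / 4 := by nlinarith [ht.1, ht.2]
      have h4 : 0 ≤ t ^ 2 := by positivity
      nlinarith)
  have h2 := hup (right_mem_Icc.mpr hz.le)
  rw [Real.norm_eq_abs] at h2
  have h3 := (abs_le.mp h2).2
  rw [e]
  constructor <;> linarith

section
variable {q : ℝ} (hq : 0 < q) (hq1 : q < 1)
include hq hq1

/-- `P k x = B (q^k e^x)`. -/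
theorem P_deriv (k : ℕ) (x : ℝ) : HasDerivAt (fun x => B q (q ^ k * Real.exp x))
    (-(1 / (1 - q) * (B q (q ^ (k + 1) * Real.exp x) * (B q (q ^ (k + 1) * Real.exp x) - B q (q ^ k * Real.exp x))))) x := by
  obtain ⟨D, hD, h2⟩ := B_deriv q hq hq1 (q ^ k * Real.exp x)
  have h1q : 0 < 1 - q := by linarith
  have h3 : HasDerivAt (fun x => q ^ k * Real.exp x) (q ^ k * Real.exp x) x := (Real.hasDerivAt_exp x).const_mul _
  have h4 : HasDerivAt (B q ∘ fun x => q ^ k * Real.exp x) (D * (q ^ k * Real.exp x)) x :=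
    HasDerivAt.comp x hD h3
  have e : q * (q ^ k * Real.exp x) = q ^ (k + 1) * Real.exp x := by rw [pow_succ]; ring
  rw [e] at h2
  refine h4.congr_deriv ?_
  have h5 : D * (q ^ k * Real.exp x) = 1 / (1 - q) * ((1 - q) * (q ^ k * Real.exp x * D)) := by field_simp
  rw [h5, h2]
  ring

omit hq hq1 in
theorem bound7 {p0 p1 p2 p3 : ℝ} (h0 : 0 < p0) (h1 : p0 < p1) (h2 : p1 < p2) (h3 : p2 < p3) (h4 : p3 < 1) :
    |(2 * p1 - p0) * (p3 * (p3 - p2) * (2 * p2 - p1) - p2 * (p2 * (p2 - p1)))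
      + 2 * (p2 * (p2 - p1)) ^ 2 - 2 * (p1 * (p1 - p0)) * (p2 * (p2 - p1))
      - p1 * (2 * p1 - p0) * (p2 * (p2 - p1)) + p1 ^ 2 * (p1 * (p1 - p0))| ≤ 7 := by
  have g0 : 0 ≤ p1 * (p1 - p0) ∧ p1 * (p1 - p0) ≤ 1 := by constructor <;> nlinarith
  have g1 : 0 ≤ p2 * (p2 - p1) ∧ p2 * (p2 - p1) ≤ 1 := by constructor <;> nlinarith
  have g2 : 0 ≤ p3 * (p3 - p2) ∧ p3 * (p3 - p2) ≤ 1 := by constructor <;> nlinarith
  set G0 := p1 * (p1 - p0)
  set G1 := p2 * (p2 - p1)
  set G2 := p3 * (p3 - p2)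
  have u1 : 0 ≤ 2 * p1 - p0 ∧ 2 * p1 - p0 ≤ 2 := by constructor <;> linarith
  have v1 : 0 ≤ 2 * p2 - p1 ∧ 2 * p2 - p1 ≤ 2 := by constructor <;> linarith
  set u := 2 * p1 - p0
  set v := 2 * p2 - p1
  have t1 : 0 ≤ u * (G2 * v) ∧ u * (G2 * v) ≤ 4 := by
    have : 0 ≤ G2 * v ∧ G2 * v ≤ 2 := ⟨mul_nonneg g2.1 v1.1, by nlinarith [g2.1, g2.2, v1.1, v1.2]⟩
    exact ⟨mul_nonneg u1.1 this.1, by nlinarith [this.1, this.2, u1.1, u1.2]⟩
  have t2 : 0 ≤ u * (p2 * G1) ∧ u * (p2 * G1) ≤ 2 := by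
    have : 0 ≤ p2 * G1 ∧ p2 * G1 ≤ 1 := ⟨mul_nonneg (by linarith) g1.1, by nlinarith [g1.1, g1.2]⟩
    exact ⟨mul_nonneg u1.1 this.1, by nlinarith [this.1, this.2, u1.1, u1.2]⟩
  have t3 : 0 ≤ G1 ^ 2 ∧ G1 ^ 2 ≤ 1 := ⟨by positivity, by nlinarith [g1.1, g1.2]⟩
  have t4 : 0 ≤ G0 * G1 ∧ G0 * G1 ≤ 1 := ⟨mul_nonneg g0.1 g1.1, by nlinarith [g0.1, g0.2, g1.1, g1.2]⟩
  have t5 : 0 ≤ p1 * u * G1 ∧ p1 * u * G1 ≤ 2 := by
    have : 0 ≤ p1 * u ∧ p1 * u ≤ 2 := ⟨mul_nonneg (by linarith) u1.1, by nlinarith [u1.1, u1.2]⟩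
    exact ⟨mul_nonneg this.1 g1.1, by nlinarith [this.1, this.2, g1.1, g1.2]⟩
  have t6 : 0 ≤ p1 ^ 2 * G0 ∧ p1 ^ 2 * G0 ≤ 1 := by
    have : 0 ≤ p1 ^ 2 ∧ p1 ^ 2 ≤ 1 := ⟨by positivity, by nlinarith⟩
    exact ⟨mul_nonneg this.1 g0.1, by nlinarith [this.1, this.2, g0.1, g0.2]⟩
  rw [abs_le]
  constructor <;> nlinarith

/-- the trapezoidal rule for one step. -/
theorem step_log {T a b : ℝ} (hP : PosC q T) (hab : a ≤ b) (hb : Real.exp b ≤ T) :
    |B q (Real.exp b) - B q (Real.exp a) + 1 / (1 - q) * (b - a) / 2 * (G q (Real.exp a) + G q (Real.exp b))|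
      ≤ 1 / (1 - q) * (7 * (1 / (1 - q)) ^ 2) * (b - a) ^ 3 / 12 := by
  have h1q : 0 < 1 - q := by linarith
  set s : ℝ := 1 / (1 - q) with hs
  have hspos : 0 < s := by positivity
  set P : ℕ → ℝ → ℝ := fun k x => B q (q ^ k * Real.exp x) with hPdef
  have hPd : ∀ k x, HasDerivAt (P k) (-(s * (P (k + 1) x * (P (k + 1) x - P k x)))) x := fun k x => P_deriv hq hq1 k x
  set g : ℝ → ℝ := fun x => P 1 x * (P 1 x - P 0 x) with hg
  set g' : ℝ → ℝ := fun x => -(s * (P 2 x * (P 2 x - P 1 x)) * (2 * P 1 x - P 0 x)) + s * (P 1 x * (P 1 x * (P 1 x - P 0 x))) with hg'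
  set g'' : ℝ → ℝ := fun x => s ^ 2 * ((2 * P 1 x - P 0 x) * (P 3 x * (P 3 x - P 2 x) * (2 * P 2 x - P 1 x)
      - P 2 x * (P 2 x * (P 2 x - P 1 x)))
      + 2 * (P 2 x * (P 2 x - P 1 x)) ^ 2 - 2 * (P 1 x * (P 1 x - P 0 x)) * (P 2 x * (P 2 x - P 1 x))
      - P 1 x * (2 * P 1 x - P 0 x) * (P 2 x * (P 2 x - P 1 x)) + P 1 x ^ 2 * (P 1 x * (P 1 x - P 0 x))) with hg''
  have hgd : ∀ x, HasDerivAt g (g' x) x := by
    intro x
    have h1 : HasDerivAt g _ x := (hPd 1 x).mul ((hPd 1 x).sub (hPd 0 x))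
    refine h1.congr_deriv ?_
    simp only [hg']
    ring
  have hg'd : ∀ x, HasDerivAt g' (g'' x) x := by
    intro x
    have h1 : HasDerivAt g' _ x := (((((hPd 2 x).mul ((hPd 2 x).sub (hPd 1 x))).const_mul s).mul
      (((hPd 1 x).const_mul 2).sub (hPd 0 x))).neg).add
      (((hPd 1 x).mul ((hPd 1 x).mul ((hPd 1 x).sub (hPd 0 x)))).const_mul s)
    refine h1.congr_deriv ?_
    simp only [hg'', Pi.sub_apply, Pi.mul_apply]
    ring
  have hfd : ∀ x, HasDerivAt (P 0) (-(s * g x)) x := fun x => hPd 0 x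
  have hbd : ∀ x ∈ Ico a b, |g'' x| ≤ 7 * s ^ 2 := by
    intro x hx
    have hex : Real.exp x ≤ T := (Real.exp_le_exp.mpr hx.2.le).trans hb
    have hE : ∀ k : ℕ, 0 < q ^ k * Real.exp x ∧ q ^ k * Real.exp x ≤ T := by
      intro k
      refine ⟨by positivity, ?_⟩
      have : q ^ k ≤ 1 := pow_le_one₀ hq.le hq1.le
      have h2 := Real.exp_pos x
      nlinarith
    have hl : ∀ k : ℕ, 0 < P k x ∧ P k x < P (k + 1) x ∧ P k x < 1 := by
      intro k
      have := PosC.lt hq hq1 hP (hE k).1 (hE k).2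
      have e : q * (q ^ k * Real.exp x) = q ^ (k + 1) * Real.exp x := by rw [pow_succ]; ring
      rw [e] at this
      exact this
    have := bound7 (hl 0).1 (hl 0).2.1 (hl 1).2.1 (hl 2).2.1 (hl 3).2.2
    simp only [hg'']
    rw [abs_mul, abs_of_pos (by positivity), mul_comm]
    exact mul_le_mul_of_nonneg_right this (by positivity)
  have := trap_gen hspos hab hfd hgd hg'd hbd
  have e0 : ∀ x, P 0 x = B q (Real.exp x) := fun x => by simp [hPdef]
  have e1 : ∀ x, g x = G q (Real.exp x) := fun x => by simp [hg, hPdef, G]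
  rw [e0, e0, e1, e1] at this
  exact this

/-- one step in the variable `E`. -/
theorem step_err {T E E' : ℝ} (hP : PosC q T) (hE : 0 < E) (hEE : E < E') (hET : E' ≤ T)
    (hz : (E' - E) / (E' + E) ≤ 1 / 20) :
    |B q E' - B q E + 1 / (1 - q) * ((E' - E) / (E' + E)) * (G q E + G q E')|
      ≤ 6 * (1 / (1 - q) * ((E' - E) / (E' + E))) ^ 3 := by
  have h1q : 0 < 1 - q := by linarith
  have hs1 : 1 ≤ 1 / (1 - q) := by rw [le_div_iff₀ h1q]; linarith
  set s : ℝ := 1 / (1 - q) with hs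
  set z : ℝ := (E' - E) / (E' + E) with hzdef
  have hE' : 0 < E' := by linarith
  have hzpos : 0 < z := by rw [hzdef]; apply div_pos <;> linarith
  have hrat : (1 + z) / (1 - z) = E' / E := by
    have h2z : 1 - z ≠ 0 := by
      have : z ≤ 1 / 20 := hz
      intro h; linarith
    rw [div_eq_div_iff h2z hE.ne', hzdef]
    field_simp
    ring
  obtain ⟨l1, l2⟩ := log_bounds hzpos (by linarith : z ≤ 1 / 2)
  rw [hrat, Real.log_div hE'.ne' hE.ne'] at l1 l2
  have hlog : Real.log E ≤ Real.log E' := Real.log_le_log hE hEE.le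
  have h := step_log hq hq1 hP hlog (by rw [Real.exp_log hE']; exact hET)
  rw [Real.exp_log hE, Real.exp_log hE'] at h
  set t := Real.log E' - Real.log E with ht
  have a1 := PosC.lt hq hq1 hP hE (by linarith)
  have a2 := PosC.lt hq hq1 hP hE' hET
  have hqE : 0 < q * E ∧ q * E ≤ T := ⟨by positivity, by nlinarith⟩
  have hqE' : 0 < q * E' ∧ q * E' ≤ T := ⟨by positivity, by nlinarith⟩
  have b1 := PosC.lt hq hq1 hP hqE.1 hqE.2
  have b2 := PosC.lt hq hq1 hP hqE'.1 hqE'.2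
  have g1 : 0 ≤ G q E ∧ G q E ≤ 1 := by
    unfold G
    constructor
    · apply mul_nonneg b1.1.le; linarith
    · nlinarith
  have g2 : 0 ≤ G q E' ∧ G q E' ≤ 1 := by
    unfold G
    constructor
    · apply mul_nonneg b2.1.le; linarith
    · nlinarith
  set g := G q E + G q E' with hg
  have hg0 : 0 ≤ g ∧ g ≤ 2 := ⟨by linarith, by linarith⟩
  have hspos : 0 < s := by linarith
  -- compare
  have e1 : B q E' - B q E + s * z * g = (B q E' - B q E + s * t / 2 * g) - s * (t / 2 - z) * g := by ring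
  have e2 : |s * (t / 2 - z) * g| ≤ s * z ^ 3 := by
    rw [abs_of_nonneg (mul_nonneg (mul_nonneg hspos.le (by linarith)) hg0.1)]
    have : s * (t / 2 - z) ≤ s * (z ^ 3 / 2) := mul_le_mul_of_nonneg_left (by linarith) hspos.le
    have h0 : 0 ≤ s * (z ^ 3 / 2) := by positivity
    nlinarith [hg0.1, hg0.2]
  have e3 : t ^ 3 ≤ 8.1 * z ^ 3 := by
    have h1 : t ≤ z * (2 + 1 / 400) := by
      have : z ^ 3 ≤ z * (1 / 400) := by
        have : z ^ 2 ≤ (1 / 20) ^ 2 := pow_le_pow_left₀ hzpos.le hz 2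
        have h3 : z ^ 3 = z * z ^ 2 := by ring
        rw [h3]
        apply mul_le_mul_of_nonneg_left _ hzpos.le
        linarith
      linarith
    have h2 : t ^ 3 ≤ (z * (2 + 1 / 400)) ^ 3 := pow_le_pow_left₀ (by linarith) h1 3
    have h3 : (z * (2 + 1 / 400)) ^ 3 = (2 + 1 / 400) ^ 3 * z ^ 3 := by ring
    rw [h3] at h2
    have h4 : (0 : ℝ) ≤ z ^ 3 := by positivity
    nlinarith
  have e4 : s * (7 * s ^ 2) * t ^ 3 / 12 ≤ 4.8 * (s ^ 3 * z ^ 3) := by
    have : s * (7 * s ^ 2) * t ^ 3 / 12 = 7 / 12 * s ^ 3 * t ^ 3 := by ring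
    rw [this]
    have h5 : 7 / 12 * s ^ 3 * t ^ 3 ≤ 7 / 12 * s ^ 3 * (8.1 * z ^ 3) := mul_le_mul_of_nonneg_left e3 (by positivity)
    have h6 : (0 : ℝ) ≤ s ^ 3 * z ^ 3 := by positivity
    nlinarith
  have e5 : s * z ^ 3 ≤ s ^ 3 * z ^ 3 := by
    apply mul_le_mul_of_nonneg_right _ (by positivity)
    have : s ^ 1 ≤ s ^ 3 := pow_le_pow_right₀ hs1 (by norm_num)
    simpa using this
  rw [e1]
  have e6 := abs_sub (B q E' - B q E + s * t / 2 * g) (s * (t / 2 - z) * g)
  have e7 : 6 * (s * z) ^ 3 = 6 * (s ^ 3 * z ^ 3) := by ring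
  rw [e7]
  have h6 : (0 : ℝ) ≤ s ^ 3 * z ^ 3 := by positivity
  linarith

end

/-! ### discrete steps -/

theorem up_step {y y' w w' l l' u u' α ε : ℝ} (hα : 0 < α) (hl0 : 0 ≤ l) (hl0' : 0 ≤ l')
    (hyw : y < w) (hyw' : y' < w') (hl : l ≤ w) (hl' : l' ≤ w') (hu : y ≤ u) (hαl : α * l' < 1)
    (herr : |y' - y + α * (w * (w - y) + w' * (w' - y'))| ≤ ε)
    (hc : u * (1 + α * l) + ε ≤ u' * (1 - α * l') + α * l' ^ 2 + α * l ^ 2) : y' ≤ u' := by
  by_contra hcon
  push Not at hcon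
  have h1 := (abs_le.mp herr).2
  have h2 : 0 ≤ (u - y) * (1 + α * l) + α * (w - l) * (w + l - y) := by
    apply add_nonneg
    · apply mul_nonneg (by linarith); positivity
    · apply mul_nonneg (mul_nonneg hα.le (by linarith)) (by linarith)
  have h3 : 0 < (y' - u') * (1 - α * l') + α * (w' - l') * (w' + l' - y') := by
    apply add_pos_of_pos_of_nonneg
    · apply mul_pos (by linarith) (by linarith)
    · apply mul_nonneg (mul_nonneg hα.le (by linarith)) (by linarith)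
  nlinarith

theorem low_step {y y' w w' U U' L L' α ε : ℝ} (hα : 0 < α) (hU0 : 0 ≤ U) (hU0' : 0 ≤ U')
    (hyw : y < w) (hyw' : y' < w') (hU : w ≤ U) (hU' : w' ≤ U') (hL : L ≤ y) (hαU : α * U' < 1)
    (herr : |y' - y + α * (w * (w - y) + w' * (w' - y'))| ≤ ε)
    (hc : L' * (1 - α * U') + α * U' ^ 2 + α * U ^ 2 + ε ≤ L * (1 + α * U)) : L' ≤ y' := by
  by_contra hcon
  push Not at hcon
  have h1 := (abs_le.mp herr).1
  have h2 : 0 ≤ (y - L) * (1 + α * U) + α * (U - w) * (U + w - y) := by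
    apply add_nonneg
    · apply mul_nonneg (by linarith); positivity
    · apply mul_nonneg (mul_nonneg hα.le (by linarith)) (by linarith)
  have h3 : 0 < (L' - y') * (1 - α * U') + α * (U' - w') * (U' + w' - y') := by
    apply add_pos_of_pos_of_nonneg
    · apply mul_pos (by linarith) (by linarith)
    · apply mul_nonneg (mul_nonneg hα.le (by linarith)) (by linarith)
  nlinarith

end NumX

end Pool.Agent.Counters
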