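import Pool.Agent.Lib.Counters.NumA

/-!
Chunk N, part B: integer bounds for the coefficients and for the values of the power series.
-/

namespace Pool.Agent.Counters

open Filter Topology Set

namespace NumX

/-! ### checkers -/

/-- all `k <= n` satisfy `p`. -/
def allTo (p : ℕ → Bool) : ℕ → Bool
  | 0 => p 0
  | n + 1 => p (n + 1) && allTo p n

theorem allTo_spec {p : ℕ → Bool} : ∀ {n : ℕ}, allTo p n = true → ∀ k ≤ n, p k = true := by
  intro n
  induction n with
  | zero => intro h k hk; rw [Nat.le_zero.mp hk]; exact h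
  | succ n ih =>
    intro h k hk
    rw [allTo, Bool.and_eq_true] at h
    rcases Nat.lt_or_ge k (n + 1) with h1 | h1
    · exact ih h.2 k (by omega)
    · have : k = n + 1 := by omega
      rw [this]; exact h.1

/-- convolution. -/
def conv (Q n : ℕ) (f : ℕ → ℕ) : ℕ → ℕ
  | 0 => 0
  | k + 1 => conv Q n f k +
      Q ^ (k + 1) * (10000 ^ (n - (k + 1)) - Q ^ (n - (k + 1))) * f (k + 1) * f (n - (k + 1))

/-- check of the upper bound of coefficient `n`. -/
def chkU (Q SG : ℕ) (gu : ℕ → ℕ) (n : ℕ) : Bool :=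
  Nat.ble 2 n → Nat.ble (conv Q n gu (n - 1) + gu n * SG * 10000 ^ n)
    (gu n * SG * (n * (10000 - Q) * 10000 ^ (n - 1) + Q ^ n))

/-- check of the lower bound of coefficient `n`. -/
def chkL (Q SG : ℕ) (gl : ℕ → ℕ) (n : ℕ) : Bool :=
  Nat.ble 2 n → Nat.ble (gl n * SG * (n * (10000 - Q) * 10000 ^ (n - 1) + Q ^ n))
    (conv Q n gl (n - 1) + gl n * SG * 10000 ^ n)

/-- Horner scheme for `∑_{n<=N} f n X^n Y^(N-n)`. -/
def hor (f : ℕ → ℕ) (N X Y : ℕ) : ℕ → ℕ
  | 0 => f N
  | k + 1 => f (N - (k + 1)) * Y ^ (k + 1) + X * hor f N X Y k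

theorem hor_spec (f : ℕ → ℕ) (N X Y : ℕ) (hY : 0 < Y) : ∀ k ≤ N,
    ((hor f N X Y k : ℕ) : ℝ) = (Y : ℝ) ^ k * ∑ i ∈ Finset.range (k + 1), (f (N - k + i) : ℝ) * ((X : ℝ) / Y) ^ i := by
  have hY' : (Y : ℝ) ≠ 0 := by positivity
  intro k
  induction k with
  | zero => intro _; simp [hor]
  | succ k ih =>
    intro hk
    rw [hor, Finset.sum_range_succ', Nat.cast_add, Nat.cast_mul, Nat.cast_mul, ih (by omega), Nat.cast_pow, mul_add]
    have e : ∀ i, N - (k + 1) + (i + 1) = N - k + i := fun i => by omega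
    simp only [e]
    rw [add_comm]
    congr 1
    · rw [Finset.mul_sum, Finset.mul_sum, Finset.mul_sum]
      apply Finset.sum_congr rfl
      intro i _
      rw [pow_succ, pow_succ]
      field_simp
    · simp
      ring

/-! ### coefficients -/

/-- coefficients with positive signs. -/
noncomputable def gam (q : ℝ) (n : ℕ) : ℝ := (-1) ^ n * beta q n

theorem gam_zero (q : ℝ) : gam q 0 = 1 := by simp [gam, beta_zero]

theorem gam_one (q : ℝ) : gam q 1 = 1 := by simp [gam, beta_one]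

theorem beta_gam (q : ℝ) (n : ℕ) : beta q n = (-1) ^ n * gam q n := by
  rw [gam, ← mul_assoc, ← pow_add, ← two_mul, pow_mul]
  simp

section
variable {q : ℝ} (hq : 0 < q) (hq1 : q < 1)
include hq hq1

theorem gam_rec (n : ℕ) (hn : 2 ≤ n) : ((n : ℝ) * (1 - q) - (1 - q ^ n)) * gam q n =
    ∑ i ∈ Finset.Ico 1 n, q ^ i * (1 - q ^ (n - i)) * gam q i * gam q (n - i) := by
  rw [gam, mul_left_comm, beta_rec q hq hq1 n hn, Finset.mul_sum]
  apply Finset.sum_congr rfl
  intro i hi
  rw [Finset.mem_Ico] at hi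
  have : ((-1 : ℝ)) ^ n = (-1) ^ i * (-1) ^ (n - i) := by rw [← pow_add]; congr 1; omega
  rw [this, gam, gam]
  ring

theorem den_pos' (n : ℕ) (hn : 2 ≤ n) : 0 < (n : ℝ) * (1 - q) - (1 - q ^ n) := by
  obtain ⟨k, rfl⟩ : ∃ k, n = k + 2 := ⟨n - 2, by omega⟩
  exact_mod_cast den_pos q hq hq1 k

theorem gam_nonneg (n : ℕ) : 0 ≤ gam q n := by
  induction n using Nat.strong_induction_on with
  | _ n ih =>
    rcases Nat.lt_or_ge n 2 with h | h
    · interval_cases n
      · rw [gam_zero]; norm_num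
      · rw [gam_one]; norm_num
    · have h1 := gam_rec hq hq1 n h
      have h2 := den_pos' hq hq1 n h
      have h3 : 0 ≤ ∑ i ∈ Finset.Ico 1 n, q ^ i * (1 - q ^ (n - i)) * gam q i * gam q (n - i) := by
        apply Finset.sum_nonneg
        intro i hi
        rw [Finset.mem_Ico] at hi
        have h4 : q ^ (n - i) ≤ 1 := pow_le_one₀ hq.le hq1.le
        have := ih i hi.2
        have := ih (n - i) (by omega)
        have h5 : 0 ≤ 1 - q ^ (n - i) := by linarith
        positivity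
      rw [← h1] at h3
      exact (mul_nonneg_iff_of_pos_left h2).mp h3

end

theorem conv_eq (Q n : ℕ) (f : ℕ → ℕ) (hQ : Q ≤ 10000) (k : ℕ) : ((conv Q n f k : ℕ) : ℝ) =
    ∑ i ∈ Finset.range k, (Q : ℝ) ^ (i + 1) * ((10000 : ℝ) ^ (n - (i + 1)) - (Q : ℝ) ^ (n - (i + 1))) * f (i + 1) *
      f (n - (i + 1)) := by
  induction k with
  | zero => simp [conv]
  | succ k ih =>
    rw [conv, Nat.cast_add, ih, Finset.sum_range_succ]
    congr 1
    rw [Nat.cast_mul, Nat.cast_mul, Nat.cast_mul, Nat.cast_sub (Nat.pow_le_pow_left hQ _)]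
    push_cast
    ring

section
variable {Q : ℕ} (hQ0 : 0 < Q) (hQ1 : Q < 10000)
include hQ0 hQ1

/-- the recursion with integer coefficients. -/
theorem gam_rec_int (n : ℕ) (hn : 2 ≤ n) :
    ((n : ℝ) * (10000 - Q) * 10000 ^ (n - 1) + (Q : ℝ) ^ n - 10000 ^ n) * gam ((Q : ℝ) / 10000) n =
    ∑ i ∈ Finset.range (n - 1), (Q : ℝ) ^ (i + 1) * ((10000 : ℝ) ^ (n - (i + 1)) - (Q : ℝ) ^ (n - (i + 1))) *
      gam ((Q : ℝ) / 10000) (i + 1) * gam ((Q : ℝ) / 10000) (n - (i + 1)) := by
  set q : ℝ := (Q : ℝ) / 10000 with hq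
  have hqp : 0 < q := by positivity
  have hQ1' : (Q : ℝ) < 10000 := by exact_mod_cast hQ1
  have hql : q < 1 := by rw [hq, div_lt_one (by norm_num)]; exact hQ1'
  have h := gam_rec hqp hql n hn
  have h2 : (10000 : ℝ) ^ n * (((n : ℝ) * (1 - q) - (1 - q ^ n)) * gam q n) =
      ((n : ℝ) * (10000 - Q) * 10000 ^ (n - 1) + (Q : ℝ) ^ n - 10000 ^ n) * gam q n := by
    obtain ⟨k, rfl⟩ : ∃ k, n = k + 1 := ⟨n - 1, by omega⟩
    rw [hq, div_pow, Nat.add_sub_cancel]
    have : (10000 : ℝ) ^ (k + 1) ≠ 0 := by positivity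
    field_simp
    ring
  rw [← h2, h, Finset.mul_sum, Finset.sum_Ico_eq_sum_range]
  apply Finset.sum_congr rfl
  intro i hi
  rw [Finset.mem_range] at hi
  rw [add_comm 1 i]
  have e : (10000 : ℝ) ^ n = 10000 ^ (i + 1) * 10000 ^ (n - (i + 1)) := by rw [← pow_add]; congr 1; omega
  rw [e, hq, div_pow, div_pow]
  have h3 : (10000 : ℝ) ^ (i + 1) ≠ 0 := by positivity
  have h4 : (10000 : ℝ) ^ (n - (i + 1)) ≠ 0 := by positivity
  field_simp

theorem gam_upper {SG N : ℕ} (hSG : 0 < SG) {gu : ℕ → ℕ} (h0 : SG ≤ gu 0) (h1 : SG ≤ gu 1)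
    (h : allTo (chkU Q SG gu) N = true) : ∀ n ≤ N, gam ((Q : ℝ) / 10000) n * SG ≤ gu n := by
  have hqp : 0 < (Q : ℝ) / 10000 := by positivity
  have hQ1' : (Q : ℝ) < 10000 := by exact_mod_cast hQ1
  have hql : (Q : ℝ) / 10000 < 1 := by rw [div_lt_one (by norm_num)]; exact hQ1'
  have hSG' : (0 : ℝ) < SG := by exact_mod_cast hSG
  intro n
  induction n using Nat.strong_induction_on with
  | _ n ih =>
    intro hn
    rcases Nat.lt_or_ge n 2 with h2 | h2
    · interval_cases n
      · rw [gam_zero, one_mul]; exact_mod_cast h0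
      · rw [gam_one, one_mul]; exact_mod_cast h1
    · have hc := allTo_spec h n hn
      simp only [chkU, Nat.ble_eq, decide_eq_true_eq] at hc
      have hc' := hc h2
      have hr := gam_rec_int hQ0 hQ1 n h2
      have hcast : ((conv Q n gu (n - 1) + gu n * SG * 10000 ^ n : ℕ) : ℝ) ≤
          ((gu n * SG * (n * (10000 - Q) * 10000 ^ (n - 1) + Q ^ n) : ℕ) : ℝ) := by exact_mod_cast hc'
      rw [Nat.cast_add, conv_eq Q n gu hQ1.le] at hcast
      push_cast [Nat.cast_sub hQ1.le] at hcast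
      set Dn : ℝ := (n : ℝ) * (10000 - Q) * 10000 ^ (n - 1) + (Q : ℝ) ^ n - 10000 ^ n with hDn
      have hDpos : 0 < Dn := by
        have h3 := den_pos' hqp hql n h2
        have h4 : Dn = 10000 ^ n * ((n : ℝ) * (1 - (Q : ℝ) / 10000) - (1 - ((Q : ℝ) / 10000) ^ n)) := by
          obtain ⟨k, rfl⟩ : ∃ k, n = k + 1 := ⟨n - 1, by omega⟩
          rw [hDn, div_pow, Nat.add_sub_cancel]
          have : (10000 : ℝ) ^ (k + 1) ≠ 0 := by positivity
          field_simp
          ring
        rw [h4]; positivity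
      have hsum : (SG : ℝ) * SG * (Dn * gam ((Q : ℝ) / 10000) n) ≤
          ∑ i ∈ Finset.range (n - 1), (Q : ℝ) ^ (i + 1) * ((10000 : ℝ) ^ (n - (i + 1)) - (Q : ℝ) ^ (n - (i + 1))) *
            gu (i + 1) * gu (n - (i + 1)) := by
        rw [hr, Finset.mul_sum]
        apply Finset.sum_le_sum
        intro i hi
        rw [Finset.mem_range] at hi
        have a1 := ih (i + 1) (by omega) (by omega)
        have a2 := ih (n - (i + 1)) (by omega) (by omega)
        have b1 := gam_nonneg hqp hql (i + 1)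
        have b2 := gam_nonneg hqp hql (n - (i + 1))
        have c1 : 0 ≤ (Q : ℝ) ^ (i + 1) * ((10000 : ℝ) ^ (n - (i + 1)) - (Q : ℝ) ^ (n - (i + 1))) := by
          apply mul_nonneg (by positivity)
          have : (Q : ℝ) ^ (n - (i + 1)) ≤ 10000 ^ (n - (i + 1)) := pow_le_pow_left₀ (by positivity) hQ1'.le _
          linarith
        calc (SG : ℝ) * SG * ((Q : ℝ) ^ (i + 1) * ((10000 : ℝ) ^ (n - (i + 1)) - (Q : ℝ) ^ (n - (i + 1))) *
              gam ((Q : ℝ) / 10000) (i + 1) * gam ((Q : ℝ) / 10000) (n - (i + 1)))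
            = ((Q : ℝ) ^ (i + 1) * ((10000 : ℝ) ^ (n - (i + 1)) - (Q : ℝ) ^ (n - (i + 1)))) *
              ((gam ((Q : ℝ) / 10000) (i + 1) * SG) * (gam ((Q : ℝ) / 10000) (n - (i + 1)) * SG)) := by ring
          _ ≤ ((Q : ℝ) ^ (i + 1) * ((10000 : ℝ) ^ (n - (i + 1)) - (Q : ℝ) ^ (n - (i + 1)))) *
              ((gu (i + 1) : ℝ) * gu (n - (i + 1))) := by
              apply mul_le_mul_of_nonneg_left _ c1
              exact mul_le_mul a1 a2 (by positivity) (by positivity)
          _ = _ := by ring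
      have hfin : (SG : ℝ) * Dn * (gam ((Q : ℝ) / 10000) n * SG) ≤ (SG : ℝ) * Dn * gu n := by
        rw [hDn] at hsum ⊢
        nlinarith
      exact le_of_mul_le_mul_left hfin (by positivity)

theorem gam_lower {SG N : ℕ} (hSG : 0 < SG) {gl : ℕ → ℕ} (h0 : gl 0 ≤ SG) (h1 : gl 1 ≤ SG)
    (h : allTo (chkL Q SG gl) N = true) : ∀ n ≤ N, (gl n : ℝ) ≤ gam ((Q : ℝ) / 10000) n * SG := by
  have hqp : 0 < (Q : ℝ) / 10000 := by positivity
  have hQ1' : (Q : ℝ) < 10000 := by exact_mod_cast hQ1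
  have hql : (Q : ℝ) / 10000 < 1 := by rw [div_lt_one (by norm_num)]; exact hQ1'
  have hSG' : (0 : ℝ) < SG := by exact_mod_cast hSG
  intro n
  induction n using Nat.strong_induction_on with
  | _ n ih =>
    intro hn
    rcases Nat.lt_or_ge n 2 with h2 | h2
    · interval_cases n
      · rw [gam_zero, one_mul]; exact_mod_cast h0
      · rw [gam_one, one_mul]; exact_mod_cast h1
    · have hc := allTo_spec h n hn
      simp only [chkL, Nat.ble_eq, decide_eq_true_eq] at hc
      have hc' := hc h2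
      have hr := gam_rec_int hQ0 hQ1 n h2
      have hcast : ((gl n * SG * (n * (10000 - Q) * 10000 ^ (n - 1) + Q ^ n) : ℕ) : ℝ) ≤
          ((conv Q n gl (n - 1) + gl n * SG * 10000 ^ n : ℕ) : ℝ) := by exact_mod_cast hc'
      rw [Nat.cast_add, conv_eq Q n gl hQ1.le] at hcast
      push_cast [Nat.cast_sub hQ1.le] at hcast
      set Dn : ℝ := (n : ℝ) * (10000 - Q) * 10000 ^ (n - 1) + (Q : ℝ) ^ n - 10000 ^ n with hDn
      have hDpos : 0 < Dn := by
        have h3 := den_pos' hqp hql n h2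
        have h4 : Dn = 10000 ^ n * ((n : ℝ) * (1 - (Q : ℝ) / 10000) - (1 - ((Q : ℝ) / 10000) ^ n)) := by
          obtain ⟨k, rfl⟩ : ∃ k, n = k + 1 := ⟨n - 1, by omega⟩
          rw [hDn, div_pow, Nat.add_sub_cancel]
          have : (10000 : ℝ) ^ (k + 1) ≠ 0 := by positivity
          field_simp
          ring
        rw [h4]; positivity
      have hsum : ∑ i ∈ Finset.range (n - 1), (Q : ℝ) ^ (i + 1) * ((10000 : ℝ) ^ (n - (i + 1)) - (Q : ℝ) ^ (n - (i + 1))) *
            gl (i + 1) * gl (n - (i + 1)) ≤ (SG : ℝ) * SG * (Dn * gam ((Q : ℝ) / 10000) n) := by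
        rw [hr, Finset.mul_sum]
        apply Finset.sum_le_sum
        intro i hi
        rw [Finset.mem_range] at hi
        have a1 := ih (i + 1) (by omega) (by omega)
        have a2 := ih (n - (i + 1)) (by omega) (by omega)
        have b1 := gam_nonneg hqp hql (i + 1)
        have b2 := gam_nonneg hqp hql (n - (i + 1))
        have c1 : 0 ≤ (Q : ℝ) ^ (i + 1) * ((10000 : ℝ) ^ (n - (i + 1)) - (Q : ℝ) ^ (n - (i + 1))) := by
          apply mul_nonneg (by positivity)
          have : (Q : ℝ) ^ (n - (i + 1)) ≤ 10000 ^ (n - (i + 1)) := pow_le_pow_left₀ (by positivity) hQ1'.le _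
          linarith
        calc (Q : ℝ) ^ (i + 1) * ((10000 : ℝ) ^ (n - (i + 1)) - (Q : ℝ) ^ (n - (i + 1))) *
              gl (i + 1) * gl (n - (i + 1))
            = ((Q : ℝ) ^ (i + 1) * ((10000 : ℝ) ^ (n - (i + 1)) - (Q : ℝ) ^ (n - (i + 1)))) *
              ((gl (i + 1) : ℝ) * gl (n - (i + 1))) := by ring
          _ ≤ ((Q : ℝ) ^ (i + 1) * ((10000 : ℝ) ^ (n - (i + 1)) - (Q : ℝ) ^ (n - (i + 1)))) *
              ((gam ((Q : ℝ) / 10000) (i + 1) * SG) * (gam ((Q : ℝ) / 10000) (n - (i + 1)) * SG)) := by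
              apply mul_le_mul_of_nonneg_left _ c1
              exact mul_le_mul a1 a2 (by positivity) (by positivity)
          _ = _ := by ring
      have hfin : (SG : ℝ) * Dn * gl n ≤ (SG : ℝ) * Dn * (gam ((Q : ℝ) / 10000) n * SG) := by
        rw [hDn] at hsum ⊢
        nlinarith
      exact le_of_mul_le_mul_left hfin (by positivity)

end

/-! ### the tail -/

section
variable {q : ℝ} (hq : 0 < q) (hq1 : q < 1)
include hq hq1

/-- geometric bound for all coefficients. -/
theorem gam_geo {N : ℕ} {At S1 : ℝ} (hAt : 0 ≤ At) (h : ∀ n, 1 ≤ n → n ≤ N → gam q n ≤ At * (1 / 6) ^ n)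
    (hS : ∑ i ∈ Finset.Ico 1 (N + 1), gam q i * (6 * q) ^ i + At * (q ^ (N + 1) / (1 - q)) ≤ S1)
    (hS1 : S1 ≤ N * (1 - q) ^ 2) (hN : 1 ≤ N) : ∀ n, 1 ≤ n → gam q n ≤ At * (1 / 6) ^ n := by
  have h1q : 0 < 1 - q := by linarith
  intro n
  induction n using Nat.strong_induction_on with
  | _ n ih =>
    intro hn
    by_cases hnN : n ≤ N
    · exact h n hn hnN
    · push Not at hnN
      have hr := gam_rec hq hq1 n (by omega)
      have hden : (N : ℝ) * (1 - q) ^ 2 ≤ (n : ℝ) * (1 - q) - (1 - q ^ n) := by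
        obtain ⟨k, rfl⟩ : ∃ k, n = k + 1 := ⟨n - 1, by omega⟩
        refine le_trans ?_ (den_ge q hq hq1 k)
        apply mul_le_mul_of_nonneg_right _ (by positivity)
        exact_mod_cast (by omega : N ≤ k)
      have hdpos := den_pos' hq hq1 n (by omega)
      have hsum : ∑ i ∈ Finset.Ico 1 n, q ^ i * (1 - q ^ (n - i)) * gam q i * gam q (n - i) ≤
          ∑ i ∈ Finset.Ico 1 n, (gam q i * (6 * q) ^ i) * (At * (1 / 6) ^ n) := by
        apply Finset.sum_le_sum
        intro i hi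
        rw [Finset.mem_Ico] at hi
        have a2 := ih (n - i) (by omega) (by omega)
        have b1 := gam_nonneg hq hq1 i
        have b2 := gam_nonneg hq hq1 (n - i)
        have h4 : q ^ (n - i) ≤ 1 := pow_le_one₀ hq.le hq1.le
        have h5 : 0 ≤ q ^ (n - i) := by positivity
        calc q ^ i * (1 - q ^ (n - i)) * gam q i * gam q (n - i)
            ≤ q ^ i * 1 * gam q i * (At * (1 / 6) ^ (n - i)) := by
              apply mul_le_mul _ a2 b2 (by positivity)
              apply mul_le_mul_of_nonneg_right _ b1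
              apply mul_le_mul_of_nonneg_left _ (by positivity)
              linarith
          _ = (gam q i * (6 * q) ^ i) * (At * (1 / 6) ^ n) := by
              have e : ((1 : ℝ) / 6) ^ n = (1 / 6) ^ i * (1 / 6) ^ (n - i) := by rw [← pow_add]; congr 1; omega
              have e2 : (6 * q) ^ i * (1 / 6 : ℝ) ^ i = q ^ i := by rw [← mul_pow]; congr 1; ring
              rw [e, ← e2]; ring
      rw [← Finset.sum_mul] at hsum
      have hS' : ∑ i ∈ Finset.Ico 1 n, gam q i * (6 * q) ^ i ≤ S1 := by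
        refine le_trans ?_ hS
        rw [← Finset.sum_Ico_consecutive _ (by omega : 1 ≤ N + 1) (by omega : N + 1 ≤ n)]
        apply add_le_add le_rfl
        calc ∑ i ∈ Finset.Ico (N + 1) n, gam q i * (6 * q) ^ i
            ≤ ∑ i ∈ Finset.Ico (N + 1) n, At * q ^ i := by
              apply Finset.sum_le_sum
              intro i hi
              rw [Finset.mem_Ico] at hi
              have a1 := ih i hi.2 (by omega)
              calc gam q i * (6 * q) ^ i ≤ (At * (1 / 6) ^ i) * (6 * q) ^ i :=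
                    mul_le_mul_of_nonneg_right a1 (by positivity)
                _ = At * q ^ i := by
                    have e2 : (6 * q) ^ i * (1 / 6 : ℝ) ^ i = q ^ i := by rw [← mul_pow]; congr 1; ring
                    rw [← e2]; ring
          _ = At * ∑ i ∈ Finset.Ico (N + 1) n, q ^ i := by rw [Finset.mul_sum]
          _ ≤ At * (q ^ (N + 1) / (1 - q)) := mul_le_mul_of_nonneg_left (geom_sum_Ico_le_of_lt_one hq.le hq1) hAt
      have hfin : ((n : ℝ) * (1 - q) - (1 - q ^ n)) * gam q n ≤ ((n : ℝ) * (1 - q) - (1 - q ^ n)) * (At * (1 / 6) ^ n) := by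
        rw [hr]
        refine hsum.trans ?_
        apply mul_le_mul_of_nonneg_right _ (by positivity)
        linarith
      exact le_of_mul_le_mul_left hfin hdpos

/-- the value of the series up to the tail. -/
theorem B_tail {N : ℕ} {At ρ E : ℝ} (hρ : 0 < ρ) (h : ∀ n, 1 ≤ n → gam q n ≤ At * ρ ^ n) (hE : 0 ≤ E) (hE6 : ρ * E < 1) :
    |B q E - ∑ n ∈ Finset.range (N + 1), (-1) ^ n * gam q n * E ^ n| ≤ At * ((ρ * E) ^ (N + 1) / (1 - ρ * E)) := by
  have hsum := Summable.of_abs (beta_summable_abs q hq hq1 E)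
  have h1 : B q E - ∑ n ∈ Finset.range (N + 1), (-1) ^ n * gam q n * E ^ n = ∑' n, beta q (n + (N + 1)) * E ^ (n + (N + 1)) := by
    unfold B
    rw [← hsum.sum_add_tsum_nat_add (N + 1)]
    simp only [beta_gam]
    ring
  rw [h1]
  have hg : ∀ n : ℕ, |beta q (n + (N + 1)) * E ^ (n + (N + 1))| ≤ (At * (ρ * E) ^ (N + 1)) * (ρ * E) ^ n := by
    intro n
    have b := gam_nonneg hq hq1 (n + (N + 1))
    rw [beta_gam, abs_mul, abs_mul, abs_pow, abs_neg, abs_one, one_pow, one_mul, abs_of_nonneg b, abs_of_nonneg (by positivity)]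
    calc gam q (n + (N + 1)) * E ^ (n + (N + 1)) ≤ (At * ρ ^ (n + (N + 1))) * E ^ (n + (N + 1)) :=
          mul_le_mul_of_nonneg_right (h _ (by omega)) (by positivity)
      _ = (At * (ρ * E) ^ (N + 1)) * (ρ * E) ^ n := by
          rw [mul_pow, mul_pow, pow_add, pow_add]
          ring
  have hgeo : Summable (fun n : ℕ => (At * (ρ * E) ^ (N + 1)) * (ρ * E) ^ n) :=
    (summable_geometric_of_lt_one (by positivity) hE6).mul_left _
  have h2 := tsum_of_norm_bounded hgeo.hasSum (fun n => by rw [Real.norm_eq_abs]; exact hg n)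
  rw [Real.norm_eq_abs, tsum_mul_left, tsum_geometric_of_lt_one (by positivity) hE6] at h2
  refine h2.trans (le_of_eq ?_)
  field_simp

end

end NumX

end Pool.Agent.Counters
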