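import Pool.Agent.Lib.Counters.NumB

/-!
Chunk N, part C: the grid, the three levels, soundness of the integer checks.
-/

namespace Pool.Agent.Counters

open Filter Topology Set

namespace NumX

/-- grid points. -/
noncomputable def Ept (Q m k j : ℕ) : ℝ :=
  23 / 10 * ((Q : ℝ) * m + (10000 - Q) * j) / (10000 * m) / ((Q : ℝ) / 10000) ^ k

def dd (Q m j : ℕ) : ℕ := 2 * Q * m + (10000 - Q) * (2 * j + 1)

def ee (Q m S j : ℕ) : ℕ := 6 * 10000 ^ 3 * S ^ 2 / (dd Q m j) ^ 2 + 1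

def condU (Q m S j l l' u u' : ℕ) : Bool :=
  Nat.ble (u * (S * dd Q m j + 10000 * l) + ee Q m S j + u' * (10000 * l'))
    (u' * (S * dd Q m j) + 10000 * (l' * l' + l * l))

def condL (Q m S j U U' L L' : ℕ) : Bool :=
  Nat.ble (L' * (S * dd Q m j) + 10000 * (U' * U' + U * U) + ee Q m S j)
    (L * (S * dd Q m j + 10000 * U) + L' * (10000 * U')) && Nat.ble U' S

def condP (Q m S j U L : ℕ) : Bool := Nat.ble (3 * 10000 * U * U + 1) (L * S * dd Q m j)

/-- chain of checks along a list. -/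
def chain {α : Type} (R : ℕ → α → α → Bool) : ℕ → α → List α → Bool
  | _, _, [] => true
  | j, a, b :: t => R j a b && chain R (j + 1) b t

theorem chain_spec {α : Type} [Inhabited α] (R : ℕ → α → α → Bool) : ∀ (t : List α) (j : ℕ) (a : α), chain R j a t = true →
    ∀ i < t.length, R (j + i) ((a :: t).getD i default) ((a :: t).getD (i + 1) default) = true := by
  intro t
  induction t with
  | nil => intro j a _ i hi; simp at hi
  | cons b t ih =>
    intro j a h i hi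
    rw [chain, Bool.and_eq_true] at h
    cases i with
    | zero => simpa using h.1
    | succ i =>
      have := ih (j + 1) b h.2 i (by simpa using hi)
      simp only [List.getD_cons_succ] at this ⊢
      rw [show j + (i + 1) = j + 1 + i by omega]
      exact this

section
variable {Q m : ℕ} (hQ0 : 0 < Q) (hQ1 : Q < 10000) (hm : 0 < m)
include hQ0 hQ1 hm

theorem Ept_pos (k j : ℕ) : 0 < Ept Q m k j := by
  have h1 : (Q : ℝ) < 10000 := by exact_mod_cast hQ1
  have h2 : 0 < (10000 : ℝ) - Q := by linarith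
  unfold Ept
  positivity

omit hm hQ1 in
theorem Ept_q (k j : ℕ) : (Q : ℝ) / 10000 * Ept Q m (k + 1) j = Ept Q m k j := by
  have h1 : (Q : ℝ) ≠ 0 := by positivity
  unfold Ept
  rw [pow_succ]
  field_simp

omit hQ1 in
theorem Ept_next (k : ℕ) : Ept Q m (k + 1) 0 = Ept Q m k m := by
  have h1 : (Q : ℝ) ≠ 0 := by positivity
  have h2 : (m : ℝ) ≠ 0 := by positivity
  unfold Ept
  rw [pow_succ]
  field_simp
  push_cast
  ring

theorem Ept_lt (k j : ℕ) : Ept Q m k j < Ept Q m k (j + 1) := by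
  have h1 : (Q : ℝ) < 10000 := by exact_mod_cast hQ1
  have h2 : 0 < (10000 : ℝ) - Q := by linarith
  have h3 : (0 : ℝ) < Q := by positivity
  have h4 : (0 : ℝ) < m := by positivity
  unfold Ept
  apply div_lt_div_of_pos_right _ (by positivity)
  apply div_lt_div_of_pos_right _ (by positivity)
  push_cast
  nlinarith

theorem Ept_z (k j : ℕ) : (Ept Q m k (j + 1) - Ept Q m k j) / (Ept Q m k (j + 1) + Ept Q m k j)
    = (10000 - (Q : ℝ)) / (dd Q m j : ℝ) := by
  have h1 : (Q : ℝ) < 10000 := by exact_mod_cast hQ1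
  have h2 : 0 < (10000 : ℝ) - Q := by linarith
  have h3 : (0 : ℝ) < Q := by positivity
  have h4 : (0 : ℝ) < m := by positivity
  have hd : ((dd Q m j : ℕ) : ℝ) = 2 * Q * m + (10000 - Q) * (2 * j + 1) := by
    unfold dd
    push_cast [Nat.cast_sub hQ1.le]
    ring
  have e1 : Ept Q m k (j + 1) - Ept Q m k j = (23 / 10 / (10000 * m) / ((Q : ℝ) / 10000) ^ k) * (10000 - Q) := by
    unfold Ept
    push_cast
    field_simp
    ring
  have e2 : Ept Q m k (j + 1) + Ept Q m k j = (23 / 10 / (10000 * m) / ((Q : ℝ) / 10000) ^ k) * (dd Q m j : ℝ) := by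
    rw [hd]
    unfold Ept
    push_cast
    field_simp
    ring
  rw [e1, e2]
  have : (0 : ℝ) < 23 / 10 / (10000 * m) / ((Q : ℝ) / 10000) ^ k := by positivity
  exact mul_div_mul_left _ _ this.ne'

omit hQ0 hQ1 hm in
theorem dd_big (h : 500000 ≤ Q * m) (j : ℕ) : (1000000 : ℝ) ≤ (dd Q m j : ℝ) := by
  have : 1000000 ≤ dd Q m j := by unfold dd; nlinarith
  exact_mod_cast this

/-- error of one step on the grid. -/
theorem grid_err (h5 : 500000 ≤ Q * m) {k j : ℕ} (hP : PosC ((Q : ℝ) / 10000) (Ept Q m (k + 1) (j + 1))) :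
    let q := (Q : ℝ) / 10000
    let y := B q (Ept Q m (k + 1) j)
    let y' := B q (Ept Q m (k + 1) (j + 1))
    let w := B q (Ept Q m k j)
    let w' := B q (Ept Q m k (j + 1))
    let α := 10000 / (dd Q m j : ℝ)
    |y' - y + α * (w * (w - y) + w' * (w' - y'))| ≤ 6 * α ^ 3 ∧ 0 < y ∧ y < w ∧ w < 1 ∧ 0 < y' ∧ y' < w' ∧ w' < 1 := by
  intro q y y' w w' α
  have h1 : (Q : ℝ) < 10000 := by exact_mod_cast hQ1
  have hqp : 0 < q := by positivity
  have hql : q < 1 := by rw [div_lt_one (by norm_num)]; exact h1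
  have hE := Ept_pos hQ0 hQ1 hm (k + 1) j
  have hEE := Ept_lt hQ0 hQ1 hm (k + 1) j
  have hz := Ept_z hQ0 hQ1 hm (k + 1) j
  have hdb := dd_big h5 j
  have hzz : (10000 - (Q : ℝ)) / (dd Q m j : ℝ) ≤ 1 / 20 := by
    rw [div_le_iff₀ (by linarith)]
    have : (0 : ℝ) < Q := by positivity
    linarith
  have h := step_err hqp hql hP hE hEE le_rfl (by rw [hz]; exact hzz)
  rw [hz] at h
  have hα : 1 / (1 - q) * ((10000 - (Q : ℝ)) / (dd Q m j : ℝ)) = α := by
    have : (10000 : ℝ) - Q ≠ 0 := by linarith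
    have e : 1 - q = (10000 - Q) / 10000 := by simp only [q]; ring
    rw [e]
    simp only [α]
    field_simp
  rw [hα] at h
  have g1 : G q (Ept Q m (k + 1) j) = w * (w - y) := by
    unfold G; rw [Ept_q hQ0]
  have g2 : G q (Ept Q m (k + 1) (j + 1)) = w' * (w' - y') := by
    unfold G; rw [Ept_q hQ0]
  rw [g1, g2] at h
  have a1 := PosC.lt hqp hql hP hE hEE.le
  have a2 := PosC.lt hqp hql hP (Ept_pos hQ0 hQ1 hm (k + 1) (j + 1)) le_rfl
  have b1 : Ept Q m k j ≤ Ept Q m (k + 1) (j + 1) := by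
    rw [← Ept_q hQ0]; nlinarith
  have b2 : Ept Q m k (j + 1) ≤ Ept Q m (k + 1) (j + 1) := by
    rw [← Ept_q hQ0]; nlinarith
  have c1 := PosC.lt hqp hql hP (Ept_pos hQ0 hQ1 hm k j) b1
  have c2 := PosC.lt hqp hql hP (Ept_pos hQ0 hQ1 hm k (j + 1)) b2
  rw [Ept_q hQ0] at a1 a2
  exact ⟨h, a1.1, a1.2.1, c1.2.2, a2.1, a2.2.1, c2.2.2⟩

omit hQ0 hQ1 hm in
theorem ee_spec {S j : ℕ} (hd : 0 < dd Q m j) : (6 * 10000 ^ 3 * (S : ℝ) ^ 2) / (dd Q m j : ℝ) ^ 2 ≤ (ee Q m S j : ℝ) := by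
  have hd' : (0 : ℝ) < (dd Q m j : ℝ) ^ 2 := by positivity
  rw [div_le_iff₀ hd']
  have h : 6 * 10000 ^ 3 * S ^ 2 ≤ ee Q m S j * (dd Q m j) ^ 2 := by
    unfold ee
    have := Nat.div_add_mod (6 * 10000 ^ 3 * S ^ 2) ((dd Q m j) ^ 2)
    have h2 := Nat.mod_lt (6 * 10000 ^ 3 * S ^ 2) (by positivity : 0 < (dd Q m j) ^ 2)
    rw [add_mul, one_mul, mul_comm (6 * 10000 ^ 3 * S ^ 2 / (dd Q m j) ^ 2)]
    omega
  exact_mod_cast h

theorem levU (h5 : 500000 ≤ Q * m) {S k j l l' u u' : ℕ} (hS : 0 < S)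
    (hP : PosC ((Q : ℝ) / 10000) (Ept Q m (k + 1) (j + 1)))
    (hl : (l : ℝ) ≤ S * B ((Q : ℝ) / 10000) (Ept Q m k j)) (hl' : (l' : ℝ) ≤ S * B ((Q : ℝ) / 10000) (Ept Q m k (j + 1)))
    (hu : S * B ((Q : ℝ) / 10000) (Ept Q m (k + 1) j) ≤ u) (hc : condU Q m S j l l' u u' = true) :
    S * B ((Q : ℝ) / 10000) (Ept Q m (k + 1) (j + 1)) ≤ u' := by
  obtain ⟨herr, y0, yw, w1, y0', yw', w1'⟩ := grid_err hQ0 hQ1 hm h5 hP
  set q := (Q : ℝ) / 10000
  set y := B q (Ept Q m (k + 1) j)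
  set y' := B q (Ept Q m (k + 1) (j + 1))
  set w := B q (Ept Q m k j)
  set w' := B q (Ept Q m k (j + 1))
  set α := 10000 / (dd Q m j : ℝ) with hα
  have hS' : (0 : ℝ) < S := by exact_mod_cast hS
  have hdb := dd_big h5 j
  set d : ℝ := (dd Q m j : ℝ) with hd
  have hd0 : 0 < d := by linarith
  have hαpos : 0 < α := by rw [hα]; positivity
  have hα1 : α < 1 := by rw [hα, div_lt_one hd0]; linarith
  have hee := ee_spec (Q := Q) (m := m) (S := S) (j := j) (by rw [hd] at hd0; exact_mod_cast hd0)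
  rw [condU, Nat.ble_eq] at hc
  have hc' : (u : ℝ) * (S * d + 10000 * l) + (ee Q m S j : ℝ) + u' * (10000 * l') ≤ u' * (S * d) + 10000 * (l' * l' + l * l) := by
    rw [hd]; exact_mod_cast hc
  have hl1 : (l : ℝ) / S ≤ w := by rw [div_le_iff₀ hS']; linarith
  have hl1' : (l' : ℝ) / S ≤ w' := by rw [div_le_iff₀ hS']; linarith
  have hu1 : y ≤ (u : ℝ) / S := by rw [le_div_iff₀ hS']; linarith
  have hres := up_step (u' := (u' : ℝ) / S) hαpos (by positivity : (0 : ℝ) ≤ (l : ℝ) / S) (by positivity : (0 : ℝ) ≤ (l' : ℝ) / S)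
    yw yw' hl1 hl1' hu1 (by
      have h0 : (0 : ℝ) ≤ (l' : ℝ) / S := by positivity
      nlinarith) herr (by
      have e1 : ((u : ℝ) / S * (1 + α * ((l : ℝ) / S)) + 6 * α ^ 3) * (S ^ 2 * d) =
          u * (S * d + 10000 * l) + (6 * 10000 ^ 3 * (S : ℝ) ^ 2) / d ^ 2 := by
        rw [hα]; field_simp
      have e2 : ((u' : ℝ) / S * (1 - α * ((l' : ℝ) / S)) + α * ((l' : ℝ) / S) ^ 2 + α * ((l : ℝ) / S) ^ 2) * (S ^ 2 * d) =
          u' * (S * d) - u' * (10000 * l') + 10000 * (l' * l' + l * l) := by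
        rw [hα]; field_simp; ring
      apply le_of_mul_le_mul_right (a := S ^ 2 * d) _ (by positivity)
      rw [e1, e2]
      linarith)
  rw [le_div_iff₀ hS'] at hres
  linarith

theorem levL (h5 : 500000 ≤ Q * m) {S k j U U' L L' : ℕ} (hS : 0 < S)
    (hP : PosC ((Q : ℝ) / 10000) (Ept Q m (k + 1) (j + 1)))
    (hU : S * B ((Q : ℝ) / 10000) (Ept Q m k j) ≤ U) (hU' : S * B ((Q : ℝ) / 10000) (Ept Q m k (j + 1)) ≤ U')
    (hL : (L : ℝ) ≤ S * B ((Q : ℝ) / 10000) (Ept Q m (k + 1) j)) (hc : condL Q m S j U U' L L' = true) :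
    (L' : ℝ) ≤ S * B ((Q : ℝ) / 10000) (Ept Q m (k + 1) (j + 1)) := by
  obtain ⟨herr, y0, yw, w1, y0', yw', w1'⟩ := grid_err hQ0 hQ1 hm h5 hP
  set q := (Q : ℝ) / 10000
  set y := B q (Ept Q m (k + 1) j)
  set y' := B q (Ept Q m (k + 1) (j + 1))
  set w := B q (Ept Q m k j)
  set w' := B q (Ept Q m k (j + 1))
  set α := 10000 / (dd Q m j : ℝ) with hα
  have hS' : (0 : ℝ) < S := by exact_mod_cast hS
  have hdb := dd_big h5 j
  set d : ℝ := (dd Q m j : ℝ) with hd
  have hd0 : 0 < d := by linarith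
  have hαpos : 0 < α := by rw [hα]; positivity
  have hα1 : α < 1 := by rw [hα, div_lt_one hd0]; linarith
  have hee := ee_spec (Q := Q) (m := m) (S := S) (j := j) (by rw [hd] at hd0; exact_mod_cast hd0)
  rw [condL, Bool.and_eq_true, Nat.ble_eq, Nat.ble_eq] at hc
  have hc' : (L' : ℝ) * (S * d) + 10000 * (U' * U' + U * U) + (ee Q m S j : ℝ) ≤ L * (S * d + 10000 * U) + L' * (10000 * U') := by
    rw [hd]; exact_mod_cast hc.1
  have hUS : (U' : ℝ) ≤ S := by exact_mod_cast hc.2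
  have hU1 : w ≤ (U : ℝ) / S := by rw [le_div_iff₀ hS']; linarith
  have hU1' : w' ≤ (U' : ℝ) / S := by rw [le_div_iff₀ hS']; linarith
  have hL1 : (L : ℝ) / S ≤ y := by rw [div_le_iff₀ hS']; linarith
  have hres := low_step (L' := (L' : ℝ) / S) hαpos (by positivity : (0 : ℝ) ≤ (U : ℝ) / S) (by positivity : (0 : ℝ) ≤ (U' : ℝ) / S)
    yw yw' hU1 hU1' hL1 (by
      have h0 : (U' : ℝ) / S ≤ 1 := by rw [div_le_one hS']; exact hUS
      nlinarith) herr (by
      have e1 : ((L' : ℝ) / S * (1 - α * ((U' : ℝ) / S)) + α * ((U' : ℝ) / S) ^ 2 + α * ((U : ℝ) / S) ^ 2 + 6 * α ^ 3) * (S ^ 2 * d) =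
          L' * (S * d) - L' * (10000 * U') + 10000 * (U' * U' + U * U) + (6 * 10000 ^ 3 * (S : ℝ) ^ 2) / d ^ 2 := by
        rw [hα]; field_simp; ring
      have e2 : ((L : ℝ) / S * (1 + α * ((U : ℝ) / S))) * (S ^ 2 * d) = L * (S * d + 10000 * U) := by
        rw [hα]; field_simp
      apply le_of_mul_le_mul_right (a := S ^ 2 * d) _ (by positivity)
      rw [e1, e2]
      linarith)
  rw [div_le_iff₀ hS'] at hres
  linarith

theorem levPos (h5 : 500000 ≤ Q * m) {S k j U L : ℕ} (hS : 0 < S)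
    (hP : PosC ((Q : ℝ) / 10000) (Ept Q m (k + 1) j))
    (hU : S * B ((Q : ℝ) / 10000) (Ept Q m k j) ≤ U)
    (hL : (L : ℝ) ≤ S * B ((Q : ℝ) / 10000) (Ept Q m (k + 1) j)) (hc : condP Q m S j U L = true) :
    PosC ((Q : ℝ) / 10000) (Ept Q m (k + 1) (j + 1)) := by
  have h1 : (Q : ℝ) < 10000 := by exact_mod_cast hQ1
  set q := (Q : ℝ) / 10000 with hq
  have hqp : 0 < q := by positivity
  have hql : q < 1 := by rw [div_lt_one (by norm_num)]; exact h1
  have h1q : 0 < 1 - q := by linarith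
  have hS' : (0 : ℝ) < S := by exact_mod_cast hS
  have hE := Ept_pos hQ0 hQ1 hm (k + 1) j
  have hEE := Ept_lt hQ0 hQ1 hm (k + 1) j
  have hqE : q * Ept Q m (k + 1) j = Ept Q m k j := Ept_q hQ0 k j
  have hz := Ept_z hQ0 hQ1 hm (k + 1) j
  have hdb := dd_big h5 j
  by_contra hcon
  obtain ⟨Z, hZ, hZT, hZ0, hZb⟩ := first_zero hqp hql hcon
  set E := Ept Q m (k + 1) j with hEdef
  set E' := Ept Q m (k + 1) (j + 1) with hE'def
  have hEZ : E < Z := by
    by_contra h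
    push Not at h
    have := hP Z hZ h
    rw [hZ0] at this
    exact lt_irrefl _ this
  have hanti : StrictAntiOn (B q) (Icc 0 Z) := by
    apply antiOn_of_G hqp hql
    apply G_pos hqp hql
    intro x hx hx2
    exact hZb x hx (by nlinarith)
  set y := B q E with hy
  set w := B q (Ept Q m k j) with hw
  have hw0 : 0 < w := by
    rw [hw, ← hqE]
    exact hP _ (by positivity) (by nlinarith)
  have hder : ∀ x ∈ interior (Icc E Z), -(w ^ 2) / ((1 - q) * E) ≤ deriv (B q) x := by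
    intro x hx
    rw [interior_Icc] at hx
    have hx0 : 0 < x := hE.trans hx.1
    rw [(B_deriv_eq hqp hql hx0).deriv, neg_div, neg_div, neg_le_neg_iff]
    have hG : G q x ≤ w ^ 2 := by
      unfold G
      have hqx : q * x < Z := by nlinarith [hx.2]
      have a1 : B q (q * x) < w := by
        rw [hw, ← hqE]
        apply hanti ⟨by positivity, by nlinarith⟩ ⟨by positivity, hqx.le⟩
        apply mul_lt_mul_of_pos_left hx.1 hqp
      have a2 : 0 < B q (q * x) := hZb _ (by positivity) hqx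
      have a3 : 0 < B q x := hZb x hx0 hx.2
      nlinarith
    exact div_le_div₀ (by positivity) hG (by positivity) (mul_le_mul_of_nonneg_left hx.1.le h1q.le)
  have hmv := Convex.mul_sub_le_image_sub_of_le_deriv (convex_Icc E Z) (B_conti hqp hql).continuousOn
    ((B_diff hqp hql).differentiableOn) hder E (left_mem_Icc.mpr hEZ.le) Z (right_mem_Icc.mpr hEZ.le) hEZ.le
  rw [hZ0, zero_sub, ← hy] at hmv
  -- y <= s w^2 (E'-E)/E
  have h2 : y ≤ w ^ 2 / ((1 - q) * E) * (E' - E) := by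
    have h3 : w ^ 2 / ((1 - q) * E) * (Z - E) ≤ w ^ 2 / ((1 - q) * E) * (E' - E) :=
      mul_le_mul_of_nonneg_left (by linarith) (by positivity)
    have h4 : -(w ^ 2) / ((1 - q) * E) * (Z - E) = -(w ^ 2 / ((1 - q) * E) * (Z - E)) := by ring
    rw [h4] at hmv
    linarith
  set d : ℝ := (dd Q m j : ℝ) with hd
  have hd0 : 0 < d := by linarith
  -- (E'-E)/E <= 3 z
  have h6 : (E' - E) / E ≤ 3 * ((10000 - (Q : ℝ)) / d) := by
    rw [← hz, div_le_iff₀ hE]
    have hzle : (E' - E) / (E' + E) ≤ 1 / 20 := by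
      rw [hz, div_le_iff₀ hd0]
      have : (0 : ℝ) < Q := by positivity
      linarith
    have hEE'0 : 0 < E' + E := by linarith
    rw [div_le_iff₀ hEE'0] at hzle
    have : 3 * ((E' - E) / (E' + E)) * E = (E' - E) * (3 * E / (E' + E)) := by field_simp
    rw [this]
    have h7 : 1 ≤ 3 * E / (E' + E) := by rw [le_div_iff₀ hEE'0]; linarith
    have h8 : 0 < E' - E := by linarith
    nlinarith
  have h9 : y ≤ 3 * (10000 / d) * w ^ 2 := by
    have e1 : w ^ 2 / ((1 - q) * E) * (E' - E) = w ^ 2 / (1 - q) * ((E' - E) / E) := by field_simp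
    rw [e1] at h2
    have h10 : w ^ 2 / (1 - q) * ((E' - E) / E) ≤ w ^ 2 / (1 - q) * (3 * ((10000 - (Q : ℝ)) / d)) :=
      mul_le_mul_of_nonneg_left h6 (by positivity)
    have e2 : w ^ 2 / (1 - q) * (3 * ((10000 - (Q : ℝ)) / d)) = 3 * (10000 / d) * w ^ 2 := by
      have : (10000 : ℝ) - Q ≠ 0 := by linarith
      have e : 1 - q = (10000 - Q) / 10000 := by rw [hq]; ring
      rw [e]
      field_simp
    linarith
  rw [condP, Nat.ble_eq] at hc
  have hc' : 3 * 10000 * (U : ℝ) * U + 1 ≤ L * S * d := by rw [hd]; exact_mod_cast hc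
  have hwU : (S : ℝ) * w ≤ U := hU
  have h11 : (S * w) ^ 2 ≤ (U : ℝ) ^ 2 := pow_le_pow_left₀ (by positivity) hwU 2
  have h12 : (L : ℝ) * S * d ≤ (S * y) * S * d := by
    apply mul_le_mul_of_nonneg_right _ hd0.le
    exact mul_le_mul_of_nonneg_right hL hS'.le
  have h13 : (S * y) * S * d ≤ 3 * 10000 * (S * w) ^ 2 := by
    have : (S * y) * S * d ≤ (S * (3 * (10000 / d) * w ^ 2)) * S * d := by
      apply mul_le_mul_of_nonneg_right _ hd0.le
      apply mul_le_mul_of_nonneg_right _ hS'.le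
      exact mul_le_mul_of_nonneg_left h9 hS'.le
    refine this.trans (le_of_eq ?_)
    field_simp
  nlinarith

end

end NumX

end Pool.Agent.Counters
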