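import Pool.Agent.Lib.Counters.NumC

/-!
Chunk N, part D: from the integer certificate to the two numerical facts.
-/

namespace Pool.Agent.Counters

open Filter Topology Set

namespace NumX

/-- one row of the certificate: bounds on the levels 0 and 1, one bound on level 2. -/
structure Row where
  l0 : ℕ
  u0 : ℕ
  l1 : ℕ
  u1 : ℕ
  v : ℕ
  deriving Inhabited

def ev (g : ℕ → ℕ) (n : ℕ) : ℕ := bif Nat.beq (n % 2) 0 then g n else 0
def od (g : ℕ → ℕ) (n : ℕ) : ℕ := bif Nat.beq (n % 2) 0 then 0 else g n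

theorem ev_even {g : ℕ → ℕ} {n : ℕ} (h : n % 2 = 0) : ev g n = g n := by unfold ev; rw [h]; rfl
theorem ev_odd {g : ℕ → ℕ} {n : ℕ} (h : n % 2 = 1) : ev g n = 0 := by unfold ev; rw [h]; rfl
theorem od_even {g : ℕ → ℕ} {n : ℕ} (h : n % 2 = 0) : od g n = 0 := by unfold od; rw [h]; rfl
theorem od_odd {g : ℕ → ℕ} {n : ℕ} (h : n % 2 = 1) : od g n = g n := by unfold od; rw [h]; rfl

def cond0 (Q m S SG N : ℕ) (gl gu : ℕ → ℕ) (j l0 u0 : ℕ) : Bool :=
  Nat.ble (hor (ev gu) N (23 * (Q * m + (10000 - Q) * j)) (100000 * m) N * S + SG * (100000 * m) ^ N)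
    (hor (od gl) N (23 * (Q * m + (10000 - Q) * j)) (100000 * m) N * S + u0 * SG * (100000 * m) ^ N) &&
  Nat.ble (l0 * SG * (100000 * m) ^ N + SG * (100000 * m) ^ N +
      hor (od gu) N (23 * (Q * m + (10000 - Q) * j)) (100000 * m) N * S)
    (hor (ev gl) N (23 * (Q * m + (10000 - Q) * j)) (100000 * m) N * S)

/-- the data of a certificate which are common to both parts. -/
structure Cert (Q m S SG N : ℕ) (gl gu : ℕ → ℕ) (r0 : Row) (rs : List Row) : Prop where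
  hQ0 : 3000 ≤ Q
  hQ1 : Q ≤ 3700
  hm : 300 ≤ m
  hS : 0 < S
  hSG : 0 < SG
  hN : 1 ≤ N
  g0 : gl 0 ≤ SG ∧ SG ≤ gu 0
  g1 : gl 1 ≤ SG ∧ SG ≤ gu 1
  gL : allTo (chkL Q SG gl) N = true
  gU : allTo (chkU Q SG gu) N = true
  g6 : allTo (fun n => Nat.ble (gu n * 6 ^ n) (720 * SG)) N = true
  gle : allTo (fun n => Nat.ble (gu n) SG) N = true
  s1 : ∑ i ∈ Finset.Ico 1 (N + 1), (gu i : ℝ) / SG * (6 * ((Q : ℝ) / 10000)) ^ i
    + 720 * (((Q : ℝ) / 10000) ^ (N + 1) / (1 - (Q : ℝ) / 10000)) ≤ N * (1 - (Q : ℝ) / 10000) ^ 2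
  tail : (720 : ℝ) * ((1 / 6 * (23 / 10)) ^ (N + 1) / (1 - 1 / 6 * (23 / 10))) ≤ 1 / S
  t1 : (720 : ℝ) * (1 / 6) ^ (N + 1) ≤ 1
  len : rs.length = m
  c00 : cond0 Q m S SG N gl gu 0 r0.l0 r0.u0 = true
  c0 : chain (fun j _ b => cond0 Q m S SG N gl gu (j + 1) b.l0 b.u0) 0 r0 rs = true
  c1 : chain (fun j a b => condL Q m S j a.u0 b.u0 a.l1 b.l1 && condU Q m S j a.l0 b.l0 a.u1 b.u1 &&
    condP Q m S j a.u0 a.l1) 0 r0 rs = true
  st1 : r0.l1 ≤ (rs.getLastD default).l0 ∧ (rs.getLastD default).u0 ≤ r0.u1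
  p0 : 0 < r0.l0 ∧ 0 < r0.l1

section
variable {Q m S SG N : ℕ} {gl gu : ℕ → ℕ} {r0 : Row} {rs : List Row} (C : Cert Q m S SG N gl gu r0 rs)
include C

/-- the rows as a function. -/
def fr (r0 : Row) (rs : List Row) (i : ℕ) : Row := (r0 :: rs).getD i default

omit C in
theorem getLastD_eq (hlen : rs.length = m) (hm : 0 < m) : rs.getLastD default = fr r0 rs m := by
  unfold fr
  obtain ⟨k, rfl⟩ : ∃ k, m = k + 1 := ⟨m - 1, by omega⟩
  rw [List.getD_cons_succ, List.getLastD_eq_getLast?, List.getLast?_eq_getElem?, hlen, Nat.add_sub_cancel,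
    List.getD_eq_getElem?_getD]

theorem q_pos : 0 < (Q : ℝ) / 10000 := by
  have : (3000 : ℝ) ≤ Q := by exact_mod_cast C.hQ0
  positivity

theorem q_lt : (Q : ℝ) / 10000 < 1 := by
  have : (Q : ℝ) ≤ 3700 := by exact_mod_cast C.hQ1
  rw [div_lt_one (by norm_num)]; linarith

theorem gam_le_gu : ∀ n ≤ N, gam ((Q : ℝ) / 10000) n * SG ≤ gu n :=
  gam_upper (by have := C.hQ0; omega) (by have := C.hQ1; omega) C.hSG C.g0.2 C.g1.2 C.gU

theorem gl_le_gam : ∀ n ≤ N, (gl n : ℝ) ≤ gam ((Q : ℝ) / 10000) n * SG :=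
  gam_lower (by have := C.hQ0; omega) (by have := C.hQ1; omega) C.hSG C.g0.1 C.g1.1 C.gL

theorem gam_six : ∀ n, 1 ≤ n → gam ((Q : ℝ) / 10000) n ≤ 720 * (1 / 6) ^ n := by
  have hSG : (0 : ℝ) < SG := by exact_mod_cast C.hSG
  apply gam_geo (q_pos C) (q_lt C) (N := N) (S1 := N * (1 - (Q : ℝ) / 10000) ^ 2) (by norm_num) _ _ le_rfl C.hN
  · intro n _ hn
    have h1 := allTo_spec C.g6 n hn
    rw [Nat.ble_eq] at h1
    have h2 : (gu n : ℝ) * 6 ^ n ≤ 720 * SG := by exact_mod_cast h1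
    have h3 := gam_le_gu C n hn
    have h4 : gam ((Q : ℝ) / 10000) n * SG * 6 ^ n ≤ 720 * SG := by
      have := mul_le_mul_of_nonneg_right h3 (by positivity : (0 : ℝ) ≤ 6 ^ n)
      linarith
    rw [one_div, inv_pow, ← div_eq_mul_inv, le_div_iff₀ (by positivity)]
    have h5 : gam ((Q : ℝ) / 10000) n * 6 ^ n * SG ≤ 720 * SG := by linarith
    exact le_of_mul_le_mul_right h5 hSG
  · refine le_trans ?_ C.s1
    apply add_le_add _ le_rfl
    apply Finset.sum_le_sum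
    intro i hi
    rw [Finset.mem_Ico] at hi
    have h3 := gam_le_gu C i (by omega)
    have hq := q_pos C
    apply mul_le_mul_of_nonneg_right _ (by positivity)
    rw [le_div_iff₀ hSG]; exact h3

theorem gam_le_one : ∀ n, 1 ≤ n → gam ((Q : ℝ) / 10000) n ≤ 1 := by
  have hSG : (0 : ℝ) < SG := by exact_mod_cast C.hSG
  intro n hn
  by_cases h : n ≤ N
  · have h1 := allTo_spec C.gle n h
    rw [Nat.ble_eq] at h1
    have h2 : (gu n : ℝ) ≤ SG := by exact_mod_cast h1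
    have h3 := gam_le_gu C n h
    have h4 : gam ((Q : ℝ) / 10000) n * SG ≤ 1 * SG := by linarith
    exact le_of_mul_le_mul_right h4 hSG
  · push Not at h
    refine (gam_six C n hn).trans (le_trans ?_ C.t1)
    apply mul_le_mul_of_nonneg_left _ (by norm_num)
    exact pow_le_pow_of_le_one (by norm_num) (by norm_num) (by omega)

theorem small_pos {E : ℝ} (hE : 0 < E) (hE3 : E ≤ 1 / 3) : 0 < B ((Q : ℝ) / 10000) E := by
  have h := B_tail (q_pos C) (q_lt C) (N := 0) (At := 1) (ρ := 1) (E := E) one_pos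
    (fun n hn => by simpa using gam_le_one C n hn) hE.le (by linarith)
  simp only [zero_add, Finset.range_one, Finset.sum_singleton, pow_zero, gam_zero, one_mul, mul_one, pow_one] at h
  have h1 := (abs_le.mp h).1
  have h2 : E / (1 - E) ≤ 1 / 2 := by rw [div_le_iff₀ (by linarith)]; linarith
  linarith

theorem val0 {j l0 u0 : ℕ} (hj : j ≤ m) (hc : cond0 Q m S SG N gl gu j l0 u0 = true) :
    (l0 : ℝ) ≤ S * B ((Q : ℝ) / 10000) (Ept Q m 0 j) ∧ S * B ((Q : ℝ) / 10000) (Ept Q m 0 j) ≤ u0 := by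
  have hSG : (0 : ℝ) < SG := by exact_mod_cast C.hSG
  have hS : (0 : ℝ) < S := by exact_mod_cast C.hS
  have hmp : (0 : ℝ) < m := by have := C.hm; exact_mod_cast (by omega : 0 < m)
  have hQ3 : (Q : ℝ) ≤ 3700 := by exact_mod_cast C.hQ1
  have hQ0 : (3000 : ℝ) ≤ Q := by exact_mod_cast C.hQ0
  have hQl : Q ≤ 10000 := by have := C.hQ1; omega
  set X : ℕ := 23 * (Q * m + (10000 - Q) * j) with hX
  set Y : ℕ := 100000 * m with hY
  set E := Ept Q m 0 j with hE
  have hY0 : 0 < Y := by have := C.hm; omega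
  have hYr : (0 : ℝ) < Y := by exact_mod_cast hY0
  have hEXY : E = (X : ℝ) / Y := by
    rw [hE, Ept, hX, hY]
    push_cast [Nat.cast_sub hQl]
    field_simp
    ring
  have hjm : (j : ℝ) ≤ m := by exact_mod_cast hj
  have hE0 : 0 ≤ E := by rw [hEXY]; positivity
  have hE1 : E ≤ 23 / 10 := by
    rw [hE, Ept, pow_zero, div_one, div_le_iff₀ (by positivity)]
    nlinarith
  have ht := B_tail (q_pos C) (q_lt C) (N := N) (At := 720) (ρ := 1 / 6) (E := E) (by norm_num) (gam_six C) hE0 (by linarith)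
  have htl : (720 : ℝ) * ((1 / 6 * E) ^ (N + 1) / (1 - 1 / 6 * E)) ≤ 1 / S := by
    refine le_trans ?_ C.tail
    apply mul_le_mul_of_nonneg_left _ (by norm_num)
    apply div_le_div₀ (by positivity)
    · apply pow_le_pow_left₀ (by positivity)
      linarith
    · norm_num
    · linarith
  have ht2 := ht.trans htl
  set P := ∑ n ∈ Finset.range (N + 1), (-1) ^ n * gam ((Q : ℝ) / 10000) n * E ^ n with hP
  have hgu := gam_le_gu C
  have hgl := gl_le_gam C
  have hu : P * SG ≤ ∑ i ∈ Finset.range (N + 1), (ev gu i : ℝ) * E ^ i - ∑ i ∈ Finset.range (N + 1), (od gl i : ℝ) * E ^ i := by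
    rw [hP, Finset.sum_mul, ← Finset.sum_sub_distrib]
    apply Finset.sum_le_sum
    intro i hi
    rw [Finset.mem_range] at hi
    have a := hgu i (by omega)
    have b := hgl i (by omega)
    have hEi : 0 ≤ E ^ i := by positivity
    rcases Nat.mod_two_eq_zero_or_one i with h | h
    · have hpar : ((-1 : ℝ)) ^ i = 1 := (Nat.even_iff.mpr h).neg_one_pow
      rw [ev_even h, od_even h, hpar]
      simp only [Nat.cast_zero]
      nlinarith
    · have hpar : ((-1 : ℝ)) ^ i = -1 := (Nat.odd_iff.mpr h).neg_one_pow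
      rw [ev_odd h, od_odd h, hpar]
      simp only [Nat.cast_zero]
      nlinarith
  have hl : ∑ i ∈ Finset.range (N + 1), (ev gl i : ℝ) * E ^ i - ∑ i ∈ Finset.range (N + 1), (od gu i : ℝ) * E ^ i ≤ P * SG := by
    rw [hP, Finset.sum_mul, ← Finset.sum_sub_distrib]
    apply Finset.sum_le_sum
    intro i hi
    rw [Finset.mem_range] at hi
    have a := hgu i (by omega)
    have b := hgl i (by omega)
    have hEi : 0 ≤ E ^ i := by positivity
    rcases Nat.mod_two_eq_zero_or_one i with h | h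
    · have hpar : ((-1 : ℝ)) ^ i = 1 := (Nat.even_iff.mpr h).neg_one_pow
      rw [ev_even h, od_even h, hpar]
      simp only [Nat.cast_zero]
      nlinarith
    · have hpar : ((-1 : ℝ)) ^ i = -1 := (Nat.odd_iff.mpr h).neg_one_pow
      rw [ev_odd h, od_odd h, hpar]
      simp only [Nat.cast_zero]
      nlinarith
  rw [cond0, Bool.and_eq_true, Nat.ble_eq, Nat.ble_eq] at hc
  have hspec : ∀ f : ℕ → ℕ, ((hor f N X Y N : ℕ) : ℝ) = (Y : ℝ) ^ N * ∑ i ∈ Finset.range (N + 1), (f i : ℝ) * E ^ i := by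
    intro f
    rw [hor_spec f N X Y hY0 N le_rfl, hEXY]
    simp
  have hc1 : (hor (ev gu) N X Y N : ℝ) * S + SG * (Y : ℝ) ^ N ≤ (hor (od gl) N X Y N : ℝ) * S + u0 * SG * (Y : ℝ) ^ N := by
    exact_mod_cast hc.1
  have hc2 : (l0 : ℝ) * SG * (Y : ℝ) ^ N + SG * (Y : ℝ) ^ N + (hor (od gu) N X Y N : ℝ) * S ≤ (hor (ev gl) N X Y N : ℝ) * S := by
    exact_mod_cast hc.2
  rw [hspec, hspec] at hc1 hc2
  have hYN : (0 : ℝ) < (Y : ℝ) ^ N := by positivity
  set s1 := ∑ i ∈ Finset.range (N + 1), (ev gu i : ℝ) * E ^ i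
  set s2 := ∑ i ∈ Finset.range (N + 1), (od gl i : ℝ) * E ^ i
  set s3 := ∑ i ∈ Finset.range (N + 1), (od gu i : ℝ) * E ^ i
  set s4 := ∑ i ∈ Finset.range (N + 1), (ev gl i : ℝ) * E ^ i
  have d1 : s1 * S + SG ≤ s2 * S + u0 * SG := by
    apply le_of_mul_le_mul_left _ hYN
    linarith
  have d2 : l0 * SG + SG + s3 * S ≤ s4 * S := by
    apply le_of_mul_le_mul_left _ hYN
    linarith
  obtain ⟨t1, t2⟩ := abs_le.mp ht2
  have hSS : (S : ℝ) * (1 / S) = 1 := by field_simp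
  constructor
  · -- lower
    have e1 : (l0 : ℝ) * SG + SG ≤ (P * SG) * S := by nlinarith
    have e2 : (l0 : ℝ) + 1 ≤ P * S := by
      apply le_of_mul_le_mul_right _ hSG
      linarith
    nlinarith
  · have e1 : (P * SG) * S ≤ u0 * SG - SG := by nlinarith
    have e2 : P * S ≤ u0 - 1 := by
      apply le_of_mul_le_mul_right _ hSG
      linarith
    nlinarith

theorem level0 : ∀ j ≤ m, ((fr r0 rs j).l0 : ℝ) ≤ S * B ((Q : ℝ) / 10000) (Ept Q m 0 j) ∧
    S * B ((Q : ℝ) / 10000) (Ept Q m 0 j) ≤ (fr r0 rs j).u0 := by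
  intro j hj
  rcases Nat.eq_zero_or_pos j with rfl | h
  · exact val0 C hj C.c00
  · obtain ⟨i, rfl⟩ : ∃ i, j = i + 1 := ⟨j - 1, by omega⟩
    have := chain_spec _ rs 0 r0 C.c0 i (by rw [C.len]; omega)
    rw [zero_add] at this
    exact val0 C hj this

theorem pos0 : PosC ((Q : ℝ) / 10000) (Ept Q m 0 m) := by
  have hq := q_pos C
  have hS : (0 : ℝ) < S := by exact_mod_cast C.hS
  have hm : 0 < m := by have := C.hm; omega
  have hmp : (0 : ℝ) < m := by exact_mod_cast hm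
  have hQ3 : (Q : ℝ) ≤ 3700 := by exact_mod_cast C.hQ1
  have eT : Ept Q m 0 m = 23 / 10 := by
    rw [Ept]
    field_simp
    ring
  have e1 : Ept Q m 0 0 = 23 / 10 * ((Q : ℝ) / 10000) := by
    rw [Ept]
    field_simp
    push_cast
    ring
  apply pos_of_grid hq (q_lt C)
  intro k
  rw [eT]
  rcases Nat.lt_or_ge k 2 with h | h
  · interval_cases k
    · rw [pow_zero, mul_one]
      have h1 := (level0 C m le_rfl).1
      rw [eT] at h1
      have h2 : 0 < (fr r0 rs m).l0 := by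
        rw [← getLastD_eq C.len hm]
        exact lt_of_lt_of_le C.p0.2 C.st1.1
      have h3 : (0 : ℝ) < ((fr r0 rs m).l0 : ℝ) := by exact_mod_cast h2
      have h4 := h3.trans_le h1
      exact (mul_pos_iff_of_pos_left hS).mp h4
    · rw [pow_one]
      have h1 := (level0 C 0 (Nat.zero_le _)).1
      rw [e1] at h1
      have h2 : 0 < (fr r0 rs 0).l0 := C.p0.1
      have h3 : (0 : ℝ) < ((fr r0 rs 0).l0 : ℝ) := by exact_mod_cast h2
      have h4 := h3.trans_le h1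
      exact (mul_pos_iff_of_pos_left hS).mp h4
  · apply small_pos C (by positivity)
    have h1 : ((Q : ℝ) / 10000) ^ k ≤ ((Q : ℝ) / 10000) ^ 2 := pow_le_pow_of_le_one hq.le (q_lt C).le h
    have h2 : ((Q : ℝ) / 10000) ^ 2 ≤ (37 / 100) ^ 2 := pow_le_pow_left₀ hq.le (by linarith) 2
    nlinarith

theorem h5 : 500000 ≤ Q * m := by
  have h1 := C.hQ0
  have h2 := C.hm
  nlinarith

theorem level1 : ∀ j ≤ m, PosC ((Q : ℝ) / 10000) (Ept Q m 1 j) ∧
    ((fr r0 rs j).l1 : ℝ) ≤ S * B ((Q : ℝ) / 10000) (Ept Q m 1 j) ∧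
    S * B ((Q : ℝ) / 10000) (Ept Q m 1 j) ≤ (fr r0 rs j).u1 := by
  have hQ0 : 0 < Q := by have := C.hQ0; omega
  have hQ1 : Q < 10000 := by have := C.hQ1; omega
  have hm : 0 < m := by have := C.hm; omega
  intro j
  induction j with
  | zero =>
    intro _
    rw [show (1 : ℕ) = 0 + 1 from rfl, Ept_next hQ0 hm]
    refine ⟨pos0 C, ?_, ?_⟩
    · refine le_trans ?_ (level0 C m le_rfl).1
      rw [← getLastD_eq C.len hm]
      exact_mod_cast C.st1.1
    · refine le_trans (level0 C m le_rfl).2 ?_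
      rw [← getLastD_eq C.len hm]
      exact_mod_cast C.st1.2
  | succ j ih =>
    intro hj
    obtain ⟨p, a, b⟩ := ih (by omega)
    have hc := chain_spec _ rs 0 r0 C.c1 j (by rw [C.len]; omega)
    rw [zero_add, Bool.and_eq_true, Bool.and_eq_true] at hc
    have z1 := level0 C j (by omega)
    have z2 := level0 C (j + 1) hj
    have hp := levPos hQ0 hQ1 hm (h5 C) C.hS (k := 0) p z1.2 a hc.2
    exact ⟨hp, levL hQ0 hQ1 hm (h5 C) C.hS (k := 0) hp z1.2 z2.2 a hc.1.1,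
      levU hQ0 hQ1 hm (h5 C) C.hS (k := 0) hp z1.1 z2.1 b hc.1.2⟩

/-- a negative value. -/
theorem neg_of_cert (c2 : chain (fun j a b => condU Q m S j a.l1 b.l1 a.v b.v) 0 r0 rs = true)
    (st : (rs.getLastD default).u1 ≤ r0.v) (en : (rs.getLastD default).v = 0) :
    ∃ E, 0 < E ∧ B ((Q : ℝ) / 10000) E < 0 := by
  have hQ0 : 0 < Q := by have := C.hQ0; omega
  have hQ1 : Q < 10000 := by have := C.hQ1; omega
  have hm : 0 < m := by have := C.hm; omega
  have hS : (0 : ℝ) < S := by exact_mod_cast C.hS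
  by_contra hcon
  push Not at hcon
  have hpos : ∀ T, 0 < T → PosC ((Q : ℝ) / 10000) T := by
    intro T _
    by_contra h
    obtain ⟨Z, hZ, _, hZ0, hb⟩ := first_zero (q_pos C) (q_lt C) h
    have hq := q_pos C
    have hq1 := q_lt C
    have h1 : Z < Z / ((Q : ℝ) / 10000) := by rw [lt_div_iff₀ hq]; nlinarith
    have := neg_after hq hq1 hZ hZ0 hb _ h1 le_rfl
    exact absurd (hcon _ (by linarith)) (not_le.mpr this)
  have key : ∀ j ≤ m, S * B ((Q : ℝ) / 10000) (Ept Q m 2 j) ≤ (fr r0 rs j).v := by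
    intro j
    induction j with
    | zero =>
      intro _
      rw [show (2 : ℕ) = 1 + 1 from rfl, Ept_next hQ0 hm]
      refine le_trans (level1 C m le_rfl).2.2 ?_
      rw [← getLastD_eq C.len hm]
      exact_mod_cast st
    | succ j ih =>
      intro hj
      have hc := chain_spec _ rs 0 r0 c2 j (by rw [C.len]; omega)
      rw [zero_add] at hc
      exact levU hQ0 hQ1 hm (h5 C) C.hS (k := 1) (hpos _ (Ept_pos hQ0 hQ1 hm _ _)) (level1 C j (by omega)).2.1
        (level1 C (j + 1) hj).2.1 (ih (by omega)) hc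
  have h1 := key m le_rfl
  rw [← getLastD_eq C.len hm, en, Nat.cast_zero] at h1
  have h2 := hpos _ (Ept_pos hQ0 hQ1 hm 2 m) _ (Ept_pos hQ0 hQ1 hm 2 m) le_rfl
  have h3 := mul_pos hS h2
  linarith

/-- a trap. -/
theorem trap_of_cert (c2 : chain (fun j a b => condL Q m S j a.u1 b.u1 a.v b.v && condP Q m S j a.u1 a.v) 0 r0 rs = true)
    (st : r0.v ≤ (rs.getLastD default).l1) {κ : ℝ} (hκ : 0 < κ)
    (en : ((rs.getLastD default).u1 : ℝ) ^ 2 < κ * ((rs.getLastD default).v : ℝ) * S) :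
    ∃ E, 0 < E ∧ PosC ((Q : ℝ) / 10000) E ∧
      (B ((Q : ℝ) / 10000) ((Q : ℝ) / 10000 * E)) ^ 2 < κ * B ((Q : ℝ) / 10000) E := by
  have hQ0 : 0 < Q := by have := C.hQ0; omega
  have hQ1 : Q < 10000 := by have := C.hQ1; omega
  have hm : 0 < m := by have := C.hm; omega
  have hS : (0 : ℝ) < S := by exact_mod_cast C.hS
  have key : ∀ j ≤ m, PosC ((Q : ℝ) / 10000) (Ept Q m 2 j) ∧
      ((fr r0 rs j).v : ℝ) ≤ S * B ((Q : ℝ) / 10000) (Ept Q m 2 j) := by
    intro j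
    induction j with
    | zero =>
      intro _
      rw [show (2 : ℕ) = 1 + 1 from rfl, Ept_next hQ0 hm]
      refine ⟨(level1 C m le_rfl).1, le_trans ?_ (level1 C m le_rfl).2.1⟩
      rw [← getLastD_eq C.len hm]
      exact_mod_cast st
    | succ j ih =>
      intro hj
      obtain ⟨p, a⟩ := ih (by omega)
      have hc := chain_spec _ rs 0 r0 c2 j (by rw [C.len]; omega)
      rw [zero_add, Bool.and_eq_true] at hc
      have z1 := (level1 C j (by omega)).2.2
      have z2 := (level1 C (j + 1) hj).2.2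
      have hp := levPos hQ0 hQ1 hm (h5 C) C.hS (k := 1) p z1 a hc.2
      exact ⟨hp, levL hQ0 hQ1 hm (h5 C) C.hS (k := 1) hp z1 z2 a hc.1⟩
  obtain ⟨p, a⟩ := key m le_rfl
  refine ⟨Ept Q m 2 m, Ept_pos hQ0 hQ1 hm 2 m, p, ?_⟩
  rw [show (2 : ℕ) = 1 + 1 from rfl, Ept_q hQ0]
  have z := (level1 C m le_rfl)
  have w0 := z.1 _ (Ept_pos hQ0 hQ1 hm 1 m) le_rfl
  rw [← getLastD_eq C.len hm] at a
  have z2 := z.2.2
  rw [← getLastD_eq C.len hm] at z2
  set w := B ((Q : ℝ) / 10000) (Ept Q m 1 m)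
  set y := B ((Q : ℝ) / 10000) (Ept Q m (1 + 1) m)
  have h1 : (S * w) ^ 2 ≤ ((rs.getLastD default).u1 : ℝ) ^ 2 := pow_le_pow_left₀ (by positivity) z2 2
  have h2 : κ * ((rs.getLastD default).v : ℝ) * S ≤ κ * (S * y) * S := by
    apply mul_le_mul_of_nonneg_right _ hS.le
    exact mul_le_mul_of_nonneg_left a hκ.le
  have h3 : S ^ 2 * w ^ 2 < S ^ 2 * (κ * y) := by nlinarith
  exact lt_of_mul_lt_mul_left h3 (by positivity)

end

end NumX

end Pool.Agent.Counters
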