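import Pool.Agent.Lib.Counters.Defs

/-!
Chunk W (Profiles): from waves to sub- and supersolution profiles.

In all three statements `f` solves `c f'(x) = -2 f(x-1) (f(x-1) - f(x))`.

`sub_profile_of`.  Given `c' < c` put `K = 1/(1-c'/c)`, choose `η > 0` small (`η ≤ c/(64 K²)`, `η<1/2`) and
`X` with `f X < η/2`, `f` antitone and `≥ 0` on `(-∞, X]`.  (a) For `x ≤ X`:
`c f(x) ≤ c f(X) + 2 f(x-1)²`: integrate `c f' = -2 f(z-1)(f(z-1)-f(z)) ≥ -2 f(x-1) (f(z-1)-f(z))` over
`[x,X]`; `∫_x^X (f(z-1)-f(z)) dz = ∫_{x-1}^x f - ∫_{X-1}^X f ≤ f(x-1)` (use a primitive `Φ` of `f`, the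
function `z ↦ c f(z) + 2 f(x-1) (Φ z - Φ(z-1))` is monotone on `[x,X]`).  (b) Let `f(y) = η`, `y ≤ X`
(intermediate value).  Then `2 f(y-1)² ≥ c η / 2`, so `f(y-1) ≥ √(cη)/2 ≥ 4 K η`.  (c) Put
`g(x) = f(x+y) - η` for `x < 0`, `g(x) = 0` for `x ≥ 0` (translate so that the zero is at `0`).  For the
step inequality let `g₁(x) = f(x+y) - η`; for `x ≤ s` (`s` small) `f''` is bounded on `(-∞, y+1]`, so
`f(x+y-s) ≤ f(x+y) + (2/c) s f(x+y-1)(f(x+y-1)-f(x+y)) + A s²` and, since `f(x+y-1) ≥ 2Kη` there,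
`(1/c) f(x+y-1) ≤ (1/c') (f(x+y-1) - η)`.  So `g₁(x-s) ≤ g₁(x) + (2/c') s g(x-1)(g(x-1) - g₁(x)) + A s²`
for `x ≤ s`; pass to `g = max(g₁,0)` with: if `g₁(x) < 0` the right side with `g₁(x)` replaced by `0`
is larger as soon as `(2/c') s ≤ 1`.

`super_profile_of_floor`.  `h(x) = a f(x - y)` with `a > 1` close to `1` (so that `a f(K') < 1` for
some `K'`, `f` is not constantly `≥ 1`), `y` with `a f(-y) ≥ 1`, `c' = a c`; `f''` is bounded.

`super_profile_of_wave`.  Let `c' = (1+ε) c`.  Put `h(x) = f(x) + η + η min(1, e^{-(x-x₁)})` (then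
translate so that `h ≥ 1` on `(-∞,0]`, possible since `h → 1 + 2η` at `-∞`).  From (a) with `X → ∞`:
`f(x) ≤ (2/c) f(x-1)²`.  Choose `κ` small (depending on `c`), `x₁` with `f(x₁-1) ≤ κ`; then
`f(x₁-1+y) ≤ κ e e^{-y}` for `y ≥ 0`.  Let `h₁ = f + 2η`, `h₂ = f + η + η e^{-(x-x₁)}`, `h = min h₁ h₂`.
With common past `P = h(x-1)`: for `x ≤ x₁ + s₀`, `h₁(x-s) ≥ h₁(x) + (2/c') s P (P - h₁(x)) - A s²` because
`ε f(x-1) ≥ 2η` there (choose `η ≤ ε f(x₁)/2`); for `x ≥ x₁`,
`h₂(x-s) ≥ h₂(x) + (2/c') s P (P - h₂(x)) - A s²` because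
`c' e^{-(x-x₁)} ≥ 4 f(x-1) + 2 (f(x-1)+2η) e^{-(x-x₁)} (e - 1)`.  For `x₁ < x < x₁+s`:
`h(x-s) = h₁(x-s)` and `h₂(x) ≤ h₁(x)`, use `1 - (2/c') s P ≥ 0`.
-/

namespace Pool.Agent.Counters

open Filter Topology Set

namespace SubP

/-- Data shared by the lemmas: an antitone piece of a solution. -/
structure Piece (c X : ℝ) (f : ℝ → ℝ) : Prop where
  hc : 0 < c
  ode : ∀ x, HasDerivAt f (-(2 / c) * (f (x - 1) * (f (x - 1) - f x))) x
  anti : AntitoneOn f (Iic X)
  nonneg : ∀ x, x ≤ X → 0 ≤ f x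
  le_one : ∀ x, x ≤ X → f x ≤ 1

variable {c X : ℝ} {f : ℝ → ℝ}

theorem Piece.cont (h : Piece c X f) : Continuous f :=
  continuous_iff_continuousAt.2 fun x => (h.ode x).continuousAt

/-- Lipschitz bound. -/
theorem Piece.lip (h : Piece c X f) {u v : ℝ} (huv : u ≤ v) (hv : v ≤ X) :
    f u - f v ≤ (2 / c) * (v - u) := by
  rcases huv.eq_or_lt with rfl | hlt
  · simp
  obtain ⟨ξ, hξ, he⟩ := exists_hasDerivAt_eq_slope f _ hlt h.cont.continuousOn
    (fun x _ => h.ode x)
  have hc := h.hc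
  have hξX : ξ ≤ X := hξ.2.le.trans hv
  have h1 : f ξ ≤ f (ξ - 1) := h.anti (show ξ - 1 ≤ X by linarith) hξX (by linarith)
  have h2 := h.nonneg ξ hξX
  have h3 := h.le_one (ξ - 1) (by linarith)
  have h4 : f (ξ - 1) * (f (ξ - 1) - f ξ) ≤ 1 := by nlinarith
  have hvu : 0 < v - u := sub_pos.2 hlt
  rw [eq_div_iff hvu.ne'] at he
  have h5 : 0 ≤ 2 / c := by positivity
  have h6 : (2 / c) * (f (ξ - 1) * (f (ξ - 1) - f ξ)) * (v - u) ≤ (2 / c) * 1 * (v - u) := by
    gcongr
  nlinarith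

/-- Second order bound. -/
theorem Piece.taylor (h : Piece c X f) {z s : ℝ} (hz : z ≤ X) (hs : 0 ≤ s) :
    f (z - s) ≤ f z + (2 / c) * s * (f (z - 1) * (f (z - 1) - f z)) + (8 / c ^ 2) * s ^ 2 := by
  rcases hs.eq_or_lt with rfl | hlt
  · simp
  have hc := h.hc
  obtain ⟨ξ, hξ, he⟩ := exists_hasDerivAt_eq_slope f _ (show z - s < z by linarith)
    h.cont.continuousOn (fun x _ => h.ode x)
  have hs' : z - (z - s) = s := by ring
  rw [hs', eq_div_iff hlt.ne'] at he
  have hξX : ξ ≤ X := hξ.2.le.trans hz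
  have a1 : f (ξ - 1) - f (z - 1) ≤ (2 / c) * s := by
    have := h.lip (u := ξ - 1) (v := z - 1) (by linarith [hξ.2]) (by linarith)
    have h5 : 0 ≤ 2 / c := by positivity
    have : (2 / c) * (z - 1 - (ξ - 1)) ≤ (2 / c) * s := by
      gcongr; linarith [hξ.1]
    linarith
  have a2 : f z ≤ f ξ := h.anti hξX hz hξ.2.le
  have a3 : f (z - 1) ≤ f (ξ - 1) :=
    h.anti (show ξ - 1 ≤ X by linarith) (show z - 1 ≤ X by linarith) (by linarith [hξ.2])
  have b1 := h.nonneg z hz
  have b2 := h.nonneg (z - 1) (by linarith)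
  have b3 := h.le_one (ξ - 1) (by linarith)
  have b4 := h.le_one (z - 1) (by linarith)
  have b5 := h.nonneg (ξ - 1) (by linarith)
  have key : f (ξ - 1) * (f (ξ - 1) - f ξ) ≤ f (z - 1) * (f (z - 1) - f z) + 2 * ((2 / c) * s) := by
    have k1 : f (ξ - 1) * (f (ξ - 1) - f ξ) ≤ f (ξ - 1) * (f (ξ - 1) - f z) := by
      gcongr
    have k2 : f (ξ - 1) * (f (ξ - 1) - f z) - f (z - 1) * (f (z - 1) - f z) =
        (f (ξ - 1) - f (z - 1)) * (f (ξ - 1) + f (z - 1) - f z) := by ring
    have k3 : (f (ξ - 1) - f (z - 1)) * (f (ξ - 1) + f (z - 1) - f z) ≤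
        (f (ξ - 1) - f (z - 1)) * 2 := by
      apply mul_le_mul_of_nonneg_left _ (by linarith)
      linarith
    linarith
  have h5 : 0 ≤ 2 / c * s := by positivity
  have k4 := mul_le_mul_of_nonneg_left key h5
  have k5 : 2 / c * s * (2 * (2 / c * s)) = (8 / c ^ 2) * s ^ 2 := by
    field_simp; ring
  nlinarith

/-- Step (a): `c f(x) ≤ c f(X) + 2 f(x-1)²`. -/
theorem Piece.past (h : Piece c X f) {x : ℝ} (hx : x ≤ X) :
    c * f x ≤ c * f X + 2 * f (x - 1) ^ 2 := by
  have hc := h.hc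
  set Φ : ℝ → ℝ := fun z => ∫ t in (0 : ℝ)..z, f t with hΦ
  have hd : ∀ z, HasDerivAt Φ (f z) z := fun z =>
    (h.cont.integral_hasStrictDerivAt 0 z).hasDerivAt
  have hΦc : Continuous Φ := continuous_iff_continuousAt.2 fun z => (hd z).continuousAt
  have slope : ∀ z, z ≤ X → ∃ ξ, z - 1 < ξ ∧ ξ < z ∧ Φ z - Φ (z - 1) = f ξ := by
    intro z _
    obtain ⟨ξ, hξ, he⟩ := exists_hasDerivAt_eq_slope Φ f (show z - 1 < z by linarith)
      hΦc.continuousOn (fun x _ => hd x)
    refine ⟨ξ, hξ.1, hξ.2, ?_⟩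
    rw [he]; simp
  set ψ : ℝ → ℝ := fun z => c * f z + 2 * f (x - 1) * (Φ (z - 1) - Φ z) with hψ
  have hψd : ∀ z, HasDerivAt ψ (c * (-(2 / c) * (f (z - 1) * (f (z - 1) - f z))) +
      2 * f (x - 1) * (f (z - 1) - f z)) z := by
    intro z
    have e1 : HasDerivAt (fun z => Φ (z - 1)) (f (z - 1)) z := by
      exact (hd (z - 1)).comp_sub_const z 1
    exact ((h.ode z).const_mul c).add ((e1.sub (hd z)).const_mul _)
  have hmono : MonotoneOn ψ (Icc x X) := by
    apply monotoneOn_of_deriv_nonneg (convex_Icc x X)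
      (continuous_iff_continuousAt.2 fun z => (hψd z).continuousAt).continuousOn
      (fun z _ => (hψd z).differentiableAt.differentiableWithinAt)
    intro z hz
    rw [interior_Icc] at hz
    rw [(hψd z).deriv]
    have e : c * (-(2 / c) * (f (z - 1) * (f (z - 1) - f z))) +
      2 * f (x - 1) * (f (z - 1) - f z) = 2 * ((f (x - 1) - f (z - 1)) * (f (z - 1) - f z)) := by
      field_simp; ring
    rw [e]
    have h1 : f (z - 1) ≤ f (x - 1) :=
      h.anti (show x - 1 ≤ X by linarith) (show z - 1 ≤ X by linarith [hz.2]) (by linarith [hz.1])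
    have h2 : f z ≤ f (z - 1) :=
      h.anti (show z - 1 ≤ X by linarith [hz.2]) (show z ≤ X from hz.2.le) (by linarith)
    have := mul_nonneg (sub_nonneg.2 h1) (sub_nonneg.2 h2)
    linarith
  have hle := hmono (left_mem_Icc.2 hx) (right_mem_Icc.2 hx) hx
  simp only [hψ] at hle
  obtain ⟨ξ, x1, x2, x3⟩ := slope x hx
  obtain ⟨ζ, y1, y2, y3⟩ := slope X le_rfl
  have b1 : f ξ ≤ f (x - 1) :=
    h.anti (show x - 1 ≤ X by linarith) (show ξ ≤ X by linarith) x1.le
  have b2 : 0 ≤ f ζ := h.nonneg ζ y2.le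
  have b3 : 0 ≤ f (x - 1) := h.nonneg _ (by linarith)
  have b4 : Φ (X - 1) - Φ X ≤ 0 := by linarith
  have b5 : Φ x - Φ (x - 1) ≤ f (x - 1) := by linarith
  nlinarith [mul_nonneg b3 (neg_nonneg.2 b4), mul_le_mul_of_nonneg_left b5 b3]

end SubP

open SubP in
theorem sub_profile_of {c : ℝ} (hc : 0 < c) {f : ℝ → ℝ}
    (ode : ∀ x, HasDerivAt f (-(2 / c) * (f (x - 1) * (f (x - 1) - f x))) x)
    (left : Tendsto f atBot (𝓝 1))
    (hinf : ∀ η : ℝ, 0 < η → ∃ X, AntitoneOn f (Iic X) ∧ 0 ≤ f X ∧ f X < η)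
    {c' : ℝ} (hc' : 0 < c') (hcc : c' < c) : ∃ g, SubProfile c' g := by
  set K : ℝ := c / (c - c') with hK
  have hcc' : 0 < c - c' := sub_pos.2 hcc
  have hKpos : 0 < K := by positivity
  obtain ⟨η, hη0, hη1, hη2⟩ : ∃ η : ℝ, 0 < η ∧ η < 1 / 2 ∧ 16 * K ^ 2 * η ≤ c / 4 := by
    refine ⟨min (1 / 4) (c / (64 * K ^ 2)), by positivity, ?_, ?_⟩
    · exact lt_of_le_of_lt (min_le_left _ _) (by norm_num)
    · have : min (1 / 4) (c / (64 * K ^ 2)) ≤ c / (64 * K ^ 2) := min_le_right _ _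
      calc 16 * K ^ 2 * min (1 / 4) (c / (64 * K ^ 2)) ≤ 16 * K ^ 2 * (c / (64 * K ^ 2)) := by
            gcongr
        _ = c / 4 := by field_simp; ring
  obtain ⟨X, hanti, hX0, hX1⟩ := hinf (η / 2) (by positivity)
  have hP : Piece c X f := by
    refine ⟨hc, ode, hanti, fun x hx => hX0.trans (hanti hx (le_refl X) hx), fun x hx => ?_⟩
    refine ge_of_tendsto left ?_
    filter_upwards [eventually_le_atBot x] with y hy
    exact hanti (hy.trans hx) hx hy
  have hcont := hP.cont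
  -- the point where `f = η`
  obtain ⟨x', hx'X, hx'⟩ : ∃ x', x' ≤ X ∧ 1 / 2 < f x' := by
    have h1 : ∀ᶠ x in atBot, 1 / 2 < f x := left.eventually (lt_mem_nhds (by norm_num))
    obtain ⟨x', h⟩ := (h1.and (eventually_le_atBot X)).exists
    exact ⟨x', h.2, h.1⟩
  obtain ⟨y, hy, hyη⟩ : η ∈ f '' Icc x' X :=
    intermediate_value_Icc' hx'X hcont.continuousOn ⟨by linarith, by linarith⟩
  have hyX : y < X := by
    rcases hy.2.eq_or_lt with h | h
    · rw [h] at hyη; linarith
    · exact h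
  have hx'y : x' < y := by
    rcases hy.1.eq_or_lt with h | h
    · rw [← h] at hyη; linarith
    · exact h
  have hpast := hP.past hyX.le
  rw [hyη] at hpast
  have hb : 4 * K * η ≤ f (y - 1) := by
    apply le_of_sq_le_sq _ (hP.nonneg _ (by linarith))
    have : (4 * K * η) ^ 2 = (16 * K ^ 2 * η) * η := by ring
    rw [this]
    have : (16 * K ^ 2 * η) * η ≤ c / 4 * η := by gcongr
    nlinarith
  have hKη : 0 < K * η := by positivity
  -- choice of `s0`
  obtain ⟨δ, hδ, hδ'⟩ : ∃ δ : ℝ, 0 < δ ∧ ∀ t, |t - (y - 1)| < δ → K * η < f t := by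
    have h1 : ∀ᶠ t in 𝓝 (y - 1), K * η < f t :=
      hcont.continuousAt.eventually (lt_mem_nhds (by linarith))
    rw [Metric.eventually_nhds_iff] at h1
    obtain ⟨δ, h2, h3⟩ := h1
    exact ⟨δ, h2, fun t ht => h3 (by rwa [Real.dist_eq])⟩
  set s0 : ℝ := min (min (δ / 2) 1) (min (X - y) (c' / 2)) with hs0
  have hs0pos : 0 < s0 := by
    have : 0 < X - y := sub_pos.2 hyX
    positivity
  have hs0δ : s0 ≤ δ / 2 := (min_le_left _ _).trans (min_le_left _ _)
  have hs01 : s0 ≤ 1 := (min_le_left _ _).trans (min_le_right _ _)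
  have hs0X : s0 ≤ X - y := (min_le_right _ _).trans (min_le_left _ _)
  have hs0c : s0 ≤ c' / 2 := (min_le_right _ _).trans (min_le_right _ _)
  set g : ℝ → ℝ := fun x => f (min x 0 + y) - η with hg
  have hmemX : ∀ x : ℝ, min x 0 + y ≤ X := fun x => by
    have := min_le_right x 0
    linarith
  have gle : ∀ x, g x ≤ 1 := fun x => by
    have := hP.le_one _ (hmemX x)
    simp only [hg]; linarith
  have gnn : ∀ x, 0 ≤ g x := fun x => by
    have := hanti (hmemX x) hyX.le (show min x 0 + y ≤ y by linarith [min_le_right x 0])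
    simp only [hg]; linarith
  have ganti : Antitone g := fun a b hab => by
    have := hanti (hmemX a) (hmemX b) (by gcongr : min a 0 + y ≤ min b 0 + y)
    simp only [hg]; linarith
  have gz : ∀ x, 0 ≤ x → g x = 0 := fun x hx => by
    simp only [hg, min_eq_right hx]; rw [zero_add, hyη]; ring
  have gn : ∀ x, x ≤ 0 → g x = f (x + y) - η := fun x hx => by
    simp only [hg, min_eq_left hx]
  refine ⟨g, ganti, gnn, gle, fun x hx => gz x hx.le, ⟨x' - y, ?_⟩,
    ⟨8 / c ^ 2, s0, hs0pos, ?_⟩, ⟨2 / c, ?_⟩⟩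
  · rw [gn _ (by linarith)]
    simp only [sub_add_cancel]
    linarith
  · intro x s hs hss
    have hc2 : 0 ≤ 8 / c ^ 2 * s ^ 2 := by positivity
    have hcs : 0 ≤ 2 / c' * s := by positivity
    rcases le_or_gt 0 (x - s) with h0 | h0
    · rw [gz _ h0]
      have h1 := gnn x
      have h2 := gnn (x - 1)
      have h3 : g x ≤ g (x - 1) := ganti (by linarith)
      have := mul_nonneg hcs (mul_nonneg h2 (sub_nonneg.2 h3))
      linarith
    · have hxs0 : x < s0 := by linarith
      have hzX : x + y ≤ X := by linarith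
      have ht := hP.taylor hzX hs
      have e1 : x + y - s = x - s + y := by ring
      have e2 : x + y - 1 = x - 1 + y := by ring
      rw [e1, e2] at ht
      rw [gn (x - s) h0.le, gn (x - 1) (by linarith)]
      set P := f (x - 1 + y) with hPdef
      have hPK : K * η ≤ P := by
        have h1 : K * η < f (y - 1 + s0) := by
          apply hδ'
          rw [show y - 1 + s0 - (y - 1) = s0 by ring, abs_of_pos hs0pos]
          linarith
        have h2 : f (y - 1 + s0) ≤ P :=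
          hanti (show x - 1 + y ≤ X by linarith) (show y - 1 + s0 ≤ X by linarith) (by linarith)
        linarith
      have hPc : (2 / c) * P ≤ (2 / c') * (P - η) := by
        rw [hK, div_mul_eq_mul_div, div_le_iff₀ hcc'] at hPK
        rw [div_mul_eq_mul_div, div_mul_eq_mul_div, div_le_div_iff₀ hc hc']
        nlinarith
      have hPz : 0 ≤ P - f (x + y) := by
        have := hanti (show x - 1 + y ≤ X by linarith) hzX (by linarith)
        linarith
      have hmain : f (x - s + y) - η ≤ (f (x + y) - η) +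
          (2 / c') * s * ((P - η) * ((P - η) - (f (x + y) - η))) + 8 / c ^ 2 * s ^ 2 := by
        have h7 := mul_le_mul_of_nonneg_right hPc (mul_nonneg hs hPz)
        have h8 : (2 / c') * (P - η) * (s * (P - f (x + y))) =
          (2 / c') * s * ((P - η) * ((P - η) - (f (x + y) - η))) := by ring
        have h9 : (2 / c) * P * (s * (P - f (x + y))) =
          (2 / c) * s * (P * (P - f (x + y))) := by ring
        rw [h8, h9] at h7
        linarith
      rcases le_or_gt x 0 with hx | hx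
      · rw [gn x hx]; exact hmain
      · rw [gz x hx.le]
        have hu : f (x + y) - η ≤ 0 := by
          have := hanti (show y ≤ X from hyX.le) hzX (by linarith)
          linarith
        have hP1 : P ≤ 1 := hP.le_one _ (by linarith)
        have hPη : 0 ≤ P - η := by
          have := hanti (show x - 1 + y ≤ X by linarith) (show y ≤ X from hyX.le) (by linarith)
          linarith
        have hsc : (2 / c') * s * (P - η) ≤ 1 := by
          have h1 : (2 / c') * s ≤ 1 := by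
            rw [div_mul_eq_mul_div, div_le_one hc']
            linarith
          calc (2 / c') * s * (P - η) ≤ 1 * 1 := by
                apply mul_le_mul h1 (by linarith) hPη (by norm_num)
            _ = 1 := one_mul 1
        have h7 := mul_nonneg (neg_nonneg.2 hu) (sub_nonneg.2 hsc)
        have h8 : (f (x + y) - η) +
          (2 / c') * s * ((P - η) * ((P - η) - (f (x + y) - η))) + 8 / c ^ 2 * s ^ 2 =
          0 + (2 / c') * s * ((P - η) * ((P - η) - 0)) + 8 / c ^ 2 * s ^ 2 -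
          -(f (x + y) - η) * (1 - (2 / c') * s * (P - η)) := by ring
        rw [h8] at hmain
        linarith
  · intro x s hs
    have hm : min (x - s) 0 ≤ min x 0 := by gcongr; linarith
    have hl := hP.lip (u := min (x - s) 0 + y) (v := min x 0 + y) (by linarith) (hmemX x)
    have hm2 : min x 0 - s ≤ min (x - s) 0 := by
      apply le_min
      · linarith [min_le_left x 0]
      · linarith [min_le_right x 0]
    have h5 : 0 ≤ 2 / c := by positivity
    have : (2 / c) * (min x 0 + y - (min (x - s) 0 + y)) ≤ (2 / c) * s := by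
      gcongr; linarith
    simp only [hg]
    linarith

end Pool.Agent.Counters
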