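import Pool.Agent.Lib.Counters.Defs

/-!
From waves to supersolution profiles (`super_profile_of_floor`, `super_profile_of_wave`).
-/

namespace Pool.Agent.Counters

open Filter Topology Set

/-- W: the derivative given by the wave equation -/
noncomputable def wD (c : ℝ) (f : ℝ → ℝ) (x : ℝ) : ℝ :=
  -(2 / c) * (f (x - 1) * (f (x - 1) - f x))

theorem w_bound {c : ℝ} (hc : 0 < c) {f : ℝ → ℝ} {Z B : ℝ}
    (hB : ∀ z ≤ Z, 0 ≤ f z ∧ f z ≤ B) {x : ℝ} (hx : x ≤ Z) : |wD c f x| ≤ 2 / c * B ^ 2 := by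
  obtain ⟨h1, h2⟩ := hB x hx
  obtain ⟨h3, h4⟩ := hB (x - 1) (by linarith)
  have hB0 : 0 ≤ B := h1.trans h2
  unfold wD
  rw [abs_mul, abs_neg, abs_of_pos (by positivity : 0 < 2 / c), abs_mul, abs_of_nonneg h3]
  refine mul_le_mul_of_nonneg_left ?_ (by positivity)
  have h5 : |f (x - 1) - f x| ≤ B := by rw [abs_le]; constructor <;> linarith
  calc f (x - 1) * |f (x - 1) - f x| ≤ B * B := mul_le_mul h4 h5 (abs_nonneg _) hB0
    _ = B ^ 2 := by ring

theorem w_lip {c : ℝ} (hc : 0 < c) {f : ℝ → ℝ} (ode : ∀ x, HasDerivAt f (wD c f x) x) {Z B : ℝ}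
    (hB : ∀ z ≤ Z, 0 ≤ f z ∧ f z ≤ B) {z w : ℝ} (hz : z ≤ Z) (hw : w ≤ Z) :
    |f w - f z| ≤ (2 / c * B ^ 2) * |w - z| := by
  have := Convex.norm_image_sub_le_of_norm_hasDerivWithin_le (f := f) (f' := wD c f)
    (s := Iic Z) (C := 2 / c * B ^ 2) (x := z) (y := w)
    (fun x _ => (ode x).hasDerivWithinAt) (fun x hx => by
      rw [Real.norm_eq_abs]; exact w_bound hc hB hx) (convex_Iic Z) hz hw
  simpa [Real.norm_eq_abs] using this

theorem w_lipD {c : ℝ} (hc : 0 < c) {f : ℝ → ℝ} (ode : ∀ x, HasDerivAt f (wD c f x) x) {Z B : ℝ}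
    (hB : ∀ z ≤ Z, 0 ≤ f z ∧ f z ≤ B) {z w : ℝ} (hz : z ≤ Z) (hw : w ≤ Z) :
    |wD c f w - wD c f z| ≤ (2 / c * (3 * B * (2 / c * B ^ 2))) * |w - z| := by
  have l1 := w_lip hc ode hB hz hw
  have l2 := w_lip hc ode hB (z := z - 1) (w := w - 1) (by linarith) (by linarith)
  have e0 : w - 1 - (z - 1) = w - z := by ring
  rw [e0] at l2
  obtain ⟨h1, h2⟩ := hB z hz
  obtain ⟨h3, h4⟩ := hB (z - 1) (by linarith)
  obtain ⟨h5, h6⟩ := hB w hw
  obtain ⟨h7, h8⟩ := hB (w - 1) (by linarith)
  have hB0 : 0 ≤ B := h1.trans h2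
  set L := 2 / c * B ^ 2 with hL
  have hL0 : 0 ≤ L := by positivity
  have e1 : wD c f w - wD c f z = -(2 / c) * ((f (w - 1) - f (z - 1)) * (f (w - 1) - f w) +
      f (z - 1) * ((f (w - 1) - f (z - 1)) - (f w - f z))) := by
    unfold wD; ring
  rw [e1, abs_mul, abs_neg, abs_of_pos (by positivity : 0 < 2 / c), mul_assoc]
  refine mul_le_mul_of_nonneg_left ?_ (by positivity)
  refine (abs_add_le _ _).trans ?_
  rw [abs_mul, abs_mul, abs_of_nonneg h3]
  have a1 : |f (w - 1) - f w| ≤ B := by rw [abs_le]; constructor <;> linarith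
  have a2 : |f (w - 1) - f (z - 1) - (f w - f z)| ≤ L * |w - z| + L * |w - z| :=
    (abs_sub _ _).trans (add_le_add l2 l1)
  have a3 : |f (w - 1) - f (z - 1)| * |f (w - 1) - f w| ≤ (L * |w - z|) * B :=
    mul_le_mul l2 a1 (abs_nonneg _) (by positivity)
  have a4 : f (z - 1) * |f (w - 1) - f (z - 1) - (f w - f z)| ≤ B * (L * |w - z| + L * |w - z|) :=
    mul_le_mul h4 a2 (abs_nonneg _) hB0
  calc _ ≤ (L * |w - z|) * B + B * (L * |w - z| + L * |w - z|) := add_le_add a3 a4
    _ = 3 * B * L * |w - z| := by ring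

/-- W: Taylor estimate -/
theorem w_taylor {c : ℝ} (hc : 0 < c) {f : ℝ → ℝ} (ode : ∀ x, HasDerivAt f (wD c f x) x)
    {Z B : ℝ} (hB : ∀ z ≤ Z, 0 ≤ f z ∧ f z ≤ B) {z s : ℝ} (hz : z ≤ Z) (hs : 0 ≤ s) :
    |f (z - s) - f z + s * wD c f z| ≤ (2 / c * (3 * B * (2 / c * B ^ 2))) * s ^ 2 := by
  have hB0 : 0 ≤ B := (hB z hz).1.trans (hB z hz).2
  have hC0 : 0 ≤ (2 / c * (3 * B * (2 / c * B ^ 2))) := by positivity
  rcases hs.eq_or_lt with rfl | hs'
  · simp
  · obtain ⟨ξ, hξ, hξe⟩ := exists_hasDerivAt_eq_slope f (wD c f) (a := z - s) (b := z)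
      (by linarith) (fun x _ => (ode x).continuousAt.continuousWithinAt) (fun x _ => ode x)
    have e1 : z - (z - s) = s := by ring
    rw [e1, eq_div_iff hs'.ne'] at hξe
    have e2 : f (z - s) - f z + s * wD c f z = s * (wD c f z - wD c f ξ) := by
      linear_combination hξe
    have l := w_lipD hc ode hB (z := ξ) (w := z) (by linarith [hξ.2]) hz
    rw [e2, abs_mul, abs_of_pos hs']
    have l2 : |z - ξ| ≤ s := by
      rw [abs_of_nonneg (by linarith [hξ.2])]; linarith [hξ.1]
    calc s * |wD c f z - wD c f ξ|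
        ≤ s * ((2 / c * (3 * B * (2 / c * B ^ 2))) * s) :=
          mul_le_mul_of_nonneg_left (l.trans (mul_le_mul_of_nonneg_left l2 hC0)) hs
      _ = _ := by ring

/-- W: the quadratic bound -/
theorem w_sq {c : ℝ} {f : ℝ → ℝ} (hc : 0 < c) (ode : ∀ x, HasDerivAt f (wD c f x) x) {X : ℝ}
    (anti : AntitoneOn f (Iic X)) (h0 : 0 ≤ f X) {x : ℝ} (hx : x ≤ X) :
    c * f x ≤ c * f X + 2 * f (x - 1) ^ 2 := by
  have hcont : Continuous f := continuous_iff_continuousAt.2 fun x => (ode x).continuousAt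
  have hnn : ∀ z ≤ X, 0 ≤ f z := fun z hz => h0.trans (anti hz (mem_Iic.2 le_rfl) hz)
  set F : ℝ → ℝ := fun z => ∫ t in (0 : ℝ)..z, f t with hF
  have hFd : ∀ z, HasDerivAt F (f z) z := fun z =>
    intervalIntegral.integral_hasDerivAt_right (hcont.intervalIntegrable _ _)
      (hcont.stronglyMeasurableAtFilter _ _) hcont.continuousAt
  have hFd1 : ∀ z, HasDerivAt (fun z => F (z - 1)) (f (z - 1)) z := fun z =>
    (hFd (z - 1)).comp_sub_const z 1
  -- the monotone function
  have hG : ∀ z, HasDerivAt (fun z => c * f z + 2 * f (x - 1) * (F (z - 1) - F z))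
      (c * wD c f z + 2 * f (x - 1) * (f (z - 1) - f z)) z := fun z =>
    ((ode z).const_mul c).add (((hFd1 z).sub (hFd z)).const_mul _)
  have hmono : MonotoneOn (fun z => c * f z + 2 * f (x - 1) * (F (z - 1) - F z)) (Icc x X) := by
    refine monotoneOn_of_hasDerivWithinAt_nonneg (convex_Icc _ _)
      (fun z _ => (hG z).continuousAt.continuousWithinAt)
      (fun z _ => (hG z).hasDerivWithinAt) ?_
    intro z hz
    rw [interior_Icc] at hz
    have e : c * wD c f z + 2 * f (x - 1) * (f (z - 1) - f z) =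
        2 * (f (z - 1) - f z) * (f (x - 1) - f (z - 1)) := by
      unfold wD; field_simp; ring
    rw [e]
    have h1 : f z ≤ f (z - 1) := anti (mem_Iic.2 (by linarith [hz.2])) (mem_Iic.2 hz.2.le) (by linarith)
    have h2 : f (z - 1) ≤ f (x - 1) := anti (mem_Iic.2 (by linarith)) (mem_Iic.2 (by linarith [hz.2]))
      (by linarith [hz.1])
    exact mul_nonneg (mul_nonneg zero_le_two (by linarith)) (by linarith)
  have hm := hmono (left_mem_Icc.2 hx) (right_mem_Icc.2 hx) hx
  simp only at hm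
  -- bounds of the integrals
  have b1 : 0 ≤ F X - F (X - 1) := by
    have : MonotoneOn F (Icc (X - 1) X) := by
      refine monotoneOn_of_hasDerivWithinAt_nonneg (convex_Icc _ _)
        (fun z _ => (hFd z).continuousAt.continuousWithinAt)
        (fun z _ => (hFd z).hasDerivWithinAt) ?_
      intro z hz
      rw [interior_Icc] at hz
      exact hnn z hz.2.le
    have := this (left_mem_Icc.2 (by linarith)) (right_mem_Icc.2 (by linarith)) (by linarith)
    linarith
  have b2 : F x - F (x - 1) ≤ f (x - 1) := by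
    have : MonotoneOn (fun z => f (x - 1) * z - F z) (Icc (x - 1) x) := by
      have hd : ∀ z, HasDerivAt (fun z => f (x - 1) * z - F z) (f (x - 1) * 1 - f z) z := fun z =>
        ((hasDerivAt_id z).const_mul _).sub (hFd z)
      refine monotoneOn_of_hasDerivWithinAt_nonneg (convex_Icc _ _)
        (fun z _ => (hd z).continuousAt.continuousWithinAt)
        (fun z _ => (hd z).hasDerivWithinAt) ?_
      intro z hz
      rw [interior_Icc] at hz
      have := anti (mem_Iic.2 (by linarith : x - 1 ≤ X)) (mem_Iic.2 (by linarith [hz.2] : z ≤ X)) hz.1.le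
      linarith
    have := this (left_mem_Icc.2 (by linarith)) (right_mem_Icc.2 (by linarith)) (by linarith)
    simp only at this
    linarith
  have hp : 0 ≤ f (x - 1) := hnn _ (by linarith)
  nlinarith [mul_nonneg hp b1, mul_nonneg hp (sub_nonneg.2 b2)]

theorem w_le_one {f : ℝ → ℝ} (left : Tendsto f atBot (𝓝 1)) {X : ℝ} (anti : AntitoneOn f (Iic X))
    {x : ℝ} (hx : x ≤ X) : f x ≤ 1 := by
  refine ge_of_tendsto left ?_
  filter_upwards [Iic_mem_atBot x] with z hz
  exact anti (mem_Iic.2 (hz.trans hx)) (mem_Iic.2 hx) hz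

theorem super_profile_of_floor {c : ℝ} (hc : 0 < c) {f : ℝ → ℝ}
    (ode : ∀ x, HasDerivAt f (-(2 / c) * (f (x - 1) * (f (x - 1) - f x))) x)
    (left : Tendsto f atBot (𝓝 1)) (anti : Antitone f)
    (hfloor : ∃ a, 0 < a ∧ ∀ x, a ≤ f x) (hlt : ∃ x, f x < 1)
    {ε : ℝ} (hε : 0 < ε) : ∃ c', 0 < c' ∧ c' < c + ε ∧ ∃ h, SuperProfile c' h := by
  have ode' : ∀ x, HasDerivAt f (wD c f x) x := ode
  obtain ⟨a0, ha0, hfa⟩ := hfloor
  obtain ⟨x1, hx1⟩ := hlt
  have hf1 : 0 < f x1 := ha0.trans_le (hfa x1)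
  have hle : ∀ x, f x ≤ 1 := fun x => w_le_one left (X := x) (anti.antitoneOn _) le_rfl
  have hB : ∀ Z : ℝ, ∀ z ≤ Z, 0 ≤ f z ∧ f z ≤ 1 := fun Z z _ =>
    ⟨ha0.le.trans (hfa z), hle z⟩
  -- the factor
  obtain ⟨a, ha1, ha2, ha3⟩ : ∃ a : ℝ, 1 < a ∧ a * c < c + ε ∧ a * f x1 < 1 := by
    have h1 : 1 < 1 / f x1 := by rw [lt_div_iff₀ hf1]; linarith
    have h2 : (1 : ℝ) < 1 + ε / c := by
      have : 0 < ε / c := by positivity
      linarith
    obtain ⟨a, h3, h4⟩ := exists_between (lt_min h2 h1)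
    refine ⟨a, h3, ?_, ?_⟩
    · have h5 := h4.trans_le (min_le_left _ _)
      calc a * c < (1 + ε / c) * c := mul_lt_mul_of_pos_right h5 hc
        _ = c + ε := by field_simp
    · have h5 := h4.trans_le (min_le_right _ _)
      rwa [lt_div_iff₀ hf1] at h5
  have ha0' : 0 < a := by linarith
  -- the translation
  obtain ⟨y, hy⟩ : ∃ y, 1 / a < f y := by
    have h1 : 1 / a < 1 := by rw [div_lt_one ha0']; exact ha1
    exact (left.eventually (lt_mem_nhds h1)).exists
  refine ⟨a * c, by positivity, ha2, fun x => a * f (x + y), ?_, ?_, ?_, ?_, ?_, ?_⟩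
  · intro x x' hxx
    exact mul_le_mul_of_nonneg_left (anti (by linarith)) ha0'.le
  · intro x hx
    show 1 ≤ a * f (x + y)
    have h1 : f y ≤ f (x + y) := anti (by linarith)
    have h2 : 1 / a < f (x + y) := hy.trans_le h1
    rw [div_lt_iff₀ ha0'] at h2
    linarith
  · refine ⟨a * a0, by positivity, fun x => mul_le_mul_of_nonneg_left (hfa _) ha0'.le⟩
  · refine ⟨x1 - y, ?_⟩
    show a * f (x1 - y + y) < 1
    rw [sub_add_cancel]
    exact ha3
  · refine ⟨a * (2 / c * (3 * 1 * (2 / c * (1 : ℝ) ^ 2))), 1, one_pos, ?_⟩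
    intro x s hs _
    show a * f (x + y) + 2 / (a * c) * s * (a * f (x - 1 + y) * (a * f (x - 1 + y) - a * f (x + y))) -
      a * (2 / c * (3 * 1 * (2 / c * (1 : ℝ) ^ 2))) * s ^ 2 ≤ a * f (x - s + y)
    have t := w_taylor hc ode' (hB (x + y)) (z := x + y) le_rfl hs
    have t2 := (abs_le.1 t).1
    unfold wD at t2
    have e1 : x + y - s = x - s + y := by ring
    have e2 : x + y - 1 = x - 1 + y := by ring
    rw [e1, e2] at t2
    have e3 : 2 / (a * c) * s * (a * f (x - 1 + y) * (a * f (x - 1 + y) - a * f (x + y))) =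
        a * (2 / c * s * (f (x - 1 + y) * (f (x - 1 + y) - f (x + y)))) := by
      field_simp
    rw [e3]
    have t3 := mul_le_mul_of_nonneg_left t2 ha0'.le
    nlinarith
  · refine ⟨a * (2 / c * (1 : ℝ) ^ 2), ?_⟩
    intro x s hs
    show a * f (x - s + y) - a * f (x + y) ≤ a * (2 / c * (1 : ℝ) ^ 2) * s
    have := w_lip hc ode' (hB (x + y)) (z := x + y) (w := x - s + y) le_rfl (by linarith)
    have e : x - s + y - (x + y) = -s := by ring
    rw [e, abs_neg, abs_of_nonneg hs] at this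
    have h1 := (abs_le.1 this).2
    have h2 := mul_le_mul_of_nonneg_left h1 ha0'.le
    nlinarith

/-- W: exponential decay of a wave with rate one -/
theorem w_decay {c : ℝ} (hc : 0 < c) {f : ℝ → ℝ} (anti : Antitone f) (pos : ∀ x, 0 < f x)
    (hsq : ∀ x, c * f x ≤ 2 * f (x - 1) ^ 2) {κ x0 : ℝ} (hκ : 2 * κ * Real.exp 1 ≤ c)
    (h0 : f x0 ≤ κ) : ∀ y, 0 ≤ y → f (x0 + y) ≤ κ * Real.exp 1 * Real.exp (-y) := by
  have hκ0 : 0 < κ := (pos x0).trans_le h0
  have key : ∀ n : ℕ, f (x0 + n) ≤ κ * Real.exp (-(n : ℝ)) := by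
    intro n
    induction n with
    | zero => simpa using h0
    | succ n ih =>
      have h1 := hsq (x0 + (n + 1 : ℕ))
      have e : x0 + ((n + 1 : ℕ) : ℝ) - 1 = x0 + n := by push_cast; ring
      rw [e] at h1
      have h2 : f (x0 + n) ≤ κ := (anti (by linarith [Nat.cast_nonneg (α := ℝ) n])).trans h0
      have h3 : 0 < f (x0 + n) := pos _
      have h4 : c * f (x0 + (n + 1 : ℕ)) ≤ 2 * κ * f (x0 + n) := by nlinarith
      have h5 : c * f (x0 + (n + 1 : ℕ)) * Real.exp 1 ≤ c * f (x0 + n) := by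
        calc c * f (x0 + (n + 1 : ℕ)) * Real.exp 1 ≤ 2 * κ * f (x0 + n) * Real.exp 1 :=
              mul_le_mul_of_nonneg_right h4 (Real.exp_pos 1).le
          _ = (2 * κ * Real.exp 1) * f (x0 + n) := by ring
          _ ≤ c * f (x0 + n) := mul_le_mul_of_nonneg_right hκ h3.le
      have h6 : f (x0 + (n + 1 : ℕ)) * Real.exp 1 ≤ f (x0 + n) := by
        have : c * (f (x0 + (n + 1 : ℕ)) * Real.exp 1) ≤ c * f (x0 + n) := by linarith
        exact le_of_mul_le_mul_left this hc
      have e2 : Real.exp (-(n : ℝ)) = Real.exp (-((n + 1 : ℕ) : ℝ)) * Real.exp 1 := by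
        rw [← Real.exp_add]; congr 1; push_cast; ring
      rw [e2] at ih
      have h7 : f (x0 + (n + 1 : ℕ)) * Real.exp 1 ≤
          κ * Real.exp (-((n + 1 : ℕ) : ℝ)) * Real.exp 1 := by linarith
      exact le_of_mul_le_mul_right h7 (Real.exp_pos 1)
  intro y hy
  have h1 := key ⌊y⌋₊
  have h2 : f (x0 + y) ≤ f (x0 + ⌊y⌋₊) := anti (by linarith [Nat.floor_le hy])
  refine h2.trans (h1.trans ?_)
  rw [mul_assoc, ← Real.exp_add]
  refine mul_le_mul_of_nonneg_left (Real.exp_le_exp.2 ?_) hκ0.le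
  linarith [Nat.lt_floor_add_one y]

/-- W: the cut-off exponential -/
theorem w_cut (t s : ℝ) (hs : 0 ≤ s) :
    min 1 (Real.exp (-(t - s))) ≤ min 1 (Real.exp (-t)) + s := by
  rw [← min_add_add_right]
  refine le_min ((min_le_left _ _).trans (by linarith)) ?_
  by_cases h : t ≤ s
  · refine (min_le_left _ _).trans ?_
    have := Real.add_one_le_exp (-t)
    linarith
  · push Not at h
    refine (min_le_right _ _).trans ?_
    have e : Real.exp (-t) = Real.exp (-(t - s)) * Real.exp (-s) := by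
      rw [← Real.exp_add]; congr 1; ring
    have h1 : Real.exp (-(t - s)) ≤ 1 := Real.exp_le_one_iff.2 (by linarith)
    have h2 := Real.add_one_le_exp (-s)
    have h3 := Real.exp_pos (-(t - s))
    rw [e]
    nlinarith

theorem super_profile_of_wave {c : ℝ} (hc : 0 < c) {f : ℝ → ℝ} (hf : IsWave c f)
    {c' : ℝ} (hcc : c < c') : ∃ h, SuperProfile c' h := by
  have ode' : ∀ x, HasDerivAt f (wD c f x) x := hf.ode
  have anti := hf.anti
  have pos := hf.pos
  have hc' : 0 < c' := hc.trans hcc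
  have hd : 0 < c' - c := sub_pos.2 hcc
  have hle : ∀ x, f x ≤ 1 := fun x => w_le_one hf.left (X := x) (anti.antitoneOn _) le_rfl
  have hB : ∀ Z : ℝ, ∀ z ≤ Z, 0 ≤ f z ∧ f z ≤ 1 := fun Z z _ => ⟨(pos z).le, hle z⟩
  have hsq : ∀ x, c * f x ≤ 2 * f (x - 1) ^ 2 := by
    intro x
    have h1 : ∀ᶠ X in atTop, c * f x ≤ c * f X + 2 * f (x - 1) ^ 2 := by
      filter_upwards [Ici_mem_atTop x] with X hX
      exact w_sq hc ode' (anti.antitoneOn _) (pos X).le hX
    have h2 : Tendsto (fun X => c * f X + 2 * f (x - 1) ^ 2) atTop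
        (𝓝 (c * 0 + 2 * f (x - 1) ^ 2)) := (hf.right.const_mul c).add_const _
    have := ge_of_tendsto h2 h1
    simpa using this
  have he1 : 0 < Real.exp 1 := Real.exp_pos 1
  have he3 : Real.exp 1 < 3 := by linarith [Real.exp_one_lt_d9]
  have he2 : 1 < Real.exp 1 := by
    have := Real.add_one_lt_exp (one_ne_zero)
    linarith
  -- choice of `κ` and `x₁`
  obtain ⟨κ, hκ0, hκ1, hκ2⟩ : ∃ κ : ℝ, 0 < κ ∧ 2 * κ * 3 ≤ c ∧ 48 * κ ≤ c' := by
    refine ⟨c / 48, by positivity, by linarith, by linarith⟩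
  have hκe : 2 * κ * Real.exp 1 ≤ c := by
    have : 2 * κ * Real.exp 1 ≤ 2 * κ * 3 := mul_le_mul_of_nonneg_left he3.le (by positivity)
    linarith
  obtain ⟨x0, hx0⟩ : ∃ x0, f x0 ≤ κ := by
    obtain ⟨x0, h⟩ := (hf.right.eventually (gt_mem_nhds hκ0)).exists
    exact ⟨x0, h.le⟩
  set x1 := x0 + 1 with hx1
  have hdec := w_decay hc anti pos hsq hκe hx0
  -- choice of `η`
  obtain ⟨η, hη0, hη1, hη2, hη3⟩ : ∃ η : ℝ, 0 < η ∧ 2 * c * η ≤ (c' - c) * f x1 ∧ 16 * η ≤ c' ∧
      η < 1 / 4 := by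
    have hfx := pos x1
    refine ⟨min ((c' - c) * f x1 / (2 * c)) (min (c' / 16) (1 / 8)), by positivity, ?_, ?_, ?_⟩
    · calc 2 * c * min ((c' - c) * f x1 / (2 * c)) (min (c' / 16) (1 / 8))
          ≤ 2 * c * ((c' - c) * f x1 / (2 * c)) :=
            mul_le_mul_of_nonneg_left (min_le_left _ _) (by positivity)
        _ = _ := by field_simp
    · have : min ((c' - c) * f x1 / (2 * c)) (min (c' / 16) (1 / 8)) ≤ c' / 16 :=
        (min_le_right _ _).trans (min_le_left _ _)
      linarith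
    · have : min ((c' - c) * f x1 / (2 * c)) (min (c' / 16) (1 / 8)) ≤ 1 / 8 :=
        (min_le_right _ _).trans (min_le_right _ _)
      linarith
  set φ : ℝ → ℝ := fun x => min 1 (Real.exp (-(x - x1))) with hφ
  have φ0 : ∀ x, 0 < φ x := fun x => lt_min one_pos (Real.exp_pos _)
  have φ1 : ∀ x, φ x ≤ 1 := fun x => min_le_left _ _
  have φe : ∀ x, φ x ≤ Real.exp (-(x - x1)) := fun x => min_le_right _ _
  have φanti : Antitone φ := by
    intro x y hxy
    exact min_le_min le_rfl (Real.exp_le_exp.2 (by linarith))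
  have φl : ∀ x ≤ x1, φ x = 1 := fun x hx =>
    min_eq_left (Real.one_le_exp (by linarith))
  have φr : ∀ x, x1 ≤ x → φ x = Real.exp (-(x - x1)) := fun x hx =>
    min_eq_right (Real.exp_le_one_iff.2 (by linarith))
  set h : ℝ → ℝ := fun x => f x + η + η * φ x with hh
  have hanti : Antitone h := by
    intro x y hxy
    have h1 := anti hxy
    have h2 := mul_le_mul_of_nonneg_left (φanti hxy) hη0.le
    simp only [hh]
    linarith
  have hhpos : ∀ x, η ≤ h x := by
    intro x
    have h1 := pos x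
    have h2 := mul_pos hη0 (φ0 x)
    simp only [hh]
    linarith
  have hh3 : ∀ x, h x ≤ 3 := by
    intro x
    have h1 := hle x
    have h2 : η * φ x ≤ η * 1 := mul_le_mul_of_nonneg_left (φ1 x) hη0.le
    simp only [hh]
    linarith
  set C := (2 / c * (3 * 1 * (2 / c * (1 : ℝ) ^ 2))) with hC
  have hC0 : 0 ≤ C := by positivity
  set L := 2 / c * (1 : ℝ) ^ 2 with hL
  have hL0 : 0 ≤ L := by positivity
  -- Taylor
  have tay : ∀ x s, 0 ≤ s → f x + 2 / c * s * (f (x - 1) * (f (x - 1) - f x)) - C * s ^ 2 ≤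
      f (x - s) := by
    intro x s hs
    have t := w_taylor hc ode' (hB x) (z := x) le_rfl hs
    have t2 := (abs_le.1 t).1
    unfold wD at t2
    nlinarith
  -- the two barrier inequalities
  have bar1 : ∀ x s, 0 ≤ s → x ≤ x1 + 1 →
      (f x + 2 * η) + 2 / c' * s * (h (x - 1) * (h (x - 1) - (f x + 2 * η))) - C * s ^ 2 ≤
        f (x - s) + 2 * η := by
    intro x s hs hx
    have hp : h (x - 1) = f (x - 1) + 2 * η := by
      simp only [hh]; rw [φl (x - 1) (by linarith)]; ring
    have t := tay x s hs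
    have hu : f x ≤ f (x - 1) := anti (by linarith)
    have hfx : f x1 ≤ f (x - 1) := anti (by linarith)
    have key : 2 / c' * (f (x - 1) + 2 * η) ≤ 2 / c * f (x - 1) := by
      rw [div_mul_eq_mul_div, div_mul_eq_mul_div, div_le_div_iff₀ hc' hc]
      have : (c' - c) * f x1 ≤ (c' - c) * f (x - 1) := mul_le_mul_of_nonneg_left hfx hd.le
      nlinarith
    have key2 := mul_le_mul_of_nonneg_left key
      (mul_nonneg hs (sub_nonneg.2 hu) : 0 ≤ s * (f (x - 1) - f x))
    rw [hp]
    have e : f (x - 1) + 2 * η - (f x + 2 * η) = f (x - 1) - f x := by ring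
    rw [e]
    nlinarith
  have bar2 : ∀ x s, 0 ≤ s → x1 ≤ x →
      (f x + η + η * Real.exp (-(x - x1))) + 2 / c' * s * (h (x - 1) * (h (x - 1) -
        (f x + η + η * Real.exp (-(x - x1))))) - C * s ^ 2 ≤
        f (x - s) + η + η * Real.exp (-(x - s - x1)) := by
    intro x s hs hx
    have t := tay x s hs
    have hu : f x ≤ f (x - 1) := anti (by linarith)
    set E := Real.exp (-(x - x1)) with hE
    have hE0 : 0 < E := Real.exp_pos _
    have eE : Real.exp (-(x - s - x1)) = E * Real.exp s := by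
      rw [hE, ← Real.exp_add]; congr 1; ring
    have hes : 1 + s ≤ Real.exp s := by linarith [Real.add_one_le_exp s]
    have hEs : E * (1 + s) ≤ Real.exp (-(x - s - x1)) := by
      rw [eE]; exact mul_le_mul_of_nonneg_left hes hE0.le
    -- the value `m`
    set mm := φ (x - 1) with hmm
    have hm1 : mm ≤ 1 := φ1 _
    have hm0 : 0 < mm := φ0 _
    have hmE : mm ≤ E * Real.exp 1 := by
      have := φe (x - 1)
      have e : Real.exp (-(x - 1 - x1)) = E * Real.exp 1 := by
        rw [hE, ← Real.exp_add]; congr 1; ring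
      rwa [e] at this
    have hmE2 : E ≤ mm := by
      have : φ x ≤ φ (x - 1) := φanti (by linarith)
      rwa [φr x hx] at this
    have hp : h (x - 1) = f (x - 1) + η + η * mm := by simp only [hh, hmm]
    set p := f (x - 1) with hpdef
    have hp0 : 0 < p := pos _
    -- decay
    have hpE : p ≤ κ * 3 * E := by
      have h1 := hdec (x - x1) (by linarith)
      have e : x0 + (x - x1) = x - 1 := by rw [hx1]; ring
      rw [e] at h1
      refine h1.trans ?_
      exact mul_le_mul_of_nonneg_right (mul_le_mul_of_nonneg_left he3.le hκ0.le) hE0.le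
    have hmE3 : mm - E ≤ 2 * E := by nlinarith
    have hE1 : E ≤ 1 := by rw [hE]; exact Real.exp_le_one_iff.2 (by linarith)
    -- main estimate
    have main : 2 * (1 + mm) * (p - f x) + 2 * (p + η + η * mm) * (mm - E) ≤ c' * E := by
      have a1 : (1 + mm) * (p - f x) ≤ 2 * p := by
        have : (1 + mm) * (p - f x) ≤ 2 * (p - f x) :=
          mul_le_mul_of_nonneg_right (by linarith) (by linarith)
        linarith [pos x]
      have a2 : (p + η + η * mm) * (mm - E) ≤ (p + 2 * η) * (2 * E) := by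
        refine mul_le_mul ?_ hmE3 (by linarith) (by positivity)
        nlinarith
      have a3 : p * E ≤ p := by nlinarith
      nlinarith
    have e1 : p + η + η * mm - (f x + η + η * E) = (p - f x) + η * (mm - E) := by ring
    rw [hp, e1]
    have e2 : 2 / c' * s * ((p + η + η * mm) * ((p - f x) + η * (mm - E))) =
        2 / c' * s * (p * (p - f x)) + (1 / c') * s * η *
          (2 * (1 + mm) * (p - f x) + 2 * (p + η + η * mm) * (mm - E)) := by ring
    rw [e2]
    have a5 : (1 / c') * s * η * (2 * (1 + mm) * (p - f x) + 2 * (p + η + η * mm) * (mm - E)) ≤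
        (1 / c') * s * η * (c' * E) :=
      mul_le_mul_of_nonneg_left main (by positivity)
    have e3 : (1 / c') * s * η * (c' * E) = s * η * E := by field_simp
    rw [e3] at a5
    have a6 : 2 / c' * s * (p * (p - f x)) ≤ 2 / c * s * (p * (p - f x)) := by
      refine mul_le_mul_of_nonneg_right ?_ (mul_nonneg hp0.le (by linarith))
      refine mul_le_mul_of_nonneg_right ?_ hs
      exact div_le_div_of_nonneg_left zero_le_two hc hcc.le
    have a7 : η * (E * (1 + s)) ≤ η * Real.exp (-(x - s - x1)) :=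
      mul_le_mul_of_nonneg_left hEs hη0.le
    nlinarith
  -- monotonicity in `u`
  set s0 := min 1 (c' / 6) with hs0
  have hs0pos : 0 < s0 := lt_min one_pos (by positivity)
  have step : ∀ x s, 0 ≤ s → s ≤ s0 →
      h x + 2 / c' * s * (h (x - 1) * (h (x - 1) - h x)) - C * s ^ 2 ≤ h (x - s) := by
    intro x s hs hss
    have hs1 : s ≤ 1 := hss.trans (min_le_left _ _)
    have hs2 : s ≤ c' / 6 := hss.trans (min_le_right _ _)
    have hmono : 2 / c' * s * h (x - 1) ≤ 1 := by
      have h1 : 2 / c' * s ≤ 2 / c' * (c' / 6) := mul_le_mul_of_nonneg_left hs2 (by positivity)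
      have e : 2 / c' * (c' / 6) = 1 / 3 := by field_simp; norm_num
      rw [e] at h1
      have h2 := hh3 (x - 1)
      have h3 : 0 ≤ h (x - 1) := hη0.le.trans (hhpos _)
      have h4 : 0 ≤ 2 / c' * s := by positivity
      nlinarith
    have gen : ∀ u, h x ≤ u → h x + 2 / c' * s * (h (x - 1) * (h (x - 1) - h x)) ≤
        u + 2 / c' * s * (h (x - 1) * (h (x - 1) - u)) := by
      intro u hu
      nlinarith [mul_nonneg (sub_nonneg.2 hu) (sub_nonneg.2 hmono)]
    by_cases hx : x - s ≤ x1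
    · have e : h (x - s) = f (x - s) + 2 * η := by
        simp only [hh]; rw [φl _ hx]; ring
      rw [e]
      have h1 := bar1 x s hs (by linarith)
      have h2 := gen (f x + 2 * η) (by
        simp only [hh]
        have := mul_le_mul_of_nonneg_left (φ1 x) hη0.le
        linarith)
      linarith
    · push Not at hx
      have e : h (x - s) = f (x - s) + η + η * Real.exp (-(x - s - x1)) := by
        simp only [hh]; rw [φr _ hx.le]
      rw [e]
      have h1 := bar2 x s hs (by linarith)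
      have h2 := gen (f x + η + η * Real.exp (-(x - x1))) (by
        simp only [hh]
        have := mul_le_mul_of_nonneg_left (φe x) hη0.le
        linarith)
      linarith
  have lip : ∀ x s, 0 ≤ s → h (x - s) - h x ≤ (L + η) * s := by
    intro x s hs
    have l1 := w_lip hc ode' (hB x) (z := x) (w := x - s) le_rfl (by linarith)
    have e : x - s - x = -s := by ring
    rw [e, abs_neg, abs_of_nonneg hs] at l1
    have l2 := (abs_le.1 l1).2
    have l3 := w_cut (x - x1) s hs
    have e2 : x - x1 - s = x - s - x1 := by ring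
    rw [e2] at l3
    have l4 := mul_le_mul_of_nonneg_left l3 hη0.le
    simp only [hh, hφ]
    nlinarith
  -- the translation
  obtain ⟨y, hy1, hy2⟩ : ∃ y, 1 - 2 * η < f y ∧ y ≤ x1 := by
    have h1 := hf.left.eventually (lt_mem_nhds (by linarith : 1 - 2 * η < 1))
    obtain ⟨y, h2, h3⟩ := (h1.and (Iic_mem_atBot x1)).exists
    exact ⟨y, h2, h3⟩
  obtain ⟨K, hK⟩ : ∃ K, f K < 1 / 2 :=
    (hf.right.eventually (gt_mem_nhds (by norm_num : (0 : ℝ) < 1 / 2))).exists
  refine ⟨fun x => h (x + y), ?_, ?_, ⟨η, hη0, fun x => hhpos _⟩, ⟨K - y, ?_⟩,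
    ⟨C, s0, hs0pos, ?_⟩, ⟨L + η, ?_⟩⟩
  · intro a b hab
    exact hanti (by linarith)
  · intro x hx
    have h1 : h y ≤ h (x + y) := hanti (by linarith)
    have h2 : h y = f y + 2 * η := by
      simp only [hh]; rw [φl y hy2]; ring
    show 1 ≤ h (x + y)
    linarith
  · show h (K - y + y) < 1
    rw [sub_add_cancel]
    have := mul_le_mul_of_nonneg_left (φ1 K) hη0.le
    simp only [hh]
    linarith
  · intro x s hs hss
    have := step (x + y) s hs hss
    have e1 : x + y - 1 = x - 1 + y := by ring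
    have e2 : x + y - s = x - s + y := by ring
    rw [e1, e2] at this
    exact this
  · intro x s hs
    have := lip (x + y) s hs
    have e2 : x + y - s = x - s + y := by ring
    rw [e2] at this
    exact this

end Pool.Agent.Counters
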