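import Pool.Agent.Lib.Counters.Drift

/-!
Chunk T (Quant): quantiles, the functional `Q` and tightness.

* `quant ρ x` = the largest level `k` with `frac k x ≥ ρ`.
* gap: for `0 < α`, `β < 1`: let `A = {i : x_i ≥ quant α}` (`|A| ≥ αN`), `B = {j : x_j ≤ quant β}`
  (`|B| ≥ (1-β)N`).  If `quant β < quant α`, then for `i∈A, j∈B`: `x_i - x_j ≥ quant α - quant β` and
  `rk j - rk i ≥ #{l∈B : x_l ≥ x_j}`; `∑_{j∈B} #{l∈B : x_l ≥ x_j} ≥ |B|²/2`.  So
  `R x ≥ (quant α - quant β) α (1-β)² N³` (both orders of `(i,j)` count).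
* `Q a b x = ∑_{k≥1} ψ(frac k x)`, `ψ(u) = clamp((u-a)/(b-a))`, `0 < a < b < 1`.
-/

namespace Pool.Agent.Counters

open Finset

variable {N : ℕ}

noncomputable def quant (ρ : ℝ) (x : Fin N → ℕ) : ℕ := by
  classical
  exact Nat.findGreatest (fun k => ρ ≤ frac k x) (tot x)

theorem quant_spec (hN : 2 ≤ N) {ρ : ℝ} (hρ : ρ ≤ 1) (x : Fin N → ℕ) :
    ρ ≤ frac (quant ρ x) x := by
  classical
  have h0 : ρ ≤ frac 0 x := by rw [frac_zero hN]; exact hρ
  exact Nat.findGreatest_spec (P := fun k => ρ ≤ frac k x) (Nat.zero_le (tot x)) h0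

theorem lt_of_quant_lt {ρ : ℝ} (hρ : 0 < ρ) (x : Fin N → ℕ) {k : ℕ} (hk : quant ρ x < k) :
    frac k x < ρ := by
  classical
  by_cases h : k ≤ tot x
  · have := Nat.findGreatest_is_greatest (P := fun k => ρ ≤ frac k x) hk h
    exact not_le.1 this
  · rw [frac_eq_zero x (not_le.1 h)]
    exact hρ

/-- among the elements of a finite set, comparable pairs fill at least half of the square -/
theorem sq_le_sum_card (x : Fin N → ℕ) (B : Finset (Fin N)) :
    (B.card : ℝ) ^ 2 ≤ 2 * ∑ j ∈ B, ((B.filter (fun l => x j ≤ x l)).card : ℝ) := by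
  have h1 : ∀ j, ((B.filter (fun l => x j ≤ x l)).card : ℝ)
      = ∑ l ∈ B, if x j ≤ x l then (1 : ℝ) else 0 := by
    intro j
    rw [Finset.card_filter]
    push_cast
    rfl
  simp only [h1]
  have h2 : ∑ j ∈ B, ∑ l ∈ B, (if x j ≤ x l then (1 : ℝ) else 0)
      = ∑ j ∈ B, ∑ l ∈ B, (if x l ≤ x j then (1 : ℝ) else 0) := Finset.sum_comm
  have h3 : (B.card : ℝ) ^ 2 = ∑ j ∈ B, ∑ l ∈ B, (1 : ℝ) := by
    simp [sq]
  have h4 : ∑ j ∈ B, ∑ l ∈ B, (1 : ℝ) ≤ ∑ j ∈ B, ∑ l ∈ B, (if x j ≤ x l then (1 : ℝ) else 0)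
      + ∑ j ∈ B, ∑ l ∈ B, (if x l ≤ x j then (1 : ℝ) else 0) := by
    rw [← Finset.sum_add_distrib]
    refine Finset.sum_le_sum (fun j _ => ?_)
    rw [← Finset.sum_add_distrib]
    refine Finset.sum_le_sum (fun l _ => ?_)
    rcases le_total (x j) (x l) with h | h
    · rw [if_pos h]
      split_ifs <;> norm_num
    · rw [if_pos h]
      split_ifs <;> norm_num
  rw [h3]
  linarith

theorem quant_gap (hN : 2 ≤ N) {α β : ℝ} (hα : 0 < α) (hα1 : α ≤ 1) (hβ : 0 < β) (hβ1 : β < 1)
    (x : Fin N → ℕ) :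
    ((quant α x : ℝ) - quant β x) * (α * (1 - β) ^ 2 * (N : ℝ) ^ 3) ≤ R x := by
  classical
  have hN0 : (0 : ℝ) < N := by exact_mod_cast (by omega : 0 < N)
  by_cases hlt : quant β x < quant α x
  swap
  · have h1 : (quant α x : ℝ) - quant β x ≤ 0 := by
      have : (quant α x : ℝ) ≤ quant β x := by exact_mod_cast not_lt.1 hlt
      linarith
    have h2 : 0 ≤ α * (1 - β) ^ 2 * (N : ℝ) ^ 3 := by positivity
    exact (mul_nonpos_of_nonpos_of_nonneg h1 h2).trans (R_nonneg x)
  set p := quant α x with hp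
  set q := quant β x with hq
  have hpq : (q : ℝ) < p := by exact_mod_cast hlt
  set A := univ.filter (fun i => p ≤ x i) with hA
  set B := univ.filter (fun j => x j ≤ q) with hB
  have hAcard : α * N ≤ (A.card : ℝ) := by
    have h := quant_spec hN hα1 x
    rw [← hp] at h
    unfold frac cnt at h
    rw [le_div_iff₀ hN0] at h
    exact h
  have hBcard : (1 - β) * N ≤ (B.card : ℝ) := by
    have h := lt_of_quant_lt hβ x (k := q + 1) (by omega)
    unfold frac cnt at h
    rw [div_lt_iff₀ hN0] at h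
    have h2 : (univ.filter (fun l => q + 1 ≤ x l)).card + B.card = N := by
      have h3 := Finset.card_filter_add_card_filter_not (s := (univ : Finset (Fin N)))
        (fun l => q + 1 ≤ x l)
      rw [Finset.card_univ, Fintype.card_fin] at h3
      have h4 : (univ.filter (fun l => ¬ (q + 1 ≤ x l))) = B := by
        rw [hB]
        apply Finset.filter_congr
        intro l _
        omega
      rw [h4] at h3
      exact h3
    have h5 : ((univ.filter (fun l => q + 1 ≤ x l)).card : ℝ) + B.card = N := by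
      exact_mod_cast h2
    linarith
  have hdisj : Disjoint A B := by
    rw [Finset.disjoint_left]
    intro i hiA hiB
    rw [hA, Finset.mem_filter] at hiA
    rw [hB, Finset.mem_filter] at hiB
    omega
  set f : Fin N → Fin N → ℝ := fun i j => |(rk x i : ℝ) - rk x j| * |(x i : ℝ) - x j| with hf
  have hfnn : ∀ i j, 0 ≤ f i j := fun i j => mul_nonneg (abs_nonneg _) (abs_nonneg _)
  have hfsymm : ∀ i j, f i j = f j i := by
    intro i j
    simp only [hf]
    rw [abs_sub_comm, abs_sub_comm (x i : ℝ)]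
  have hlow : ∀ i ∈ A, ∀ j ∈ B,
      ((B.filter (fun l => x j ≤ x l)).card : ℝ) * ((p : ℝ) - q) ≤ f i j := by
    intro i hi j hj
    rw [hA, Finset.mem_filter] at hi
    rw [hB, Finset.mem_filter] at hj
    have h1 : (p : ℝ) - q ≤ |(x i : ℝ) - x j| := by
      have e1 : (p : ℝ) ≤ x i := by exact_mod_cast hi.2
      have e2 : (x j : ℝ) ≤ q := by exact_mod_cast hj.2
      exact le_trans (by linarith) (le_abs_self _)
    have h2 : ((B.filter (fun l => x j ≤ x l)).card : ℝ) ≤ |(rk x i : ℝ) - rk x j| := by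
      have h3 : (B.filter (fun l => x j ≤ x l)).card + rk x i ≤ rk x j := by
        unfold rk
        rw [← Finset.card_union_of_disjoint]
        · apply Finset.card_le_card
          intro l hl
          rw [Finset.mem_union] at hl
          rw [Finset.mem_filter]
          refine ⟨Finset.mem_univ _, ?_⟩
          rcases hl with hl | hl
          · exact (Finset.mem_filter.1 hl).2
          · have := (Finset.mem_filter.1 hl).2
            omega
        · rw [Finset.disjoint_left]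
          intro l hl1 hl2
          rw [Finset.mem_filter, hB, Finset.mem_filter] at hl1
          rw [Finset.mem_filter] at hl2
          have e1 := hl1.1.2
          have e2 := hl2.2
          omega
      have h4 : ((B.filter (fun l => x j ≤ x l)).card : ℝ) + rk x i ≤ rk x j := by
        exact_mod_cast h3
      rw [abs_sub_comm]
      exact le_trans (by linarith) (le_abs_self _)
    exact mul_le_mul h2 h1 (by linarith) (abs_nonneg _)
  -- the sum over A × B
  have hAB : ((p : ℝ) - q) * ((A.card : ℝ) * (B.card : ℝ) ^ 2) ≤ 2 * ∑ i ∈ A, ∑ j ∈ B, f i j := by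
    have h1 : ∑ i ∈ A, ∑ j ∈ B, ((B.filter (fun l => x j ≤ x l)).card : ℝ) * ((p : ℝ) - q)
        ≤ ∑ i ∈ A, ∑ j ∈ B, f i j :=
      Finset.sum_le_sum (fun i hi => Finset.sum_le_sum (fun j hj => hlow i hi j hj))
    have h2 : ∑ i ∈ A, ∑ j ∈ B, ((B.filter (fun l => x j ≤ x l)).card : ℝ) * ((p : ℝ) - q)
        = (A.card : ℝ) * ((∑ j ∈ B, ((B.filter (fun l => x j ≤ x l)).card : ℝ)) * ((p : ℝ) - q)) := by
      rw [Finset.sum_const, nsmul_eq_mul, Finset.sum_mul]
    rw [h2] at h1
    have h3 := sq_le_sum_card x B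
    have h4 : (A.card : ℝ) * ((B.card : ℝ) ^ 2 * ((p : ℝ) - q))
        ≤ (A.card : ℝ) * ((2 * ∑ j ∈ B, ((B.filter (fun l => x j ≤ x l)).card : ℝ)) *
          ((p : ℝ) - q)) := by
      apply mul_le_mul_of_nonneg_left _ (Nat.cast_nonneg _)
      exact mul_le_mul_of_nonneg_right h3 (by linarith)
    nlinarith
  have hR : 2 * ∑ i ∈ A, ∑ j ∈ B, f i j ≤ R x := by
    have h1 : ∑ i ∈ A, ∑ j ∈ B, f i j = ∑ i ∈ B, ∑ j ∈ A, f i j := by
      rw [Finset.sum_comm]
      exact Finset.sum_congr rfl (fun i _ => Finset.sum_congr rfl (fun j _ => hfsymm j i))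
    have h2 : ∑ i ∈ A, ∑ j ∈ B, f i j + ∑ i ∈ B, ∑ j ∈ A, f i j ≤ R x := by
      have h3 : ∑ i ∈ A, ∑ j ∈ B, f i j ≤ ∑ i ∈ A, ∑ j, f i j :=
        Finset.sum_le_sum (fun i _ => Finset.sum_le_sum_of_subset_of_nonneg
          (Finset.subset_univ _) (fun j _ _ => hfnn i j))
      have h4 : ∑ i ∈ B, ∑ j ∈ A, f i j ≤ ∑ i ∈ B, ∑ j, f i j :=
        Finset.sum_le_sum (fun i _ => Finset.sum_le_sum_of_subset_of_nonneg
          (Finset.subset_univ _) (fun j _ _ => hfnn i j))
      have h5 : ∑ i ∈ A, ∑ j, f i j + ∑ i ∈ B, ∑ j, f i j ≤ ∑ i, ∑ j, f i j := by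
        rw [← Finset.sum_union hdisj]
        exact Finset.sum_le_sum_of_subset_of_nonneg (Finset.subset_univ _)
          (fun i _ _ => Finset.sum_nonneg (fun j _ => hfnn i j))
      have h6 : R x = ∑ i, ∑ j, f i j := rfl
      rw [h6]
      linarith
    linarith
  have hfin : α * (1 - β) ^ 2 * (N : ℝ) ^ 3 ≤ (A.card : ℝ) * (B.card : ℝ) ^ 2 := by
    have h1 : ((1 - β) * N) ^ 2 ≤ (B.card : ℝ) ^ 2 :=
      pow_le_pow_left₀ (mul_nonneg (by linarith) hN0.le) hBcard 2
    have h2 : (α * N) * ((1 - β) * N) ^ 2 ≤ (A.card : ℝ) * (B.card : ℝ) ^ 2 :=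
      mul_le_mul hAcard h1 (by positivity) (Nat.cast_nonneg _)
    calc α * (1 - β) ^ 2 * (N : ℝ) ^ 3 = (α * N) * ((1 - β) * N) ^ 2 := by ring
      _ ≤ _ := h2
  have h7 := mul_le_mul_of_nonneg_left hfin (by linarith : (0 : ℝ) ≤ (p : ℝ) - q)
  linarith

/-- tightness: time-averaged gaps between quantiles are bounded uniformly in `N` -/
theorem tight (hN : 2 ≤ N) {α β : ℝ} (hα : 0 < α) (hα1 : α ≤ 1) (hβ : 0 < β) (hβ1 : β < 1)
    (n : ℕ) :
    ∑ s ∈ range n, (avg N)^[s] (fun y => (quant α y : ℝ) - quant β y) (fun _ => 0) ≤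
      n * (1 / (α * (1 - β) ^ 2)) := by
  have hN0 : (0 : ℝ) < N := by exact_mod_cast (by omega : 0 < N)
  have hb : 0 < 1 - β := by linarith
  have hc : 0 < α * (1 - β) ^ 2 * (N : ℝ) ^ 3 := by positivity
  have h1 : ∀ s, (avg N)^[s] (fun y => (quant α y : ℝ) - quant β y) (fun _ => 0)
      ≤ (1 / (α * (1 - β) ^ 2 * (N : ℝ) ^ 3)) * (avg N)^[s] R (fun _ => 0) := by
    intro s
    rw [← iter_mul_left]
    apply iter_mono
    intro y
    have h := quant_gap hN hα hα1 hβ hβ1 y
    rw [one_div, inv_mul_eq_div, le_div_iff₀ hc]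
    exact h
  calc ∑ s ∈ range n, (avg N)^[s] (fun y => (quant α y : ℝ) - quant β y) (fun _ => 0)
      ≤ ∑ s ∈ range n, (1 / (α * (1 - β) ^ 2 * (N : ℝ) ^ 3)) * (avg N)^[s] R (fun _ => 0) :=
        Finset.sum_le_sum (fun s _ => h1 s)
    _ = (1 / (α * (1 - β) ^ 2 * (N : ℝ) ^ 3)) * ∑ s ∈ range n, (avg N)^[s] R (fun _ => 0) := by
        rw [Finset.mul_sum]
    _ ≤ (1 / (α * (1 - β) ^ 2 * (N : ℝ) ^ 3)) * (n * (N : ℝ) ^ 3) :=
        mul_le_mul_of_nonneg_left (sum_R_le hN n) (by positivity)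
    _ = n * (1 / (α * (1 - β) ^ 2)) := by
        field_simp

/-- the clamp function -/
noncomputable def psi (a b u : ℝ) : ℝ := max 0 (min 1 ((u - a) / (b - a)))

theorem psi_nonneg (a b u : ℝ) : 0 ≤ psi a b u := le_max_left _ _

theorem psi_le_one (a b u : ℝ) : psi a b u ≤ 1 :=
  max_le zero_le_one (min_le_left _ _)

theorem psi_mono {a b : ℝ} (hab : a < b) {u v : ℝ} (h : u ≤ v) : psi a b u ≤ psi a b v := by
  unfold psi
  have : (u - a) / (b - a) ≤ (v - a) / (b - a) :=
    div_le_div_of_nonneg_right (by linarith) (by linarith)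
  exact max_le_max le_rfl (min_le_min le_rfl this)

theorem psi_eq_zero {a b : ℝ} (hab : a < b) {u : ℝ} (h : u ≤ a) : psi a b u = 0 := by
  unfold psi
  have : (u - a) / (b - a) ≤ 0 := div_nonpos_of_nonpos_of_nonneg (by linarith) (by linarith)
  rw [min_eq_right (by linarith), max_eq_left this]

theorem psi_eq_one {a b : ℝ} (hab : a < b) {u : ℝ} (h : b ≤ u) : psi a b u = 1 := by
  unfold psi
  have : 1 ≤ (u - a) / (b - a) := by
    rw [le_div_iff₀ (by linarith)]
    linarith
  rw [min_eq_left this, max_eq_right zero_le_one]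

theorem psi_sub_le {a b : ℝ} (hab : a < b) {u v : ℝ} (h : u ≤ v) :
    psi a b v - psi a b u ≤ (v - u) / (b - a) := by
  unfold psi
  have h1 : (v - a) / (b - a) = (u - a) / (b - a) + (v - u) / (b - a) := by
    rw [← add_div]; ring_nf
  have h2 : 0 ≤ (v - u) / (b - a) := div_nonneg (by linarith) (by linarith)
  rw [h1]
  set s := (u - a) / (b - a)
  set t := (v - u) / (b - a)
  rcases le_total s 0 with hs | hs
  · have hm : max 0 (min 1 s) = 0 := max_eq_left ((min_le_right _ _).trans hs)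
    rw [hm]
    rcases le_total (s + t) 0 with hst | hst
    · have hm2 : max 0 (min 1 (s + t)) = 0 := max_eq_left ((min_le_right _ _).trans hst)
      rw [hm2]
      linarith
    · have := min_le_right 1 (s + t)
      have h0 : 0 ≤ min 1 (s + t) := le_min zero_le_one hst
      rw [max_eq_right h0]
      linarith
  · have h0 : 0 ≤ min 1 s := le_min zero_le_one hs
    have h00 : 0 ≤ min 1 (s + t) := le_min zero_le_one (by linarith)
    rw [max_eq_right h0, max_eq_right h00]
    rcases le_total 1 s with h3 | h3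
    · rw [min_eq_left h3]
      have := min_le_left 1 (s + t)
      linarith
    · rw [min_eq_right h3]
      have := min_le_right 1 (s + t)
      linarith

noncomputable def Q (a b : ℝ) (x : Fin N → ℕ) : ℝ :=
  ∑ k ∈ range (tot x), psi a b (frac (k + 1) x)

theorem Q_nonneg (a b : ℝ) (x : Fin N → ℕ) : 0 ≤ Q a b x :=
  Finset.sum_nonneg (fun _ _ => psi_nonneg _ _ _)

/-- the sum defining `Q` may be extended -/
theorem Q_eq {a b : ℝ} (ha : 0 < a) (hab : a < b) (x : Fin N → ℕ) {M : ℕ} (hM : tot x ≤ M) :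
    Q a b x = ∑ k ∈ range M, psi a b (frac (k + 1) x) := by
  unfold Q
  apply Finset.sum_subset (Finset.range_mono hM)
  intro k _ hk
  rw [Finset.mem_range, not_lt] at hk
  rw [frac_eq_zero x (by omega : tot x < k + 1)]
  exact psi_eq_zero hab ha.le

theorem Q_mono {a b : ℝ} (ha : 0 < a) (hab : a < b) {x y : Fin N → ℕ} (h : x ≤ y) :
    Q a b x ≤ Q a b y := by
  rw [Q_eq ha hab x (tot_mono h), Q]
  exact Finset.sum_le_sum (fun k _ => psi_mono hab (frac_mono h _))

theorem sum_frac (_hN : 2 ≤ N) (x : Fin N → ℕ) {M : ℕ} (hM : tot x ≤ M) :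
    ∑ k ∈ range M, frac (k + 1) x = (tot x : ℝ) / N := by
  unfold frac
  rw [← Finset.sum_div]
  congr 1
  have h1 : ∑ k ∈ range M, cnt (k + 1) x = tot x := by
    unfold cnt tot
    simp only [Finset.card_filter]
    rw [Finset.sum_comm]
    refine Finset.sum_congr rfl (fun l _ => ?_)
    rw [← Finset.card_filter]
    have hl : x l ≤ M := by
      refine le_trans ?_ hM
      unfold tot
      exact Finset.single_le_sum (f := fun l => x l) (fun _ _ => Nat.zero_le _) (Finset.mem_univ l)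
    have h2 : (range M).filter (fun k => k + 1 ≤ x l) = range (x l) := by
      ext k
      simp only [Finset.mem_filter, Finset.mem_range]
      omega
    rw [h2, Finset.card_range]
  exact_mod_cast h1

theorem Q_sub_le (hN : 2 ≤ N) {a b : ℝ} (ha : 0 < a) (hab : a < b) {x y : Fin N → ℕ}
    (h : x ≤ y) : Q a b y - Q a b x ≤ ((tot y : ℝ) - tot x) / ((b - a) * N) := by
  have hN0 : (0 : ℝ) < N := by exact_mod_cast (by omega : 0 < N)
  have hba : 0 < b - a := by linarith
  rw [Q_eq ha hab x (tot_mono h), Q, ← Finset.sum_sub_distrib]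
  calc ∑ k ∈ range (tot y), (psi a b (frac (k + 1) y) - psi a b (frac (k + 1) x))
      ≤ ∑ k ∈ range (tot y), (frac (k + 1) y - frac (k + 1) x) / (b - a) :=
        Finset.sum_le_sum (fun k _ => psi_sub_le hab (frac_mono h _))
    _ = ((tot y : ℝ) - tot x) / ((b - a) * N) := by
        rw [← Finset.sum_div, Finset.sum_sub_distrib, sum_frac hN y le_rfl,
          sum_frac hN x (tot_mono h)]
        field_simp

theorem le_Q {a b : ℝ} (ha : 0 < a) (hab : a < b) (x : Fin N → ℕ) {k : ℕ}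
    (hk : b ≤ frac k x) : (k : ℝ) ≤ Q a b x := by
  have hkt : k ≤ tot x := by
    by_contra hcon
    rw [frac_eq_zero x (not_le.1 hcon)] at hk
    linarith
  have h1 : (k : ℝ) = ∑ j ∈ range k, (1 : ℝ) := by simp
  rw [h1, Q]
  calc ∑ j ∈ range k, (1 : ℝ) = ∑ j ∈ range k, psi a b (frac (j + 1) x) := by
        refine Finset.sum_congr rfl (fun j hj => ?_)
        rw [Finset.mem_range] at hj
        exact (psi_eq_one hab (hk.trans (frac_anti x (by omega)))).symm
    _ ≤ ∑ j ∈ range (tot x), psi a b (frac (j + 1) x) :=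
        Finset.sum_le_sum_of_subset_of_nonneg (Finset.range_mono hkt)
          (fun _ _ _ => psi_nonneg _ _ _)

theorem Q_le {a b : ℝ} (ha : 0 < a) (hab : a < b) (x : Fin N → ℕ) {k : ℕ}
    (hk : frac (k + 1) x ≤ a) : Q a b x ≤ k := by
  rw [Q_eq ha hab x (Nat.le_add_left (tot x) k)]
  calc ∑ j ∈ range (k + tot x), psi a b (frac (j + 1) x)
      = ∑ j ∈ range k, psi a b (frac (j + 1) x) := by
        symm
        apply Finset.sum_subset (Finset.range_mono (Nat.le_add_right _ _))
        intro j _ hj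
        rw [Finset.mem_range, not_lt] at hj
        exact psi_eq_zero hab ((frac_anti x (by omega : k + 1 ≤ j + 1)).trans hk)
    _ ≤ ∑ j ∈ range k, (1 : ℝ) := Finset.sum_le_sum (fun _ _ => psi_le_one _ _ _)
    _ = k := by simp

end Pool.Agent.Counters
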