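import Pool.Agent.Lib.Counters.Defs

/-!
Chunk S (Series): the entire function `B q`.

Paper proof.
* `beta q` satisfies, for `n ≥ 2`,
  `((n:ℝ) * (1-q) - (1-q^n)) * beta q n = ∑_{i=1}^{n-1} q^i (1-q^(n-i)) beta q i * beta q (n-i)`
  and the denominator is `(1-q) * ∑_{j<n} (1-q^j) ≥ (n-1) (1-q)^2`.
* Majorant: for `0 ≤ q ≤ r < 1`, `|beta q n| ≤ b n` with `b 0 = b 1 = 1` and
  `b n = (∑_{i=1}^{n-1} r^i b i b (n-i)) / ((n-1) (1-r)^2)`.
* `∑ b n ρ^n < ∞` for every `ρ`.  If `s = ∑_{i≥1} r^i b i ρ^i < ∞` (true as soon as the claim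
  holds for the radius `r ρ`), then with `M n = max_{j≤n} b j ρ^j` one has
  `b n ρ^n ≤ s / ((n-1)(1-r)^2) * M (n-1)`, hence `b n ρ^n` is bounded, so the claim holds for all
  radii `< ρ`, in particular for `√r⁻¹` times the old one. Start: some small radius (for instance
  `b n ≤ C^n`).
* `(1-q) E B'(E) = B(qE) (B(E) - B(qE))` is the Cauchy product of the two series.
* joint continuity: locally uniform majorant.
-/

namespace Pool.Agent.Counters

open Filter Topology Set

theorem beta_zero (q : ℝ) : beta q 0 = 1 := by rw [beta]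

theorem beta_one (q : ℝ) : beta q 1 = -1 := by rw [beta]

/-- the denominators -/
theorem den_ge (q : ℝ) (hq : 0 < q) (hq1 : q < 1) (n : ℕ) :
    (n : ℝ) * (1 - q) ^ 2 ≤ ((n + 1 : ℕ) : ℝ) * (1 - q) - (1 - q ^ (n + 1)) := by
  induction n with
  | zero => simp
  | succ n ih =>
    have h1 : q ^ (n + 1) ≤ q := by
      calc q ^ (n + 1) ≤ q ^ 1 := pow_le_pow_of_le_one hq.le hq1.le (by omega)
        _ = q := pow_one q
    have h2 : (1 - q) ^ 2 ≤ (1 - q) * (1 - q ^ (n + 1)) := by nlinarith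
    have e : ((n + 1 + 1 : ℕ) : ℝ) * (1 - q) - (1 - q ^ (n + 1 + 1)) =
        (((n + 1 : ℕ) : ℝ) * (1 - q) - (1 - q ^ (n + 1))) + (1 - q) * (1 - q ^ (n + 1)) := by
      push_cast
      ring
    rw [e]
    push_cast at ih ⊢
    nlinarith

theorem den_pos (q : ℝ) (hq : 0 < q) (hq1 : q < 1) (n : ℕ) :
    0 < ((n + 2 : ℕ) : ℝ) * (1 - q) - (1 - q ^ (n + 2)) := by
  have h := den_ge q hq hq1 (n + 1)
  have h1 : 0 < ((n + 1 : ℕ) : ℝ) * (1 - q) ^ 2 := by
    have : 0 < 1 - q := by linarith
    positivity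
  exact lt_of_lt_of_le h1 h

/-- the defining equation -/
theorem beta_succ_succ (q : ℝ) (n : ℕ) : beta q (n + 2) =
    (∑ i ∈ Finset.range (n + 1), q ^ (i + 1) * (1 - q ^ (n + 1 - i)) *
      beta q (i + 1) * beta q (n + 1 - i)) / (((n + 2 : ℕ) : ℝ) * (1 - q) - (1 - q ^ (n + 2))) := by
  rw [beta, Finset.sum_range]
  push_cast
  rfl

/-- recursion in product form -/
theorem beta_rec (q : ℝ) (hq : 0 < q) (hq1 : q < 1) (n : ℕ) (hn : 2 ≤ n) :
    ((n : ℝ) * (1 - q) - (1 - q ^ n)) * beta q n =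
      ∑ i ∈ Finset.Ico 1 n, q ^ i * (1 - q ^ (n - i)) * beta q i * beta q (n - i) := by
  obtain ⟨m, rfl⟩ : ∃ m, n = m + 2 := ⟨n - 2, by omega⟩
  rw [beta_succ_succ, mul_div_cancel₀ _ (den_pos q hq hq1 m).ne',
    Finset.sum_Ico_eq_sum_range]
  refine Finset.sum_congr (by congr 1) fun i hi => ?_
  have e : m + 2 - (1 + i) = m + 1 - i := by omega
  rw [e, add_comm 1 i]

/-! ### The majorant -/

/-- majorant of the coefficients -/
noncomputable def maj (r : ℝ) : ℕ → ℝ
  | 0 => 1
  | 1 => 1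
  | (n + 2) => (∑ i : Fin (n + 1), r ^ (i.1 + 1) * maj r (i.1 + 1) * maj r (n + 1 - i.1)) /
      ((n + 1 : ℝ) * (1 - r) ^ 2)
  decreasing_by all_goals (have := i.2; omega)

theorem maj_zero (r : ℝ) : maj r 0 = 1 := by rw [maj]
theorem maj_one (r : ℝ) : maj r 1 = 1 := by rw [maj]
theorem maj_succ_succ (r : ℝ) (n : ℕ) : maj r (n + 2) =
    (∑ i ∈ Finset.range (n + 1), r ^ (i + 1) * maj r (i + 1) * maj r (n + 1 - i)) /
      ((n + 1 : ℝ) * (1 - r) ^ 2) := by
  rw [maj, Finset.sum_range]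

theorem maj_nonneg (r : ℝ) (hr : 0 < r) (n : ℕ) : 0 ≤ maj r n := by
  induction n using Nat.strong_induction_on with
  | _ n ih =>
    match n with
    | 0 => rw [maj_zero]; norm_num
    | 1 => rw [maj_one]; norm_num
    | (n + 2) =>
      rw [maj_succ_succ]
      apply div_nonneg _ (by positivity)
      refine Finset.sum_nonneg fun i hi => ?_
      rw [Finset.mem_range] at hi
      have h1 := ih (i + 1) (by omega)
      have h2 := ih (n + 1 - i) (by omega)
      positivity

theorem abs_beta_le (r : ℝ) (hr1 : r < 1) (q : ℝ) (hq : 0 < q) (hqr : q ≤ r) (n : ℕ) :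
    |beta q n| ≤ maj r n := by
  have hr : 0 < r := lt_of_lt_of_le hq hqr
  have hq1 : q < 1 := lt_of_le_of_lt hqr hr1
  induction n using Nat.strong_induction_on with
  | _ n ih =>
    match n with
    | 0 => rw [maj_zero, beta_zero]; norm_num
    | 1 => rw [maj_one, beta_one]; norm_num
    | (n + 2) =>
      rw [maj_succ_succ, beta_succ_succ, abs_div, abs_of_pos (den_pos q hq hq1 n)]
      have hden : (n + 1 : ℝ) * (1 - r) ^ 2 ≤ ((n + 2 : ℕ) : ℝ) * (1 - q) - (1 - q ^ (n + 2)) := by
        refine le_trans ?_ (den_ge q hq hq1 (n + 1))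
        push_cast
        apply mul_le_mul_of_nonneg_left _ (by positivity)
        apply pow_le_pow_left₀ (by linarith)
        linarith
      have hden0 : 0 < (n + 1 : ℝ) * (1 - r) ^ 2 := by
        have : 0 < 1 - r := by linarith
        positivity
      refine div_le_div₀ ?_ ?_ hden0 hden
      · refine Finset.sum_nonneg fun i _ => ?_
        have h1 := maj_nonneg r hr (i + 1)
        have h2 := maj_nonneg r hr (n + 1 - i)
        positivity
      · refine (Finset.abs_sum_le_sum_abs _ _).trans (Finset.sum_le_sum fun i hi => ?_)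
        rw [Finset.mem_range] at hi
        rw [abs_mul, abs_mul, abs_mul]
        have h1 := ih (i + 1) (by omega)
        have h2 := ih (n + 1 - i) (by omega)
        have h3 : |q ^ (i + 1)| ≤ r ^ (i + 1) := by
          rw [abs_of_nonneg (by positivity)]
          exact pow_le_pow_left₀ hq.le hqr _
        have h4 : |1 - q ^ (n + 1 - i)| ≤ 1 := by
          have h5 : q ^ (n + 1 - i) ≤ 1 := pow_le_one₀ hq.le hq1.le
          have h6 : 0 ≤ q ^ (n + 1 - i) := by positivity
          rw [abs_le]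
          constructor <;> linarith
        calc |q ^ (i + 1)| * |1 - q ^ (n + 1 - i)| * |beta q (i + 1)| * |beta q (n + 1 - i)|
            ≤ r ^ (i + 1) * 1 * maj r (i + 1) * maj r (n + 1 - i) := by
              have h0 := maj_nonneg r hr (i + 1)
              gcongr
          _ = r ^ (i + 1) * maj r (i + 1) * maj r (n + 1 - i) := by ring

theorem maj_start (r : ℝ) (hr : 0 < r) (hr1 : r < 1) (n : ℕ) :
    maj r (n + 1) ≤ (1 / (1 - r) ^ 2) ^ n := by
  have h1r : 0 < 1 - r := by linarith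
  induction n using Nat.strong_induction_on with
  | _ n ih =>
    match n with
    | 0 => rw [maj_one]; simp
    | (n + 1) =>
      rw [maj_succ_succ]
      rw [div_le_iff₀ (by positivity)]
      have h : ∀ i ∈ Finset.range (n + 1), r ^ (i + 1) * maj r (i + 1) * maj r (n + 1 - i) ≤
          (1 / (1 - r) ^ 2) ^ n := by
        intro i hi
        rw [Finset.mem_range] at hi
        have h1 := ih i (by omega)
        have h2 := ih (n - i) (by omega)
        rw [show n - i + 1 = n + 1 - i by omega] at h2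
        have h3 : r ^ (i + 1) ≤ 1 := pow_le_one₀ hr.le hr1.le
        calc r ^ (i + 1) * maj r (i + 1) * maj r (n + 1 - i)
            ≤ 1 * (1 / (1 - r) ^ 2) ^ i * (1 / (1 - r) ^ 2) ^ (n - i) := by
              gcongr
              · exact maj_nonneg r hr _
              · exact maj_nonneg r hr _
          _ = (1 / (1 - r) ^ 2) ^ n := by
              rw [one_mul, ← pow_add]
              congr 1
              omega
      refine (Finset.sum_le_sum h).trans (le_of_eq ?_)
      rw [Finset.sum_const, Finset.card_range, nsmul_eq_mul, pow_succ]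
      have e : 1 / (1 - r) ^ 2 * (1 - r) ^ 2 = 1 := by field_simp
      push_cast
      calc ((n : ℝ) + 1) * (1 / (1 - r) ^ 2) ^ n =
          (1 / (1 - r) ^ 2) ^ n * (1 / (1 - r) ^ 2 * (1 - r) ^ 2) * (n + 1) := by rw [e]; ring
        _ = _ := by ring

/-- boundedness of `b n * σ ^ n` -/
def Bd (r σ : ℝ) : Prop := ∃ C, ∀ n, maj r n * σ ^ n ≤ C

theorem Bd.mono {r σ σ' : ℝ} (hr : 0 < r) (hσ : 0 ≤ σ') (h : σ' ≤ σ) (hb : Bd r σ) : Bd r σ' := by
  obtain ⟨C, hC⟩ := hb
  refine ⟨C, fun n => le_trans ?_ (hC n)⟩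
  exact mul_le_mul_of_nonneg_left (pow_le_pow_left₀ hσ h n) (maj_nonneg r hr n)

theorem Bd.summable {r σ σ' : ℝ} (hr : 0 < r) (hσ : 0 ≤ σ') (h : σ' < σ) (hb : Bd r σ) :
    Summable fun n => maj r n * σ' ^ n := by
  obtain ⟨C, hC⟩ := hb
  have hσ0 : 0 < σ := lt_of_le_of_lt hσ h
  have hC0 : 0 ≤ C := le_trans (mul_nonneg (maj_nonneg r hr 0) (by positivity)) (hC 0)
  have hgeo : Summable fun n => C * (σ' / σ) ^ n :=
    (summable_geometric_of_lt_one (by positivity) (by rwa [div_lt_one hσ0])).mul_left C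
  refine Summable.of_nonneg_of_le (fun n => mul_nonneg (maj_nonneg r hr n) (by positivity))
    (fun n => ?_) hgeo
  have e : maj r n * σ' ^ n = (maj r n * σ ^ n) * (σ' / σ) ^ n := by
    rw [div_pow]
    field_simp
  rw [e]
  exact mul_le_mul_of_nonneg_right (hC n) (by positivity)

theorem Bd.step {r σ : ℝ} (hr : 0 < r) (hr1 : r < 1) (hσ : 0 < σ) (hb : Bd r σ) :
    Bd r (σ / Real.sqrt r) := by
  have h1r : 0 < 1 - r := by linarith
  have hsr : 0 < Real.sqrt r := Real.sqrt_pos.2 hr
  have hsr1 : Real.sqrt r < 1 := by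
    rw [Real.sqrt_lt' (by norm_num)]
    linarith
  set ρ : ℝ := σ / Real.sqrt r with hρ
  have hρ0 : 0 < ρ := by positivity
  have hrρ : r * ρ < σ := by
    have : r * ρ = Real.sqrt r * σ := by
      rw [hρ]
      have : r = Real.sqrt r * Real.sqrt r := (Real.mul_self_sqrt hr.le).symm
      field_simp
      nlinarith
    rw [this]
    nlinarith
  have hsum := hb.summable hr (by positivity : 0 ≤ r * ρ) hrρ
  set s : ℝ := ∑' n, maj r n * (r * ρ) ^ n with hs
  have hpart : ∀ n, ∑ i ∈ Finset.range n, maj r (i + 1) * (r * ρ) ^ (i + 1) ≤ s := by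
    intro n
    have h1 : ∑ i ∈ Finset.range (n + 1), maj r i * (r * ρ) ^ i ≤ s :=
      hsum.sum_le_tsum _ fun i _ => mul_nonneg (maj_nonneg r hr i) (by positivity)
    rw [Finset.sum_range_succ'] at h1
    have h2 : 0 ≤ maj r 0 * (r * ρ) ^ 0 := mul_nonneg (maj_nonneg r hr 0) (by positivity)
    linarith
  obtain ⟨n0, hn0⟩ := exists_nat_ge (s / (1 - r) ^ 2)
  have hn0' : s ≤ n0 * (1 - r) ^ 2 := by rwa [div_le_iff₀ (by positivity)] at hn0
  refine ⟨∑ j ∈ Finset.range (n0 + 3), maj r j * ρ ^ j, fun n => ?_⟩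
  set C : ℝ := ∑ j ∈ Finset.range (n0 + 3), maj r j * ρ ^ j with hC
  have hC0 : 0 ≤ C := Finset.sum_nonneg fun j _ => mul_nonneg (maj_nonneg r hr j) (by positivity)
  induction n using Nat.strong_induction_on with
  | _ n ih =>
    by_cases hn : n < n0 + 3
    · exact Finset.single_le_sum (f := fun j => maj r j * ρ ^ j)
        (fun j _ => mul_nonneg (maj_nonneg r hr j) (by positivity)) (Finset.mem_range.2 hn)
    · obtain ⟨m, rfl⟩ : ∃ m, n = m + 2 := ⟨n - 2, by omega⟩
      have hm : n0 ≤ m + 1 := by omega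
      rw [maj_succ_succ, div_mul_eq_mul_div, div_le_iff₀ (by positivity), Finset.sum_mul]
      have h : ∀ i ∈ Finset.range (m + 1),
          r ^ (i + 1) * maj r (i + 1) * maj r (m + 1 - i) * ρ ^ (m + 2) ≤
          (maj r (i + 1) * (r * ρ) ^ (i + 1)) * C := by
        intro i hi
        rw [Finset.mem_range] at hi
        have h1 := ih (m + 1 - i) (by omega)
        have e : r ^ (i + 1) * maj r (i + 1) * maj r (m + 1 - i) * ρ ^ (m + 2) =
            (maj r (i + 1) * (r * ρ) ^ (i + 1)) * (maj r (m + 1 - i) * ρ ^ (m + 1 - i)) := by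
          have : ρ ^ (m + 2) = ρ ^ (i + 1) * ρ ^ (m + 1 - i) := by
            rw [← pow_add]
            congr 1
            omega
          rw [this, mul_pow]
          ring
        rw [e]
        exact mul_le_mul_of_nonneg_left h1 (mul_nonneg (maj_nonneg r hr _) (by positivity))
      refine (Finset.sum_le_sum h).trans ?_
      rw [← Finset.sum_mul, mul_comm C]
      apply mul_le_mul_of_nonneg_right _ hC0
      refine (hpart (m + 1)).trans (hn0'.trans ?_)
      apply mul_le_mul_of_nonneg_right _ (by positivity)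
      exact_mod_cast hm

theorem Bd_all {r : ℝ} (hr : 0 < r) (hr1 : r < 1) (ρ : ℝ) (hρ : 0 ≤ ρ) : Bd r ρ := by
  have h1r : 0 < 1 - r := by linarith
  have hstart : Bd r ((1 - r) ^ 2) := by
    refine ⟨1, fun n => ?_⟩
    match n with
    | 0 => rw [maj_zero]; simp
    | (n + 1) =>
      have h1 := maj_start r hr hr1 n
      have h2 : (1 - r) ^ 2 ≤ 1 := by nlinarith
      calc maj r (n + 1) * ((1 - r) ^ 2) ^ (n + 1)
          ≤ (1 / (1 - r) ^ 2) ^ n * ((1 - r) ^ 2) ^ (n + 1) := by gcongr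
        _ = (1 / (1 - r) ^ 2 * (1 - r) ^ 2) ^ n * (1 - r) ^ 2 := by
            rw [mul_pow]
            ring
        _ = (1 - r) ^ 2 := by
            have e : 1 / (1 - r) ^ 2 * (1 - r) ^ 2 = 1 := by field_simp
            rw [e, one_pow, one_mul]
        _ ≤ 1 := h2
  have hsr : 0 < Real.sqrt r := Real.sqrt_pos.2 hr
  have hsr1 : Real.sqrt r < 1 := by
    rw [Real.sqrt_lt' (by norm_num)]
    linarith
  have hk : ∀ k : ℕ, Bd r ((1 - r) ^ 2 / Real.sqrt r ^ k) := by
    intro k
    induction k with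
    | zero => simpa using hstart
    | succ k ih =>
      have := ih.step hr hr1 (by positivity)
      rwa [div_div, ← pow_succ] at this
  have hlim : Tendsto (fun k : ℕ => (1 - r) ^ 2 * (1 / Real.sqrt r) ^ k) atTop atTop := by
    apply Tendsto.const_mul_atTop (by positivity)
    apply tendsto_pow_atTop_atTop_of_one_lt
    rw [lt_div_iff₀ hsr]
    linarith
  obtain ⟨k, hk1⟩ := (hlim.eventually_ge_atTop ρ).exists
  refine (hk k).mono hr hρ (hk1.trans (le_of_eq ?_))
  rw [one_div, inv_pow]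
  rfl

theorem maj_summable {r : ℝ} (hr : 0 < r) (hr1 : r < 1) (ρ : ℝ) (hρ : 0 ≤ ρ) :
    Summable fun n => maj r n * ρ ^ n :=
  (Bd_all hr hr1 (ρ + 1) (by linarith)).summable hr hρ (by linarith)

/-- uniform summability for `q ≤ r < 1` on bounded sets -/
theorem beta_majorant (r : ℝ) (hr : 0 < r) (hr1 : r < 1) :
    ∃ b : ℕ → ℝ, (∀ n, 0 ≤ b n) ∧ (∀ q, 0 < q → q ≤ r → ∀ n, |beta q n| ≤ b n) ∧
      ∀ ρ : ℝ, 0 ≤ ρ → Summable (fun n => b n * ρ ^ n) :=
  ⟨maj r, maj_nonneg r hr, fun q hq hqr n => abs_beta_le r hr1 q hq hqr n,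
    fun ρ hρ => maj_summable hr hr1 ρ hρ⟩

theorem B_zero (q : ℝ) : B q 0 = 1 := by
  unfold B
  rw [tsum_eq_single 0]
  · simp [beta_zero]
  · intro n hn
    simp [hn]

theorem beta_summable_abs (q : ℝ) (hq : 0 < q) (hq1 : q < 1) (E : ℝ) :
    Summable fun n => |beta q n * E ^ n| := by
  refine Summable.of_nonneg_of_le (fun n => abs_nonneg _) (fun n => ?_)
    (maj_summable hq hq1 |E| (abs_nonneg _))
  rw [abs_mul, abs_pow]
  exact mul_le_mul_of_nonneg_right (abs_beta_le q hq1 q hq le_rfl n) (by positivity)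

/-- the derivative -/
theorem B_hasDerivAt (q : ℝ) (hq : 0 < q) (hq1 : q < 1) (E : ℝ) :
    HasDerivAt (B q) (∑' n : ℕ, beta q n * (n * E ^ (n - 1))) E := by
  set R : ℝ := |E| + 1 with hR
  have hR0 : 0 < R := by positivity
  have hu : Summable fun n : ℕ => maj q n * (n * R ^ (n - 1)) := by
    have h1 := maj_summable hq hq1 (2 * R) (by positivity)
    refine Summable.of_nonneg_of_le
      (fun n => mul_nonneg (maj_nonneg q hq n) (by positivity)) (fun n => ?_)
      (h1.mul_left (1 / R))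
    have h2 : (n : ℝ) * R ^ (n - 1) ≤ 1 / R * (2 * R) ^ n := by
      rcases Nat.eq_zero_or_pos n with rfl | hn
      · simp only [CharP.cast_eq_zero, zero_mul]
        positivity
      · obtain ⟨m, rfl⟩ : ∃ m, n = m + 1 := ⟨n - 1, by omega⟩
        have h3 : ((m + 1 : ℕ) : ℝ) ≤ 2 ^ (m + 1) := by
          exact_mod_cast (Nat.lt_two_pow_self (n := m + 1)).le
        rw [mul_pow, Nat.add_sub_cancel, pow_succ R m]
        calc ((m + 1 : ℕ) : ℝ) * R ^ m ≤ 2 ^ (m + 1) * R ^ m := by gcongr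
          _ = 1 / R * (2 ^ (m + 1) * (R ^ m * R)) := by field_simp
    calc maj q n * (n * R ^ (n - 1)) ≤ maj q n * (1 / R * (2 * R) ^ n) :=
          mul_le_mul_of_nonneg_left h2 (maj_nonneg q hq n)
      _ = 1 / R * (maj q n * (2 * R) ^ n) := by ring
  have h := hasDerivAt_tsum_of_isPreconnected (𝕜 := ℝ) (F := ℝ)
    (u := fun n : ℕ => maj q n * (n * R ^ (n - 1)))
    (g := fun n z => beta q n * z ^ n) (g' := fun n z => beta q n * (n * z ^ (n - 1)))
    (t := Metric.ball (0 : ℝ) R) (y₀ := E) (y := E) hu Metric.isOpen_ball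
    (convex_ball _ _).isPreconnected
    (fun n y _ => (hasDerivAt_pow n y).const_mul _)
    (fun n y hy => by
      rw [Metric.mem_ball, dist_zero_right, Real.norm_eq_abs] at hy
      rw [Real.norm_eq_abs, abs_mul, abs_mul, abs_pow, Nat.abs_cast]
      apply mul_le_mul (abs_beta_le q hq1 q hq le_rfl n) _ (by positivity) (maj_nonneg q hq n)
      gcongr)
    (by
      rw [Metric.mem_ball, dist_zero_right, Real.norm_eq_abs]
      linarith)
    (Summable.of_abs (beta_summable_abs q hq hq1 E))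
    (by
      rw [Metric.mem_ball, dist_zero_right, Real.norm_eq_abs]
      linarith)
  exact h

theorem coeff_eq (q : ℝ) (hq : 0 < q) (hq1 : q < 1) (n : ℕ) :
    (1 - q) * n * beta q n =
      ∑ kl ∈ Finset.HasAntidiagonal.antidiagonal n, q ^ kl.1 * (1 - q ^ kl.2) * beta q kl.1 * beta q kl.2 := by
  rw [Finset.Nat.sum_antidiagonal_eq_sum_range_succ
    (fun i j => q ^ i * (1 - q ^ j) * beta q i * beta q j)]
  rcases Nat.lt_or_ge n 2 with h | h
  · interval_cases n
    · simp
    · simp [Finset.sum_range_succ, beta_zero, beta_one]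
  · rw [Finset.sum_range_succ, Nat.sub_self, pow_zero, sub_self]
    have h1 : ∑ i ∈ Finset.range n, q ^ i * (1 - q ^ (n - i)) * beta q i * beta q (n - i) =
        (1 - q ^ n) * beta q n +
        ∑ i ∈ Finset.Ico 1 n, q ^ i * (1 - q ^ (n - i)) * beta q i * beta q (n - i) := by
      rw [Finset.range_eq_Ico, Finset.sum_eq_sum_Ico_succ_bot (by omega)]
      simp [beta_zero]
    rw [h1, ← beta_rec q hq hq1 n h]
    ring

/-- `B q` is differentiable and satisfies the functional equation -/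
theorem B_deriv (q : ℝ) (hq : 0 < q) (hq1 : q < 1) (E : ℝ) :
    ∃ D, HasDerivAt (B q) D E ∧ (1 - q) * (E * D) = B q (q * E) * (B q E - B q (q * E)) := by
  refine ⟨_, B_hasDerivAt q hq hq1 E, ?_⟩
  have hs1 := beta_summable_abs q hq hq1 E
  have hs2 := beta_summable_abs q hq hq1 (q * E)
  have e1 : B q E - B q (q * E) = ∑' n, beta q n * ((1 - q ^ n) * E ^ n) := by
    unfold B
    rw [← (Summable.of_abs hs1).tsum_sub (Summable.of_abs hs2)]
    refine tsum_congr fun n => ?_
    rw [mul_pow]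
    ring
  have hs3 : Summable fun n => ‖beta q n * ((1 - q ^ n) * E ^ n)‖ := by
    refine Summable.of_nonneg_of_le (fun n => norm_nonneg _) (fun n => ?_) hs1
    rw [Real.norm_eq_abs, abs_mul, abs_mul, abs_mul]
    have h5 : q ^ n ≤ 1 := pow_le_one₀ hq.le hq1.le
    have h6 : 0 ≤ q ^ n := by positivity
    have h4 : |1 - q ^ n| ≤ 1 := by
      rw [abs_le]
      constructor <;> linarith
    have h7 := abs_nonneg (beta q n)
    have h8 := abs_nonneg (E ^ n)
    calc |beta q n| * (|1 - q ^ n| * |E ^ n|) ≤ |beta q n| * (1 * |E ^ n|) := by gcongr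
      _ = |beta q n| * |E ^ n| := by ring
  have e2 : B q (q * E) = ∑' n, beta q n * (q * E) ^ n := rfl
  rw [e1, e2, tsum_mul_tsum_eq_tsum_sum_antidiagonal_of_summable_norm hs2 hs3,
    ← mul_assoc, ← tsum_mul_left]
  refine tsum_congr fun n => ?_
  have h1 : (1 - q) * E * (beta q n * (n * E ^ (n - 1))) = (1 - q) * n * beta q n * E ^ n := by
    rcases Nat.eq_zero_or_pos n with rfl | hn
    · simp
    · obtain ⟨m, rfl⟩ : ∃ m, n = m + 1 := ⟨n - 1, by omega⟩
      rw [Nat.add_sub_cancel, pow_succ E m]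
      ring
  rw [h1, coeff_eq q hq hq1 n, Finset.sum_mul]
  refine Finset.sum_congr rfl fun kl hkl => ?_
  rw [Finset.HasAntidiagonal.mem_antidiagonal] at hkl
  rw [← hkl, pow_add, mul_pow]
  ring

theorem B_deriv_zero (q : ℝ) (hq : 0 < q) (hq1 : q < 1) : HasDerivAt (B q) (-1) 0 := by
  have h := B_hasDerivAt q hq hq1 0
  have e : ∑' n : ℕ, beta q n * (n * (0 : ℝ) ^ (n - 1)) = -1 := by
    rw [tsum_eq_single 1]
    · simp [beta_one]
    · intro n hn
      rcases Nat.eq_zero_or_pos n with rfl | hn0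
      · simp
      · have : n - 1 ≠ 0 := by omega
        simp [this]
  rwa [e] at h

theorem beta_cont (n : ℕ) : ContinuousOn (fun q => beta q n) (Ioo 0 1) := by
  induction n using Nat.strong_induction_on with
  | _ n ih =>
    match n with
    | 0 => simp only [beta_zero]; exact continuousOn_const
    | 1 => simp only [beta_one]; exact continuousOn_const
    | (n + 2) =>
      simp only [beta_succ_succ]
      apply ContinuousOn.div
      · refine continuousOn_finsetSum _ fun i hi => ?_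
        rw [Finset.mem_range] at hi
        apply ContinuousOn.mul
        · apply ContinuousOn.mul
          · fun_prop
          · exact ih (i + 1) (by omega)
        · exact ih (n + 1 - i) (by omega)
      · fun_prop
      · intro q hq
        exact (den_pos q hq.1 hq.2 n).ne'

/-- joint continuity -/
theorem B_cont : ContinuousOn (fun p : ℝ × ℝ => B p.1 p.2) (Ioo 0 1 ×ˢ univ) := by
  have key : ∀ r R : ℝ, 0 < r → r < 1 → 0 < R →
      ContinuousOn (fun p : ℝ × ℝ => B p.1 p.2) (Ioo 0 r ×ˢ Ioo (-R) R) := by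
    intro r R hr hr1 hR
    unfold B
    refine continuousOn_tsum (u := fun n => maj r n * R ^ n) (fun n => ?_)
      (maj_summable hr hr1 R hR.le) (fun n p hp => ?_)
    · apply ContinuousOn.mul
      · refine (beta_cont n).comp continuousOn_fst fun p hp => ?_
        exact ⟨hp.1.1, hp.1.2.trans hr1⟩
      · fun_prop
    · rw [Real.norm_eq_abs, abs_mul, abs_pow]
      apply mul_le_mul (abs_beta_le r hr1 p.1 hp.1.1 hp.1.2.le n) _ (by positivity)
        (maj_nonneg r hr n)
      apply pow_le_pow_left₀ (abs_nonneg _)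
      rw [abs_le]
      exact ⟨hp.2.1.le, hp.2.2.le⟩
  intro p hp
  have h1 : 0 < p.1 := hp.1.1
  have h2 : p.1 < 1 := hp.1.2
  have h3 := key ((1 + p.1) / 2) (|p.2| + 1) (by linarith) (by linarith) (by positivity)
  have hmem : p ∈ Ioo (0 : ℝ) ((1 + p.1) / 2) ×ˢ Ioo (-(|p.2| + 1)) (|p.2| + 1) := by
    refine ⟨⟨h1, by linarith⟩, ?_, ?_⟩
    · have := neg_abs_le p.2
      linarith
    · have := le_abs_self p.2
      linarith
  have hopen : IsOpen (Ioo (0 : ℝ) ((1 + p.1) / 2) ×ˢ Ioo (-(|p.2| + 1)) (|p.2| + 1)) :=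
    isOpen_Ioo.prod isOpen_Ioo
  exact (h3.continuousAt (hopen.mem_nhds hmem)).continuousWithinAt

end Pool.Agent.Counters
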